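import Mathlib

/-!
# Rational periodic points and places of bad reduction of a Henon map
-/

namespace Pool.Agent.H.MP_0e6b5f_nt

open Polynomial NumberField

/-- The periodic points with coordinates in `K` of the Henon map
`(x, y) ↦ (y, F(y) - δ x)`. -/
def perRat {K : Type*} [Field K] (F : K[X]) (δ : K) : Set (K × K) :=
  {P | ∃ n : ℕ, 1 ≤ n ∧ (fun Q : K × K => (Q.2, F.eval Q.2 - δ * Q.1))^[n] P = P}

/-- Two fixed points `(x, x)` and `(y, y)` of the Henon map of `F` and `δ`, with coordinates in `L`,
are far apart for the absolute value `w`: with `a` the leading coefficient and `d` the degree of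
`F`, `|a| |x - y| ^ (d - 1) > max(1, |δ|)`. -/
def FixedPointsFar {L : Type*} [Field L] (w : AbsoluteValue L ℝ) (F : L[X]) (δ : L) : Prop :=
  ∃ x y : L, F.eval x - δ * x = x ∧ F.eval y - δ * y = y ∧
    max 1 (w δ) < w F.leadingCoeff * w (x - y) ^ (F.natDegree - 1)

/-- The finite places `v` of `K` of bad reduction: there are a finite extension `L` of `K` and a
place `w` of `L` above `v` at which two fixed points with coordinates in `L` are far apart. -/
def badPlaces {K : Type*} [Field K] [NumberField K] (F : K[X]) (δ : K) : Set (FinitePlace K) :=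
  {v | ∃ (L : IntermediateField K (AlgebraicClosure K)) (_ : NumberField L) (w : FinitePlace L)
    (k : ℕ), 1 ≤ k ∧ (∀ a : K, w (algebraMap K L a) = v a ^ k) ∧
      FixedPointsFar w.val (F.map (algebraMap K L)) (algebraMap K L δ)}

end Pool.Agent.H.MP_0e6b5f_nt
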