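import Pool.Agent.H.MP_0e6b5f_nt.Local

/-!
# At most `d ^ m` solutions of `f^[m] P = P`
-/

namespace Pool.Agent.H.MP_0e6b5f_nt

open Polynomial Function Module

section Count

variable {𝕂 : Type*} [Field 𝕂] (F : 𝕂[X]) (δ : 𝕂) (m : ℕ) [NeZero m]

/-- the coordinate functions on the set of `m`-periodic points -/
noncomputable def xs (S : Finset (𝕂 × 𝕂)) (i : ZMod m) (P : S) : 𝕂 :=
  ((hm F δ)^[i.val] P.1).1

variable {F δ m}

theorem xs_rel {S : Finset (𝕂 × 𝕂)} (hS : ∀ P ∈ S, (hm F δ)^[m] P = P) (i : ZMod m) (P : S) :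
    F.eval (xs F δ m S i P) = xs F δ m S (i + 1) P + δ * xs F δ m S (i - 1) P := by
  have hper : ∀ k, ((hm F δ)^[k + m] P.1).1 = ((hm F δ)^[k] P.1).1 := fun k => by
    rw [hm_periodic (hS P.1 P.2)]
  have hmod : ∀ k, ((hm F δ)^[k % m] P.1).1 = ((hm F δ)^[k] P.1).1 := by
    intro k
    conv_rhs => rw [← Nat.mod_add_div k m]
    generalize k / m = j
    induction j with
    | zero => simp
    | succ j ih => rw [Nat.mul_succ, ← add_assoc, hper, ← ih]
  have hcast : ∀ k : ℕ, xs F δ m S (k : ZMod m) P = ((hm F δ)^[k] P.1).1 := by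
    intro k
    rw [xs, ZMod.val_natCast, hmod]
  set k := (i - 1).val with hk
  have hk1 : ((k : ℕ) : ZMod m) = i - 1 := ZMod.natCast_zmod_val _
  have hk2 : ((k + 1 : ℕ) : ZMod m) = i := by push_cast; rw [hk1]; ring
  have hk3 : ((k + 2 : ℕ) : ZMod m) = i + 1 := by push_cast; rw [hk1]; ring
  rw [← hk3, ← hk1, ← hk2, hcast, hcast, hcast, hm_rec]
  ring

variable (F δ m)

/-- monomial functions -/
noncomputable def mon (S : Finset (𝕂 × 𝕂)) (e : ZMod m → ℕ) : S → 𝕂 :=
  fun P => ∏ i, (xs F δ m S i P) ^ (e i)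

variable {F δ m}

theorem mon_add_single (S : Finset (𝕂 × 𝕂)) (e : ZMod m → ℕ) (j : ZMod m) (c : ℕ) (P : S) :
    mon F δ m S (e + Pi.single j c) P = mon F δ m S e P * (xs F δ m S j P) ^ c := by
  classical
  simp only [mon, Pi.add_apply, pow_add, Finset.prod_mul_distrib]
  congr 1
  rw [Finset.prod_eq_single j]
  · simp
  · intro b _ hb
    simp [Pi.single_eq_of_ne hb]
  · intro h; exact absurd (Finset.mem_univ j) h

theorem mon_mem_span {d : ℕ} (hd : 2 ≤ d) (hF : F.natDegree = d) {S : Finset (𝕂 × 𝕂)}
    (hS : ∀ P ∈ S, (hm F δ)^[m] P = P) (n : ℕ) :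
    ∀ e : ZMod m → ℕ, ∑ i, e i = n → mon F δ m S e ∈
      Submodule.span 𝕂 (Set.range (fun e : ZMod m → Fin d =>
        mon F δ m S (fun i => (e i : ℕ)))) := by
  classical
  induction n using Nat.strong_induction_on with
  | _ n ih =>
    intro e he
    set W := Submodule.span 𝕂 (Set.range (fun e : ZMod m → Fin d =>
        mon F δ m S (fun i => (e i : ℕ)))) with hW
    by_cases hsmall : ∀ i, e i < d
    · exact Submodule.subset_span ⟨fun i => ⟨e i, hsmall i⟩, rfl⟩
    · push Not at hsmall
      obtain ⟨i, hi⟩ := hsmall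
      set e' : ZMod m → ℕ := e - Pi.single i d with he'
      have hee' : e = e' + Pi.single i d := by
        funext j
        simp only [he', Pi.add_apply, Pi.sub_apply]
        by_cases hj : j = i
        · subst hj; simp only [Pi.single_eq_same]; omega
        · simp [Pi.single_eq_of_ne hj]
      have hsum : ∀ (j : ZMod m) (c : ℕ), ∑ k, (e' + Pi.single j c : ZMod m → ℕ) k = ∑ k, e' k + c := by
        intro j c
        simp only [Pi.add_apply, Finset.sum_add_distrib]
        congr 1
        rw [Finset.sum_eq_single j]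
        · simp
        · intro b _ hb; simp [Pi.single_eq_of_ne hb]
        · intro h; exact absurd (Finset.mem_univ j) h
      have hn' : ∑ k, e' k + d = n := by rw [← he, hee', hsum]
      have hlc : F.leadingCoeff ≠ 0 := by
        rw [Ne, leadingCoeff_eq_zero]
        intro h; rw [h, natDegree_zero] at hF; omega
      -- the reduction formula
      have hred : mon F δ m S e = F.leadingCoeff⁻¹ • (mon F δ m S (e' + Pi.single (i + 1) 1) +
          δ • mon F δ m S (e' + Pi.single (i - 1) 1) -
          ∑ j ∈ Finset.range d, F.coeff j • mon F δ m S (e' + Pi.single i j)) := by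
        funext P
        have hrel := xs_rel hS i P
        rw [eval_eq_sum_range, hF, Finset.sum_range_succ] at hrel
        have hlc' : F.coeff d = F.leadingCoeff := by rw [leadingCoeff, hF]
        rw [hlc'] at hrel
        simp only [Pi.smul_apply, Pi.sub_apply, Pi.add_apply, Finset.sum_apply, smul_eq_mul]
        conv_lhs => rw [hee']
        rw [mon_add_single, mon_add_single, mon_add_single]
        simp only [mon_add_single, pow_one]
        rw [eq_inv_mul_iff_mul_eq₀ hlc]
        have e1 : ∑ x ∈ Finset.range d, F.coeff x * (mon F δ m S e' P * xs F δ m S i P ^ x) =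
            mon F δ m S e' P * ∑ x ∈ Finset.range d, F.coeff x * xs F δ m S i P ^ x := by
          rw [Finset.mul_sum]
          refine Finset.sum_congr rfl fun x _ => ?_
          ring
        rw [e1]
        linear_combination (mon F δ m S e' P) * hrel
      rw [hred]
      refine Submodule.smul_mem _ _ (Submodule.sub_mem _ (Submodule.add_mem _ ?_ ?_) ?_)
      · exact ih (∑ k, e' k + 1) (by omega) _ (hsum _ _)
      · exact Submodule.smul_mem _ _ (ih (∑ k, e' k + 1) (by omega) _ (hsum _ _))
      · refine Submodule.sum_mem _ fun j hj => Submodule.smul_mem _ _ ?_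
        have := Finset.mem_range.mp hj
        exact ih (∑ k, e' k + j) (by omega) _ (hsum _ _)

theorem card_fixed_le {d : ℕ} (hd : 2 ≤ d) (hF : F.natDegree = d) {S : Finset (𝕂 × 𝕂)}
    (hS : ∀ P ∈ S, (hm F δ)^[m] P = P) : S.card ≤ d ^ m := by
  classical
  set W := Submodule.span 𝕂 (Set.range (fun e : ZMod m → Fin d =>
        mon F δ m S (fun i => (e i : ℕ)))) with hW
  have hmon : ∀ e, mon F δ m S e ∈ W := fun e => mon_mem_span hd hF hS _ e rfl
  -- `W` is stable under multiplication by coordinates
  have hspan : W = Submodule.span 𝕂 (Set.range (mon F δ m S)) := by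
    apply le_antisymm
    · apply Submodule.span_mono
      rintro _ ⟨e, rfl⟩
      exact ⟨_, rfl⟩
    · rw [Submodule.span_le]
      rintro _ ⟨e, rfl⟩
      exact hmon e
  have hmulx : ∀ (j : ZMod m) (g : S → 𝕂), g ∈ W → (fun P => g P * xs F δ m S j P) ∈ W := by
    intro j g hg
    have hg' : g ∈ Submodule.span 𝕂 (Set.range (mon F δ m S)) := hspan ▸ hg
    refine Submodule.span_induction (p := fun g _ => (fun P => g P * xs F δ m S j P) ∈ W)
      ?_ ?_ ?_ ?_ hg'
    · rintro _ ⟨e, rfl⟩
      have : (fun P => mon F δ m S e P * xs F δ m S j P) = mon F δ m S (e + Pi.single j 1) := by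
        funext P; rw [mon_add_single, pow_one]
      rw [this]; exact hmon _
    · have : (fun P : S => (0 : S → 𝕂) P * xs F δ m S j P) = 0 := by funext P; simp
      rw [this]; exact W.zero_mem
    · intro a b _ _ ha hb
      have : (fun P : S => (a + b) P * xs F δ m S j P) =
          (fun P => a P * xs F δ m S j P) + (fun P => b P * xs F δ m S j P) := by
        funext P; simp [add_mul]
      rw [this]; exact W.add_mem ha hb
    · intro c a _ ha
      have : (fun P : S => (c • a) P * xs F δ m S j P) =
          c • (fun P => a P * xs F δ m S j P) := by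
        funext P; simp [mul_assoc]
      rw [this]; exact W.smul_mem c ha
  have hmulaff : ∀ (j : ZMod m) (c : 𝕂) (g : S → 𝕂), g ∈ W →
      (fun P => g P * (xs F δ m S j P - c)) ∈ W := by
    intro j c g hg
    have : (fun P => g P * (xs F δ m S j P - c)) =
        (fun P => g P * xs F δ m S j P) - c • g := by
      funext P; simp only [Pi.sub_apply, Pi.smul_apply, smul_eq_mul]; ring
    rw [this]
    exact W.sub_mem (hmulx j g hg) (W.smul_mem c hg)
  have hone : (fun _ => 1 : S → 𝕂) ∈ W := by
    have : (fun _ => 1 : S → 𝕂) = mon F δ m S 0 := by funext P; simp [mon]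
    rw [this]; exact hmon 0
  -- the coordinates `xs 0`, `xs 1` separate points
  have hx0 : ∀ P : S, xs F δ m S (0 : ZMod m) P = P.1.1 := by
    intro P; simp [xs]
  have hx1 : ∀ P : S, xs F δ m S (1 : ZMod m) P = P.1.2 := by
    intro P
    have hm1 : (1 : ZMod m).val = 1 % m := by
      have := ZMod.val_natCast (n := m) 1
      simpa using this
    rw [xs, hm1]
    rcases Nat.lt_or_ge 1 m with h | h
    · rw [Nat.mod_eq_of_lt h]; simp [hm]
    · have hm0 : m = 1 := by have := NeZero.pos m; omega
      have hfix := hS P.1 P.2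
      subst hm0
      simp only [Nat.mod_self, iterate_zero, id_eq]
      rw [iterate_one] at hfix
      have h1 := congrArg Prod.fst hfix
      simpa [hm] using h1.symm
  have hsep : ∀ P Q : S, P ≠ Q → ∃ (j : ZMod m), xs F δ m S j P ≠ xs F δ m S j Q := by
    intro P Q hPQ
    by_contra hcon
    push Not at hcon
    apply hPQ
    apply Subtype.ext
    apply Prod.ext
    · rw [← hx0, ← hx0]; exact hcon 0
    · rw [← hx1, ← hx1]; exact hcon 1
  -- indicator functions belong to `W`
  have hind : ∀ P : S, (Pi.single P (1 : 𝕂) : S → 𝕂) ∈ W := by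
    intro P
    have hprod : ∀ T : Finset S, P ∉ T → ∃ g ∈ W, g P ≠ 0 ∧ ∀ Q ∈ T, g Q = 0 := by
      intro T
      induction T using Finset.induction_on with
      | empty => intro _; exact ⟨fun _ => 1, hone, one_ne_zero, fun Q hQ => by simp at hQ⟩
      | insert Q T hQT ihT =>
        intro hP
        have hPQ : P ≠ Q := fun h => hP (h ▸ Finset.mem_insert_self _ _)
        have hPT : P ∉ T := fun h => hP (Finset.mem_insert_of_mem h)
        obtain ⟨g, hgW, hgP, hgT⟩ := ihT hPT
        obtain ⟨j, hj⟩ := hsep P Q hPQ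
        refine ⟨fun R => g R * (xs F δ m S j R - xs F δ m S j Q), hmulaff j _ g hgW,
          mul_ne_zero hgP (sub_ne_zero.mpr hj), ?_⟩
        intro R hR
        rcases Finset.mem_insert.mp hR with h | h
        · rw [h]; simp
        · simp only; rw [hgT R h, zero_mul]
    obtain ⟨g, hgW, hgP, hgT⟩ := hprod (Finset.univ.erase P) (Finset.notMem_erase P _)
    have : (Pi.single P (1 : 𝕂) : S → 𝕂) = (g P)⁻¹ • g := by
      funext Q
      by_cases hQ : Q = P
      · subst hQ; simp [inv_mul_cancel₀ hgP]
      · rw [Pi.single_eq_of_ne hQ, Pi.smul_apply,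
          hgT Q (Finset.mem_erase.mpr ⟨hQ, Finset.mem_univ _⟩), smul_zero]
    rw [this]
    exact W.smul_mem _ hgW
  have htop : W = ⊤ := by
    rw [eq_top_iff]
    intro g _
    have : g = ∑ P : S, g P • (Pi.single P (1 : 𝕂) : S → 𝕂) := by
      funext Q
      simp [Finset.sum_apply, Pi.single_apply]
    rw [this]
    exact Submodule.sum_mem _ fun P _ => Submodule.smul_mem _ _ (hind P)
  have h1 : finrank 𝕂 (S → 𝕂) = S.card := by
    rw [Module.finrank_fintype_fun_eq_card, Fintype.card_coe]
  have h2 : finrank 𝕂 W ≤ Fintype.card (ZMod m → Fin d) := finrank_range_le_card _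
  rw [htop, finrank_top, h1, Fintype.card_fun, ZMod.card, Fintype.card_fin] at h2
  exact h2

theorem encard_fixed_le {d : ℕ} (hd : 2 ≤ d) (hF : F.natDegree = d) {T : Set (𝕂 × 𝕂)}
    (hT : ∀ P ∈ T, (hm F δ)^[m] P = P) : T.encard ≤ (d ^ m : ℕ) := by
  classical
  by_contra hcon
  push Not at hcon
  obtain ⟨S, hST, hcard⟩ := Set.exists_subset_encard_eq (s := T) (k := ((d ^ m + 1 : ℕ) : ℕ∞))
    (by
      have : ((d ^ m + 1 : ℕ) : ℕ∞) = ((d ^ m : ℕ) : ℕ∞) + 1 := by push_cast; rfl
      rw [this]
      exact Order.add_one_le_of_lt hcon)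
  have hfin : S.Finite := Set.finite_of_encard_eq_coe hcard
  have h1 := card_fixed_le (F := F) (δ := δ) (m := m) hd hF (S := hfin.toFinset) (by
    intro P hP
    exact hT P (hST (by simpa using hP)))
  have h2 : (hfin.toFinset.card : ℕ∞) = S.encard := by
    rw [← Set.encard_coe_eq_coe_finsetCard]; simp
  rw [hcard] at h2
  have h3 : hfin.toFinset.card = d ^ m + 1 := by exact_mod_cast h2
  omega

end Count

end Pool.Agent.H.MP_0e6b5f_nt
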