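import Mathlib

/-!
# Generalized Henon maps over a field and their periodic points of bounded degree
-/

namespace Pool.Agent.H.MP_0e6b5f_nt

open Polynomial Module

/-- The generalized Henon map `f(x, y) = (y, F(y) - δ x)` on the affine plane over the algebraic
closure of `K`. -/
noncomputable def henon {K : Type*} [Field K] (F : K[X]) (δ : K)
    (P : AlgebraicClosure K × AlgebraicClosure K) : AlgebraicClosure K × AlgebraicClosure K :=
  (P.2, aeval P.2 F - algebraMap K (AlgebraicClosure K) δ * P.1)

/-- The set of periodic points `P` of the Henon map `henon F δ` with `[K(P) : K] ≤ B`. -/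
def perLE {K : Type*} [Field K] (F : K[X]) (δ : K) (B : ℕ) :
    Set (AlgebraicClosure K × AlgebraicClosure K) :=
  {P | (∃ n : ℕ, 1 ≤ n ∧ (henon F δ)^[n] P = P) ∧
    finrank K (IntermediateField.adjoin K ({P.1, P.2} : Set (AlgebraicClosure K))) ≤ B}

end Pool.Agent.H.MP_0e6b5f_nt
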