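import Pool.Agent.H.MP_0e6b5f_nt.DefsBad

/-!
# Distances of the fixed points of a Henon map from the rational points
-/

namespace Pool.Agent.H.MP_0e6b5f_nt

open Polynomial NumberField

variable {L : Type*} [Field L] {d : ℕ}

/-- The normalised size `|a| |z| ^ (d - 1) / max(1, |δ|)` of `z`. -/
noncomputable def normSize (w : AbsoluteValue L ℝ) (a δ : L) (d : ℕ) (z : L) : ℝ :=
  w a * w z ^ (d - 1) / max 1 (w δ)

/-- The normalised diameter of the set of the `ζ i`. -/
noncomputable def fixDiam (w : AbsoluteValue L ℝ) (a δ : L) (ζ : Fin d → L) : ℝ :=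
  ⨆ p : Fin d × Fin d, normSize w a δ d (ζ p.1 - ζ p.2)

/-- The normalised distance of `z` from the elements of `K`. -/
noncomputable def ratDist (K : Type*) [Field K] [Algebra K L] (w : AbsoluteValue L ℝ) (a δ : L)
    (d : ℕ) (z : L) : ℝ :=
  ⨅ x : K, normSize w a δ d (algebraMap K L x - z)

/-- The `K`-rational defect at `w`: with `R` the normalised diameter of the set of the `ζ i` and
`D i` the normalised distance of `ζ i` from `K`, this is
`max(0, ∑ max(0, log (D i)) - max(0, log R))`. -/
noncomputable def ratDefect (K : Type*) [Field K] [Algebra K L] (w : AbsoluteValue L ℝ) (a δ : L)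
    (ζ : Fin d → L) : ℝ :=
  max 0 (∑ i, max 0 (Real.log (ratDist K w a δ d (ζ i))) - max 0 (Real.log (fixDiam w a δ ζ)))

/-- The height `h(1 : a (ζ i - ζ j) ^ (d - 1)) + h(δ)` over `L`. -/
noncomputable def fixHeight [NumberField L] (a δ : L) (ζ : Fin d → L) : ℝ :=
  Height.logHeight (fun o : Option (Fin d × Fin d) =>
    o.elim 1 (fun p => a * (ζ p.1 - ζ p.2) ^ (d - 1))) + Height.logHeight₁ δ

/-- The places at which the diameter `R` of the set of the `ζ i` counts: finite places with `1 < R`,
infinite places with `R₀ ≤ R`, and places above a real place of `K` with `0 < R ≤ 1 / R₀`, if `d` is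
even or `a (1 + δ)` is not negative at that real place. -/
def GoodPlace {K L : Type*} [Field K] [Field L] [NumberField L] [Algebra K L] {d : ℕ} (R₀ : ℝ)
    (w : AbsoluteValue L ℝ) (a δ : K) (ζ : Fin d → L) : Prop :=
  (IsFinitePlace w ∧ 1 < fixDiam w (algebraMap K L a) (algebraMap K L δ) ζ) ∨
    (IsInfinitePlace w ∧ R₀ ≤ fixDiam w (algebraMap K L a) (algebraMap K L δ) ζ) ∨
    (IsInfinitePlace w ∧
      (∃ τ : K →+* ℝ, (∀ x : K, w (algebraMap K L x) = |τ x|) ∧
        (Even d ∨ 0 ≤ τ a * (1 + τ δ))) ∧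
      0 < fixDiam w (algebraMap K L a) (algebraMap K L δ) ζ ∧
      R₀ * fixDiam w (algebraMap K L a) (algebraMap K L δ) ζ ≤ 1)

/-- The quantity `Y = 1 + ([L : ℚ] + h) / (|log R| + ∑ defects)`, where `R` is the diameter at `w`
and the sum is over the finite places in `T`. -/
noncomputable def defectRatio {K L : Type*} [Field K] [Field L] [NumberField L] [Algebra K L]
    {d : ℕ} (w : AbsoluteValue L ℝ) (T : Finset (FinitePlace L)) (a δ : K) (ζ : Fin d → L) : ℝ :=
  1 + (Module.finrank ℚ L + fixHeight (algebraMap K L a) (algebraMap K L δ) ζ) /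
    (|Real.log (fixDiam w (algebraMap K L a) (algebraMap K L δ) ζ)| +
      ∑ v ∈ T, ratDefect K v.val (algebraMap K L a) (algebraMap K L δ) ζ)

end Pool.Agent.H.MP_0e6b5f_nt
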