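import Pool.Agent.H.MP_0e6b5f_nt.Defs

/-!
# The generalized Henon map over `ℚ` attached to an integer vector
-/

namespace Pool.Agent.H.MP_0e6b5f_nt

open Polynomial

/-- the `i`-th entry of the vector `c` (and `0` beyond its length) -/
def co {n : ℕ} (c : Fin n → ℤ) (i : ℕ) : ℤ := if h : i < n then c ⟨i, h⟩ else 0

/-- `F_c(y) = (c_0 + c_1 y + ... + c_d y^d) / c_{d+2}` -/
noncomputable def polyOf (d : ℕ) (c : Fin (d + 3) → ℤ) : ℚ[X] :=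
  ∑ i ∈ Finset.range (d + 1), C ((co c i : ℚ) / (co c (d + 2) : ℚ)) * X ^ i

/-- `δ_c = c_{d+1} / c_{d+2}` -/
noncomputable def jacOf (d : ℕ) (c : Fin (d + 3) → ℤ) : ℚ :=
  (co c (d + 1) : ℚ) / (co c (d + 2) : ℚ)

/-- the integer vectors `c` with entries at most `H` in absolute value and
`c_d c_{d+1} c_{d+2} ≠ 0` whose Henon map `(x, y) ↦ (y, F_c(y) - δ_c x)` has a periodic point `P`
with `[ℚ(P) : ℚ] ≤ B` -/
def withPer (d B H : ℕ) : Set (Fin (d + 3) → ℤ) :=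
  {c | (∀ i, |c i| ≤ (H : ℤ)) ∧ co c d ≠ 0 ∧ co c (d + 1) ≠ 0 ∧ co c (d + 2) ≠ 0 ∧
    (perLE (polyOf d c) (jacOf d c) B).Nonempty}

end Pool.Agent.H.MP_0e6b5f_nt
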