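import Mathlib

/-!
# The coefficient inequalities at one place
-/

namespace Pool.Agent.H.MP_0e6b5f_nt

open Polynomial

/-- With `a` the leading coefficient of `F`, `d` its degree and `M = max(1, |δ|)`: all coefficients
`G_i`, `1 ≤ i < d`, of `G = F(X + b)` satisfy `|G_i|^(d-1) ≤ |a|^(i-1) M^(d-i)`. -/
def CoeffSmall {E : Type*} [Field E] (W : ValuationSubring E) (F : E[X]) (δ b : E) : Prop :=
  ∀ i, 1 ≤ i → i < F.natDegree →
    W.valuation ((F.comp (X + C b)).coeff i) ^ (F.natDegree - 1) ≤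
      W.valuation F.leadingCoeff ^ (i - 1) * (max 1 (W.valuation δ)) ^ (F.natDegree - i)

/-- With the same notation: `|F(b) - (1 + δ) b|^(d-1) |a| ≤ M^d`. -/
def ConstSmall {E : Type*} [Field E] (W : ValuationSubring E) (F : E[X]) (δ b : E) : Prop :=
  W.valuation (F.eval b - (1 + δ) * b) ^ (F.natDegree - 1) * W.valuation F.leadingCoeff ≤
    (max 1 (W.valuation δ)) ^ F.natDegree

end Pool.Agent.H.MP_0e6b5f_nt
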