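import Pool.Agent.H.MP_0e6b5f_nt.Dom.Defs

/-!
# The normalised diameter of the set of fixed points at a place
-/

namespace Pool.Agent.H.MP_0e6b5f_nt

/-- The normalised diameter `max |c (ζ i - ζ j)| ^ (d - 1) / max(1, |δ|)` of the set of fixed points
for an absolute value. -/
noncomputable def normalDiam {K : Type*} [Field K] {d : ℕ} (w : AbsoluteValue K ℝ) (c δ : K)
    (ζ : Fin d → K) : ℝ :=
  fixedPointDiam w c ζ ^ (d - 1) / max 1 (w δ)

/-- The quantity `Y = 1 + [L : K] ([K : ℚ] + h) / log R`, where `h` is the height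
`fixedPointHeight c δ ζ` and `R` is the normalised diameter at `w`. -/
noncomputable def normalRatio {K : Type*} [Field K] [NumberField K] {d : ℕ}
    (w : AbsoluteValue K ℝ) (c δ : K) (ζ : Fin d → K)
    (L : IntermediateField K (AlgebraicClosure K)) : ℝ :=
  1 + Module.finrank K L * (Module.finrank ℚ K + fixedPointHeight c δ ζ) /
    Real.log (normalDiam w c δ ζ)

end Pool.Agent.H.MP_0e6b5f_nt
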