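import Mathlib

/-!
# Polynomials of Schur type
-/

namespace Pool.Agent.H.MP_0e6b5f_nt

open Polynomial

/-- The class of polynomials over `K` obtained by composition from affine polynomials, powers
`X ^ m` all of whose prime factors of `m` exceed `N + 1`, and Dickson polynomials `D_m(X, α)`,
`α ∈ K`, all of whose prime factors of `m` exceed `2 N + 1`. -/
inductive SchurType (K : Type*) [Field K] (N : ℕ) : K[X] → Prop
  | affine (a b : K) (ha : a ≠ 0) : SchurType K N (C a * X + C b)
  | power (m : ℕ) (hm : 0 < m) (h : ∀ l : ℕ, l.Prime → l ∣ m → N + 1 < l) :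
      SchurType K N (X ^ m)
  | dickson (m : ℕ) (α : K) (hm : 0 < m) (h : ∀ l : ℕ, l.Prime → l ∣ m → 2 * N + 1 < l) :
      SchurType K N (Polynomial.dickson 1 α m)
  | comp (F G : K[X]) (hF : SchurType K N F) (hG : SchurType K N G) : SchurType K N (F.comp G)

end Pool.Agent.H.MP_0e6b5f_nt
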