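import Pool.Agent.H.MP_0e6b5f_nt.DefsBad

/-!
# Places of bad reduction at which the fixed points are close to rational points
-/

namespace Pool.Agent.H.MP_0e6b5f_nt

open Polynomial NumberField

/-- The point `ζ i` is closer to some element of `K` than the diameter of the set of the `ζ i`. -/
def NearRational (K : Type*) {L : Type*} [Field K] [Field L] [Algebra K L] {d : ℕ}
    (w : AbsoluteValue L ℝ) (ζ : Fin d → L) (i : Fin d) : Prop :=
  ∃ (x : K) (k l : Fin d), w (algebraMap K L x - ζ i) < w (ζ k - ζ l)

/-- The finite places `v` of `K` of bad reduction which are split: there are a finite extension `L`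
of `K` which contains the roots `ζ i` of `F - (1 + δ) X` (the fixed points are the `(ζ i, ζ i)`),
and a place `w` of `L` above `v` at which two fixed points are far apart and all the `ζ i` with at
most one exception are closer to `K` than the diameter of the set of the `ζ i`. -/
def splitPlaces {K : Type*} [Field K] [NumberField K] (d : ℕ) (F : K[X]) (δ : K) :
    Set (FinitePlace K) :=
  {v | ∃ (L : IntermediateField K (AlgebraicClosure K)) (_ : NumberField L) (w : FinitePlace L)
    (k : ℕ) (ζ : Fin d → L), 1 ≤ k ∧ (∀ a : K, w (algebraMap K L a) = v a ^ k) ∧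
      F.map (algebraMap K L) = C (1 + algebraMap K L δ) * X +
        C (algebraMap K L F.leadingCoeff) * ∏ i, (X - C (ζ i)) ∧
      FixedPointsFar w.val (F.map (algebraMap K L)) (algebraMap K L δ) ∧
      ∀ i j, i ≠ j → NearRational K w.val ζ i ∨ NearRational K w.val ζ j}

end Pool.Agent.H.MP_0e6b5f_nt
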