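import Pool.Agent.H.MP_0e6b5f_nt.DefsDefect

/-!
# Places of bad reduction with small defect
-/

namespace Pool.Agent.H.MP_0e6b5f_nt

open Polynomial NumberField

/-- The finite places `v` of `K` of bad reduction which are `κ`-tight: there are a finite extension
`L` of `K` which contains the roots `ζ i` of `F - (1 + δ) X` (the fixed points are the
`(ζ i, ζ i)`), and a place `w` of `L` above `v` at which the normalised diameter `R` of the set of
the `ζ i` is larger than `1` and the `K`-rational defect is less than `κ log R`. -/
def tightPlaces {K : Type*} [Field K] [NumberField K] (κ : ℝ) (d : ℕ) (F : K[X]) (δ : K) :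
    Set (FinitePlace K) :=
  {v | ∃ (L : IntermediateField K (AlgebraicClosure K)) (_ : NumberField L) (w : FinitePlace L)
    (k : ℕ) (ζ : Fin d → L), 1 ≤ k ∧ (∀ a : K, w (algebraMap K L a) = v a ^ k) ∧
      F.map (algebraMap K L) = C (1 + algebraMap K L δ) * X +
        C (algebraMap K L F.leadingCoeff) * ∏ i, (X - C (ζ i)) ∧
      1 < fixDiam w.val (algebraMap K L F.leadingCoeff) (algebraMap K L δ) ζ ∧
      ratDefect K w.val (algebraMap K L F.leadingCoeff) (algebraMap K L δ) ζ <
        κ * Real.log (fixDiam w.val (algebraMap K L F.leadingCoeff) (algebraMap K L δ) ζ)}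

end Pool.Agent.H.MP_0e6b5f_nt
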