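import Pool.Agent.H.MP_0e6b5f_nt.DefsTight
import Pool.Agent.H.MP_0e6b5f_nt.Dom.Defs

/-!
# Tight places of bad reduction of extensions of bounded degree
-/

namespace Pool.Agent.H.MP_0e6b5f_nt

open Polynomial NumberField Module

/-- The finite places `v` of `K` which lie below a `κ`-tight place `v'` of an extension `E` of `K`
of degree at most `B`. -/
def tightPlacesLE {K : Type*} [Field K] [NumberField K] (κ : ℝ) (B d : ℕ) (F : K[X]) (δ : K) :
    Set (FinitePlace K) :=
  {v | ∃ (E : IntermediateField K (AlgebraicClosure K)) (_ : NumberField E) (v' : FinitePlace E)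
    (k : ℕ), finrank K E ≤ B ∧ 1 ≤ k ∧ (∀ a : K, v' (algebraMap K E a) = v a ^ k) ∧
      v' ∈ tightPlaces κ d (F.map (algebraMap K E)) (algebraMap K E δ)}

end Pool.Agent.H.MP_0e6b5f_nt
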