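import Pool.Agent.H.MP_0e6b5f_nt.DensInt

/-!
# Archimedean bounds and finiteness of the candidates
-/

namespace Pool.Agent.H.MP_0e6b5f_nt

open Function Polynomial Module

section Arch

theorem arch_bound {A : ℕ → ℤ} {d : ℕ} {M Δ : ℤ} {H T : ℕ} (hT : 1 ≤ T)
    (hA : ∀ i, i ≤ d + 3 → |A i| ≤ H) (hM : |M| ≤ H) (hΔ : |Δ| ≤ H)
    (hlead : (H : ℤ) ≤ |A (d + 3)| * T) (hA0 : A (d + 3) ≠ 0) (y : ℕ → ℂ)
    (hrec : ∀ k, (M : ℂ) * y (k + 2) + (Δ : ℂ) * y k = evA A (d + 3) (y (k + 1)))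
    {n : ℕ} (hn : 0 < n) (hper : ∀ k, y (k + n) = y k) (k : ℕ) : ‖y k‖ ≤ (d + 5) * T := by
  obtain ⟨m, hm'⟩ := exists_max_periodic (fun k => ‖y k‖) hn (fun k => by simp only [hper k])
  have hm : ∀ k, ‖y k‖ ≤ ‖y (m + 1)‖ := hm'
  refine (hm k).trans ?_
  set R := ‖y (m + 1)‖ with hR
  by_contra hcon
  push Not at hcon
  have hT' : (1 : ℝ) ≤ T := by exact_mod_cast hT
  have hR1 : 1 < R := by
    have : (1 : ℝ) ≤ (d + 5) * T := by
      have hd : (0 : ℝ) ≤ d := Nat.cast_nonneg d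
      nlinarith
    linarith
  have hnorm : ∀ z : ℤ, |z| ≤ H → ‖(z : ℂ)‖ ≤ H := by
    intro z hz
    rw [Complex.norm_intCast]
    exact_mod_cast hz
  have e : (A (d + 3) : ℂ) * y (m + 1) ^ (d + 3) =
      ((M : ℂ) * y (m + 2) + (Δ : ℂ) * y m) -
        ∑ i ∈ Finset.range (d + 3), (A i : ℂ) * y (m + 1) ^ i := by
    rw [hrec, evA, Finset.sum_range_succ]; ring
  have h1 : ‖(A (d + 3) : ℂ) * y (m + 1) ^ (d + 3)‖ ≤ (H * R + H * R) +
      ∑ i ∈ Finset.range (d + 3), (H : ℝ) * R ^ (d + 2) := by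
    rw [e]
    refine (norm_sub_le _ _).trans (add_le_add ((norm_add_le _ _).trans (add_le_add ?_ ?_)) ?_)
    · rw [norm_mul]
      exact mul_le_mul (hnorm M hM) (hm _) (norm_nonneg _) (Nat.cast_nonneg _)
    · rw [norm_mul]
      exact mul_le_mul (hnorm Δ hΔ) (hm _) (norm_nonneg _) (Nat.cast_nonneg _)
    · refine (norm_sum_le _ _).trans (Finset.sum_le_sum fun i hi => ?_)
      have hi' := Finset.mem_range.mp hi
      rw [norm_mul, norm_pow]
      exact mul_le_mul (hnorm _ (hA i (by omega))) (pow_le_pow_right₀ hR1.le (by omega))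
        (by positivity) (Nat.cast_nonneg _)
  rw [norm_mul, norm_pow, ← hR, Finset.sum_const, Finset.card_range, nsmul_eq_mul] at h1
  have h2 : R ≤ R ^ (d + 2) := le_self_pow₀ hR1.le (by omega)
  have hH0 : (0 : ℝ) ≤ H := Nat.cast_nonneg _
  have h3 : ‖(A (d + 3) : ℂ)‖ * R ^ (d + 3) ≤ (d + 5) * H * R ^ (d + 2) := by
    refine h1.trans ?_
    push_cast
    nlinarith [mul_le_mul_of_nonneg_left h2 hH0]
  have hpos : 0 < R ^ (d + 2) := pow_pos (by linarith) _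
  have h4 : ‖(A (d + 3) : ℂ)‖ * R ≤ (d + 5) * H := by
    have h5 : (‖(A (d + 3) : ℂ)‖ * R) * R ^ (d + 2) ≤ ((d + 5) * H) * R ^ (d + 2) := by
      calc (‖(A (d + 3) : ℂ)‖ * R) * R ^ (d + 2) = ‖(A (d + 3) : ℂ)‖ * R ^ (d + 3) := by ring
        _ ≤ _ := h3
    exact le_of_mul_le_mul_right h5 hpos
  have h5 : (H : ℝ) ≤ ‖(A (d + 3) : ℂ)‖ * T := by
    rw [Complex.norm_intCast]
    exact_mod_cast hlead
  have hA' : 0 < ‖(A (d + 3) : ℂ)‖ := by
    rw [norm_pos_iff]; exact_mod_cast hA0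
  have h6 : ‖(A (d + 3) : ℂ)‖ * R ≤ ‖(A (d + 3) : ℂ)‖ * ((d + 5) * T) := by
    refine h4.trans ?_
    have hd : (0 : ℝ) ≤ (d : ℝ) + 5 := by positivity
    calc ((d : ℝ) + 5) * H ≤ (d + 5) * (‖(A (d + 3) : ℂ)‖ * T) := by gcongr
      _ = ‖(A (d + 3) : ℂ)‖ * ((d + 5) * T) := by ring
  have h7 := le_of_mul_le_mul_left h6 hA'
  linarith

end Arch

section Candidates

/-- the candidates form a finite set -/
theorem candidates_finite (B N : ℕ) (hN : 0 < N) (ρ : ℝ) :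
    ∃ Ω : Set (AlgebraicClosure ℚ), Ω.Finite ∧
      ∀ (L : IntermediateField ℚ (AlgebraicClosure ℚ)), FiniteDimensional ℚ L →
        finrank ℚ L ≤ B → ∀ x : L, IsIntegral ℤ ((N : AlgebraicClosure ℚ) * (x : AlgebraicClosure ℚ)) →
          (∀ σ : L →+* ℂ, ‖σ x‖ ≤ ρ) → (x : AlgebraicClosure ℚ) ∈ Ω := by
  classical
  let C := Nat.ceil ((max (N * ρ) 1) ^ B * 2 ^ B)
  have hfin := bUnion_roots_finite (algebraMap ℤ (AlgebraicClosure ℚ)) B
    (Set.finite_Icc (-C : ℤ) C)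
  refine ⟨(fun z => z / (N : AlgebraicClosure ℚ)) '' _, hfin.image _, ?_⟩
  intro L hL hLB x hx hσ
  have hnf : NumberField L := { to_charZero := inferInstance, to_finiteDimensional := hL }
  have hN' : (N : AlgebraicClosure ℚ) ≠ 0 := by exact_mod_cast hN.ne'
  refine ⟨(N : AlgebraicClosure ℚ) * x, ?_, by
    simp only
    rw [mul_div_assoc, mul_comm, div_mul_cancel₀ _ hN']⟩
  set y : L := (N : L) * x with hy
  have hyE : (y : AlgebraicClosure ℚ) = (N : AlgebraicClosure ℚ) * x := by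
    rw [hy]; push_cast; rfl
  have hyint : IsIntegral ℤ y := by
    rw [← isIntegral_algebraMap_iff (algebraMap L (AlgebraicClosure ℚ)).injective]
    have : algebraMap L (AlgebraicClosure ℚ) y = (N : AlgebraicClosure ℚ) * x := hyE
    rw [this]; exact hx
  have hyσ : ∀ σ : L →+* ℂ, ‖σ y‖ ≤ N * ρ := by
    intro σ
    rw [hy, map_mul, map_natCast, norm_mul, Complex.norm_natCast]
    exact mul_le_mul_of_nonneg_left (hσ σ) (Nat.cast_nonneg _)
  simp only [Set.mem_iUnion]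
  have hmin := minpoly.isIntegrallyClosed_eq_field_fractions' ℚ hyint
  refine ⟨minpoly ℤ y, ⟨?_, fun i => ?_⟩, ?_⟩
  · rw [← (minpoly.monic hyint).natDegree_map (algebraMap ℤ ℚ), ← hmin]
    exact (minpoly.natDegree_le y).trans hLB
  · rw [Set.mem_Icc, ← abs_le, ← @Int.cast_le ℝ]
    have h1 := NumberField.Embeddings.coeff_bdd_of_norm_le hyσ i
    rw [hmin, coeff_map, eq_intCast, Int.norm_cast_rat, Int.norm_eq_abs] at h1
    have h2 : max (N * ρ) 1 ^ finrank ℚ L * ((finrank ℚ L).choose (finrank ℚ L / 2) : ℝ) ≤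
        (max (N * ρ) 1) ^ B * 2 ^ B := by
      have hmax : (1 : ℝ) ≤ max (N * ρ) 1 := le_max_right _ _
      have h3 : ((finrank ℚ L).choose (finrank ℚ L / 2) : ℝ) ≤ 2 ^ B := by
        have : (finrank ℚ L).choose (finrank ℚ L / 2) ≤ 2 ^ finrank ℚ L := Nat.choose_le_two_pow _ _
        calc ((finrank ℚ L).choose (finrank ℚ L / 2) : ℝ) ≤ (2 ^ finrank ℚ L : ℕ) := by
              exact_mod_cast this
          _ = 2 ^ finrank ℚ L := by push_cast; rfl
          _ ≤ 2 ^ B := pow_le_pow_right₀ (by norm_num) hLB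
      exact mul_le_mul (pow_le_pow_right₀ hmax hLB) h3 (Nat.cast_nonneg _) (by positivity)
    push_cast
    exact (h1.trans h2).trans (Nat.le_ceil _)
  · have h0 : (minpoly ℤ y).map (algebraMap ℤ (AlgebraicClosure ℚ)) ≠ 0 :=
      ((minpoly.monic hyint).map _).ne_zero
    simp only [Finset.mem_coe, Multiset.mem_toFinset]
    rw [mem_roots h0, IsRoot.def, ← hyE]
    have h1 := minpoly.aeval ℤ y
    have h2 := congrArg (algebraMap L (AlgebraicClosure ℚ)) h1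
    rw [map_zero, ← aeval_algebraMap_apply] at h2
    rw [eval_map_algebraMap]
    exact h2

end Candidates

end Pool.Agent.H.MP_0e6b5f_nt
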