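import Mathlib

/-!
# Counting integer vectors in boxes
-/

namespace Pool.Agent.H.MP_0e6b5f_nt

open Finset

/-- the box of integer vectors of height at most `H` -/
noncomputable def Bx (n H : ℕ) : Finset (Fin n → ℤ) := Fintype.piFinset (fun _ => Finset.Icc (-(H : ℤ)) H)

theorem mem_Bx {n H : ℕ} {c : Fin n → ℤ} : c ∈ Bx n H ↔ ∀ i, |c i| ≤ H := by
  simp only [Bx, Fintype.mem_piFinset, Finset.mem_Icc, abs_le]

theorem card_Icc_symm (H : ℕ) : (Finset.Icc (-(H : ℤ)) H).card = 2 * H + 1 := by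
  rw [Int.card_Icc]; omega

theorem card_Bx (n H : ℕ) : (Bx n H).card = (2 * H + 1) ^ n := by
  rw [Bx, Fintype.card_piFinset]
  simp only [card_Icc_symm, Finset.prod_const, Finset.card_univ, Fintype.card_fin]

theorem card_fiber_le (n H : ℕ) (J : Finset (Fin n)) (a : Fin n → ℤ) :
    ((Bx n H).filter (fun c => ∀ j ∈ J, c j = a j)).card ≤ (2 * H + 1) ^ (n - J.card) := by
  classical
  have hsub : (Bx n H).filter (fun c => ∀ j ∈ J, c j = a j) ⊆
      Fintype.piFinset (fun i => if i ∈ J then {a i} else Finset.Icc (-(H : ℤ)) H) := by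
    intro c hc
    rw [Finset.mem_filter] at hc
    rw [Fintype.mem_piFinset]
    intro i
    split_ifs with hi
    · rw [Finset.mem_singleton]; exact hc.2 i hi
    · exact (Fintype.mem_piFinset.mp hc.1) i
  refine (Finset.card_le_card hsub).trans (le_of_eq ?_)
  rw [Fintype.card_piFinset]
  have : ∀ i : Fin n, (if i ∈ J then ({a i} : Finset ℤ) else Finset.Icc (-(H : ℤ)) H).card =
      if i ∈ J then 1 else 2 * H + 1 := by
    intro i
    split_ifs
    · exact Finset.card_singleton _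
    · exact card_Icc_symm H
  simp only [this]
  rw [Finset.prod_ite, Finset.prod_const_one, one_mul, Finset.prod_const]
  congr 1
  have : (Finset.univ.filter (fun i : Fin n => i ∉ J)) = Jᶜ := by
    ext i; simp
  rw [this, Finset.card_compl, Fintype.card_fin]

theorem card_one_le {n H : ℕ} (i : Fin n) (T : Finset ℤ) :
    ((Bx n H).filter (fun c => c i ∈ T)).card ≤ T.card * (2 * H + 1) ^ (n - 1) := by
  classical
  have hsub : (Bx n H).filter (fun c => c i ∈ T) ⊆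
      T.biUnion (fun t => (Bx n H).filter (fun c => ∀ j ∈ ({i} : Finset (Fin n)), c j = t)) := by
    intro c hc
    rw [Finset.mem_filter] at hc
    rw [Finset.mem_biUnion]
    refine ⟨c i, hc.2, ?_⟩
    rw [Finset.mem_filter]
    refine ⟨hc.1, fun j hj => ?_⟩
    rw [Finset.mem_singleton] at hj
    rw [hj]
  refine (Finset.card_le_card hsub).trans ?_
  refine Finset.card_biUnion_le_card_mul _ _ _ fun t _ => ?_
  have := card_fiber_le n H {i} (fun _ => t)
  rwa [Finset.card_singleton] at this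

theorem card_two_le {n H : ℕ} {i j : Fin n} (hij : i ≠ j) (T : Finset (ℤ × ℤ)) :
    ((Bx n H).filter (fun c => (c i, c j) ∈ T)).card ≤ T.card * (2 * H + 1) ^ (n - 2) := by
  classical
  have hsub : (Bx n H).filter (fun c => (c i, c j) ∈ T) ⊆
      T.biUnion (fun t => (Bx n H).filter (fun c => ∀ k ∈ ({i, j} : Finset (Fin n)),
        c k = if k = i then t.1 else t.2)) := by
    intro c hc
    rw [Finset.mem_filter] at hc
    rw [Finset.mem_biUnion]
    refine ⟨(c i, c j), hc.2, ?_⟩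
    rw [Finset.mem_filter]
    refine ⟨hc.1, fun k hk => ?_⟩
    simp only [Finset.mem_insert, Finset.mem_singleton] at hk
    rcases hk with rfl | rfl
    · simp
    · rw [if_neg hij.symm]
  refine (Finset.card_le_card hsub).trans ?_
  refine Finset.card_biUnion_le_card_mul _ _ _ fun t _ => ?_
  have := card_fiber_le n H {i, j} (fun k => if k = i then t.1 else t.2)
  rwa [Finset.card_pair hij] at this

theorem card_three_le {n H : ℕ} {i j k : Fin n} (hij : i ≠ j) (hik : i ≠ k) (hjk : j ≠ k)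
    (T : Finset (ℤ × ℤ × ℤ)) :
    ((Bx n H).filter (fun c => (c i, c j, c k) ∈ T)).card ≤ T.card * (2 * H + 1) ^ (n - 3) := by
  classical
  have hsub : (Bx n H).filter (fun c => (c i, c j, c k) ∈ T) ⊆
      T.biUnion (fun t => (Bx n H).filter (fun c => ∀ l ∈ ({i, j, k} : Finset (Fin n)),
        c l = if l = i then t.1 else if l = j then t.2.1 else t.2.2)) := by
    intro c hc
    rw [Finset.mem_filter] at hc
    rw [Finset.mem_biUnion]
    refine ⟨(c i, c j, c k), hc.2, ?_⟩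
    rw [Finset.mem_filter]
    refine ⟨hc.1, fun l hl => ?_⟩
    simp only [Finset.mem_insert, Finset.mem_singleton] at hl
    rcases hl with rfl | rfl | rfl
    · simp
    · rw [if_neg hij.symm, if_pos rfl]
    · rw [if_neg hik.symm, if_neg hjk.symm]
  refine (Finset.card_le_card hsub).trans ?_
  refine Finset.card_biUnion_le_card_mul _ _ _ fun t _ => ?_
  have := card_fiber_le n H {i, j, k}
    (fun l => if l = i then t.1 else if l = j then t.2.1 else t.2.2)
  have hcard : ({i, j, k} : Finset (Fin n)).card = 3 := by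
    rw [Finset.card_insert_of_notMem (by simp [hij, hik]), Finset.card_pair hjk]
  rwa [hcard] at this

/-- multiples of `m` in the box, shifted -/
theorem card_dvd_shift_le (H : ℕ) {m : ℕ} (hm : 0 < m) (s : ℤ) :
    (((Finset.Icc (-(H : ℤ)) H).filter (fun b => (m : ℤ) ∣ b + s)).card : ℝ) ≤
      2 * H / m + 1 := by
  have hm' : (0 : ℤ) < m := by exact_mod_cast hm
  have hmR : (0 : ℝ) < m := by exact_mod_cast hm
  -- the map `b ↦ (b + s) / m` is injective into an interval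
  set lo : ℤ := ⌈((-(H : ℝ) + s) / m)⌉ with hlo
  set hi : ℤ := ⌊(((H : ℝ) + s) / m)⌋ with hhi
  have hmaps : ∀ b ∈ (Finset.Icc (-(H : ℤ)) H).filter (fun b => (m : ℤ) ∣ b + s),
      (b + s) / m ∈ Finset.Icc lo hi := by
    intro b hb
    rw [Finset.mem_filter, Finset.mem_Icc] at hb
    obtain ⟨⟨h1, h2⟩, t, ht⟩ := hb
    rw [ht, Int.mul_ediv_cancel_left _ hm'.ne', Finset.mem_Icc]
    have ht' : ((m : ℝ) * t) = b + s := by exact_mod_cast ht.symm
    have h1' : -(H : ℝ) ≤ b := by exact_mod_cast h1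
    have h2' : (b : ℝ) ≤ H := by exact_mod_cast h2
    constructor
    · rw [hlo, Int.ceil_le, div_le_iff₀ hmR, mul_comm]
      rw [ht']; linarith
    · rw [hhi, Int.le_floor, le_div_iff₀ hmR, mul_comm]
      rw [ht']; linarith
  have hinj : Set.InjOn (fun b : ℤ => (b + s) / m)
      ((Finset.Icc (-(H : ℤ)) H).filter (fun b => (m : ℤ) ∣ b + s) : Finset ℤ) := by
    intro b hb b' hb' h
    simp only [Finset.coe_filter, Set.mem_ofPred_eq] at hb hb'
    simp only at h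
    have h1 := Int.ediv_mul_cancel hb.2
    have h2 := Int.ediv_mul_cancel hb'.2
    rw [h, h2] at h1
    linarith
  have hcard := Finset.card_le_card_of_injOn _ hmaps hinj
  rw [Int.card_Icc] at hcard
  have h1 : ((hi + 1 - lo).toNat : ℝ) ≤ 2 * H / m + 1 := by
    rcases le_or_gt (hi + 1 - lo) 0 with h | h
    · rw [Int.toNat_of_nonpos h]
      push_cast
      positivity
    · have h2 : (((hi + 1 - lo).toNat : ℤ) : ℝ) = ((hi + 1 - lo : ℤ) : ℝ) := by
        rw [Int.toNat_of_nonneg h.le]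
      rw [Int.cast_natCast] at h2
      rw [h2]
      push_cast
      have h3 : (hi : ℝ) ≤ ((H : ℝ) + s) / m := Int.floor_le _
      have h4 : ((-(H : ℝ) + s) / m) ≤ lo := Int.le_ceil _
      have h5 : ((H : ℝ) + s) / m - ((-(H : ℝ) + s) / m) = 2 * H / m := by
        field_simp; ring
      linarith
  exact le_trans (by exact_mod_cast hcard) h1

/-- nonzero multiples of `m` in the box -/
theorem card_dvd_ne_le (H : ℕ) {m : ℕ} (hm : 0 < m) :
    (((Finset.Icc (-(H : ℤ)) H).filter (fun a => a ≠ 0 ∧ (m : ℤ) ∣ a)).card : ℝ) ≤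
      2 * H / m := by
  classical
  have hsub : insert (0 : ℤ) ((Finset.Icc (-(H : ℤ)) H).filter (fun a => a ≠ 0 ∧ (m : ℤ) ∣ a)) ⊆
      (Finset.Icc (-(H : ℤ)) H).filter (fun b => (m : ℤ) ∣ b + 0) := by
    intro a ha
    rw [Finset.mem_insert, Finset.mem_filter] at ha
    rw [Finset.mem_filter, add_zero]
    rcases ha with rfl | ha
    · refine ⟨?_, dvd_zero _⟩
      rw [Finset.mem_Icc]
      constructor
      · have : (0 : ℤ) ≤ H := Int.natCast_nonneg H
        linarith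
      · exact Int.natCast_nonneg H
    · exact ⟨ha.1, ha.2.2⟩
  have h1 := Finset.card_le_card hsub
  rw [Finset.card_insert_of_notMem (by simp)] at h1
  have h2 := card_dvd_shift_le H hm 0
  have h3 : (((Finset.Icc (-(H : ℤ)) H).filter (fun a => a ≠ 0 ∧ (m : ℤ) ∣ a)).card : ℝ) + 1 ≤
      (((Finset.Icc (-(H : ℤ)) H).filter (fun b => (m : ℤ) ∣ b + 0)).card : ℝ) := by
    exact_mod_cast h1
  linarith

theorem sum_inv_sq_le (T H : ℕ) (hT : 1 ≤ T) :
    ∑ m ∈ Finset.Ioc T H, (1 : ℝ) / (m : ℝ) ^ 2 ≤ 1 / T := by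
  have h := sum_Ioc_inv_sq_le_sub (α := ℝ) (k := T) (n := max T H) (by omega) (le_max_left _ _)
  have hsub : Finset.Ioc T H ⊆ Finset.Ioc T (max T H) :=
    Finset.Ioc_subset_Ioc_right (le_max_right _ _)
  calc ∑ m ∈ Finset.Ioc T H, (1 : ℝ) / (m : ℝ) ^ 2
      ≤ ∑ m ∈ Finset.Ioc T (max T H), (1 : ℝ) / (m : ℝ) ^ 2 :=
        Finset.sum_le_sum_of_subset_of_nonneg hsub (fun _ _ _ => by positivity)
    _ = ∑ m ∈ Finset.Ioc T (max T H), ((m : ℝ) ^ 2)⁻¹ := by simp only [one_div]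
    _ ≤ (T : ℝ)⁻¹ - ((max T H : ℕ) : ℝ)⁻¹ := h
    _ ≤ 1 / T := by
        rw [one_div]
        have : (0 : ℝ) ≤ ((max T H : ℕ) : ℝ)⁻¹ := by positivity
        linarith

open scoped Classical in
theorem card_sq_le (T H : ℕ) (hT : 1 ≤ T) :
    (((Finset.Icc (-(H : ℤ)) H).filter
      (fun a => a ≠ 0 ∧ ∃ m : ℕ, T < m ∧ ((m : ℤ) ^ 2) ∣ a)).card : ℝ) ≤ 2 * H / T := by
  have hsub : (Finset.Icc (-(H : ℤ)) H).filter
      (fun a => a ≠ 0 ∧ ∃ m : ℕ, T < m ∧ ((m : ℤ) ^ 2) ∣ a) ⊆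
      (Finset.Ioc T H).biUnion (fun m => (Finset.Icc (-(H : ℤ)) H).filter
        (fun a => a ≠ 0 ∧ ((m ^ 2 : ℕ) : ℤ) ∣ a)) := by
    intro a ha
    rw [Finset.mem_filter] at ha
    obtain ⟨haI, ha0, m, hTm, hma⟩ := ha
    rw [Finset.mem_biUnion]
    refine ⟨m, ?_, ?_⟩
    · rw [Finset.mem_Ioc]
      refine ⟨hTm, ?_⟩
      have h1 : (m : ℤ) ^ 2 ≤ |a| := Int.le_of_dvd (abs_pos.mpr ha0) ((dvd_abs _ _).mpr hma)
      have h2 : |a| ≤ H := by rw [abs_le]; exact Finset.mem_Icc.mp haI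
      have h3 : (m : ℤ) ≤ (m : ℤ) ^ 2 := by
        have : (1 : ℤ) ≤ m := by exact_mod_cast (by omega : 1 ≤ m)
        nlinarith
      exact_mod_cast h3.trans (h1.trans h2)
    · rw [Finset.mem_filter]
      refine ⟨haI, ha0, ?_⟩
      push_cast; exact hma
  have h1 := (Finset.card_le_card hsub).trans Finset.card_biUnion_le
  calc (((Finset.Icc (-(H : ℤ)) H).filter
      (fun a => a ≠ 0 ∧ ∃ m : ℕ, T < m ∧ ((m : ℤ) ^ 2) ∣ a)).card : ℝ)
      ≤ ((∑ m ∈ Finset.Ioc T H, ((Finset.Icc (-(H : ℤ)) H).filter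
        (fun a => a ≠ 0 ∧ ((m ^ 2 : ℕ) : ℤ) ∣ a)).card : ℕ) : ℝ) := by exact_mod_cast h1
    _ = ∑ m ∈ Finset.Ioc T H, (((Finset.Icc (-(H : ℤ)) H).filter
        (fun a => a ≠ 0 ∧ ((m ^ 2 : ℕ) : ℤ) ∣ a)).card : ℝ) := by push_cast; rfl
    _ ≤ ∑ m ∈ Finset.Ioc T H, 2 * (H : ℝ) * (1 / (m : ℝ) ^ 2) := by
        refine Finset.sum_le_sum fun m hm => ?_
        rw [Finset.mem_Ioc] at hm
        have hm0 : 0 < m := by omega
        have := card_dvd_ne_le H (m := m ^ 2) (pow_pos hm0 2)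
        refine this.trans (le_of_eq ?_)
        push_cast; ring
    _ = 2 * (H : ℝ) * ∑ m ∈ Finset.Ioc T H, 1 / (m : ℝ) ^ 2 := by rw [Finset.mul_sum]
    _ ≤ 2 * (H : ℝ) * (1 / T) :=
        mul_le_mul_of_nonneg_left (sum_inv_sq_le T H hT) (by positivity)
    _ = 2 * H / T := by ring

open scoped Classical in
theorem card_pair_le (T H : ℕ) (hT : 1 ≤ T) (s : ℤ) :
    ((((Finset.Icc (-(H : ℤ)) H) ×ˢ (Finset.Icc (-(H : ℤ)) H)).filter
      (fun t => t.1 ≠ 0 ∧ ∃ m : ℕ, T < m ∧ (m : ℤ) ∣ t.1 ∧ (m : ℤ) ∣ t.2 + s)).card : ℝ) ≤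
      6 * H ^ 2 / T := by
  set I := Finset.Icc (-(H : ℤ)) H with hI
  have hsub : (I ×ˢ I).filter
      (fun t => t.1 ≠ 0 ∧ ∃ m : ℕ, T < m ∧ (m : ℤ) ∣ t.1 ∧ (m : ℤ) ∣ t.2 + s) ⊆
      (Finset.Ioc T H).biUnion (fun m => (I.filter (fun a => a ≠ 0 ∧ (m : ℤ) ∣ a)) ×ˢ
        (I.filter (fun b => (m : ℤ) ∣ b + s))) := by
    intro t ht
    rw [Finset.mem_filter, Finset.mem_product] at ht
    obtain ⟨⟨h1, h2⟩, ha0, m, hTm, hma, hmb⟩ := ht
    rw [Finset.mem_biUnion]
    refine ⟨m, ?_, ?_⟩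
    · rw [Finset.mem_Ioc]
      refine ⟨hTm, ?_⟩
      have h3 : (m : ℤ) ≤ |t.1| := Int.le_of_dvd (abs_pos.mpr ha0) ((dvd_abs _ _).mpr hma)
      have h4 : |t.1| ≤ H := by rw [abs_le]; exact Finset.mem_Icc.mp h1
      exact_mod_cast h3.trans h4
    · rw [Finset.mem_product, Finset.mem_filter, Finset.mem_filter]
      exact ⟨⟨h1, ha0, hma⟩, h2, hmb⟩
  have h1 := (Finset.card_le_card hsub).trans Finset.card_biUnion_le
  calc (((I ×ˢ I).filter
      (fun t => t.1 ≠ 0 ∧ ∃ m : ℕ, T < m ∧ (m : ℤ) ∣ t.1 ∧ (m : ℤ) ∣ t.2 + s)).card : ℝ)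
      ≤ ((∑ m ∈ Finset.Ioc T H, ((I.filter (fun a => a ≠ 0 ∧ (m : ℤ) ∣ a)) ×ˢ
        (I.filter (fun b => (m : ℤ) ∣ b + s))).card : ℕ) : ℝ) := by exact_mod_cast h1
    _ = ∑ m ∈ Finset.Ioc T H, (((I.filter (fun a => a ≠ 0 ∧ (m : ℤ) ∣ a)).card : ℝ) *
        ((I.filter (fun b => (m : ℤ) ∣ b + s)).card : ℝ)) := by
        push_cast
        refine Finset.sum_congr rfl fun m _ => ?_
        rw [Finset.card_product]; push_cast; rfl
    _ ≤ ∑ m ∈ Finset.Ioc T H, 6 * (H : ℝ) ^ 2 * (1 / (m : ℝ) ^ 2) := by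
        refine Finset.sum_le_sum fun m hm => ?_
        rw [Finset.mem_Ioc] at hm
        have hm0 : 0 < m := by omega
        have hmR : (0 : ℝ) < m := by exact_mod_cast hm0
        have h2 := card_dvd_ne_le H (m := m) hm0
        have h3 := card_dvd_shift_le H (m := m) hm0 s
        have h4 : 2 * (H : ℝ) / m + 1 ≤ 3 * H / m := by
          have : (1 : ℝ) ≤ H / m := by
            rw [le_div_iff₀ hmR, one_mul]; exact_mod_cast hm.2
          have e : 3 * (H : ℝ) / m = 2 * H / m + H / m := by ring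
          rw [e]; linarith
        calc ((I.filter (fun a => a ≠ 0 ∧ (m : ℤ) ∣ a)).card : ℝ) *
              ((I.filter (fun b => (m : ℤ) ∣ b + s)).card : ℝ)
            ≤ (2 * H / m) * (3 * H / m) :=
              mul_le_mul h2 (h3.trans h4) (Nat.cast_nonneg _) (by positivity)
          _ = 6 * (H : ℝ) ^ 2 * (1 / (m : ℝ) ^ 2) := by ring
    _ = 6 * (H : ℝ) ^ 2 * ∑ m ∈ Finset.Ioc T H, 1 / (m : ℝ) ^ 2 := by rw [Finset.mul_sum]
    _ ≤ 6 * (H : ℝ) ^ 2 * (1 / T) :=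
        mul_le_mul_of_nonneg_left (sum_inv_sq_le T H hT) (by positivity)
    _ = 6 * H ^ 2 / T := by ring

theorem card_small_le (T H : ℕ) (hT : 1 ≤ T) :
    (((Finset.Icc (-(H : ℤ)) H).filter (fun a : ℤ => |a| * (T : ℤ) < H)).card : ℝ) ≤ 2 * H / T + 1 := by
  have hsub : (Finset.Icc (-(H : ℤ)) H).filter (fun a : ℤ => |a| * (T : ℤ) < H) ⊆
      Finset.Icc (-((H / T : ℕ) : ℤ)) ((H / T : ℕ) : ℤ) := by
    intro a ha
    rw [Finset.mem_filter] at ha
    rw [Finset.mem_Icc, ← abs_le]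
    have h1 := ha.2
    have h2 : a.natAbs * T ≤ H := by
      have : ((a.natAbs * T : ℕ) : ℤ) < H := by
        rw [Nat.cast_mul, Int.natCast_natAbs]; exact h1
      exact_mod_cast this.le
    have h3 : a.natAbs ≤ H / T := (Nat.le_div_iff_mul_le (by omega)).mpr h2
    have : ((a.natAbs : ℕ) : ℤ) ≤ ((H / T : ℕ) : ℤ) := by exact_mod_cast h3
    rwa [Int.natCast_natAbs] at this
  have h1 := Finset.card_le_card hsub
  rw [card_Icc_symm] at h1
  have h2 : (((Finset.Icc (-(H : ℤ)) H).filter (fun a : ℤ => |a| * (T : ℤ) < H)).card : ℝ) ≤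
      2 * ((H / T : ℕ) : ℝ) + 1 := by exact_mod_cast h1
  have h3 : ((H / T : ℕ) : ℝ) ≤ (H : ℝ) / T := Nat.cast_div_le
  have e : 2 * (H : ℝ) / T = 2 * (H / T) := by ring
  rw [e]; linarith

end Pool.Agent.H.MP_0e6b5f_nt
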