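import Pool.Agent.H.MP_0e6b5f_nt.DensArch

/-!
# Integer polynomials with a factor of small degree and bounded roots
-/

namespace Pool.Agent.H.MP_0e6b5f_nt

open Function Polynomial Module

section Factor

/-- coefficients are bounded by the leading coefficient if the roots are bounded -/
theorem coeff_bound_of_roots {g : ℤ[X]} (hg : g ≠ 0) {n : ℕ} (hn : g.natDegree ≤ n) {ρ : ℝ}
    (hroots : ∀ z : ℂ, aeval z g = 0 → ‖z‖ ≤ ρ) {c : ℕ} (hc : (max ρ 1) ^ n * 2 ^ n ≤ c) (i : ℕ) :
    |g.coeff i| ≤ c * |g.leadingCoeff| := by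
  set gc : ℂ[X] := g.map (Int.castRingHom ℂ) with hgc
  have hinj : Injective (Int.castRingHom ℂ) := RingHom.injective_int _
  have hlc : (g.leadingCoeff : ℂ) ≠ 0 := by
    exact_mod_cast leadingCoeff_ne_zero.mpr hg
  have hgclc : gc.leadingCoeff = (g.leadingCoeff : ℂ) := by
    rw [hgc, leadingCoeff_map_of_injective hinj]; rfl
  set f : ℂ[X] := C (g.leadingCoeff : ℂ)⁻¹ * gc with hf
  have hfm : f.Monic := by
    rw [hf, Monic, leadingCoeff_mul, leadingCoeff_C, hgclc, inv_mul_cancel₀ hlc]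
  have hfn : f.natDegree ≤ n := by
    refine (natDegree_C_mul_le _ _).trans ?_
    rw [hgc]
    exact natDegree_map_le.trans hn
  have hb := coeff_bdd_of_roots_le (B := ρ) (d := n) (RingHom.id ℂ) hfm
    (IsAlgClosed.splits _) hfn (fun z hz => by
      rw [Polynomial.map_id, mem_roots hfm.ne_zero, IsRoot.def, hf, eval_mul, eval_C,
        mul_eq_zero] at hz
      rcases hz with hz | hz
      · exact absurd hz (inv_ne_zero hlc)
      · apply hroots
        rw [aeval_def, ← eval_map]
        exact hz) i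
  rw [Polynomial.map_id] at hb
  have h1 : ((max ρ 1) ^ n * (n.choose (n / 2) : ℝ)) ≤ c := by
    refine le_trans ?_ hc
    have h2 : (n.choose (n / 2) : ℝ) ≤ 2 ^ n := by
      have := Nat.choose_le_two_pow n (n / 2)
      exact_mod_cast this
    have h3 : (0 : ℝ) ≤ (max ρ 1) ^ n := by positivity
    exact mul_le_mul_of_nonneg_left h2 h3
  have h2 : f.coeff i = (g.leadingCoeff : ℂ)⁻¹ * (g.coeff i : ℂ) := by
    rw [hf, coeff_C_mul, hgc, coeff_map]; rfl
  rw [h2, norm_mul, norm_inv, Complex.norm_intCast, Complex.norm_intCast] at hb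
  have hpos : 0 < |(g.leadingCoeff : ℝ)| := by
    rw [abs_pos]; exact_mod_cast leadingCoeff_ne_zero.mpr hg
  have h3 : |(g.coeff i : ℝ)| ≤ c * |(g.leadingCoeff : ℝ)| := by
    have h4 := hb.trans h1
    rwa [inv_mul_le_iff₀ hpos, mul_comm] at h4
  exact_mod_cast h3

/-- factorisation over `ℤ` from an algebraic root of smaller degree -/
theorem exists_int_factor {E : Type*} [Field E] [Algebra ℚ E] {G : ℤ[X]} {x : E}
    (halg : IsIntegral ℚ x) (hx : aeval x (G.map (Int.castRingHom ℚ)) = 0) :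
    ∃ g q : ℤ[X], G = g * q ∧ g.natDegree = (minpoly ℚ x).natDegree := by
  classical
  set h := minpoly ℚ x with hh
  set g0 := IsLocalization.integerNormalization (nonZeroDivisors ℤ) h with hg0
  obtain ⟨b, hb1, hb2⟩ := IsLocalization.integerNormalization_spec (nonZeroDivisors ℤ) h
  rw [← hg0] at hb2
  have hb0 : (b : ℚ) ≠ 0 := by
    have := nonZeroDivisors.ne_zero hb1
    exact_mod_cast this
  have hb3 : g0.map (Int.castRingHom ℚ) = C (b : ℚ) * h := by
    have e : (algebraMap ℤ ℚ) = Int.castRingHom ℚ := rfl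
    rw [← e, hb2]
    ext i
    rw [coeff_smul, coeff_C_mul, zsmul_eq_mul]
  have hinjQ : Injective (Int.castRingHom ℚ) := RingHom.injective_int _
  have hh0 : h ≠ 0 := minpoly.ne_zero halg
  have hg00 : g0 ≠ 0 := by
    intro h0
    rw [h0, Polynomial.map_zero] at hb3
    have := mul_ne_zero (C_ne_zero.mpr hb0) hh0
    exact this hb3.symm
  have hcont : g0.content ≠ 0 := by rwa [Ne, content_eq_zero_iff]
  have hcontQ : ((g0.content : ℤ) : ℚ) ≠ 0 := by exact_mod_cast hcont
  have hdec : C (g0.content) * g0.primPart = g0 := (eq_C_content_mul_primPart g0).symm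
  have hmap : C ((g0.content : ℤ) : ℚ) * g0.primPart.map (Int.castRingHom ℚ) =
      C (b : ℚ) * h := by
    rw [← hb3]
    conv_rhs => rw [← hdec]
    rw [Polynomial.map_mul, map_C]
    rfl
  have hdvd : g0.primPart.map (Int.castRingHom ℚ) ∣ G.map (Int.castRingHom ℚ) := by
    have h1 : h ∣ G.map (Int.castRingHom ℚ) := minpoly.dvd ℚ x hx
    have h2 : g0.primPart.map (Int.castRingHom ℚ) ∣ C (b : ℚ) * h := ⟨C ((g0.content : ℤ) : ℚ), by
      rw [← hmap]; ring⟩
    have h3 : C (b : ℚ) * h ∣ h := by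
      refine ⟨C (b : ℚ)⁻¹, ?_⟩
      rw [mul_right_comm, ← C_mul, mul_inv_cancel₀ hb0, C_1, one_mul]
    exact (h2.trans h3).trans h1
  have hprim : g0.primPart.IsPrimitive := isPrimitive_primPart g0
  have hdvd' := (IsPrimitive.Int.dvd_iff_map_cast_dvd_map_cast _ G hprim).mpr hdvd
  obtain ⟨q, hq⟩ := hdvd'
  refine ⟨g0.primPart, q, hq, ?_⟩
  rw [natDegree_primPart]
  have h1 : (g0.map (Int.castRingHom ℚ)).natDegree = g0.natDegree := natDegree_map_eq_of_injective hinjQ _
  rw [← h1, hb3, natDegree_C_mul hb0]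

end Factor

end Pool.Agent.H.MP_0e6b5f_nt
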