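import Pool.Agent.H.MP_0e6b5f_nt.DensMain

/-!
# The density theorem
-/

namespace Pool.Agent.H.MP_0e6b5f_nt

open Function Polynomial Module Finset

theorem co_eq {n : ℕ} (c : Fin n → ℤ) {i : ℕ} (h : i < n) : co c i = c ⟨i, h⟩ := by
  rw [co, dif_pos h]

theorem co_of_ge {n : ℕ} (c : Fin n → ℤ) {i : ℕ} (h : n ≤ i) : co c i = 0 := by
  rw [co, dif_neg (by omega)]

theorem mem_Icc_of_mem_Bx {n H : ℕ} {c : Fin n → ℤ} (hc : c ∈ Bx n H) (i : Fin n) :
    c i ∈ Finset.Icc (-(H : ℤ)) H := by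
  rw [Finset.mem_Icc, ← abs_le]; exact mem_Bx.mp hc i

/-- the linear relation fixes one coordinate -/
theorem card_relation_le {E : Type*} [Field E] [CharZero E] (d H : ℕ) (u v w : E) :
    ∀ [DecidablePred (fun c : Fin (d + 6) → ℤ =>
      (co c (d + 5) : E) * w + (co c (d + 4) : E) * u = evA (co c) (d + 3) v)],
    ((Bx (d + 6) H).filter (fun c : Fin (d + 6) → ℤ =>
      (co c (d + 5) : E) * w + (co c (d + 4) : E) * u = evA (co c) (d + 3) v)).card ≤
        (2 * H + 1) ^ (d + 5) := by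
  intro _
  rw [← card_Bx]
  refine Finset.card_le_card_of_injOn (fun c => Fin.tail c) ?_ ?_
  · intro c hc
    simp only [Finset.coe_filter, Set.mem_ofPred_eq] at hc
    rw [Finset.mem_coe, mem_Bx]
    intro i
    exact mem_Bx.mp hc.1 i.succ
  · intro c hc c' hc' h
    simp only [Finset.coe_filter, Set.mem_ofPred_eq] at hc hc'
    have htail : ∀ i : Fin (d + 5), c i.succ = c' i.succ := fun i => congrFun h i
    have hco : ∀ i, 1 ≤ i → co c i = co c' i := by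
      intro i hi
      rcases Nat.lt_or_ge i (d + 6) with h1 | h1
      · rw [co_eq c h1, co_eq c' h1]
        have := htail ⟨i - 1, by omega⟩
        have e : (⟨i - 1, by omega⟩ : Fin (d + 5)).succ = ⟨i, h1⟩ := by
          apply Fin.ext; simp; omega
        rwa [e] at this
      · rw [co_of_ge c h1, co_of_ge c' h1]
    have h1 := hc.2
    have h2 := hc'.2
    rw [hco (d + 5) (by omega), hco (d + 4) (by omega)] at h1
    have hsplit : ∀ b : Fin (d + 6) → ℤ, evA (co b) (d + 3) v =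
        ∑ i ∈ Finset.range (d + 3), (co b (i + 1) : E) * v ^ (i + 1) + (co b 0 : E) := by
      intro b
      rw [evA, Finset.sum_range_succ', pow_zero, mul_one]
    rw [h2, hsplit, hsplit] at h1
    have h3 : ∑ i ∈ Finset.range (d + 3), (co c (i + 1) : E) * v ^ (i + 1) =
        ∑ i ∈ Finset.range (d + 3), (co c' (i + 1) : E) * v ^ (i + 1) :=
      Finset.sum_congr rfl fun i _ => by rw [hco (i + 1) (by omega)]
    rw [h3] at h1
    rw [add_right_inj] at h1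
    have h4 : co c' 0 = co c 0 := by exact_mod_cast h1
    funext i
    rcases Nat.eq_zero_or_pos i.val with h5 | h5
    · have e0 : (0 : ℕ) < d + 6 := by omega
      rw [co_eq c e0, co_eq c' e0] at h4
      have : i = ⟨0, e0⟩ := Fin.ext h5
      rw [this]; exact h4.symm
    · have := hco i.val h5
      rwa [co_eq c i.isLt, co_eq c' i.isLt] at this

theorem card_fixPoly_le (d c0 H : ℕ) :
    ∀ [DecidablePred (fun c : Fin (d + 6) → ℤ =>
      fixPoly (co c) (d + 3) (co c (d + 5) + co c (d + 4)) ∈ QS (d + 3) c0 H)],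
    ((Bx (d + 6) H).filter (fun c : Fin (d + 6) → ℤ =>
      fixPoly (co c) (d + 3) (co c (d + 5) + co c (d + 4)) ∈ QS (d + 3) c0 H)).card ≤
      (QS (d + 3) c0 H).card * ((2 * H + 1) * (2 * H + 1)) := by
  intro _
  have h45 : (d + 4) < d + 6 := by omega
  have h55 : (d + 5) < d + 6 := by omega
  have hcard : (QS (d + 3) c0 H ×ˢ (Finset.Icc (-(H : ℤ)) H ×ˢ Finset.Icc (-(H : ℤ)) H)).card =
      (QS (d + 3) c0 H).card * ((2 * H + 1) * (2 * H + 1)) := by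
    rw [Finset.card_product, Finset.card_product, card_Icc_symm]
  rw [← hcard]
  refine Finset.card_le_card_of_injOn (fun c =>
    (fixPoly (co c) (d + 3) (co c (d + 5) + co c (d + 4)), co c (d + 4), co c (d + 5))) ?_ ?_
  · intro c hc
    simp only [Finset.coe_filter, Set.mem_ofPred_eq] at hc
    rw [Finset.mem_coe, Finset.mem_product, Finset.mem_product]
    refine ⟨hc.2, ?_, ?_⟩
    · simp only; rw [co_eq c h45]; exact mem_Icc_of_mem_Bx hc.1 _
    · simp only; rw [co_eq c h55]; exact mem_Icc_of_mem_Bx hc.1 _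
  · intro c _ c' _ h
    simp only [Prod.mk.injEq] at h
    obtain ⟨h1, h2, h3⟩ := h
    funext i
    rw [← co_eq c i.isLt, ← co_eq c' i.isLt]
    rcases Nat.lt_or_ge i.val (d + 4) with h4 | h4
    · have h5 : (fixPoly (co c) (d + 3) (co c (d + 5) + co c (d + 4))).coeff i.val =
          (fixPoly (co c') (d + 3) (co c' (d + 5) + co c' (d + 4))).coeff i.val := by rw [h1]
      rw [fixPoly_coeff _ _ _ (by omega), fixPoly_coeff _ _ _ (by omega), h2, h3] at h5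
      linarith
    · rcases Nat.lt_or_ge i.val (d + 5) with h5 | h5
      · have : i.val = d + 4 := by omega
        rw [this]; exact h2
      · have : i.val = d + 5 := by have := i.isLt; omega
        rw [this]; exact h3

open scoped Classical in
theorem card_triple_le (T H : ℕ) (hT : 1 ≤ T) :
    ((((Finset.Icc (-(H : ℤ)) H) ×ˢ ((Finset.Icc (-(H : ℤ)) H) ×ˢ (Finset.Icc (-(H : ℤ)) H))).filter
      (fun t => t.1 ≠ 0 ∧ ∃ m : ℕ, T < m ∧ (m : ℤ) ∣ t.1 ∧ (m : ℤ) ∣ t.2.2 + t.2.1)).card : ℝ) ≤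
      (2 * H + 1) * (6 * H ^ 2 / T) := by
  set I := Finset.Icc (-(H : ℤ)) H with hI
  have hsub : (I ×ˢ (I ×ˢ I)).filter
      (fun t => t.1 ≠ 0 ∧ ∃ m : ℕ, T < m ∧ (m : ℤ) ∣ t.1 ∧ (m : ℤ) ∣ t.2.2 + t.2.1) ⊆
      I.biUnion (fun s => ((I ×ˢ I).filter
        (fun t => t.1 ≠ 0 ∧ ∃ m : ℕ, T < m ∧ (m : ℤ) ∣ t.1 ∧ (m : ℤ) ∣ t.2 + s)).image
          (fun t => (t.1, s, t.2))) := by
    intro t ht
    rw [Finset.mem_filter, Finset.mem_product, Finset.mem_product] at ht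
    obtain ⟨⟨h1, h2, h3⟩, h4⟩ := ht
    rw [Finset.mem_biUnion]
    refine ⟨t.2.1, h2, ?_⟩
    rw [Finset.mem_image]
    refine ⟨(t.1, t.2.2), ?_, rfl⟩
    rw [Finset.mem_filter, Finset.mem_product]
    exact ⟨⟨h1, h3⟩, h4⟩
  have h1 := (Finset.card_le_card hsub).trans Finset.card_biUnion_le
  calc (((I ×ˢ (I ×ˢ I)).filter
      (fun t => t.1 ≠ 0 ∧ ∃ m : ℕ, T < m ∧ (m : ℤ) ∣ t.1 ∧ (m : ℤ) ∣ t.2.2 + t.2.1)).card : ℝ)
      ≤ ((∑ s ∈ I, (((I ×ˢ I).filter
        (fun t => t.1 ≠ 0 ∧ ∃ m : ℕ, T < m ∧ (m : ℤ) ∣ t.1 ∧ (m : ℤ) ∣ t.2 + s)).image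
          (fun t => (t.1, s, t.2))).card : ℕ) : ℝ) := by exact_mod_cast h1
    _ = ∑ s ∈ I, ((((I ×ˢ I).filter
        (fun t => t.1 ≠ 0 ∧ ∃ m : ℕ, T < m ∧ (m : ℤ) ∣ t.1 ∧ (m : ℤ) ∣ t.2 + s)).image
          (fun t => (t.1, s, t.2))).card : ℝ) := by push_cast; rfl
    _ ≤ ∑ s ∈ I, (6 * (H : ℝ) ^ 2 / T) := by
        refine Finset.sum_le_sum fun s _ => ?_
        refine le_trans ?_ (card_pair_le T H hT s)
        exact_mod_cast Finset.card_image_le
    _ = (2 * H + 1) * (6 * H ^ 2 / T) := by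
        rw [Finset.sum_const, nsmul_eq_mul, hI, card_Icc_symm]; push_cast; ring

/-- the final count -/
theorem final_count (d B T : ℕ) (hB : B ≤ d + 1) (hT : 1 ≤ T) :
    ∃ K : ℝ, 0 ≤ K ∧ ∀ H : ℕ, 1 ≤ H →
      ((withPer (d + 3) B H).ncard : ℝ) ≤
        (2 * H + 1 : ℝ) ^ (d + 6) * (8 / T) +
          (2 * H + 1 : ℝ) ^ (d + 5) * (K * (2 * (Nat.sqrt H : ℝ) + 1)) := by
  classical
  obtain ⟨Ω, c0, hΩ, hc0, hdich⟩ := dichotomy d B T hB hT
  set Ωf := hΩ.toFinset with hΩf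
  set K0 : ℝ := (d + 3) * (2 * (3 * c0) ^ (d + 3)) with hK0
  refine ⟨1 + (Ωf.card : ℝ) ^ 3 + K0, by positivity, ?_⟩
  intro H hH
  set N := d + 6 with hN
  set I := Finset.Icc (-(H : ℤ)) H with hI
  have l2 : d + 2 < N := by omega
  have l3 : d + 3 < N := by omega
  have l4 : d + 4 < N := by omega
  have l5 : d + 5 < N := by omega
  set i2 : Fin N := ⟨d + 2, l2⟩ with hi2
  set i3 : Fin N := ⟨d + 3, l3⟩ with hi3
  set i4 : Fin N := ⟨d + 4, l4⟩ with hi4
  set i5 : Fin N := ⟨d + 5, l5⟩ with hi5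
  have n32 : i3 ≠ i2 := by intro h; have := congrArg Fin.val h; simp [hi3, hi2] at this
  have n34 : i3 ≠ i4 := by intro h; have := congrArg Fin.val h; simp [hi3, hi4] at this
  have n35 : i3 ≠ i5 := by intro h; have := congrArg Fin.val h; simp [hi3, hi5] at this
  have n45 : i4 ≠ i5 := by intro h; have := congrArg Fin.val h; simp [hi4, hi5] at this
  set T0 := I.filter (fun a : ℤ => |a| * (T : ℤ) < H) with hT0
  set T1 := I.filter (fun a => a ≠ 0 ∧ ∃ m : ℕ, T < m ∧ ((m : ℤ) ^ 2) ∣ a) with hT1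
  set T2 := (I ×ˢ I).filter
      (fun t => t.1 ≠ 0 ∧ ∃ m : ℕ, T < m ∧ (m : ℤ) ∣ t.1 ∧ (m : ℤ) ∣ t.2 + 0) with hT2
  set T4 := (I ×ˢ (I ×ˢ I)).filter
      (fun t => t.1 ≠ 0 ∧ ∃ m : ℕ, T < m ∧ (m : ℤ) ∣ t.1 ∧ (m : ℤ) ∣ t.2.2 + t.2.1) with hT4
  set S0 := (Bx N H).filter (fun c => c i3 ∈ T0) with hS0
  set S1 := (Bx N H).filter (fun c => c i3 ∈ T1) with hS1
  set S2 := (Bx N H).filter (fun c => (c i3, c i2) ∈ T2) with hS2
  set S3 := (Bx N H).filter (fun c => (c i3, c i4) ∈ T2) with hS3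
  set S4 := (Bx N H).filter (fun c => (c i3, c i4, c i5) ∈ T4) with hS4
  set S5 := (Ωf ×ˢ (Ωf ×ˢ Ωf)).biUnion (fun t => (Bx N H).filter (fun c : Fin N → ℤ =>
      (co c (d + 5) : AlgebraicClosure ℚ) * t.2.2 + (co c (d + 4) : AlgebraicClosure ℚ) * t.1 =
        evA (co c) (d + 3) t.2.1)) with hS5
  set S6 := (Bx N H).filter (fun c : Fin N → ℤ =>
      fixPoly (co c) (d + 3) (co c (d + 5) + co c (d + 4)) ∈ QS (d + 3) c0 H) with hS6
  have hcover : withPer (d + 3) B H ⊆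
      ((S0 ∪ (S1 ∪ (S2 ∪ (S3 ∪ (S4 ∪ (S5 ∪ S6)))))) : Finset (Fin N → ℤ)) := by
    intro c hc
    have hcB : c ∈ Bx N H := mem_Bx.mpr hc.1
    have hA0 : c i3 ≠ 0 := by
      have := hc.2.1
      rwa [co_eq c l3] at this
    have hI' : ∀ i : Fin N, c i ∈ I := fun i => mem_Icc_of_mem_Bx hcB i
    have h := hdich H c hc
    rw [co_eq c l2, co_eq c l3, co_eq c l4, co_eq c l5] at h
    simp only [Finset.coe_union, Set.mem_union, Finset.mem_coe]
    rcases h with h | h | h | h | h | h | h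
    · left
      rw [hS0, Finset.mem_filter, hT0, Finset.mem_filter]
      exact ⟨hcB, hI' _, h⟩
    · right; left
      rw [hS1, Finset.mem_filter, hT1, Finset.mem_filter]
      exact ⟨hcB, hI' _, hA0, h⟩
    · right; right; left
      rw [hS2, Finset.mem_filter, hT2, Finset.mem_filter, Finset.mem_product]
      obtain ⟨m, h1, h2, h3⟩ := h
      exact ⟨hcB, ⟨hI' _, hI' _⟩, hA0, m, h1, h2, by rw [add_zero]; exact h3⟩
    · right; right; right; left
      rw [hS3, Finset.mem_filter, hT2, Finset.mem_filter, Finset.mem_product]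
      obtain ⟨m, h1, h2, h3⟩ := h
      exact ⟨hcB, ⟨hI' _, hI' _⟩, hA0, m, h1, h2, by rw [add_zero]; exact h3⟩
    · right; right; right; right; left
      rw [hS4, Finset.mem_filter, hT4, Finset.mem_filter, Finset.mem_product, Finset.mem_product]
      exact ⟨hcB, ⟨hI' _, hI' _, hI' _⟩, hA0, h⟩
    · right; right; right; right; right; left
      obtain ⟨u, hu, v, hv, w, hw, hrel⟩ := h
      rw [hS5, Finset.mem_biUnion]
      refine ⟨(u, v, w), ?_, ?_⟩
      · rw [Finset.mem_product, Finset.mem_product, hΩf, Set.Finite.mem_toFinset,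
          Set.Finite.mem_toFinset, Set.Finite.mem_toFinset]
        exact ⟨hu, hv, hw⟩
      · rw [Finset.mem_filter, co_eq c l4, co_eq c l5]
        exact ⟨hcB, hrel⟩
    · right; right; right; right; right; right
      rw [hS6, Finset.mem_filter, co_eq c l4, co_eq c l5]
      exact ⟨hcB, h⟩
  have hncard : (withPer (d + 3) B H).ncard ≤ (S0 ∪ (S1 ∪ (S2 ∪ (S3 ∪ (S4 ∪ (S5 ∪ S6)))))).card := by
    rw [← Set.ncard_coe_finset]
    exact Set.ncard_le_ncard hcover (Finset.finite_toSet _)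
  have hsum : (S0 ∪ (S1 ∪ (S2 ∪ (S3 ∪ (S4 ∪ (S5 ∪ S6)))))).card ≤
      S0.card + (S1.card + (S2.card + (S3.card + (S4.card + (S5.card + S6.card))))) := by
    refine (Finset.card_union_le _ _).trans (Nat.add_le_add_left ?_ _)
    refine (Finset.card_union_le _ _).trans (Nat.add_le_add_left ?_ _)
    refine (Finset.card_union_le _ _).trans (Nat.add_le_add_left ?_ _)
    refine (Finset.card_union_le _ _).trans (Nat.add_le_add_left ?_ _)
    refine (Finset.card_union_le _ _).trans (Nat.add_le_add_left ?_ _)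
    exact Finset.card_union_le _ _
  set X : ℝ := 2 * H + 1 with hX
  have hX1 : 1 ≤ X := by rw [hX]; have : (0:ℝ) ≤ H := Nat.cast_nonneg H; linarith
  have hX0 : 0 < X := by linarith
  have hTpos : (0 : ℝ) < T := by exact_mod_cast hT
  have hHX : 2 * (H : ℝ) ≤ X := by rw [hX]; linarith
  have hH0 : (0 : ℝ) ≤ H := Nat.cast_nonneg H
  have hH2 : 6 * (H : ℝ) ^ 2 ≤ 2 * X ^ 2 := by nlinarith
  have hXcast : ∀ k : ℕ, (((2 * H + 1) ^ k : ℕ) : ℝ) = X ^ k := by
    intro k; rw [hX]; push_cast; ring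
  have hN1 : N - 1 = d + 5 := by omega
  have hN2 : N - 2 = d + 4 := by omega
  have hN3 : N - 3 = d + 3 := by omega
  have b0 : (S0.card : ℝ) ≤ X ^ N * (1 / T) + X ^ (d + 5) := by
    have h1 := card_one_le (H := H) i3 T0
    have h2 : (S0.card : ℝ) ≤ (T0.card : ℝ) * X ^ (d + 5) := by
      rw [← hXcast, ← hN1]; exact_mod_cast h1
    refine h2.trans ?_
    have h3 := card_small_le T H hT
    calc (T0.card : ℝ) * X ^ (d + 5) ≤ (2 * H / T + 1) * X ^ (d + 5) := by gcongr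
      _ ≤ (X / T + 1) * X ^ (d + 5) := by gcongr
      _ = X ^ N * (1 / T) + X ^ (d + 5) := by rw [hN]; ring
  have b1 : (S1.card : ℝ) ≤ X ^ N * (1 / T) := by
    have h1 := card_one_le (H := H) i3 T1
    have h2 : (S1.card : ℝ) ≤ (T1.card : ℝ) * X ^ (d + 5) := by
      rw [← hXcast, ← hN1]; exact_mod_cast h1
    refine h2.trans ?_
    have h3 := card_sq_le T H hT
    calc (T1.card : ℝ) * X ^ (d + 5) ≤ (2 * H / T) * X ^ (d + 5) := by gcongr
      _ ≤ (X / T) * X ^ (d + 5) := by gcongr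
      _ = X ^ N * (1 / T) := by rw [hN]; ring
  have b2 : (S2.card : ℝ) ≤ X ^ N * (2 / T) := by
    have h1 := card_two_le (H := H) n32 T2
    have h2 : (S2.card : ℝ) ≤ (T2.card : ℝ) * X ^ (d + 4) := by
      rw [← hXcast, ← hN2]; exact_mod_cast h1
    refine h2.trans ?_
    have h3 := card_pair_le T H hT 0
    calc (T2.card : ℝ) * X ^ (d + 4) ≤ (6 * (H : ℝ) ^ 2 / T) * X ^ (d + 4) := by gcongr
      _ ≤ (2 * X ^ 2 / T) * X ^ (d + 4) := by gcongr
      _ = X ^ N * (2 / T) := by rw [hN]; ring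
  have b3 : (S3.card : ℝ) ≤ X ^ N * (2 / T) := by
    have h1 := card_two_le (H := H) n34 T2
    have h2 : (S3.card : ℝ) ≤ (T2.card : ℝ) * X ^ (d + 4) := by
      rw [← hXcast, ← hN2]; exact_mod_cast h1
    refine h2.trans ?_
    have h3 := card_pair_le T H hT 0
    calc (T2.card : ℝ) * X ^ (d + 4) ≤ (6 * (H : ℝ) ^ 2 / T) * X ^ (d + 4) := by gcongr
      _ ≤ (2 * X ^ 2 / T) * X ^ (d + 4) := by gcongr
      _ = X ^ N * (2 / T) := by rw [hN]; ring
  have b4 : (S4.card : ℝ) ≤ X ^ N * (2 / T) := by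
    have h1 := card_three_le (H := H) n34 n35 n45 T4
    have h2 : (S4.card : ℝ) ≤ (T4.card : ℝ) * X ^ (d + 3) := by
      rw [← hXcast, ← hN3]; exact_mod_cast h1
    refine h2.trans ?_
    have h3 := card_triple_le T H hT
    calc (T4.card : ℝ) * X ^ (d + 3) ≤ ((2 * H + 1) * (6 * (H : ℝ) ^ 2 / T)) * X ^ (d + 3) := by
          gcongr
      _ ≤ (X * (2 * X ^ 2 / T)) * X ^ (d + 3) := by gcongr
      _ = X ^ N * (2 / T) := by rw [hN]; ring
  have b5 : (S5.card : ℝ) ≤ (Ωf.card : ℝ) ^ 3 * X ^ (d + 5) := by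
    have h1 : S5.card ≤ (Ωf ×ˢ (Ωf ×ˢ Ωf)).card * (2 * H + 1) ^ (d + 5) :=
      Finset.card_biUnion_le_card_mul _ _ _ fun t _ => card_relation_le d H t.1 t.2.1 t.2.2
    rw [Finset.card_product, Finset.card_product] at h1
    have h2 : (S5.card : ℝ) ≤ ((Ωf.card : ℝ) * (Ωf.card * Ωf.card)) * X ^ (d + 5) := by
      rw [← hXcast]; exact_mod_cast h1
    refine h2.trans (le_of_eq (by ring))
  have b6 : (S6.card : ℝ) ≤ K0 * (2 * (Nat.sqrt H : ℝ) + 1) * X ^ (d + 5) := by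
    have h1 := card_fixPoly_le d c0 H
    have h2 := card_QS_le (d + 3) c0 H hc0
    have h3 : S6.card ≤ ((d + 3) * (2 * ((2 * Nat.sqrt H + 1) * (2 * H + 1)) *
        ((3 * c0) ^ (d + 3) * H ^ (d + 3 - 1)))) * ((2 * H + 1) * (2 * H + 1)) :=
      h1.trans (Nat.mul_le_mul_right _ h2)
    have h4 : (S6.card : ℝ) ≤ ((d + 3) * (2 * ((2 * (Nat.sqrt H : ℝ) + 1) * X) *
        ((3 * c0) ^ (d + 3) * (H : ℝ) ^ (d + 2)))) * (X * X) := by
      have : d + 3 - 1 = d + 2 := rfl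
      rw [this] at h3
      rw [hX]
      exact_mod_cast h3
    refine h4.trans ?_
    have h5 : (H : ℝ) ^ (d + 2) ≤ X ^ (d + 2) := pow_le_pow_left₀ hH0 (by linarith) _
    calc ((d + 3) * (2 * ((2 * (Nat.sqrt H : ℝ) + 1) * X) *
        ((3 * c0) ^ (d + 3) * (H : ℝ) ^ (d + 2)))) * (X * X)
        ≤ (((d : ℝ) + 3) * (2 * ((2 * (Nat.sqrt H : ℝ) + 1) * X) *
        ((3 * c0) ^ (d + 3) * X ^ (d + 2)))) * (X * X) := by gcongr
      _ = K0 * (2 * (Nat.sqrt H : ℝ) + 1) * X ^ (d + 5) := by rw [hK0]; ring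
  have hs1 : (1 : ℝ) ≤ 2 * (Nat.sqrt H : ℝ) + 1 := by
    have : (0 : ℝ) ≤ (Nat.sqrt H : ℝ) := Nat.cast_nonneg _
    linarith
  have hXp : 0 < X ^ (d + 5) := pow_pos hX0 _
  have htot : ((withPer (d + 3) B H).ncard : ℝ) ≤
      (S0.card : ℝ) + (S1.card + (S2.card + (S3.card + (S4.card + (S5.card + S6.card))))) := by
    exact_mod_cast hncard.trans hsum
  have h8 : X ^ N * (1 / T) + X ^ N * (1 / T) + X ^ N * (2 / T) + X ^ N * (2 / T) +
      X ^ N * (2 / T) = X ^ N * (8 / T) := by ring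
  have hK1 : X ^ (d + 5) ≤ X ^ (d + 5) * (2 * (Nat.sqrt H : ℝ) + 1) := by
    nlinarith
  have hK2 : (Ωf.card : ℝ) ^ 3 * X ^ (d + 5) ≤
      (Ωf.card : ℝ) ^ 3 * (X ^ (d + 5) * (2 * (Nat.sqrt H : ℝ) + 1)) := by
    exact mul_le_mul_of_nonneg_left hK1 (by positivity)
  have hfinal : X ^ (d + 5) * ((1 + (Ωf.card : ℝ) ^ 3 + K0) * (2 * (Nat.sqrt H : ℝ) + 1)) =
      X ^ (d + 5) * (2 * (Nat.sqrt H : ℝ) + 1) +
      (Ωf.card : ℝ) ^ 3 * (X ^ (d + 5) * (2 * (Nat.sqrt H : ℝ) + 1)) +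
      K0 * (2 * (Nat.sqrt H : ℝ) + 1) * X ^ (d + 5) := by ring
  rw [hfinal]
  linarith

end Pool.Agent.H.MP_0e6b5f_nt
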