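import Pool.Agent.H.MP_0e6b5f_nt.DensRam

/-!
# Bounded denominators
-/

namespace Pool.Agent.H.MP_0e6b5f_nt

open Function Polynomial Module

section IntCrit

variable {E : Type*} [Field E]

theorem isIntegral_of_closure {y : E} (h : IsIntegral (Subring.closure (∅ : Set E)) y) :
    IsIntegral ℤ y := by
  have hint : Algebra.IsIntegral ℤ (Subring.closure (∅ : Set E)) := by
    refine ⟨fun z => ?_⟩
    have hz : (z : E) ∈ (⊥ : Subring E) := by
      rw [← Subring.closure_empty]; exact z.2
    obtain ⟨n, hn⟩ := Subring.mem_bot.mp hz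
    have : z = algebraMap ℤ (Subring.closure (∅ : Set E)) n := by
      apply Subtype.ext
      rw [← hn]
      simp
    rw [this]
    exact isIntegral_algebraMap
  exact isIntegral_trans (R := ℤ) y h

variable [Algebra ℚ E]

/-- a number algebraic over `ℚ` which is not an algebraic integer has a pole above some prime -/
theorem exists_pole {y : E} (halg : IsIntegral ℚ y) (hy : ¬ IsIntegral ℤ y) :
    ∃ (V : ValuationSubring E) (p : ℕ), p.Prime ∧ V.valuation (p : E) < 1 ∧ y ∉ V := by
  have hy' : y ∉ (integralClosure (Subring.closure (∅ : Set E)) E).toSubring := fun h =>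
    hy (isIntegral_of_closure h)
  rw [← iInf_valuationSubring_superset, Subring.mem_iInf] at hy'
  push Not at hy'
  obtain ⟨⟨V, hV⟩, hyV⟩ := hy'
  refine ⟨V, ?_⟩
  by_contra hcon
  push Not at hcon
  apply hyV
  -- every rational number lies in `V`
  have hnat : ∀ n : ℕ, n ≠ 0 → V.valuation (n : E) = 1 := by
    intro n
    induction n using Nat.strong_induction_on with
    | _ n ih =>
      intro hn
      rcases eq_or_ne n 1 with rfl | h1
      · simp
      · obtain ⟨p, hp, m, hm⟩ := Nat.exists_prime_and_dvd h1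
        have hvp : V.valuation (p : E) = 1 := by
          apply le_antisymm
          · have := val_int_le_one V.valuation (p : ℤ)
            rwa [Int.cast_natCast] at this
          · by_contra hlt
            push Not at hlt
            exact hyV (hcon p hp hlt)
        have hm0 : m ≠ 0 := by rintro rfl; simp at hm; exact hn hm
        have hmn : m < n := by
          rw [hm]
          have := hp.two_le
          nlinarith [Nat.pos_of_ne_zero hm0]
        rw [hm]
        push_cast
        rw [map_mul, hvp, ih m hmn hm0, one_mul]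
  have hrat : ∀ r : ℚ, algebraMap ℚ E r ∈ V := by
    intro r
    rw [← V.valuation_le_one_iff]
    rw [← Rat.num_div_den r, map_div₀, map_div₀]
    have h1 : V.valuation (algebraMap ℚ E (r.den : ℚ)) = 1 := by
      rw [map_natCast]; exact hnat _ r.den_nz
    rw [h1, div_one]
    have h2 : algebraMap ℚ E ((r.num : ℤ) : ℚ) = ((r.num : ℤ) : E) := by simp
    rw [h2]
    exact val_int_le_one _ _
  -- `V` is integrally closed
  set P := minpoly ℚ y with hP
  have hmon : P.Monic := minpoly.monic halg
  by_contra hyV'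
  have hlt : 1 < V.valuation y := by
    rw [← not_le, V.valuation_le_one_iff]; exact hyV'
  set m := P.natDegree with hm
  have hm0 : 0 < m := minpoly.natDegree_pos halg
  have haev := minpoly.aeval ℚ y
  rw [aeval_eq_sum_range, Finset.sum_range_succ] at haev
  simp only [Algebra.smul_def] at haev
  have hlead : (minpoly ℚ y).coeff (minpoly ℚ y).natDegree = 1 := hmon
  rw [hlead, map_one, one_mul] at haev
  have h1 : y ^ m = - ∑ i ∈ Finset.range m, algebraMap ℚ E (P.coeff i) * y ^ i :=
    eq_neg_of_add_eq_zero_right haev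
  have h2 : V.valuation (y ^ m) ≤ V.valuation y ^ (m - 1) := by
    rw [h1, Valuation.map_neg]
    refine V.valuation.map_sum_le fun i hi => ?_
    have hi' := Finset.mem_range.mp hi
    rw [map_mul, map_pow]
    calc V.valuation (algebraMap ℚ E (P.coeff i)) * V.valuation y ^ i
        ≤ 1 * V.valuation y ^ (m - 1) :=
          mul_le_mul' ((V.valuation_le_one_iff _).mpr (hrat _))
            (pow_le_pow_right₀ hlt.le (by omega))
      _ = V.valuation y ^ (m - 1) := one_mul _
  rw [map_pow] at h2
  have h3 : V.valuation y ^ (m - 1) < V.valuation y ^ m := pow_lt_pow_right₀ hlt (by omega)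
  exact absurd h2 (not_le.mpr h3)

variable [CharZero E]

/-- the condition on the coefficients -/
def NicePrime (A : ℕ → ℤ) (d : ℕ) (M Δ : ℤ) (p : ℕ) : Prop :=
  ¬ (p : ℤ) ^ 2 ∣ A (d + 3) ∧ ¬ (p : ℤ) ∣ A (d + 2) ∧ ¬ (p : ℤ) ∣ Δ ∧ ¬ (p : ℤ) ∣ M + Δ

/-- bounded denominators -/
theorem const_or_integral {A : ℕ → ℤ} {d : ℕ} {M Δ : ℤ} (hA : A (d + 3) ≠ 0) {Y : ℕ}
    (hgood : ∀ p : ℕ, p.Prime → (∀ k : ℕ, (p : ℤ) ^ k ∣ A (d + 3) → p ^ k ≤ Y) ∨
      NicePrime A d M Δ p)
    (x : ℕ → E)
    (hrec : ∀ k, (M : E) * x (k + 2) + (Δ : E) * x k = evA A (d + 3) (x (k + 1)))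
    {n : ℕ} (hn : 0 < n) (hper : ∀ k, x (k + n) = x k)
    (halg : ∀ k, IsIntegral ℚ (x k)) (hdeg : ∀ k, (minpoly ℚ (x k)).natDegree < d + 2) :
    (∀ k, x (k + 1) = x k) ∨ ∀ k, IsIntegral ℤ ((Y.factorial : E) * x k) := by
  by_cases hconst : ∀ k, x (k + 1) = x k
  · exact Or.inl hconst
  right
  intro k
  by_contra hnint
  have halg' : IsIntegral ℚ ((Y.factorial : E) * x k) :=
    (isIntegral_natCast _).mul (halg k)
  obtain ⟨V, p, hp, hpv, hpole⟩ := exists_pole halg' hnint
  apply hpole
  rw [← V.valuation_le_one_iff, map_mul]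
  set v := V.valuation with hv
  have hp0 : v (p : E) ≠ 0 := by
    rw [Ne, map_eq_zero]; exact_mod_cast hp.ne_zero
  have hlead := lead_mul_integral v A (d + 1) M Δ x hrec hn hper k
  rw [map_mul] at hlead
  have hnatabs : (A (d + 3)).natAbs ≠ 0 := Int.natAbs_ne_zero.mpr hA
  obtain ⟨e, m, hm, hem⟩ := Nat.exists_eq_pow_mul_and_not_dvd hnatabs p hp.ne_one
  -- factor the leading coefficient
  obtain ⟨m', hm', hAm⟩ : ∃ m' : ℤ, ¬ (p : ℤ) ∣ m' ∧ A (d + 3) = (p : ℤ) ^ e * m' := by
    rcases Int.natAbs_eq (A (d + 3)) with h | h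
    · refine ⟨m, by exact_mod_cast hm, ?_⟩
      rw [h, hem]; push_cast; ring
    · refine ⟨-m, ?_, ?_⟩
      · rw [dvd_neg]; exact_mod_cast hm
      · rw [h, hem]; push_cast; ring
  have hvA : v (A (d + 3) : E) = v (p : E) ^ e := by
    rw [hAm]; push_cast
    rw [map_mul, map_pow, val_int_eq_one v hp hpv hm', mul_one]
  rcases hgood p hp with hsmall | hnice
  · -- the `p`-part divides `Y!`
    have h1 : p ^ e ≤ Y := hsmall e ⟨m', hAm⟩
    obtain ⟨c, hc⟩ : p ^ e ∣ Y.factorial := Nat.dvd_factorial (pow_pos hp.pos e) h1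
    rw [hc]
    push_cast
    rw [map_mul, map_pow, ← hvA]
    have hc1 : v (c : E) ≤ 1 := by
      have := val_int_le_one v (c : ℤ)
      simpa using this
    calc v (A (d + 3) : E) * v (c : E) * v (x k)
        = (v (A (d + 3) : E) * v (x k)) * v (c : E) := by rw [mul_right_comm]
      _ ≤ 1 := mul_le_one' hlead hc1
  · obtain ⟨h2, h3, h4, h5⟩ := hnice
    have hfac : v (Y.factorial : E) ≤ 1 := by
      have := val_int_le_one v (Y.factorial : ℤ)
      simpa using this
    suffices hxk : v (x k) ≤ 1 from mul_le_one' hfac hxk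
    -- either `p` does not divide the leading coefficient, or exactly once
    have he : e < 2 := by
      by_contra hcon
      push Not at hcon
      apply h2
      rw [hAm]
      exact Dvd.dvd.mul_right (pow_dvd_pow _ hcon) _
    rcases Nat.lt_or_ge e 1 with h0 | h0
    · have : e = 0 := by omega
      rw [hvA, this, pow_zero, one_mul] at hlead
      exact hlead
    · have he1 : e = 1 := by omega
      have key := integral_or_const v A d M Δ x hrec hn hper (v (p : E))⁻¹
        ((one_lt_inv₀ (zero_lt_iff.mpr hp0)).mpr hpv)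
        (by rw [hvA, he1, pow_one, inv_inv])
        (val_int_eq_one v hp hpv h3) (val_int_eq_one v hp hpv h4) (val_int_eq_one v hp hpv h5)
        (fun j => not_tot_ram v hp hpv hp0 (halg j) (hdeg j))
      rcases key with h | h
      · exact h k
      · exact absurd h hconst

end IntCrit

end Pool.Agent.H.MP_0e6b5f_nt
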