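import Pool.Agent.H.MP_0e6b5f_nt.DensCount

/-!
# Counting products of integer polynomials with controlled coefficients
-/

namespace Pool.Agent.H.MP_0e6b5f_nt

open Finset Polynomial

open scoped Classical in
/-- integer polynomials of degree `m`, leading coefficient `a` and coefficients at most `c |a|` -/
noncomputable def PS (m c : ℕ) (a : ℤ) : Finset ℤ[X] :=
  (Fintype.piFinset (fun _ : Fin m => Finset.Icc (-((c * a.natAbs : ℕ) : ℤ)) (c * a.natAbs : ℕ))).image
    (fun r => C a * X ^ m + ∑ i : Fin m, C (r i) * X ^ (i : ℕ))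

theorem card_PS_le (m c : ℕ) (a : ℤ) : (PS m c a).card ≤ (2 * (c * a.natAbs) + 1) ^ m := by
  classical
  refine Finset.card_image_le.trans ?_
  rw [Fintype.card_piFinset]
  simp only [card_Icc_symm, Finset.prod_const, Finset.card_univ, Fintype.card_fin]
  exact le_rfl

theorem mem_PS {m c : ℕ} {g : ℤ[X]} (hg : g.natDegree = m)
    (hb : ∀ i, |g.coeff i| ≤ c * |g.leadingCoeff|) : g ∈ PS m c g.leadingCoeff := by
  classical
  rw [PS, Finset.mem_image]
  refine ⟨fun i => g.coeff i, ?_, ?_⟩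
  · rw [Fintype.mem_piFinset]
    intro i
    rw [Finset.mem_Icc, ← abs_le]
    push_cast
    exact hb i
  · have h1 : g = ∑ i ∈ Finset.range (m + 1), C (g.coeff i) * X ^ i := by
      conv_lhs => rw [g.as_sum_range_C_mul_X_pow' (Nat.lt_succ_self g.natDegree)]
      rw [hg]
    conv_rhs => rw [h1]
    rw [Finset.sum_range_succ, add_comm]
    congr 1
    · rw [Fin.sum_univ_eq_sum_range (fun i => C (g.coeff i) * X ^ i) m]
    · rw [leadingCoeff, hg]

open scoped Classical in
/-- pairs of nonzero integers with small product -/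
noncomputable def PP (H : ℕ) : Finset (ℤ × ℤ) :=
  ((Finset.Icc (-(H : ℤ)) H) ×ˢ (Finset.Icc (-(H : ℤ)) H)).filter
    (fun t => t.1 ≠ 0 ∧ t.2 ≠ 0 ∧ |t.1 * t.2| ≤ H)

theorem card_PP_le (H : ℕ) : (PP H).card ≤ 2 * ((2 * Nat.sqrt H + 1) * (2 * H + 1)) := by
  classical
  set s := Nat.sqrt H with hs
  set I := Finset.Icc (-(H : ℤ)) H with hI
  set J := Finset.Icc (-(s : ℤ)) s with hJ
  have hsub : PP H ⊆ (J ×ˢ I) ∪ (I ×ˢ J) := by
    intro t ht
    rw [PP, Finset.mem_filter, Finset.mem_product] at ht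
    obtain ⟨⟨h1, h2⟩, h3, h4, h5⟩ := ht
    rw [Finset.mem_union, Finset.mem_product, Finset.mem_product]
    by_contra hcon
    push Not at hcon
    obtain ⟨hc1, hc2⟩ := hcon
    have h6 : t.1 ∉ J := fun h => hc1 h h2
    have h7 : t.2 ∉ J := hc2 h1
    have h8 : s + 1 ≤ t.1.natAbs := by
      by_contra hlt
      push Not at hlt
      apply h6
      rw [hJ, Finset.mem_Icc, ← abs_le]
      have : ((t.1.natAbs : ℕ) : ℤ) ≤ s := by exact_mod_cast Nat.lt_succ_iff.mp hlt
      rwa [Int.natCast_natAbs] at this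
    have h9 : s + 1 ≤ t.2.natAbs := by
      by_contra hlt
      push Not at hlt
      apply h7
      rw [hJ, Finset.mem_Icc, ← abs_le]
      have : ((t.2.natAbs : ℕ) : ℤ) ≤ s := by exact_mod_cast Nat.lt_succ_iff.mp hlt
      rwa [Int.natCast_natAbs] at this
    have h10 : H < (s + 1) * (s + 1) := Nat.lt_succ_sqrt H
    have h11 : (s + 1) * (s + 1) ≤ t.1.natAbs * t.2.natAbs := Nat.mul_le_mul h8 h9
    have h12 : t.1.natAbs * t.2.natAbs ≤ H := by
      have : ((t.1.natAbs * t.2.natAbs : ℕ) : ℤ) ≤ H := by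
        rw [Nat.cast_mul, Int.natCast_natAbs, Int.natCast_natAbs, ← abs_mul]; exact h5
      exact_mod_cast this
    omega
  refine (Finset.card_le_card hsub).trans ((Finset.card_union_le _ _).trans (le_of_eq ?_))
  rw [Finset.card_product, Finset.card_product, hI, hJ, card_Icc_symm, card_Icc_symm]
  ring

open scoped Classical in
/-- the products -/
noncomputable def QS (d c H : ℕ) : Finset ℤ[X] :=
  (Finset.Ico 1 d).biUnion (fun m => (PP H).biUnion (fun t =>
    ((PS m c t.1) ×ˢ (PS (d - m) c t.2)).image (fun gq => gq.1 * gq.2)))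

theorem card_QS_le (d c H : ℕ) (hc : 1 ≤ c) :
    (QS d c H).card ≤ d * (2 * ((2 * Nat.sqrt H + 1) * (2 * H + 1)) * ((3 * c) ^ d * H ^ (d - 1))) := by
  classical
  rw [QS]
  have h1 : ∀ m ∈ Finset.Ico 1 d, ((PP H).biUnion (fun t =>
      ((PS m c t.1) ×ˢ (PS (d - m) c t.2)).image (fun gq => gq.1 * gq.2))).card ≤
      2 * ((2 * Nat.sqrt H + 1) * (2 * H + 1)) * ((3 * c) ^ d * H ^ (d - 1)) := by
    intro m hm
    rw [Finset.mem_Ico] at hm
    refine (Finset.card_biUnion_le_card_mul _ _ ((3 * c) ^ d * H ^ (d - 1)) fun t ht => ?_).trans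
      (Nat.mul_le_mul_right _ (card_PP_le H))
    rw [PP, Finset.mem_filter] at ht
    obtain ⟨_, ha, hb, hab⟩ := ht
    refine Finset.card_image_le.trans ?_
    rw [Finset.card_product]
    set a := t.1.natAbs with haa
    set b := t.2.natAbs with hbb
    have ha1 : 1 ≤ a := Nat.one_le_iff_ne_zero.mpr (Int.natAbs_ne_zero.mpr ha)
    have hb1 : 1 ≤ b := Nat.one_le_iff_ne_zero.mpr (Int.natAbs_ne_zero.mpr hb)
    have habH : a * b ≤ H := by
      have : ((a * b : ℕ) : ℤ) ≤ H := by
        rw [Nat.cast_mul, haa, hbb, Int.natCast_natAbs, Int.natCast_natAbs, ← abs_mul]; exact hab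
      exact_mod_cast this
    have e1 : 2 * (c * a) + 1 ≤ 3 * c * a := by
      have : 1 ≤ c * a := Nat.one_le_iff_ne_zero.mpr (by positivity)
      nlinarith
    have e2 : 2 * (c * b) + 1 ≤ 3 * c * b := by
      have : 1 ≤ c * b := Nat.one_le_iff_ne_zero.mpr (by positivity)
      nlinarith
    calc (PS m c t.1).card * (PS (d - m) c t.2).card
        ≤ (2 * (c * a) + 1) ^ m * (2 * (c * b) + 1) ^ (d - m) :=
          Nat.mul_le_mul (card_PS_le _ _ _) (card_PS_le _ _ _)
      _ ≤ (3 * c * a) ^ m * (3 * c * b) ^ (d - m) :=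
          Nat.mul_le_mul (Nat.pow_le_pow_left e1 _) (Nat.pow_le_pow_left e2 _)
      _ = (3 * c) ^ d * (a ^ m * b ^ (d - m)) := by
          have hd : d = m + (d - m) := by omega
          conv_rhs => rw [hd, pow_add]
          rw [mul_pow (3 * c) a, mul_pow (3 * c) b]
          have : m + (d - m) - m = d - m := by omega
          rw [this]
          ring
      _ ≤ (3 * c) ^ d * H ^ (d - 1) := by
          apply Nat.mul_le_mul_left
          have e3 : a ^ m * b ^ (d - m) = (a * b) * (a ^ (m - 1) * b ^ (d - m - 1)) := by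
            have h1 : m = (m - 1) + 1 := by omega
            have h2 : d - m = (d - m - 1) + 1 := by omega
            conv_lhs => rw [h1, pow_succ]
            have h3 : d - ((m - 1) + 1) = (d - m - 1) + 1 := by omega
            rw [h3, pow_succ]; ring
          have e4 : a ^ (m - 1) * b ^ (d - m - 1) ≤ (a * b) ^ (d - 2) := by
            rw [mul_pow]
            exact Nat.mul_le_mul (Nat.pow_le_pow_right ha1 (by omega))
              (Nat.pow_le_pow_right hb1 (by omega))
          calc a ^ m * b ^ (d - m) = (a * b) * (a ^ (m - 1) * b ^ (d - m - 1)) := e3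
            _ ≤ (a * b) * (a * b) ^ (d - 2) := Nat.mul_le_mul_left _ e4
            _ = (a * b) ^ (d - 1) := by rw [← pow_succ']; congr 1; omega
            _ ≤ H ^ (d - 1) := Nat.pow_le_pow_left habH _
  refine (Finset.card_biUnion_le_card_mul _ _ _ h1).trans ?_
  apply Nat.mul_le_mul_right
  rw [Nat.card_Ico]; omega

theorem mem_QS {d c H : ℕ} {g q : ℤ[X]} (hgd : 1 ≤ g.natDegree) (hqd : 1 ≤ q.natDegree)
    (hd : g.natDegree + q.natDegree = d)
    (hH : |(g * q).leadingCoeff| ≤ H) (hb1 : ∀ i, |g.coeff i| ≤ c * |g.leadingCoeff|)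
    (hb2 : ∀ i, |q.coeff i| ≤ c * |q.leadingCoeff|) : g * q ∈ QS d c H := by
  classical
  have hg0 : g ≠ 0 := by rintro rfl; simp at hgd
  have hq0 : q ≠ 0 := by rintro rfl; simp at hqd
  rw [leadingCoeff_mul] at hH
  have ha : g.leadingCoeff ≠ 0 := leadingCoeff_ne_zero.mpr hg0
  have hb : q.leadingCoeff ≠ 0 := leadingCoeff_ne_zero.mpr hq0
  have ha1 : 1 ≤ |g.leadingCoeff| := Int.one_le_abs ha
  have hb1' : 1 ≤ |q.leadingCoeff| := Int.one_le_abs hb
  rw [QS, Finset.mem_biUnion]
  refine ⟨g.natDegree, ?_, ?_⟩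
  · rw [Finset.mem_Ico]; omega
  · rw [Finset.mem_biUnion]
    refine ⟨(g.leadingCoeff, q.leadingCoeff), ?_, ?_⟩
    · rw [PP, Finset.mem_filter, Finset.mem_product]
      rw [abs_mul] at hH
      refine ⟨⟨?_, ?_⟩, ha, hb, by rw [abs_mul]; exact hH⟩
      · rw [Finset.mem_Icc, ← abs_le]
        nlinarith
      · rw [Finset.mem_Icc, ← abs_le]
        nlinarith
    · rw [Finset.mem_image]
      refine ⟨(g, q), ?_, rfl⟩
      rw [Finset.mem_product]
      refine ⟨mem_PS rfl hb1, mem_PS ?_ hb2⟩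
      omega

end Pool.Agent.H.MP_0e6b5f_nt
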