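import Pool.Agent.H.MP_0e6b5f_nt.DensFactor
import Pool.Agent.H.MP_0e6b5f_nt.DensRed
import Pool.Agent.H.MP_0e6b5f_nt.DefsDens

/-!
# The structure of the maps with a periodic point of small degree
-/

namespace Pool.Agent.H.MP_0e6b5f_nt

open Function Polynomial Module

/-- the polynomial `A_0 + ... + A_D X^D - s X` -/
noncomputable def fixPoly (A : ℕ → ℤ) (D : ℕ) (s : ℤ) : ℤ[X] :=
  (∑ i ∈ Finset.range (D + 1), C (A i) * X ^ i) - C s * X

theorem fixPoly_eval₂ {R : Type*} [CommRing R] (A : ℕ → ℤ) (D : ℕ) (s : ℤ) (z : R) :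
    (fixPoly A D s).eval₂ (Int.castRingHom R) z =
      (∑ i ∈ Finset.range (D + 1), (A i : R) * z ^ i) - (s : R) * z := by
  rw [fixPoly, eval₂_sub, eval₂_finsetSum]
  have hC : ∀ n : ℤ, (C n : ℤ[X]).eval₂ (Int.castRingHom R) z = (n : R) := fun n => by
    rw [eval₂_C]; rfl
  simp only [eval₂_mul, hC, eval₂_pow, eval₂_X]

theorem fixPoly_coeff (A : ℕ → ℤ) {D : ℕ} (s : ℤ) (i : ℕ) (hi : i ≤ D) :
    (fixPoly A D s).coeff i = A i - if i = 1 then s else 0 := by
  rw [fixPoly, coeff_sub, finsetSum_coeff]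
  simp only [coeff_C_mul, coeff_X_pow, coeff_X]
  congr 1
  · rw [Finset.sum_eq_single i]
    · simp
    · intro b _ hb
      rw [if_neg (Ne.symm hb), mul_zero]
    · intro h
      exact absurd (Finset.mem_range.mpr (by omega)) h
  · by_cases h : i = 1
    · subst h; simp
    · rw [if_neg h, if_neg (Ne.symm h), mul_zero]

theorem fixPoly_natDegree_le (A : ℕ → ℤ) {D : ℕ} (hD : 1 ≤ D) (s : ℤ) :
    (fixPoly A D s).natDegree ≤ D := by
  rw [fixPoly]
  refine (natDegree_sub_le _ _).trans (max_le ?_ ?_)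
  · apply natDegree_sum_le_of_forall_le
    intro i hi
    have := Finset.mem_range.mp hi
    exact (natDegree_C_mul_X_pow_le _ _).trans (by omega)
  · exact (natDegree_C_mul_le _ _).trans (by rw [natDegree_X]; exact hD)

theorem fixPoly_natDegree (A : ℕ → ℤ) {D : ℕ} (hD : 2 ≤ D) (s : ℤ) (hA : A D ≠ 0) :
    (fixPoly A D s).natDegree = D := by
  apply le_antisymm (fixPoly_natDegree_le A (by omega) s)
  apply le_natDegree_of_ne_zero
  rw [fixPoly_coeff A s D le_rfl, if_neg (by omega), sub_zero]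
  exact hA

theorem fixPoly_leadingCoeff (A : ℕ → ℤ) {D : ℕ} (hD : 2 ≤ D) (s : ℤ) (hA : A D ≠ 0) :
    (fixPoly A D s).leadingCoeff = A D := by
  rw [leadingCoeff, fixPoly_natDegree A hD s hA, fixPoly_coeff A s D le_rfl, if_neg (by omega),
    sub_zero]

theorem algClosure_isIntegral (K : Type*) [Field K] :
    Algebra.IsIntegral K (AlgebraicClosure K) := inferInstance

/-- the main structural statement -/
theorem dichotomy (d B T : ℕ) (hB : B ≤ d + 1) (hT : 1 ≤ T) :
    ∃ (Ω : Set (AlgebraicClosure ℚ)) (c0 : ℕ), Ω.Finite ∧ 1 ≤ c0 ∧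
      ∀ (H : ℕ) (c : Fin (d + 3 + 3) → ℤ), c ∈ withPer (d + 3) B H →
        (|co c (d + 3)| * (T : ℤ) < H) ∨
        (∃ m : ℕ, T < m ∧ ((m : ℤ) ^ 2) ∣ co c (d + 3)) ∨
        (∃ m : ℕ, T < m ∧ (m : ℤ) ∣ co c (d + 3) ∧ (m : ℤ) ∣ co c (d + 2)) ∨
        (∃ m : ℕ, T < m ∧ (m : ℤ) ∣ co c (d + 3) ∧ (m : ℤ) ∣ co c (d + 4)) ∨
        (∃ m : ℕ, T < m ∧ (m : ℤ) ∣ co c (d + 3) ∧ (m : ℤ) ∣ co c (d + 5) + co c (d + 4)) ∨
        (∃ u ∈ Ω, ∃ v ∈ Ω, ∃ w ∈ Ω,
          (co c (d + 5) : AlgebraicClosure ℚ) * w + (co c (d + 4) : AlgebraicClosure ℚ) * u =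
            evA (co c) (d + 3) v) ∨
        (fixPoly (co c) (d + 3) (co c (d + 5) + co c (d + 4)) ∈ QS (d + 3) c0 H) := by
  set ρ : ℝ := (d + 5) * T with hρ
  obtain ⟨Ω, hΩ, hmem⟩ := candidates_finite B ((T ^ 3).factorial) (Nat.factorial_pos _) ρ
  set c0 : ℕ := max 1 (Nat.ceil ((max ρ 1) ^ (d + 3) * 2 ^ (d + 3))) with hc0
  have hc0' : (max ρ 1) ^ (d + 3) * 2 ^ (d + 3) ≤ (c0 : ℝ) := by
    exact (Nat.le_ceil _).trans (Nat.cast_le.mpr (le_max_right _ _))
  refine ⟨Ω, c0, hΩ, le_max_left _ _, ?_⟩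
  intro H c hc
  obtain ⟨hcH, hA0, hΔ0, hM0, P, ⟨n, hn, hP⟩, hPB⟩ := hc
  have e4 : d + 3 + 1 = d + 4 := rfl
  have e5 : d + 3 + 2 = d + 5 := rfl
  rw [e4] at hΔ0
  rw [e5] at hM0
  set A : ℕ → ℤ := co c with hA
  set M := A (d + 5) with hM
  set Δ := A (d + 4) with hΔ
  by_cases hE0 : |A (d + 3)| * (T : ℤ) < H
  · exact Or.inl hE0
  push Not at hE0
  right
  by_cases hE1 : ∃ m : ℕ, T < m ∧ ((m : ℤ) ^ 2) ∣ A (d + 3)
  · exact Or.inl hE1
  right
  by_cases hE2 : ∃ m : ℕ, T < m ∧ (m : ℤ) ∣ A (d + 3) ∧ (m : ℤ) ∣ A (d + 2)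
  · exact Or.inl hE2
  right
  by_cases hE3 : ∃ m : ℕ, T < m ∧ (m : ℤ) ∣ A (d + 3) ∧ (m : ℤ) ∣ Δ
  · exact Or.inl hE3
  right
  by_cases hE4 : ∃ m : ℕ, T < m ∧ (m : ℤ) ∣ A (d + 3) ∧ (m : ℤ) ∣ M + Δ
  · exact Or.inl hE4
  right
  push Not at hE1 hE2 hE3 hE4
  have hAH : ∀ i, |A i| ≤ H := by
    intro i
    simp only [hA, co]
    split_ifs with h
    · exact hcH _
    · simp
  -- the orbit
  set L := IntermediateField.adjoin ℚ ({P.1, P.2} : Set (AlgebraicClosure ℚ)) with hL
  have hinst : Algebra.IsIntegral ℚ (AlgebraicClosure ℚ) := algClosure_isIntegral ℚ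
  have hfd : FiniteDimensional ℚ L := by
    apply IntermediateField.finiteDimensional_adjoin
    intro x _
    exact Algebra.IsIntegral.isIntegral x
  rw [henon_eq_hm] at hP
  set F' := (polyOf (d + 3) c).map (algebraMap ℚ (AlgebraicClosure ℚ)) with hF'
  set δ' := algebraMap ℚ (AlgebraicClosure ℚ) (jacOf (d + 3) c) with hδ'
  set x : ℕ → (AlgebraicClosure ℚ) := fun k => ((hm F' δ')^[k] P).1 with hx
  change (hm F' δ')^[n] P = P at hP
  have hM0' : ((M : ℤ) : (AlgebraicClosure ℚ)) ≠ 0 := by exact_mod_cast hM0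
  have hFev : ∀ y : (AlgebraicClosure ℚ), (M : (AlgebraicClosure ℚ)) * F'.eval y = evA A (d + 3) y := by
    intro y
    rw [hF', eval_map, polyOf, eval₂_finsetSum, Finset.mul_sum, evA]
    refine Finset.sum_congr rfl fun i _ => ?_
    simp only [eval₂_mul, eval₂_C, eval₂_pow, eval₂_X, map_div₀, map_intCast]
    rw [e5]
    rw [← mul_assoc, mul_div_cancel₀ _ hM0']
  have hδev : (M : (AlgebraicClosure ℚ)) * δ' = (Δ : (AlgebraicClosure ℚ)) := by
    rw [hδ', jacOf]
    simp only [map_div₀, map_intCast]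
    rw [e4, e5, mul_div_cancel₀ _ hM0']
  have hrec : ∀ k, (M : (AlgebraicClosure ℚ)) * x (k + 2) + (Δ : (AlgebraicClosure ℚ)) * x k = evA A (d + 3) (x (k + 1)) := by
    intro k
    have h1 := hm_rec F' δ' P k
    simp only [hx]
    rw [h1, ← hFev, ← hδev]; ring
  have hper : ∀ k, x (k + n) = x k := fun k => by
    simp only [hx]; rw [hm_periodic hP]
  have hxL : ∀ k, x k ∈ L := by
    have h2 : ∀ k, x k ∈ L ∧ x (k + 1) ∈ L := by
      intro k
      induction k with
      | zero =>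
        constructor
        · exact IntermediateField.subset_adjoin ℚ _ (by simp [hx])
        · have : x 1 = P.2 := by simp [hx, hm]
          rw [zero_add, this]
          exact IntermediateField.subset_adjoin ℚ _ (by simp)
      | succ k ih =>
        refine ⟨ih.2, ?_⟩
        have h3 : x (k + 2) = (evA A (d + 3) (x (k + 1)) - (Δ : (AlgebraicClosure ℚ)) * x k) / (M : (AlgebraicClosure ℚ)) := by
          rw [eq_div_iff hM0', ← hrec]; ring
        rw [h3]
        refine L.div_mem (L.sub_mem ?_ (L.mul_mem (intCast_mem L _) ih.1)) (intCast_mem L _)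
        exact L.sum_mem fun i _ => L.mul_mem (intCast_mem L _) (pow_mem ih.2 i)
    exact fun k => (h2 k).1
  have halg : ∀ k, IsIntegral ℚ (x k) := fun k => Algebra.IsIntegral.isIntegral _
  have hdegL : ∀ z : (AlgebraicClosure ℚ), z ∈ L → (minpoly ℚ z).natDegree ≤ B := by
    intro z hz
    have h1 : minpoly ℚ z = minpoly ℚ (⟨z, hz⟩ : L) :=
      (minpoly.algebraMap_eq (algebraMap L (AlgebraicClosure ℚ)).injective (⟨z, hz⟩ : L)) 
    rw [h1]
    exact (minpoly.natDegree_le _).trans hPB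
  -- archimedean bound for complex solutions
  have harch : ∀ y : ℕ → ℂ,
      (∀ k, (M : ℂ) * y (k + 2) + (Δ : ℂ) * y k = evA A (d + 3) (y (k + 1))) →
      ∀ n' : ℕ, 0 < n' → (∀ k, y (k + n') = y k) → ∀ k, ‖y k‖ ≤ ρ := by
    intro y hy n' hn' hyper k
    exact arch_bound hT (fun i _ => hAH i) (hAH _) (hAH _) hE0 hA0 y hy hn' hyper k
  -- the good condition
  have hgood : ∀ p : ℕ, p.Prime → (∀ k : ℕ, (p : ℤ) ^ k ∣ A (d + 3) → p ^ k ≤ T ^ 3) ∨
      NicePrime A d M Δ p := by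
    intro p hp
    by_cases hsm : ∀ k : ℕ, (p : ℤ) ^ k ∣ A (d + 3) → p ^ k ≤ T ^ 3
    · exact Or.inl hsm
    right
    push Not at hsm
    obtain ⟨k, hk1, hk2⟩ := hsm
    have hT3 : 1 ≤ T ^ 3 := Nat.one_le_pow _ _ hT
    have hk0 : k ≠ 0 := by rintro rfl; rw [pow_zero] at hk2; omega
    have hTT : T ≤ T ^ 3 := Nat.le_self_pow (by omega) T
    have hk1' : k = 1 := by
      by_contra hne
      have hk2' : 2 ≤ k := by omega
      set t := k / 2 with ht
      have ht1 : k ≤ 3 * t := by omega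
      have ht2 : 2 * t ≤ k := by omega
      have hlt : T < p ^ t := by
        by_contra hle
        push Not at hle
        have h1 : p ^ k ≤ (p ^ t) ^ 3 := by
          rw [← pow_mul]
          exact Nat.pow_le_pow_right hp.pos (by omega)
        have h2 : (p ^ t) ^ 3 ≤ T ^ 3 := Nat.pow_le_pow_left hle 3
        omega
      apply hE1 (p ^ t) hlt
      push_cast
      rw [← pow_mul]
      exact (pow_dvd_pow _ (by omega)).trans hk1
    subst hk1'
    rw [pow_one] at hk1 hk2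
    have hTp : T < p := lt_of_le_of_lt hTT hk2
    refine ⟨hE1 p hTp, hE2 p hTp hk1, hE3 p hTp hk1, hE4 p hTp hk1⟩
  have hcase := const_or_integral (Y := T ^ 3) hA0 hgood x hrec hn hper halg
    (fun k => lt_of_le_of_lt (hdegL _ (hxL k)) (by omega))
  rcases hcase with hconst | hint
  · -- constant orbit
    right
    set z := x 0 with hz
    have hall : ∀ k, x k = z := by
      intro k
      induction k with
      | zero => rfl
      | succ k ih => rw [hconst k, ih]
    set G := fixPoly A (d + 3) (M + Δ) with hG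
    have hG0 : G ≠ 0 := by
      intro h0
      have h1 := fixPoly_leadingCoeff A (D := d + 3) (by omega) (M + Δ) hA0
      rw [← hG, h0, leadingCoeff_zero] at h1
      exact hA0 h1.symm
    have hGn : G.natDegree = d + 3 := fixPoly_natDegree A (by omega) _ hA0
    have hGz : aeval z (G.map (Int.castRingHom ℚ)) = 0 := by
      rw [aeval_def, eval₂_map]
      have e : (algebraMap ℚ (AlgebraicClosure ℚ)).comp (Int.castRingHom ℚ) = Int.castRingHom (AlgebraicClosure ℚ) := RingHom.ext_int _ _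
      rw [e, hG, fixPoly_eval₂]
      have h1 := hrec 0
      rw [hall, hall, hall, evA] at h1
      rw [← h1]; push_cast; ring
    obtain ⟨g, q, hgq, hgdeg⟩ := exists_int_factor (E := AlgebraicClosure ℚ) (G := G) (halg 0) hGz
    have hg0 : g ≠ 0 := by rintro rfl; rw [zero_mul] at hgq; exact hG0 hgq
    have hq0 : q ≠ 0 := by rintro rfl; rw [mul_zero] at hgq; exact hG0 hgq
    have hdeg : g.natDegree + q.natDegree = d + 3 := by
      rw [← natDegree_mul hg0 hq0, ← hgq, hGn]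
    have hg1 : 1 ≤ g.natDegree := by
      rw [hgdeg]; exact minpoly.natDegree_pos (halg 0)
    have hg2 : g.natDegree ≤ B := by
      rw [hgdeg]; exact hdegL _ (hxL 0)
    have hGroots : ∀ t : ℂ, aeval t G = 0 → ‖t‖ ≤ ρ := by
      intro t ht
      refine harch (fun _ => t) ?_ 1 one_pos (fun _ => rfl) 0
      intro _
      have h1 : (algebraMap ℤ ℂ) = Int.castRingHom ℂ := RingHom.ext_int _ _
      rw [aeval_def, h1, hG, fixPoly_eval₂] at ht
      rw [evA]
      push_cast at ht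
      linear_combination -ht
    rw [hgq]
    refine mem_QS hg1 (by omega) hdeg ?_ ?_ ?_
    · rw [← hgq, hG, fixPoly_leadingCoeff A (by omega) _ hA0]
      exact hAH _
    · refine coeff_bound_of_roots hg0 (by omega : g.natDegree ≤ d + 3) (fun t ht => ?_) hc0'
      apply hGroots
      rw [hgq, map_mul, ht, zero_mul]
    · refine coeff_bound_of_roots hq0 (by omega : q.natDegree ≤ d + 3) (fun t ht => ?_) hc0'
      apply hGroots
      rw [hgq, map_mul, ht, mul_zero]
  · -- nonconstant orbit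
    left
    have hΩx : ∀ k, x k ∈ Ω := by
      intro k
      have := hmem L hfd hPB ⟨x k, hxL k⟩ (hint k) ?_
      · exact this
      · intro σ
        refine harch (fun k => σ ⟨x k, hxL k⟩) ?_ n hn ?_ k
        · intro k
          have h1 : (M : L) * ⟨x (k + 2), hxL (k + 2)⟩ + (Δ : L) * ⟨x k, hxL k⟩ =
              evA A (d + 3) (⟨x (k + 1), hxL (k + 1)⟩ : L) := by
            apply Subtype.ext
            have h2 := hrec k
            rw [evA] at h2 ⊢
            push_cast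
            exact h2
          have h2 := congrArg σ h1
          rw [map_add, map_mul, map_mul, map_intCast, map_intCast] at h2
          rw [h2, evA, evA, map_sum]
          simp only [map_mul, map_intCast, map_pow]
        · intro k
          have : (⟨x (k + n), hxL (k + n)⟩ : L) = ⟨x k, hxL k⟩ := Subtype.ext (hper k)
          simp only [this]
    exact ⟨x 0, hΩx 0, x 1, hΩx 1, x 2, hΩx 2, hrec 0⟩

end Pool.Agent.H.MP_0e6b5f_nt
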