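import Pool.Agent.H.MP_0e6b5f_nt.Global

/-!
# Denominators of periodic points
-/

namespace Pool.Agent.H.MP_0e6b5f_nt

open Function

section NonArch

variable {E : Type*} [Field E] {Γ₀ : Type*} [LinearOrderedCommGroupWithZero Γ₀]

theorem val_int_le_one (v : Valuation E Γ₀) (n : ℤ) : v (n : E) ≤ 1 := by
  have hnat : ∀ n : ℕ, v (n : E) ≤ 1 := by
    intro n
    induction n with
    | zero => simp
    | succ n ih =>
      push_cast
      exact (v.map_add _ _).trans (max_le ih (by rw [map_one]))
  obtain ⟨m, rfl | rfl⟩ := n.eq_nat_or_neg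
  · rw [Int.cast_natCast]; exact hnat m
  · rw [Int.cast_neg, Int.cast_natCast, Valuation.map_neg]; exact hnat m

/-- value of the polynomial with integer coefficients `A 0, ..., A d` -/
def evA (A : ℕ → ℤ) (d : ℕ) (x : E) : E := ∑ i ∈ Finset.range (d + 1), (A i : E) * x ^ i

theorem evA_split (A : ℕ → ℤ) (d : ℕ) (x : E) :
    evA A (d + 2) x = (∑ i ∈ Finset.range (d + 1), (A i : E) * x ^ i) +
      x ^ (d + 1) * ((A (d + 2) : E) * x + (A (d + 1) : E)) := by
  rw [evA, Finset.sum_range_succ, Finset.sum_range_succ]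
  ring

theorem low_sum_le (v : Valuation E Γ₀) (A : ℕ → ℤ) (d : ℕ) (x : E) (hx : 1 ≤ v x) :
    v (∑ i ∈ Finset.range (d + 1), (A i : E) * x ^ i) ≤ v x ^ d := by
  refine v.map_sum_le fun i hi => ?_
  rw [map_mul, map_pow]
  have hi' : i ≤ d := Nat.lt_succ_iff.mp (Finset.mem_range.mp hi)
  calc v (A i : E) * v x ^ i ≤ 1 * v x ^ d :=
        mul_le_mul' (val_int_le_one v _) (pow_le_pow_right₀ hx hi')
    _ = v x ^ d := one_mul _

theorem evA_le_one (v : Valuation E Γ₀) (A : ℕ → ℤ) (d : ℕ) (x : E) (hx : v x ≤ 1) :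
    v (evA A d x) ≤ 1 := by
  refine v.map_sum_le fun i _ => ?_
  rw [map_mul, map_pow]
  exact mul_le_one' (val_int_le_one v _) (pow_le_one' hx _)

/-- `A_d x_k` is integral. -/
theorem lead_mul_integral (v : Valuation E Γ₀) (A : ℕ → ℤ) (d : ℕ) (M Δ : ℤ) (x : ℕ → E)
    (hrec : ∀ k, (M : E) * x (k + 2) + (Δ : E) * x k = evA A (d + 2) (x (k + 1)))
    {n : ℕ} (hn : 0 < n) (hper : ∀ k, x (k + n) = x k) (k : ℕ) :
    v ((A (d + 2) : E) * x k) ≤ 1 := by
  obtain ⟨m, hm'⟩ := exists_max_periodic (fun k => v (x k)) hn (fun k => by simp only [hper k])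
  have hm : ∀ k, v (x k) ≤ v (x (m + 1)) := hm'
  set R := v (x (m + 1)) with hR
  have hAd : v (A (d + 2) : E) ≤ 1 := val_int_le_one v _
  have hk : v ((A (d + 2) : E) * x k) ≤ v (A (d + 2) : E) * R := by
    rw [map_mul]; exact mul_le_mul' le_rfl (hm k)
  refine hk.trans ?_
  by_contra hcon
  push Not at hcon
  have hR1 : 1 < R := by
    by_contra h
    push Not at h
    exact absurd (mul_le_one' hAd h) (not_le.mpr hcon)
  have hlow := low_sum_le v A d (x (m + 1)) hR1.le
  rw [← hR] at hlow
  have hRec : v ((M : E) * x (m + 2) + (Δ : E) * x m) ≤ R := by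
    refine (v.map_add _ _).trans (max_le ?_ ?_)
    · rw [map_mul]
      calc v (M : E) * v (x (m + 2)) ≤ 1 * R := mul_le_mul' (val_int_le_one v _) (hm _)
        _ = R := one_mul _
    · rw [map_mul]
      calc v (Δ : E) * v (x m) ≤ 1 * R := mul_le_mul' (val_int_le_one v _) (hm _)
        _ = R := one_mul _
  have hR1' : R ≤ R ^ (d + 1) := le_self_pow₀ hR1.le (by omega)
  have hRd : R ^ d ≤ R ^ (d + 1) := pow_le_pow_right₀ hR1.le (by omega)
  have e : (A (d + 2) : E) * x (m + 1) ^ (d + 2) =
      ((M : E) * x (m + 2) + (Δ : E) * x m) -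
        (∑ i ∈ Finset.range (d + 1), (A i : E) * x (m + 1) ^ i) -
        (A (d + 1) : E) * x (m + 1) ^ (d + 1) := by
    rw [hrec, evA_split]; ring
  have h1 : v ((A (d + 2) : E) * x (m + 1) ^ (d + 2)) ≤ R ^ (d + 1) := by
    rw [e]
    refine (v.map_sub _ _).trans (max_le ((v.map_sub _ _).trans (max_le ?_ ?_)) ?_)
    · exact hRec.trans hR1'
    · exact hlow.trans hRd
    · rw [map_mul, map_pow, ← hR]
      calc v (A (d + 1) : E) * R ^ (d + 1) ≤ 1 * R ^ (d + 1) :=
            mul_le_mul' (val_int_le_one v _) le_rfl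
        _ = R ^ (d + 1) := one_mul _
  rw [map_mul, map_pow, ← hR, pow_succ' R (d + 1), ← mul_assoc] at h1
  have h2 : R ^ (d + 1) < v (A (d + 2) : E) * R * R ^ (d + 1) := by
    have hpos : 0 < R ^ (d + 1) := pow_pos (zero_lt_one.trans hR1) _
    calc R ^ (d + 1) = 1 * R ^ (d + 1) := (one_mul _).symm
      _ < v (A (d + 2) : E) * R * R ^ (d + 1) := mul_lt_mul_of_pos_right hcon hpos
  exact absurd h1 (not_le.mpr h2)

/-- If `p` divides the leading coefficient exactly once and does not divide
`A_{d-1} Δ (M + Δ)`, then (unless the ramification is large) either the orbit is `p`-integral or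
it is constant. The degree here is `d + 3`. -/
theorem integral_or_const (v : Valuation E Γ₀) (A : ℕ → ℤ) (d : ℕ) (M Δ : ℤ) (x : ℕ → E)
    (hrec : ∀ k, (M : E) * x (k + 2) + (Δ : E) * x k = evA A (d + 3) (x (k + 1)))
    {n : ℕ} (hn : 0 < n) (hper : ∀ k, x (k + n) = x k) (q : Γ₀) (hq : 1 < q)
    (hAd : v (A (d + 3) : E) = q⁻¹) (hAd1 : v (A (d + 2) : E) = 1) (hΔ : v (Δ : E) = 1)
    (hMΔ : v ((M + Δ : ℤ) : E) = 1)
    (hram : ∀ k, v (x k) ^ (d + 2) ≠ q) :
    (∀ k, v (x k) ≤ 1) ∨ (∀ k, x (k + 1) = x k) := by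
  have hq0 : 0 < q := zero_lt_one.trans hq
  by_cases hint : ∀ k, v (x k) ≤ 1
  · exact Or.inl hint
  right
  push Not at hint
  obtain ⟨k0, hk0⟩ := hint
  -- all coordinates have size at most `q`
  have hle : ∀ k, v (x k) ≤ q := by
    intro k
    have h := lead_mul_integral v A (d + 1) M Δ x hrec hn hper k
    rw [map_mul, hAd] at h
    rwa [inv_mul_le_iff₀ hq0, mul_one] at h
  -- values at points of intermediate size
  have hmid : ∀ y : E, 1 < v y → v y < q → v (evA A (d + 3) y) = v y ^ (d + 2) := by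
    intro y h1 h2
    have e : evA A (d + 3) y = ((∑ i ∈ Finset.range (d + 2), (A i : E) * y ^ i) +
        (A (d + 3) : E) * y ^ (d + 3)) + (A (d + 2) : E) * y ^ (d + 2) := by
      rw [evA_split]; ring
    have hlead : v ((A (d + 2) : E) * y ^ (d + 2)) = v y ^ (d + 2) := by
      rw [map_mul, map_pow, hAd1, one_mul]
    have hpos : 0 < v y := zero_lt_one.trans h1
    rw [e, Valuation.map_add_eq_of_lt_right, hlead]
    rw [hlead]
    refine (v.map_add _ _).trans_lt (max_lt ?_ ?_)
    · exact (low_sum_le v A (d + 1) y h1.le).trans_lt (pow_lt_pow_right₀ h1 (by omega))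
    · rw [map_mul, map_pow, hAd, pow_succ' (v y) (d + 2), ← mul_assoc]
      calc q⁻¹ * v y * v y ^ (d + 2) < 1 * v y ^ (d + 2) := by
            apply mul_lt_mul_of_pos_right _ (pow_pos hpos _)
            rw [inv_mul_lt_iff₀ hq0, mul_one]; exact h2
        _ = v y ^ (d + 2) := one_mul _
  -- the right-hand side is small
  have hrhs : ∀ k, v (evA A (d + 3) (x (k + 1))) ≤ q := by
    intro k
    rw [← hrec]
    refine (v.map_add _ _).trans (max_le ?_ ?_)
    · rw [map_mul]
      calc v (M : E) * v (x (k + 2)) ≤ 1 * q := mul_le_mul' (val_int_le_one v _) (hle _)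
        _ = q := one_mul _
    · rw [map_mul]
      calc v (Δ : E) * v (x k) ≤ 1 * q := mul_le_mul' (val_int_le_one v _) (hle _)
        _ = q := one_mul _
  -- some coordinate has size exactly `q`
  obtain ⟨m, hm'⟩ := exists_max_periodic (fun k => v (x k)) hn (fun k => by simp only [hper k])
  have hm : ∀ k, v (x k) ≤ v (x (m + 1)) := hm'
  have hlarge0 : v (x (m + 1)) = q := by
    by_contra hne
    have hlt : v (x (m + 1)) < q := lt_of_le_of_ne (hle _) hne
    have hgt : 1 < v (x (m + 1)) := hk0.trans_le (hm k0)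
    have h1 := hmid (x (m + 1)) hgt hlt
    have h2 : v (evA A (d + 3) (x (m + 1))) ≤ v (x (m + 1)) := by
      rw [← hrec]
      refine (v.map_add _ _).trans (max_le ?_ ?_)
      · rw [map_mul]
        calc v (M : E) * v (x (m + 2)) ≤ 1 * v (x (m + 1)) :=
              mul_le_mul' (val_int_le_one v _) (hm _)
          _ = v (x (m + 1)) := one_mul _
      · rw [map_mul]
        calc v (Δ : E) * v (x m) ≤ 1 * v (x (m + 1)) :=
              mul_le_mul' (val_int_le_one v _) (hm _)
          _ = v (x (m + 1)) := one_mul _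
    rw [h1] at h2
    have h3 : v (x (m + 1)) ^ 1 < v (x (m + 1)) ^ (d + 2) := pow_lt_pow_right₀ hgt (by omega)
    rw [pow_one] at h3
    exact absurd h2 (not_le.mpr h3)
  have hqd : q ≤ q ^ (d + 1) := le_self_pow₀ hq.le (by omega)
  -- congruence for large coordinates
  have hcong1 : ∀ k, v (x (k + 1)) = q →
      v ((A (d + 3) : E) * x (k + 1) + (A (d + 2) : E)) ≤ q⁻¹ := by
    intro k hk
    have h1 : x (k + 1) ^ (d + 2) * ((A (d + 3) : E) * x (k + 1) + (A (d + 2) : E)) =
        evA A (d + 3) (x (k + 1)) -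
          (∑ i ∈ Finset.range (d + 2), (A i : E) * x (k + 1) ^ i) := by
      rw [evA_split]; ring
    have h2 : v (x (k + 1) ^ (d + 2) * ((A (d + 3) : E) * x (k + 1) + (A (d + 2) : E))) ≤
        q ^ (d + 1) := by
      rw [h1]
      refine (v.map_sub _ _).trans (max_le ((hrhs k).trans hqd) ?_)
      have := low_sum_le v A (d + 1) (x (k + 1)) (by rw [hk]; exact hq.le)
      rwa [hk] at this
    rw [map_mul, map_pow, hk] at h2
    have h3 : q ^ (d + 2) * v ((A (d + 3) : E) * x (k + 1) + (A (d + 2) : E)) ≤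
        q ^ (d + 2) * q⁻¹ := by
      refine h2.trans (le_of_eq ?_)
      rw [pow_succ q (d + 1), mul_assoc, mul_inv_cancel₀ hq0.ne', mul_one]
    exact le_of_mul_le_mul_left h3 (pow_pos hq0 _)
  have hcong : ∀ k, v (x k) = q → v ((A (d + 3) : E) * x k + (A (d + 2) : E)) ≤ q⁻¹ := by
    intro k hk
    have e : k + n = (k + n - 1) + 1 := by omega
    have h1 : x ((k + n - 1) + 1) = x k := by rw [← e, hper]
    have := hcong1 (k + n - 1) (by rw [h1]; exact hk)
    rwa [h1] at this
  have hqi : q⁻¹ < 1 := inv_lt_one_of_one_lt₀ hq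
  -- largeness propagates
  have hprop : ∀ k, v (x k) = q → v (x (k + 1)) = q := by
    intro k hk
    by_contra hne
    have hlt : v (x (k + 1)) < q := lt_of_le_of_ne (hle _) hne
    have hFlt : v (evA A (d + 3) (x (k + 1))) < q := by
      rcases le_or_gt (v (x (k + 1))) 1 with h1 | h1
      · exact (evA_le_one v A (d + 3) _ h1).trans_lt hq
      · refine lt_of_le_of_ne (hrhs k) ?_
        rw [hmid _ h1 hlt]
        exact hram (k + 1)
    have hAF : v ((A (d + 3) : E) * evA A (d + 3) (x (k + 1))) < 1 := by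
      rw [map_mul, hAd, inv_mul_lt_iff₀ hq0, mul_one]; exact hFlt
    -- the two cases
    rcases (hle (k + 2)).lt_or_eq with h2 | h2
    · have hsmall : v ((A (d + 3) : E) * x (k + 2)) < 1 := by
        rw [map_mul, hAd, inv_mul_lt_iff₀ hq0, mul_one]; exact h2
      have e : (Δ : E) * (A (d + 2) : E) = (Δ : E) * ((A (d + 3) : E) * x k + (A (d + 2) : E)) +
          (M : E) * ((A (d + 3) : E) * x (k + 2)) -
          (A (d + 3) : E) * evA A (d + 3) (x (k + 1)) := by
        rw [← hrec]; ring
      have h3 : v ((Δ : E) * (A (d + 2) : E)) < 1 := by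
        rw [e]
        refine (v.map_sub _ _).trans_lt (max_lt ((v.map_add _ _).trans_lt (max_lt ?_ ?_)) hAF)
        · rw [map_mul, hΔ, one_mul]
          exact (hcong k hk).trans_lt hqi
        · rw [map_mul]
          exact (mul_le_mul' (val_int_le_one v M) le_rfl).trans_lt (by rw [one_mul]; exact hsmall)
      rw [map_mul, hΔ, hAd1, one_mul] at h3
      exact lt_irrefl _ h3
    · have e : ((M + Δ : ℤ) : E) * (A (d + 2) : E) =
          (Δ : E) * ((A (d + 3) : E) * x k + (A (d + 2) : E)) +
          (M : E) * ((A (d + 3) : E) * x (k + 2) + (A (d + 2) : E)) -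
          (A (d + 3) : E) * evA A (d + 3) (x (k + 1)) := by
        rw [← hrec]; push_cast; ring
      have h3 : v (((M + Δ : ℤ) : E) * (A (d + 2) : E)) < 1 := by
        rw [e]
        refine (v.map_sub _ _).trans_lt (max_lt ((v.map_add _ _).trans_lt (max_lt ?_ ?_)) hAF)
        · rw [map_mul, hΔ, one_mul]
          exact (hcong k hk).trans_lt hqi
        · rw [map_mul]
          exact (mul_le_mul' (val_int_le_one v M) (hcong (k + 2) h2)).trans_lt
            (by rw [one_mul]; exact hqi)
      rw [map_mul, hMΔ, hAd1, one_mul] at h3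
      exact lt_irrefl _ h3
  have hall1 : ∀ j, v (x (m + 1 + j)) = q := by
    intro j
    induction j with
    | zero => exact hlarge0
    | succ j ih => exact hprop _ ih
  have hall : ∀ k, v (x k) = q := by
    intro k
    have hshift : ∀ t, x (k + n * t) = x k := by
      intro t
      induction t with
      | zero => simp
      | succ t ih =>
        have e : k + n * (t + 1) = (k + n * t) + n := by ring
        rw [e, hper, ih]
    have hle' : m + 1 ≤ k + n * (m + 1) := by nlinarith
    obtain ⟨j, hj⟩ := Nat.exists_eq_add_of_le hle'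
    rw [← hshift (m + 1), hj]
    exact hall1 j
  -- expansion on the large disc
  have hexp : ∀ a b, x a ≠ x b →
      v (evA A (d + 3) (x a) - evA A (d + 3) (x b)) = q ^ (d + 1) * v (x a - x b) := by
    intro a b hab
    have hpos : 0 < v (x a - x b) := zero_lt_iff.mpr ((map_ne_zero v).mpr (sub_ne_zero.mpr hab))
    have e : evA A (d + 3) (x a) - evA A (d + 3) (x b) =
        ((∑ i ∈ Finset.range (d + 2), (A i : E) * (x a ^ i - x b ^ i)) +
          (x a ^ (d + 2) - x b ^ (d + 2)) * ((A (d + 3) : E) * x b + (A (d + 2) : E))) +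
        x a ^ (d + 2) * (A (d + 3) : E) * (x a - x b) := by
      rw [evA_split, evA_split]
      simp only [mul_sub, Finset.sum_sub_distrib]
      ring
    have hmain : v (x a ^ (d + 2) * (A (d + 3) : E) * (x a - x b)) =
        q ^ (d + 1) * v (x a - x b) := by
      rw [map_mul, map_mul, map_pow, hall, hAd, pow_succ q (d + 1), mul_assoc (q ^ (d + 1)),
        mul_inv_cancel₀ hq0.ne', mul_one]
    rw [e, Valuation.map_add_eq_of_lt_right, hmain]
    rw [hmain]
    refine (v.map_add _ _).trans_lt (max_lt ?_ ?_)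
    · have hsum : v (∑ i ∈ Finset.range (d + 2), (A i : E) * (x a ^ i - x b ^ i)) ≤
          q ^ d * v (x a - x b) := by
        refine v.map_sum_le fun i hi => ?_
        have hi' : i < d + 2 := Finset.mem_range.mp hi
        rcases Nat.eq_zero_or_pos i with rfl | hi0
        · simp
        · obtain ⟨i, rfl⟩ : ∃ i', i = i' + 1 := ⟨i - 1, by omega⟩
          rw [map_mul]
          have h1 := val_pow_sub_pow_le v (x a) (x b) i
          rw [hall, hall, max_self] at h1
          calc v (A (i + 1) : E) * v (x a ^ (i + 1) - x b ^ (i + 1))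
              ≤ 1 * (q ^ i * v (x a - x b)) := mul_le_mul' (val_int_le_one v _) h1
            _ = q ^ i * v (x a - x b) := one_mul _
            _ ≤ q ^ d * v (x a - x b) :=
                mul_le_mul' (pow_le_pow_right₀ hq.le (by omega)) le_rfl
      refine hsum.trans_lt ?_
      exact mul_lt_mul_of_pos_right (pow_lt_pow_right₀ hq (by omega)) hpos
    · rw [map_mul]
      have h1 := val_pow_sub_pow_le v (x a) (x b) (d + 1)
      rw [hall, hall, max_self] at h1
      calc v (x a ^ (d + 2) - x b ^ (d + 2)) * v ((A (d + 3) : E) * x b + (A (d + 2) : E))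
          ≤ (q ^ (d + 1) * v (x a - x b)) * q⁻¹ := mul_le_mul' h1 (hcong b (hall b))
        _ < (q ^ (d + 1) * v (x a - x b)) * 1 := by
            apply mul_lt_mul_of_pos_left hqi
            exact mul_pos (pow_pos hq0 _) hpos
        _ = q ^ (d + 1) * v (x a - x b) := mul_one _
  -- conclusion
  obtain ⟨j, hj'⟩ := exists_max_periodic (fun k => v (x (k + 1) - x k)) hn (fun k => by
    have e : k + n + 1 = (k + 1) + n := by ring
    simp only [hper k]
    rw [e, hper])
  have hj : ∀ k, v (x (k + 1) - x k) ≤ v (x (j + 1 + 1) - x (j + 1)) := hj'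
  have hzero : x (j + 1 + 1) = x (j + 1) := by
    by_contra hne
    have h1 := hexp _ _ hne
    have h2 : v (evA A (d + 3) (x (j + 1 + 1)) - evA A (d + 3) (x (j + 1))) ≤
        v (x (j + 1 + 1) - x (j + 1)) := by
      rw [← hrec (j + 1), ← hrec j]
      have e : (M : E) * x (j + 1 + 2) + (Δ : E) * x (j + 1) -
          ((M : E) * x (j + 2) + (Δ : E) * x j) =
          (M : E) * (x (j + 2 + 1) - x (j + 2)) + (Δ : E) * (x (j + 1) - x j) := by
        have : j + 1 + 2 = j + 2 + 1 := by ring
        rw [this]; ring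
      rw [e]
      refine (v.map_add _ _).trans (max_le ?_ ?_)
      · rw [map_mul]
        exact (mul_le_mul' (val_int_le_one v M) (hj (j + 2))).trans (by rw [one_mul])
      · rw [map_mul]
        exact (mul_le_mul' (val_int_le_one v Δ) (hj j)).trans (by rw [one_mul])
    rw [h1] at h2
    have hpos : 0 < v (x (j + 1 + 1) - x (j + 1)) :=
      zero_lt_iff.mpr ((map_ne_zero v).mpr (sub_ne_zero.mpr hne))
    have h3 : 1 * v (x (j + 1 + 1) - x (j + 1)) < q ^ (d + 1) * v (x (j + 1 + 1) - x (j + 1)) :=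
      mul_lt_mul_of_pos_right (one_lt_pow₀ hq (by omega)) hpos
    rw [one_mul] at h3
    exact absurd h2 (not_le.mpr h3)
  intro k
  have h1 := hj k
  rw [hzero, sub_self, map_zero] at h1
  exact sub_eq_zero.mp ((map_eq_zero v).mp (le_antisymm h1 zero_le))

end NonArch

end Pool.Agent.H.MP_0e6b5f_nt
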