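import Pool.Agent.H.MP_0e6b5f_nt.DensNonArch

/-!
# Valuations of rational numbers and ramification
-/

namespace Pool.Agent.H.MP_0e6b5f_nt

open Function Polynomial

section Ram

variable {E : Type*} [Field E] {Γ₀ : Type*} [LinearOrderedCommGroupWithZero Γ₀]

theorem val_int_eq_one (v : Valuation E Γ₀) {p : ℕ} (hp : p.Prime) (hpv : v (p : E) < 1)
    {m : ℤ} (hm : ¬ (p : ℤ) ∣ m) : v (m : E) = 1 := by
  have hcop : IsCoprime (p : ℤ) m :=
    (Nat.prime_iff_prime_int.mp hp).coprime_iff_not_dvd.mpr hm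
  obtain ⟨a, b, hab⟩ := hcop
  have h1 : v ((a : E) * (p : E) + (b : E) * (m : E)) = 1 := by
    rw [← v.map_one]
    congr 1
    have := congrArg (fun z : ℤ => (z : E)) hab
    push_cast at this
    exact this
  apply le_antisymm (val_int_le_one v m)
  by_contra hlt
  push Not at hlt
  have h2 : v ((a : E) * (p : E) + (b : E) * (m : E)) < 1 := by
    refine (v.map_add _ _).trans_lt (max_lt ?_ ?_)
    · rw [map_mul]
      exact (mul_le_mul' (val_int_le_one v a) le_rfl).trans_lt (by rwa [one_mul])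
    · rw [map_mul]
      exact (mul_le_mul' (val_int_le_one v b) le_rfl).trans_lt (by rwa [one_mul])
  rw [h1] at h2
  exact lt_irrefl _ h2

theorem val_nat_pow (v : Valuation E Γ₀) {p : ℕ} (hp : p.Prime) (hpv : v (p : E) < 1)
    {n : ℕ} (hn : n ≠ 0) : ∃ k : ℕ, v (n : E) = v (p : E) ^ k := by
  obtain ⟨k, m, hm, hnm⟩ := Nat.exists_eq_pow_mul_and_not_dvd hn p hp.ne_one
  refine ⟨k, ?_⟩
  have h1 : v ((m : ℤ) : E) = 1 := val_int_eq_one v hp hpv (by exact_mod_cast hm)
  rw [Int.cast_natCast] at h1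
  rw [hnm]
  push_cast
  rw [map_mul, map_pow, h1, mul_one]

theorem val_rat_pow [Algebra ℚ E] (v : Valuation E Γ₀) {p : ℕ} (hp : p.Prime)
    (hpv : v (p : E) < 1) (hp0 : v (p : E) ≠ 0)
    {r : ℚ} (hr : r ≠ 0) : ∃ j : ℤ, v (algebraMap ℚ E r) = v (p : E) ^ j := by
  have hnum : r.num.natAbs ≠ 0 := by
    rw [Ne, Int.natAbs_eq_zero]; exact Rat.num_ne_zero.mpr hr
  obtain ⟨a, ha⟩ := val_nat_pow v hp hpv hnum
  obtain ⟨b, hb⟩ := val_nat_pow v hp hpv r.den_nz
  refine ⟨(a : ℤ) - b, ?_⟩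
  have h1 : v (algebraMap ℚ E (r.num : ℚ)) = v (p : E) ^ a := by
    rw [← ha, map_intCast]
    obtain ⟨m, hm | hm⟩ := r.num.eq_nat_or_neg
    · rw [hm]; simp
    · rw [hm]; simp
  have h2 : v (algebraMap ℚ E (r.den : ℚ)) = v (p : E) ^ b := by
    rw [← hb, map_natCast]
  have h3 : r = (r.num : ℚ) / (r.den : ℚ) := (Rat.num_div_den r).symm
  rw [h3, map_div₀, map_div₀, h1, h2, zpow_sub₀ hp0, zpow_natCast, zpow_natCast]

/-- the valuation of an algebraic number of degree `m` has a power of exponent at most `m` in the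
value group of `ℚ` -/
theorem ram_exponent [Algebra ℚ E] (v : Valuation E Γ₀) {p : ℕ} (hp : p.Prime)
    (hpv : v (p : E) < 1) (hp0 : v (p : E) ≠ 0) {x : E} (hx : x ≠ 0) (hint : IsIntegral ℚ x) :
    ∃ e : ℕ, 1 ≤ e ∧ e ≤ (minpoly ℚ x).natDegree ∧ ∃ j : ℤ, v x ^ e = v (p : E) ^ j := by
  set P := minpoly ℚ x with hP
  set m := P.natDegree with hm
  set t : ℕ → E := fun i => algebraMap ℚ E (P.coeff i) * x ^ i with ht
  have hsum : ∑ i ∈ Finset.range (m + 1), t i = 0 := by
    have := minpoly.aeval ℚ x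
    rw [aeval_eq_sum_range] at this
    simp only [Algebra.smul_def] at this
    exact this
  have hvx : v x ≠ 0 := (map_ne_zero v).mpr hx
  have htop : t m ≠ 0 := by
    have h1 : P.coeff m = 1 := minpoly.monic hint
    simp only [ht, h1, map_one, one_mul]
    exact pow_ne_zero _ hx
  obtain ⟨i0, hi0, hmax⟩ := Finset.exists_max_image (Finset.range (m + 1)) (fun i => v (t i))
    ⟨m, Finset.mem_range.mpr (Nat.lt_succ_self m)⟩
  have hpos : v (t i0) ≠ 0 := by
    have h1 : v (t m) ≤ v (t i0) := hmax m (Finset.mem_range.mpr (Nat.lt_succ_self m))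
    intro h2
    rw [h2] at h1
    exact (map_ne_zero v).mpr htop (le_antisymm h1 zero_le)
  -- another index attains the maximum
  obtain ⟨i1, hi1, hne, heq⟩ : ∃ i1 ∈ Finset.range (m + 1), i1 ≠ i0 ∧ v (t i1) = v (t i0) := by
    by_contra hcon
    push Not at hcon
    have h1 : v (∑ i ∈ (Finset.range (m + 1)).erase i0, t i) < v (t i0) := by
      apply v.map_sum_lt hpos
      intro i hi
      rw [Finset.mem_erase] at hi
      exact lt_of_le_of_ne (hmax i hi.2) (hcon i hi.2 hi.1)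
    have h2 : ∑ i ∈ (Finset.range (m + 1)).erase i0, t i = - t i0 := by
      rw [← Finset.add_sum_erase _ _ hi0] at hsum
      exact eq_neg_of_add_eq_zero_right hsum
    rw [h2, Valuation.map_neg] at h1
    exact lt_irrefl _ h1
  -- the two coefficients are nonzero
  have hc : ∀ i, v (t i) = v (t i0) → P.coeff i ≠ 0 := by
    intro i hi h0
    apply hpos
    rw [← hi]
    simp [ht, h0]
  have key : ∀ i j, i < j → v (t i) = v (t i0) → v (t j) = v (t i0) → j ≤ m →
      ∃ e : ℕ, 1 ≤ e ∧ e ≤ m ∧ ∃ k : ℤ, v x ^ e = v (p : E) ^ k := by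
    intro i j hij hi hj hjm
    obtain ⟨a, ha⟩ := val_rat_pow v hp hpv hp0 (hc i hi)
    obtain ⟨b, hb⟩ := val_rat_pow v hp hpv hp0 (hc j hj)
    refine ⟨j - i, by omega, by omega, a - b, ?_⟩
    have h1 : v (p : E) ^ a * v x ^ i = v (p : E) ^ b * v x ^ j := by
      have h2 := hi.trans hj.symm
      simp only [ht, map_mul, map_pow] at h2
      rwa [ha, hb] at h2
    have hj' : v x ^ j = v x ^ (j - i) * v x ^ i := by rw [← pow_add]; congr 1; omega
    rw [hj', ← mul_assoc] at h1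
    have h2 := mul_right_cancel₀ (pow_ne_zero i hvx) h1
    rw [zpow_sub₀ hp0, h2, mul_comm, mul_div_assoc, div_self (zpow_ne_zero _ hp0), mul_one]
  have hi0' : i0 ≤ m := Nat.lt_succ_iff.mp (Finset.mem_range.mp hi0)
  have hi1' : i1 ≤ m := Nat.lt_succ_iff.mp (Finset.mem_range.mp hi1)
  rcases lt_or_gt_of_ne hne with h | h
  · exact key i1 i0 h heq rfl hi0'
  · exact key i0 i1 h rfl heq hi1'

/-- no element of degree less than `e` can have `|x|^e = |p|⁻¹` -/
theorem not_tot_ram [Algebra ℚ E] (v : Valuation E Γ₀) {p : ℕ} (hp : p.Prime)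
    (hpv : v (p : E) < 1) (hp0 : v (p : E) ≠ 0) {x : E} (hint : IsIntegral ℚ x) {e : ℕ}
    (he : (minpoly ℚ x).natDegree < e) : v x ^ e ≠ (v (p : E))⁻¹ := by
  intro hcon
  have hx : x ≠ 0 := by
    rintro rfl
    rw [map_zero, zero_pow (by omega)] at hcon
    exact inv_ne_zero hp0 hcon.symm
  obtain ⟨f, hf1, hf2, j, hj⟩ := ram_exponent v hp hpv hp0 hx hint
  have h1 : v (p : E) ^ (-(f : ℤ)) = v (p : E) ^ (j * e) := by
    rw [zpow_neg, zpow_natCast, ← inv_pow, ← hcon, ← pow_mul, mul_comm e f, pow_mul, hj,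
      zpow_mul, zpow_natCast]
  have hinj : Injective (fun z : ℤ => v (p : E) ^ z) := by
    have hpos : 0 < v (p : E) := zero_lt_iff.mpr hp0
    exact (zpow_right_strictAnti₀ hpos hpv).injective
  have h2 : -(f : ℤ) = j * e := hinj h1
  have h3 : (e : ℤ) ∣ (f : ℤ) := by
    refine ⟨-j, ?_⟩
    linear_combination -h2
  have h4 : e ∣ f := by exact_mod_cast h3
  have := Nat.le_of_dvd (by omega) h4
  omega

end Ram

end Pool.Agent.H.MP_0e6b5f_nt
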