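import Pool.Agent.H.MP_0e6b5f_nt.Mono

/-!
# Dickson polynomials are ultrametrically monotone at suitable places
-/

namespace Pool.Agent.H.MP_0e6b5f_nt

open Polynomial Function Module

section Ring

variable {R S : Type*} [CommRing R] [CommRing S]

/-- values of the Dickson polynomials of the first kind -/
def dk (x α : R) : ℕ → R
  | 0 => 2
  | 1 => x
  | n + 2 => x * dk x α (n + 1) - α * dk x α n

/-- the difference quotient of Dickson polynomials -/
def qk (x y α : R) : ℕ → R
  | 0 => 0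
  | 1 => 1
  | n + 2 => dk x α (n + 1) + y * qk x y α (n + 1) - α * qk x y α n

/-- `(u^n - t^n)/(u - t)` -/
def ak (u t : R) : ℕ → R
  | 0 => 0
  | n + 1 => u * ak u t n + t ^ n

theorem eval_dickson (x α : R) : ∀ n, (dickson 1 α n).eval x = dk x α n
  | 0 => by simp [dk]; norm_num
  | 1 => by simp [dk]
  | n + 2 => by
    rw [dickson_add_two, dk, ← eval_dickson x α n, ← eval_dickson x α (n + 1)]
    simp

theorem dk_sub_dk (x y α : R) : ∀ n, dk x α n - dk y α n = (x - y) * qk x y α n
  | 0 => by simp [dk, qk]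
  | 1 => by simp [dk, qk]
  | n + 2 => by
    have h1 := dk_sub_dk x y α n
    have h2 := dk_sub_dk x y α (n + 1)
    rw [dk, dk, qk]
    linear_combination (-α) * h1 + y * h2

theorem map_dk (φ : R →+* S) (x α : R) : ∀ n, φ (dk x α n) = dk (φ x) (φ α) n
  | 0 => by rw [dk, dk]; exact map_ofNat φ 2
  | 1 => by simp [dk]
  | n + 2 => by rw [dk, dk, map_sub, map_mul, map_mul, map_dk φ x α n, map_dk φ x α (n + 1)]

theorem map_qk (φ : R →+* S) (x y α : R) : ∀ n, φ (qk x y α n) = qk (φ x) (φ y) (φ α) n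
  | 0 => by simp [qk]
  | 1 => by simp [qk]
  | n + 2 => by
    rw [qk, qk, map_sub, map_add, map_mul, map_mul, map_qk φ x y α n, map_qk φ x y α (n + 1),
      map_dk]

theorem dk_roots (u v : R) : ∀ n, dk (u + v) (u * v) n = u ^ n + v ^ n
  | 0 => by simp [dk]; norm_num
  | 1 => by simp [dk]
  | n + 2 => by
    rw [dk, dk_roots u v n, dk_roots u v (n + 1)]
    ring

theorem ak_mul (u t : R) : ∀ n, (u - t) * ak u t n = u ^ n - t ^ n
  | 0 => by simp [ak]
  | n + 1 => by
    have h := ak_mul u t n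
    rw [ak]
    linear_combination u * h

theorem ak_self (u : R) : ∀ n : ℕ, ak u u (n + 1) = (n + 1) * u ^ n
  | 0 => by simp [ak]
  | n + 1 => by
    rw [ak, ak_self u n]
    push_cast
    ring

theorem qk_factor (u v t s : R) (h : u * v = t * s) :
    ∀ n, u ^ n * qk (u + v) (t + s) (u * v) (n + 1) = ak u t (n + 1) * ak u s (n + 1)
  | 0 => by simp [qk, ak]
  | 1 => by
    simp only [qk, dk, ak]
    simp
    linear_combination h
  | n + 2 => by
    have h1 := qk_factor u v t s h n
    have h2 := qk_factor u v t s h (n + 1)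
    have e : u ^ (n + 2) * qk (u + v) (t + s) (u * v) (n + 2 + 1) =
        u ^ (n + 2) * dk (u + v) (u * v) (n + 2) +
        (t + s) * u * (u ^ (n + 1) * qk (u + v) (t + s) (u * v) (n + 1 + 1)) -
        (u * v) * u ^ 2 * (u ^ n * qk (u + v) (t + s) (u * v) (n + 1)) := by
      rw [qk]
      ring
    rw [e, h1, h2, dk_roots]
    have hv : u ^ (n + 2) * v ^ (n + 2) = (t * s) ^ (n + 2) := by rw [← mul_pow, h]
    have ha := ak_mul u t (n + 2)
    have hb := ak_mul u s (n + 2)
    have ha3 : ak u t (n + 2 + 1) = u * ak u t (n + 2) + t ^ (n + 2) := rfl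
    have hb3 : ak u s (n + 2 + 1) = u * ak u s (n + 2) + s ^ (n + 2) := rfl
    have ha2 : ak u t (n + 1 + 1) = u * ak u t (n + 1) + t ^ (n + 1) := rfl
    have hb2 : ak u s (n + 1 + 1) = u * ak u s (n + 1) + s ^ (n + 1) := rfl
    have ha2' : u * ak u t (n + 1) = ak u t (n + 2) - t ^ (n + 1) := by rw [ha2]; ring
    have hb2' : u * ak u s (n + 1) = ak u s (n + 2) - s ^ (n + 1) := by rw [hb2]; ring
    have e3 : (u * v) * u ^ 2 * (ak u t (n + 1) * ak u s (n + 1)) =
        (t * s) * ((ak u t (n + 2) - t ^ (n + 1)) * (ak u s (n + 2) - s ^ (n + 1))) := by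
      rw [← ha2', ← hb2', h]; ring
    rw [e3, ha3, hb3]
    have hX : u ^ (n + 2) * (u ^ (n + 2) + v ^ (n + 2)) =
        u ^ (n + 2) * u ^ (n + 2) + (t * s) ^ (n + 2) := by rw [mul_add, hv]
    rw [hX]
    change u ^ (n + 2) * u ^ (n + 2) + (t * s) ^ (n + 2) +
      (t + s) * u * (ak u t (n + 2) * ak u s (n + 2)) -
      (t * s) * ((ak u t (n + 2) - t ^ (n + 1)) * (ak u s (n + 2) - s ^ (n + 1))) =
      (u * ak u t (n + 2) + t ^ (n + 2)) * (u * ak u s (n + 2) + s ^ (n + 2))
    generalize ak u t (n + 2) = a at *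
    generalize ak u s (n + 2) = b at *
    have hU : u ^ (n + 2) = (u - t) * a + t ^ (n + 2) := by rw [ha]; ring
    have hU' : u ^ (n + 2) = (u - s) * b + s ^ (n + 2) := by rw [hb]; ring
    have hUU : u ^ (n + 2) * u ^ (n + 2) =
      ((u - t) * a + t ^ (n + 2)) * ((u - s) * b + s ^ (n + 2)) := by
      rw [← hU, ← hU']
    rw [hUU]
    ring

theorem dk_scale (c x α : R) : ∀ n, dk (c * x) (c ^ 2 * α) n = c ^ n * dk x α n
  | 0 => by simp [dk]
  | 1 => by simp [dk]
  | n + 2 => by
    rw [dk, dk, dk_scale c x α n, dk_scale c x α (n + 1)]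
    ring

theorem qk_scale (c x y α : R) :
    ∀ n, qk (c * x) (c * y) (c ^ 2 * α) (n + 1) = c ^ n * qk x y α (n + 1)
  | 0 => by simp [qk]
  | 1 => by simp [qk, dk]; ring
  | n + 2 => by
    have h1 := qk_scale c x y α n
    have h2 := qk_scale c x y α (n + 1)
    have e1 : qk (c * x) (c * y) (c ^ 2 * α) (n + 2 + 1) = dk (c * x) (c ^ 2 * α) (n + 2) +
      (c * y) * qk (c * x) (c * y) (c ^ 2 * α) (n + 1 + 1) -
      (c ^ 2 * α) * qk (c * x) (c * y) (c ^ 2 * α) (n + 1) := rfl
    have e2 : qk x y α (n + 2 + 1) = dk x α (n + 2) + y * qk x y α (n + 1 + 1) -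
      α * qk x y α (n + 1) := rfl
    rw [e1, e2, dk_scale, h2, h1]
    ring

theorem dk_alpha_zero (x : R) : ∀ n, dk x 0 (n + 1) = x ^ (n + 1)
  | 0 => by simp [dk]
  | 1 => by simp [dk]; ring
  | n + 2 => by
    rw [dk, dk_alpha_zero x (n + 1)]
    ring

theorem qk_alpha_zero (x y : R) : ∀ n, qk x y 0 n = ak y x n
  | 0 => by simp [qk, ak]
  | 1 => by simp [qk, ak]
  | n + 2 => by
    have e1 : qk x y 0 (n + 2) = dk x 0 (n + 1) + y * qk x y 0 (n + 1) - 0 * qk x y 0 n := rfl
    have e2 : ak y x (n + 2) = y * ak y x (n + 1) + x ^ (n + 1) := rfl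
    rw [e1, e2, qk_alpha_zero x y (n + 1), dk_alpha_zero]
    ring

end Ring

section FiniteField

theorem root_frob {E : Type*} [Field E] {p : ℕ} [Fact p.Prime] [CharP E p] {n : ℕ} {x α u : E}
    (hx : x ^ (p ^ n) = x) (hα : α ^ (p ^ n) = α) (hu : u ^ 2 - x * u + α = 0) :
    u ^ ((p ^ n) ^ 2) = u := by
  have h1 : (u ^ 2 - x * u + α) ^ (p ^ n) = 0 := by
    rw [hu, zero_pow (pow_ne_zero _ (Fact.out : p.Prime).ne_zero)]
  rw [add_pow_char_pow, sub_pow_char_pow, mul_pow, hx, hα, ← pow_mul, mul_comm 2, pow_mul] at h1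
  set U := u ^ (p ^ n) with hU
  have h2 : (U - u) * (U - (x - u)) = 0 := by linear_combination h1 - hu
  have h3 : u ^ ((p ^ n) ^ 2) = U ^ (p ^ n) := by
    rw [hU, pow_two, pow_mul]
  rw [h3]
  rcases mul_eq_zero.mp h2 with h4 | h4
  · have h5 : U = u := sub_eq_zero.mp h4
    rw [h5, ← hU, h5]
  · have h5 : U = x - u := sub_eq_zero.mp h4
    rw [h5, sub_pow_char_pow, hx, ← hU, h5]
    ring

theorem eq_of_pow_eq {E : Type*} [Field E] {u t : E} (ht : t ≠ 0) {d m : ℕ}
    (hum : u ^ m = 1) (htm : t ^ m = 1) (hcop : Nat.Coprime d m) (h : u ^ d = t ^ d) : u = t := by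
  have h1 : (u / t) ^ d = 1 := by rw [div_pow, h, div_self (pow_ne_zero _ ht)]
  have h2 : (u / t) ^ m = 1 := by rw [div_pow, hum, htm, div_one]
  have h3 : orderOf (u / t) = 1 :=
    Nat.eq_one_of_dvd_coprimes hcop (orderOf_dvd_of_pow_eq_one h1) (orderOf_dvd_of_pow_eq_one h2)
  have h4 : u / t = 1 := orderOf_eq_one_iff.mp h3
  exact (div_eq_one_iff_eq ht).mp h4

theorem ak_ne_zero {E : Type*} [Field E] {u t : E} (ht : t ≠ 0) {d m : ℕ}
    (hum : u ^ m = 1) (htm : t ^ m = 1) (hcop : Nat.Coprime (d + 1) m)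
    (hd : ((d + 1 : ℕ) : E) ≠ 0) : ak u t (d + 1) ≠ 0 := by
  intro h
  have h1 := ak_mul u t (d + 1)
  rw [h, mul_zero] at h1
  have h2 : u = t := eq_of_pow_eq ht hum htm hcop (sub_eq_zero.mp h1.symm)
  rw [h2, ak_self] at h
  rcases mul_eq_zero.mp h with h3 | h3
  · apply hd; push_cast; exact h3
  · exact pow_ne_zero _ ht h3

theorem qk_ne_zero_of_finite {k : Type*} [Field k] [Finite k] {p n : ℕ} (hp : p.Prime)
    [CharP k p] (hcard : Nat.card k = p ^ n) {d : ℕ}
    (hcop : Nat.Coprime (d + 1) ((p ^ n) ^ 2 - 1)) (hd : ((d + 1 : ℕ) : k) ≠ 0)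
    (x y α : k) (hxy : ¬ (x = 0 ∧ y = 0)) : qk x y α (d + 1) ≠ 0 := by
  have := Fintype.ofFinite k
  have : Fact p.Prime := ⟨hp⟩
  have hfr : ∀ z : k, z ^ (p ^ n) = z := by
    intro z
    have := FiniteField.pow_card z
    rwa [← Nat.card_eq_fintype_card, hcard] at this
  have hq0 : p ^ n ≠ 0 := pow_ne_zero _ hp.ne_zero
  have hone : ∀ {E : Type _} [Field E] (z : E), z ≠ 0 → z ^ ((p ^ n) ^ 2) = z →
      z ^ ((p ^ n) ^ 2 - 1) = 1 := by
    intro E _ z hz h
    have e : (p ^ n) ^ 2 = ((p ^ n) ^ 2 - 1) + 1 := by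
      have : 0 < (p ^ n) ^ 2 := by positivity
      omega
    rw [e, pow_succ] at h
    exact mul_right_cancel₀ hz (by rw [h, one_mul])
  have hk2 : ∀ z : k, z ^ ((p ^ n) ^ 2) = z := by
    intro z; rw [pow_two, pow_mul, hfr, hfr]
  by_cases hα : α = 0
  · subst hα
    rw [qk_alpha_zero]
    by_cases hy : y = 0
    · have hx : x ≠ 0 := fun h => hxy ⟨h, hy⟩
      rw [hy]
      have h1 := ak_mul (0 : k) x (d + 1)
      intro h
      rw [h, mul_zero, zero_pow (by omega), zero_sub] at h1
      exact hx (pow_eq_zero_iff (by omega) |>.mp (neg_eq_zero.mp h1.symm))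
    · by_cases hx : x = 0
      · rw [hx]
        have h1 := ak_mul y (0 : k) (d + 1)
        intro h
        rw [h, mul_zero, zero_pow (by omega), sub_zero] at h1
        exact hy (pow_eq_zero_iff (by omega) |>.mp h1.symm)
      · exact ak_ne_zero hx (hone y hy (hk2 y)) (hone x hx (hk2 x)) hcop hd
  · set E := AlgebraicClosure k with hE
    set φ := algebraMap k E with hφ
    have : CharP E p := charP_of_injective_algebraMap φ.injective p
    have hroot : ∀ z : k, ∃ u : E, u ^ 2 - φ z * u + φ α = 0 := by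
      intro z
      have hdeg : (X ^ 2 - C (φ z) * X + C (φ α) : E[X]).degree = 2 := by
        compute_degree!
      obtain ⟨u, hu⟩ := IsAlgClosed.exists_root (X ^ 2 - C (φ z) * X + C (φ α) : E[X])
        (by rw [hdeg]; norm_num)
      refine ⟨u, ?_⟩
      simpa [IsRoot] using hu
    have hφα : φ α ≠ 0 := by simpa using hα
    obtain ⟨u, hu⟩ := hroot x
    obtain ⟨t, ht⟩ := hroot y
    have hfrE : ∀ z : k, (φ z) ^ (p ^ n) = φ z := by
      intro z; rw [← map_pow, hfr]
    have hprop : ∀ {z : k} {w : E}, w ^ 2 - φ z * w + φ α = 0 → w ≠ 0 ∧ w ^ ((p ^ n) ^ 2 - 1) = 1 := by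
      intro z w hw
      have hw0 : w ≠ 0 := by
        rintro rfl
        apply hφα
        simpa using hw
      exact ⟨hw0, hone w hw0 (root_frob (hfrE z) (hfrE α) hw)⟩
    set v := φ x - u with hv
    set s := φ y - t with hs
    have huv : u * v = φ α := by rw [hv]; linear_combination -hu
    have hts : t * s = φ α := by rw [hs]; linear_combination -ht
    have hsroot : s ^ 2 - φ y * s + φ α = 0 := by rw [hs]; linear_combination ht
    obtain ⟨hu0, hu1⟩ := hprop hu
    obtain ⟨ht0, ht1⟩ := hprop ht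
    obtain ⟨hs0, hs1⟩ := hprop hsroot
    have hdE : ((d + 1 : ℕ) : E) ≠ 0 := by
      intro h
      apply hd
      apply φ.injective
      rw [map_natCast, map_zero]; exact h
    have hfac := qk_factor u v t s (by rw [huv, hts]) d
    have hx' : u + v = φ x := by rw [hv]; ring
    have hy' : t + s = φ y := by rw [hs]; ring
    rw [hx', hy', huv, ← map_qk φ] at hfac
    intro h
    rw [h, map_zero, mul_zero] at hfac
    rcases mul_eq_zero.mp hfac.symm with h1 | h1
    · exact ak_ne_zero ht0 hu1 ht1 hcop hdE h1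
    · exact ak_ne_zero hs0 hu1 hs1 hcop hdE h1

end FiniteField

section Val

variable {L : Type*} [Field L] {Γ₀ : Type*} [LinearOrderedCommGroupWithZero Γ₀]

theorem val_natCast_le_one (v : Valuation L Γ₀) (n : ℕ) : v (n : L) ≤ 1 := by
  induction n with
  | zero => simp
  | succ n ih =>
    push_cast
    exact (v.map_add _ _).trans (max_le ih (by rw [map_one]))

/-- the regime in which `α` dominates -/
theorem dk_qk_alpha_dominant (v : Valuation L Γ₀) (x y α : L) (hx : v x ^ 2 < v α)
    (hy : v y ^ 2 < v α) : ∀ n : ℕ,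
    v (dk x α (2 * n) - 2 * (-α) ^ n) < v α ^ n ∧
    v (dk x α (2 * n + 1)) ^ 2 < v α ^ (2 * n + 1) ∧
    v (qk x y α (2 * n + 1) - (2 * n + 1) * (-α) ^ n) < v α ^ n ∧
    v (qk x y α (2 * n + 2)) ^ 2 < v α ^ (2 * n + 1) := by
  have ha : 0 < v α := lt_of_le_of_lt zero_le hx
  have h2 : v (2 : L) ≤ 1 := by exact_mod_cast val_natCast_le_one v 2
  intro n
  induction n with
  | zero =>
    refine ⟨by simp [dk], by simpa [dk] using hx, by simp [qk], ?_⟩
    have e : qk x y α (2 * 0 + 2) = x + y := by simp [qk, dk]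
    rw [e]
    rcases le_total (v x) (v y) with h | h
    · refine lt_of_le_of_lt (pow_le_pow_left₀ zero_le ?_ 2) (by simpa using hy)
      exact (v.map_add _ _).trans (by rw [max_eq_right h])
    · refine lt_of_le_of_lt (pow_le_pow_left₀ zero_le ?_ 2) (by simpa using hx)
      exact (v.map_add _ _).trans (by rw [max_eq_left h])
  | succ n ih =>
    obtain ⟨i1, i2, i3, i4⟩ := ih
    have hpa : ∀ m : ℕ, 0 < v α ^ m := fun m => pow_pos ha m
    -- strict square comparison
    have hsq : ∀ {a b : Γ₀}, a ^ 2 < b ^ 2 → a < b := fun {a b} h =>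
      lt_of_pow_lt_pow_left₀ 2 zero_le h
    -- dk (2n+2)
    have e1 : dk x α (2 * (n + 1)) = x * dk x α (2 * n + 1) - α * dk x α (2 * n) := rfl
    have c1 : v (dk x α (2 * (n + 1)) - 2 * (-α) ^ (n + 1)) < v α ^ (n + 1) := by
      have e : dk x α (2 * (n + 1)) - 2 * (-α) ^ (n + 1) =
          x * dk x α (2 * n + 1) - α * (dk x α (2 * n) - 2 * (-α) ^ n) := by
        rw [e1]; ring
      rw [e]
      refine (v.map_sub _ _).trans_lt (max_lt ?_ ?_)
      · apply hsq
        rw [map_mul, mul_pow, ← pow_mul]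
        calc v x ^ 2 * v (dk x α (2 * n + 1)) ^ 2
            ≤ v α * v (dk x α (2 * n + 1)) ^ 2 := mul_le_mul' hx.le le_rfl
          _ < v α * v α ^ (2 * n + 1) := mul_lt_mul_of_pos_left i2 ha
          _ = v α ^ ((n + 1) * 2) := by rw [← pow_succ']; congr 1; ring
      · rw [map_mul, pow_succ']
        exact mul_lt_mul_of_pos_left i1 ha
    have c1' : v (dk x α (2 * (n + 1))) ≤ v α ^ (n + 1) := by
      have e : dk x α (2 * (n + 1)) = (dk x α (2 * (n + 1)) - 2 * (-α) ^ (n + 1)) +
        2 * (-α) ^ (n + 1) := by ring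
      rw [e]
      refine (v.map_add _ _).trans (max_le c1.le ?_)
      rw [map_mul, map_pow, Valuation.map_neg]
      calc v 2 * v α ^ (n + 1) ≤ 1 * v α ^ (n + 1) := mul_le_mul' h2 le_rfl
        _ = _ := one_mul _
    have e2 : dk x α (2 * (n + 1) + 1) = x * dk x α (2 * (n + 1)) - α * dk x α (2 * n + 1) := rfl
    have c2 : v (dk x α (2 * (n + 1) + 1)) ^ 2 < v α ^ (2 * (n + 1) + 1) := by
      rw [e2]
      have hA : v (x * dk x α (2 * (n + 1))) ^ 2 < v α ^ (2 * (n + 1) + 1) := by
        rw [map_mul, mul_pow]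
        calc v x ^ 2 * v (dk x α (2 * (n + 1))) ^ 2
            ≤ v x ^ 2 * (v α ^ (n + 1)) ^ 2 :=
              mul_le_mul' le_rfl (pow_le_pow_left₀ zero_le c1' 2)
          _ < v α * (v α ^ (n + 1)) ^ 2 := mul_lt_mul_of_pos_right hx (pow_pos (hpa _) 2)
          _ = v α ^ (2 * (n + 1) + 1) := by rw [← pow_mul, ← pow_succ']; congr 1; ring
      have hB : v (α * dk x α (2 * n + 1)) ^ 2 < v α ^ (2 * (n + 1) + 1) := by
        rw [map_mul, mul_pow]
        calc v α ^ 2 * v (dk x α (2 * n + 1)) ^ 2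
            < v α ^ 2 * v α ^ (2 * n + 1) := mul_lt_mul_of_pos_left i2 (hpa 2)
          _ = v α ^ (2 * (n + 1) + 1) := by rw [← pow_add]; congr 1; ring
      rcases le_total (v (x * dk x α (2 * (n + 1)))) (v (α * dk x α (2 * n + 1))) with h | h
      · exact lt_of_le_of_lt (pow_le_pow_left₀ zero_le
          ((v.map_sub _ _).trans (by rw [max_eq_right h])) 2) hB
      · exact lt_of_le_of_lt (pow_le_pow_left₀ zero_le
          ((v.map_sub _ _).trans (by rw [max_eq_left h])) 2) hA
    have e3 : qk x y α (2 * (n + 1) + 1) = dk x α (2 * (n + 1)) + y * qk x y α (2 * n + 2) -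
      α * qk x y α (2 * n + 1) := rfl
    have hyq : v (y * qk x y α (2 * n + 2)) < v α ^ (n + 1) := by
      apply hsq
      rw [map_mul, mul_pow, ← pow_mul]
      calc v y ^ 2 * v (qk x y α (2 * n + 2)) ^ 2
          ≤ v α * v (qk x y α (2 * n + 2)) ^ 2 := mul_le_mul' hy.le le_rfl
        _ < v α * v α ^ (2 * n + 1) := mul_lt_mul_of_pos_left i4 ha
        _ = v α ^ ((n + 1) * 2) := by rw [← pow_succ']; congr 1; ring
    have c3 : v (qk x y α (2 * (n + 1) + 1) - (2 * ((n + 1 : ℕ) : L) + 1) * (-α) ^ (n + 1)) <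
        v α ^ (n + 1) := by
      have e : qk x y α (2 * (n + 1) + 1) - (2 * ((n + 1 : ℕ) : L) + 1) * (-α) ^ (n + 1) =
          ((dk x α (2 * (n + 1)) - 2 * (-α) ^ (n + 1)) + y * qk x y α (2 * n + 2)) -
            α * (qk x y α (2 * n + 1) - (2 * n + 1) * (-α) ^ n) := by
        rw [e3]; push_cast; ring
      rw [e]
      refine (v.map_sub _ _).trans_lt (max_lt ((v.map_add _ _).trans_lt (max_lt c1 hyq)) ?_)
      rw [map_mul, pow_succ']
      exact mul_lt_mul_of_pos_left i3 ha
    have c3' : v (qk x y α (2 * (n + 1) + 1)) ≤ v α ^ (n + 1) := by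
      have e : qk x y α (2 * (n + 1) + 1) =
        (qk x y α (2 * (n + 1) + 1) - (2 * ((n + 1 : ℕ) : L) + 1) * (-α) ^ (n + 1)) +
        (2 * ((n + 1 : ℕ) : L) + 1) * (-α) ^ (n + 1) := by ring
      rw [e]
      refine (v.map_add _ _).trans (max_le c3.le ?_)
      rw [map_mul, map_pow, Valuation.map_neg]
      have : v (2 * ((n + 1 : ℕ) : L) + 1) ≤ 1 := by
        exact_mod_cast val_natCast_le_one v (2 * (n + 1) + 1)
      calc v (2 * ((n + 1 : ℕ) : L) + 1) * v α ^ (n + 1) ≤ 1 * v α ^ (n + 1) :=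
            mul_le_mul' this le_rfl
        _ = _ := one_mul _
    have e4 : qk x y α (2 * (n + 1) + 2) = dk x α (2 * (n + 1) + 1) +
      y * qk x y α (2 * (n + 1) + 1) - α * qk x y α (2 * n + 2) := rfl
    have c4 : v (qk x y α (2 * (n + 1) + 2)) ^ 2 < v α ^ (2 * (n + 1) + 1) := by
      rw [e4]
      have hA : v (y * qk x y α (2 * (n + 1) + 1)) ^ 2 < v α ^ (2 * (n + 1) + 1) := by
        rw [map_mul, mul_pow]
        calc v y ^ 2 * v (qk x y α (2 * (n + 1) + 1)) ^ 2
            ≤ v y ^ 2 * (v α ^ (n + 1)) ^ 2 :=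
              mul_le_mul' le_rfl (pow_le_pow_left₀ zero_le c3' 2)
          _ < v α * (v α ^ (n + 1)) ^ 2 := mul_lt_mul_of_pos_right hy (pow_pos (hpa _) 2)
          _ = v α ^ (2 * (n + 1) + 1) := by rw [← pow_mul, ← pow_succ']; congr 1; ring
      have hB : v (α * qk x y α (2 * n + 2)) ^ 2 < v α ^ (2 * (n + 1) + 1) := by
        rw [map_mul, mul_pow]
        calc v α ^ 2 * v (qk x y α (2 * n + 2)) ^ 2
            < v α ^ 2 * v α ^ (2 * n + 1) := mul_lt_mul_of_pos_left i4 (hpa 2)
          _ = v α ^ (2 * (n + 1) + 1) := by rw [← pow_add]; congr 1; ring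
      have hmax : ∀ {a b : L} {γ : Γ₀}, v a ^ 2 < γ → v b ^ 2 < γ → v (a + b) ^ 2 < γ := by
        intro a b γ h1 h2
        rcases le_total (v a) (v b) with h | h
        · exact lt_of_le_of_lt (pow_le_pow_left₀ zero_le
            ((v.map_add _ _).trans (by rw [max_eq_right h])) 2) h2
        · exact lt_of_le_of_lt (pow_le_pow_left₀ zero_le
            ((v.map_add _ _).trans (by rw [max_eq_left h])) 2) h1
      have hB' : v (-(α * qk x y α (2 * n + 2))) ^ 2 < v α ^ (2 * (n + 1) + 1) := by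
        rw [Valuation.map_neg]; exact hB
      rw [sub_eq_add_neg]
      exact hmax (hmax c2 hA) hB'
    refine ⟨c1, c2, ?_, c4⟩
    exact c3

variable [CharZero L] [Algebra ℚ L] [FiniteDimensional ℚ L]

/-- the exact size of the difference quotient of Dickson polynomials -/
theorem qk_val (v : Valuation L Γ₀) {p : ℕ} (hp : p.Prime) (hpv : v (p : L) < 1) {d : ℕ}
    (hd : 0 < d) (hpd : ¬ p ∣ d)
    (hcop : ∀ f, 1 ≤ f → f ≤ finrank ℚ L → Nat.Coprime d ((p ^ f) ^ 2 - 1))
    (x y α : L) :
    v (qk x y α d) ^ 2 = (max ((max (v x) (v y)) ^ 2) (v α)) ^ (d - 1) := by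
  obtain ⟨e, rfl⟩ : ∃ e, d = e + 1 := ⟨d - 1, by omega⟩
  rw [Nat.add_sub_cancel]
  obtain ⟨hfk, hchar, f, hf1, hfN, hcardk⟩ := residue_card v hp hpv
  have hcopf := hcop f hf1 hfN
  rcases Nat.eq_zero_or_pos e with he | he
  · subst he; simp [qk]
  -- `d` is odd
  have hodd : ¬ 2 ∣ e + 1 := by
    intro h2
    have h3 : (e + 1) ∣ (e + 1) := dvd_rfl
    by_cases hp2 : p = 2
    · exact hpd (hp2 ▸ h2)
    · have hpo : Odd p := hp.odd_of_ne_two hp2
      have h4 : 2 ∣ (p ^ f) ^ 2 - 1 := by
        have : Odd ((p ^ f) ^ 2) := (hpo.pow).pow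
        obtain ⟨c, hc⟩ := this
        exact ⟨c, by omega⟩
      have := Nat.dvd_gcd h2 h4
      rw [hcopf] at this
      omega
  set m := max (v x) (v y) with hm
  rcases lt_or_ge (m ^ 2) (v α) with hlt | hge
  · -- `α` dominates
    rw [max_eq_right hlt.le]
    have hx : v x ^ 2 < v α := lt_of_le_of_lt (pow_le_pow_left₀ zero_le (le_max_left _ _) 2) hlt
    have hy : v y ^ 2 < v α := lt_of_le_of_lt (pow_le_pow_left₀ zero_le (le_max_right _ _) 2) hlt
    obtain ⟨n, hn⟩ : ∃ n, e = 2 * n := ⟨e / 2, by omega⟩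
    subst hn
    have h3 := (dk_qk_alpha_dominant v x y α hx hy n).2.2.1
    have hval : v ((2 * (n : L) + 1) * (-α) ^ n) = v α ^ n := by
      rw [map_mul, map_pow, Valuation.map_neg]
      have h5 : v (2 * (n : L) + 1) = 1 := by
        apply le_antisymm
        · exact_mod_cast val_natCast_le_one v (2 * n + 1)
        · by_contra hlt1
          push Not at hlt1
          apply hpd
          set z : v.valuationSubring := ((2 * n + 1 : ℕ) : v.valuationSubring) with hz
          have hz1 : v.valuationSubring.subtype z = 2 * (n : L) + 1 := by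
            rw [hz, map_natCast]; push_cast; ring
          have hzm : z ∈ IsLocalRing.maximalIdeal v.valuationSubring := by
            rw [IsLocalRing.mem_maximalIdeal, mem_nonunits_iff]
            intro hu
            obtain ⟨w, hw⟩ := hu.exists_right_inv
            have g1 := congrArg (v.valuationSubring.subtype) hw
            rw [map_mul, hz1, map_one] at g1
            have g2 : v (2 * (n : L) + 1) * v (v.valuationSubring.subtype w) = 1 := by
              rw [← map_mul, g1, map_one]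
            have g3 : v (v.valuationSubring.subtype w) ≤ 1 := w.2
            have g4 : v (2 * (n : L) + 1) * v (v.valuationSubring.subtype w) ≤
              v (2 * (n : L) + 1) * 1 := mul_le_mul' le_rfl g3
            rw [g2, mul_one] at g4
            exact absurd g4 (not_le.mpr hlt1)
          have hz0 : IsLocalRing.residue v.valuationSubring z = 0 := by
            rw [IsLocalRing.residue_eq_zero_iff]; exact hzm
          rw [hz, map_natCast] at hz0
          exact (CharP.cast_eq_zero_iff (IsLocalRing.ResidueField v.valuationSubring) p _).mp hz0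
      rw [h5, one_mul]
    have h6 : v (qk x y α (2 * n + 1)) = v α ^ n := by
      have e1 : qk x y α (2 * n + 1) = (qk x y α (2 * n + 1) - (2 * n + 1) * (-α) ^ n) +
        (2 * (n : L) + 1) * (-α) ^ n := by ring
      rw [e1, Valuation.map_add_eq_of_lt_right _ (by rw [hval]; exact h3), hval]
    rw [h6, ← pow_mul, mul_comm]
  · -- `x` or `y` dominates
    rw [max_eq_left hge]
    by_cases hm0 : m = 0
    · have hx0 : x = 0 := (map_eq_zero v).mp (le_antisymm (hm0 ▸ le_max_left _ _) zero_le)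
      have hy0 : y = 0 := (map_eq_zero v).mp (le_antisymm (hm0 ▸ le_max_right _ _) zero_le)
      have hα0 : α = 0 := by
        rw [hm0, zero_pow (by norm_num)] at hge
        exact (map_eq_zero v).mp (le_antisymm hge zero_le)
      rw [hx0, hy0, hα0, qk_alpha_zero, ak_self, zero_pow he.ne', mul_zero, map_zero, hm0]
      simp [he.ne']
    obtain ⟨s, hs, hsxy⟩ : ∃ s : L, v s = m ∧ (s = x ∨ s = y) := by
      rcases le_total (v x) (v y) with h | h
      · exact ⟨y, (max_eq_right h).symm, Or.inr rfl⟩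
      · exact ⟨x, (max_eq_left h).symm, Or.inl rfl⟩
    have hs0 : s ≠ 0 := by
      rintro rfl; rw [map_zero] at hs; exact hm0 hs.symm
    have hmpos : 0 < m := zero_lt_iff.mpr hm0
    have hx1 : v (x / s) ≤ 1 := by
      rw [map_div₀, hs]; exact div_le_one_of_le₀ (le_max_left _ _) zero_le
    have hy1 : v (y / s) ≤ 1 := by
      rw [map_div₀, hs]; exact div_le_one_of_le₀ (le_max_right _ _) zero_le
    have hα1 : v (α / s ^ 2) ≤ 1 := by
      rw [map_div₀, map_pow, hs]; exact div_le_one_of_le₀ hge zero_le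
    set x0 : v.valuationSubring := ⟨x / s, hx1⟩ with hx0
    set y0 : v.valuationSubring := ⟨y / s, hy1⟩ with hy0
    set α0 : v.valuationSubring := ⟨α / s ^ 2, hα1⟩ with hα0
    have hres : qk (IsLocalRing.residue v.valuationSubring x0)
        (IsLocalRing.residue v.valuationSubring y0)
        (IsLocalRing.residue v.valuationSubring α0) (e + 1) ≠ 0 := by
      refine qk_ne_zero_of_finite hp hcardk hcopf ?_ _ _ _ ?_
      · intro h
        exact hpd ((CharP.cast_eq_zero_iff _ p _).mp h)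
      · rintro ⟨h1, h2⟩
        rcases hsxy with h3 | h3
        · have h4 : x0 = 1 := by
            apply Subtype.ext
            change x / s = 1
            rw [← h3, div_self hs0]
          rw [h4, map_one] at h1
          exact one_ne_zero h1
        · have h4 : y0 = 1 := by
            apply Subtype.ext
            change y / s = 1
            rw [← h3, div_self hs0]
          rw [h4, map_one] at h2
          exact one_ne_zero h2
    rw [← map_qk] at hres
    have hunit : IsUnit (qk x0 y0 α0 (e + 1)) := by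
      by_contra hnu
      apply hres
      rw [IsLocalRing.residue_eq_zero_iff, IsLocalRing.mem_maximalIdeal, mem_nonunits_iff]
      exact hnu
    have hval : v (qk (x / s) (y / s) (α / s ^ 2) (e + 1)) = 1 := by
      have h1 : qk (x / s) (y / s) (α / s ^ 2) (e + 1) =
          v.valuationSubring.subtype (qk x0 y0 α0 (e + 1)) := by
        rw [map_qk]; rfl
      rw [h1]
      obtain ⟨w, hw⟩ := hunit.exists_right_inv
      have g1 := congrArg (v.valuationSubring.subtype) hw
      rw [map_mul, map_one] at g1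
      have g2 : v (v.valuationSubring.subtype (qk x0 y0 α0 (e + 1))) *
          v (v.valuationSubring.subtype w) = 1 := by
        rw [← map_mul, g1, map_one]
      have g3 : v (v.valuationSubring.subtype w) ≤ 1 := w.2
      have g5 : v (v.valuationSubring.subtype (qk x0 y0 α0 (e + 1))) ≤ 1 :=
        (qk x0 y0 α0 (e + 1)).2
      apply le_antisymm g5
      calc (1 : Γ₀) = v (v.valuationSubring.subtype (qk x0 y0 α0 (e + 1))) *
          v (v.valuationSubring.subtype w) := g2.symm
        _ ≤ v (v.valuationSubring.subtype (qk x0 y0 α0 (e + 1))) * 1 := mul_le_mul' le_rfl g3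
        _ = _ := mul_one _
    have hsc := qk_scale s (x / s) (y / s) (α / s ^ 2) e
    have ex : s * (x / s) = x := by field_simp
    have ey : s * (y / s) = y := by field_simp
    have eα : s ^ 2 * (α / s ^ 2) = α := by field_simp
    rw [ex, ey, eα] at hsc
    rw [hsc, map_mul, hval, mul_one, map_pow, hs, ← pow_mul, ← pow_mul, mul_comm]

end Val

end Pool.Agent.H.MP_0e6b5f_nt
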