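import Pool.Agent.H.MP_0e6b5f_nt.Mono

/-!
# Potential good reduction, in a generalised sense, for Henon maps with arbitrary Jacobian
-/

namespace Pool.Agent.H.MP_0e6b5f_nt

open Polynomial Function Module

section Orbit

variable {L : Type*} [Field L] {Γ₀ : Type*} [LinearOrderedCommGroupWithZero Γ₀]

/-- period bound from the local expansions along the orbit only -/
theorem orbit_period (v : Valuation L Γ₀) {p : ℕ} (hp : p.Prime) (hp0 : (p : L) ≠ 0)
    (hpv : v (p : L) < 1)
    [Finite (v.valuationSubring ⧸ Ideal.span {(p : v.valuationSubring) ^ 2})] {q : ℕ}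
    (hq : Nat.card (v.valuationSubring ⧸ Ideal.span {(p : v.valuationSubring) ^ 2}) ≤ q)
    (F : L[X]) (δ : L) (hδ : v δ ≤ 1)
    (P : L × L) {n : ℕ} (hn : 0 < n) (hP : (hm F δ)^[n] P = P)
    (hM : ∀ i j l : ℕ, v ((F.comp (C (((hm F δ)^[i] P).1 - ((hm F δ)^[j] P).1) * X +
      C (((hm F δ)^[j] P).1))).coeff (l + 1)) ≤
        v (((hm F δ)^[i] P).1 - ((hm F δ)^[j] P).1)) :
    (hm F δ)^[bigM q] P = P := by
  set x : ℕ → L := fun k => ((hm F δ)^[k] P).1 with hx
  have hxP : ∀ k, (hm F δ)^[k] P = (x k, x (k + 1)) := fun k => hm_seq F δ P k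
  have hper : ∀ k, x (k + n) = x k := fun k => by
    simp only [hx]; rw [hm_periodic hP]
  -- the diameter of the orbit
  have hdiam : ∃ i j, ∀ k l, v (x k - x l) ≤ v (x (i + 1) - x (j + 1)) := by
    have h1 : ∀ l, ∃ i, ∀ k, v (x k - x l) ≤ v (x (i + 1) - x l) := fun l =>
      exists_max_periodic (fun k => v (x k - x l)) hn (fun k => by simp only [hper k])
    choose i hi using h1
    obtain ⟨j, hj'⟩ := exists_max_periodic (fun l => v (x (i 0 + 1) - x l)) hn
      (fun l => by simp only [hper l])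
    have hj : ∀ l, v (x (i 0 + 1) - x l) ≤ v (x (i 0 + 1) - x (j + 1)) := hj'
    refine ⟨i 0, j, fun k l => ?_⟩
    have h2 : ∀ k, v (x k - x 0) ≤ v (x (i 0 + 1) - x (j + 1)) := fun k =>
      (hi 0 k).trans (hj 0)
    have e : x k - x l = (x k - x 0) - (x l - x 0) := by ring
    rw [e]
    exact (v.map_sub _ _).trans (max_le (h2 k) (h2 l))
  obtain ⟨i, j, hij⟩ := hdiam
  set h := x (i + 1) - x (j + 1) with hh
  by_cases h0 : h = 0
  · have hconst : ∀ k l, x k = x l := by
      intro k l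
      have := hij k l
      rw [h0, map_zero] at this
      exact sub_eq_zero.mp ((map_eq_zero v).mp (le_antisymm this zero_le))
    have hfP : hm F δ P = P := by
      have e0 := hxP 0
      have e1 := hxP 1
      simp only [iterate_zero, id_eq, zero_add] at e0
      rw [iterate_one] at e1
      rw [e1]
      conv_rhs => rw [e0]
      rw [hconst 1 0, hconst (1 + 1) 0]
    exact iterate_fixed hfP _
  · exact period_of_integral v hp hp0 hpv hq F δ hδ P hn hP (x (j + 1)) h h0
      (fun k => hij k (j + 1)) (fun l => hM (i + 1) (j + 1) l)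

/-- expansion of a polynomial on a disc, in terms of Gauss norms -/
theorem comp_sub_gn {E : Type*} [Field E] (w : Valuation E Γ₀) (G : E[X]) {Δ ρ : Γ₀}
    (hG : ∀ i, w (G.coeff (i + 1)) * ρ ^ i ≤ Δ) (u h : E) (hu : w u ≤ ρ) (hh : w h ≤ ρ) (i : ℕ) :
    w ((G.comp (C h * X + C u)).coeff (i + 1)) ≤ Δ * w h := by
  have key : ∀ e : ℕ, GN w ((C h * X + C u) ^ (e + 1) - (C u) ^ (e + 1) : E[X])
      (ρ ^ e * w h) := by
    intro e
    have h1 := Commute.geom_sum₂_mul (Commute.all (C h * X + C u : E[X]) (C u)) (e + 1)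
    rw [← h1, add_sub_cancel_right]
    refine GN.mul ?_ ?_
    · refine GN.sum fun j hj => ?_
      have hj' : j ≤ e := Nat.lt_succ_iff.mp (Finset.mem_range.mp hj)
      have h2 : GN w (C h * X + C u : E[X]) ρ := by
        refine GN.add ?_ (GN.C hu)
        have := (GN.C (v := w) hh).mul (GN.X (v := w))
        rwa [mul_one] at this
      have h3 := (h2.pow j).mul ((GN.C (v := w) hu).pow (e + 1 - 1 - j))
      rw [← pow_add] at h3
      have e1 : j + (e + 1 - 1 - j) = e := by omega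
      rwa [e1] at h3
    · have := (GN.C (v := w) (a := h) le_rfl).mul (GN.X (v := w))
      rwa [mul_one] at this
  have h1 : (G.comp (C h * X + C u)).coeff (i + 1) =
      (G.comp (C h * X + C u) - C (G.eval u)).coeff (i + 1) := by
    rw [coeff_sub, coeff_C_succ, sub_zero]
  have h2 : G.comp (C h * X + C u) - C (G.eval u) =
      ∑ e ∈ Finset.range (G.natDegree + 1),
        C (G.coeff e) * ((C h * X + C u) ^ e - (C u) ^ e) := by
    rw [comp_eq_sum_left, Polynomial.sum_over_range (h := fun n => by simp),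
      eval_eq_sum_range, map_sum, ← Finset.sum_sub_distrib]
    refine Finset.sum_congr rfl fun e _ => ?_
    rw [C_mul, C_pow]; ring
  rw [h1, h2]
  refine GN.sum (v := w) (γ := Δ * w h) (fun e _ => ?_) (i + 1)
  rcases Nat.eq_zero_or_pos e with rfl | he
  · simpa using GN.zero (v := w) (Δ * w h)
  · obtain ⟨e, rfl⟩ : ∃ e', e = e' + 1 := ⟨e - 1, by omega⟩
    have h3 := (GN.C (v := w) (a := G.coeff (e + 1)) le_rfl).mul (key e)
    refine h3.mono ?_
    rw [← mul_assoc]
    exact mul_le_mul' (hG e) le_rfl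

/-- the conditions on the polynomial `G = F(X + b) - (1 + δ) b` -/
def GoodCond {E : Type*} [Field E] (w : Valuation E Γ₀) (G : E[X]) (d : ℕ) (Δ ρ : Γ₀) : Prop :=
  G.natDegree ≤ d ∧ 0 < ρ ∧ (∀ i, w (G.coeff i) * ρ ^ i ≤ Δ * ρ) ∧
    w (G.coeff d) * ρ ^ d = Δ * ρ

theorem good_period_aux {E : Type*} [Field E] (w : Valuation E Γ₀) (ι : L →+* E)
    {p : ℕ} (hp : p.Prime) (hp0 : (p : L) ≠ 0) (hpv : (w.comap ι) (p : L) < 1)
    [Finite ((w.comap ι).valuationSubring ⧸
      Ideal.span {(p : (w.comap ι).valuationSubring) ^ 2})] {q : ℕ}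
    (hq : Nat.card ((w.comap ι).valuationSubring ⧸
      Ideal.span {(p : (w.comap ι).valuationSubring) ^ 2}) ≤ q)
    (F : L[X]) (δ : L) (hδ : (w.comap ι) δ ≤ 1) (b : E) {d : ℕ} (hd : 2 ≤ d) (ρ : Γ₀)
    (hG : GoodCond w ((F.map ι).comp (X + C b) - C ((1 + ι δ) * b)) d 1 ρ)
    (P : L × L) {n : ℕ} (hn : 0 < n) (hP : (hm F δ)^[n] P = P) :
    (hm F δ)^[bigM q] P = P := by
  obtain ⟨hdeg, hρ, hcoef, htop⟩ := hG
  set G : E[X] := (F.map ι).comp (X + C b) - C ((1 + ι δ) * b) with hGdef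
  set x : ℕ → L := fun k => ((hm F δ)^[k] P).1 with hx
  have hrec : ∀ k, F.eval (x (k + 1)) = x (k + 2) + δ * x k := by
    intro k
    have := hm_rec F δ P k
    simp only [hx]
    rw [this]; ring
  have hper : ∀ k, x (k + n) = x k := fun k => by
    simp only [hx]; rw [hm_periodic hP]
  set u : ℕ → E := fun k => ι (x k) - b with hu
  have hurec : ∀ k, G.eval (u (k + 1)) = u (k + 2) + ι δ * u k := by
    intro k
    have e : G.eval (u (k + 1)) = ι (F.eval (x (k + 1))) - (1 + ι δ) * b := by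
      simp only [hGdef, hu, eval_sub, eval_comp, eval_add, eval_X, eval_C, sub_add_cancel]
      rw [eval_map_apply]
    rw [e, hrec, map_add, map_mul]
    simp only [hu]; ring
  have hδ' : w (ι δ) ≤ 1 := hδ
  -- the orbit stays in the disc of radius `ρ`
  have hsmall : ∀ k, w (u k) ≤ ρ := by
    obtain ⟨m, hm'⟩ := exists_max_periodic (fun k => w (u k)) hn
      (fun k => by simp only [hu, hper k])
    have hm1 : ∀ k, w (u k) ≤ w (u (m + 1)) := hm'
    intro k
    refine (hm1 k).trans ?_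
    by_contra hlt
    push Not at hlt
    set R := w (u (m + 1)) with hR
    have hR0 : 0 < R := lt_of_le_of_lt zero_le hlt
    have h1 : w (G.eval (u (m + 1))) ≤ R := by
      rw [hurec]
      refine (w.map_add _ _).trans (max_le (hm1 _) ?_)
      rw [map_mul]
      calc w (ι δ) * w (u m) ≤ 1 * R := mul_le_mul' hδ' (hm1 _)
        _ = R := one_mul R
    -- the leading term dominates
    have h2 : G.eval (u (m + 1)) = ∑ i ∈ Finset.range d, G.coeff i * u (m + 1) ^ i +
        G.coeff d * u (m + 1) ^ d := by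
      rw [eval_eq_sum_range' (Nat.lt_succ_of_le hdeg), Finset.sum_range_succ]
    have h3 : w (G.coeff d * u (m + 1) ^ d) * ρ ^ d = ρ * R ^ d := by
      rw [map_mul, map_pow, ← hR]
      calc w (G.coeff d) * R ^ d * ρ ^ d = (w (G.coeff d) * ρ ^ d) * R ^ d := by
            rw [mul_right_comm]
        _ = ρ * R ^ d := by rw [htop, one_mul]
    have h4 : ∀ i < d, w (G.coeff i * u (m + 1) ^ i) < w (G.coeff d * u (m + 1) ^ d) := by
      intro i hi
      have hρd : 0 < ρ ^ d := pow_pos hρ d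
      have h5 : w (G.coeff i * u (m + 1) ^ i) * ρ ^ d < ρ * R ^ d := by
        rw [map_mul, map_pow, ← hR]
        have e1 : ρ ^ d = ρ ^ i * ρ ^ (d - i) := by rw [← pow_add]; congr 1; omega
        have e2 : R ^ d = R ^ i * R ^ (d - i) := by rw [← pow_add]; congr 1; omega
        rw [e1, e2]
        calc w (G.coeff i) * R ^ i * (ρ ^ i * ρ ^ (d - i))
            = (w (G.coeff i) * ρ ^ i) * R ^ i * ρ ^ (d - i) := by
              rw [mul_assoc, mul_assoc, mul_assoc]
              congr 1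
              rw [mul_left_comm]
          _ ≤ (1 * ρ) * R ^ i * ρ ^ (d - i) :=
              mul_le_mul' (mul_le_mul' (hcoef i) le_rfl) le_rfl
          _ = (ρ * R ^ i) * ρ ^ (d - i) := by rw [one_mul]
          _ < (ρ * R ^ i) * R ^ (d - i) := by
              apply mul_lt_mul_of_pos_left _ (mul_pos hρ (pow_pos hR0 i))
              exact pow_lt_pow_left₀ hlt zero_le (by omega)
          _ = ρ * (R ^ i * R ^ (d - i)) := by rw [mul_assoc]
      rw [← h3] at h5
      exact lt_of_mul_lt_mul_right h5 zero_le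
    have htop0 : 0 < w (G.coeff d * u (m + 1) ^ d) := by
      have := h4 0 (by omega)
      exact lt_of_le_of_lt zero_le this
    have h5 : w (∑ i ∈ Finset.range d, G.coeff i * u (m + 1) ^ i) <
        w (G.coeff d * u (m + 1) ^ d) := by
      apply w.map_sum_lt htop0.ne'
      intro i hi
      exact h4 i (Finset.mem_range.mp hi)
    have h6 : w (G.eval (u (m + 1))) = w (G.coeff d * u (m + 1) ^ d) := by
      rw [h2]; exact w.map_add_eq_of_lt_right h5
    rw [h6] at h1
    have h7 : w (G.coeff d * u (m + 1) ^ d) * ρ ^ d ≤ R * ρ ^ d := mul_le_mul' h1 le_rfl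
    rw [h3] at h7
    -- `ρ R^d ≤ R ρ^d` contradicts `ρ < R`
    obtain ⟨e, rfl⟩ : ∃ e, d = e + 2 := ⟨d - 2, by omega⟩
    have h8 : R * ρ ^ (e + 2) < ρ * R ^ (e + 2) := by
      have e1 : R * ρ ^ (e + 2) = (ρ * R) * ρ ^ (e + 1) := by
        rw [pow_succ' ρ (e + 1), ← mul_assoc, mul_comm R ρ]
      have e2 : ρ * R ^ (e + 2) = (ρ * R) * R ^ (e + 1) := by
        rw [pow_succ' R (e + 1), ← mul_assoc]
      rw [e1, e2]
      apply mul_lt_mul_of_pos_left _ (mul_pos hρ hR0)
      exact pow_lt_pow_left₀ hlt zero_le (by omega)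
    exact absurd h7 (not_le.mpr h8)
  refine orbit_period (w.comap ι) hp hp0 hpv hq F δ hδ P hn hP (fun i j l => ?_)
  have hd1 : ∀ e, w (G.coeff (e + 1)) * ρ ^ e ≤ 1 := by
    intro e
    have h1 := hcoef (e + 1)
    rw [pow_succ, ← mul_assoc] at h1
    exact le_of_mul_le_mul_right h1 hρ
  have h1 := comp_sub_gn w G hd1 (u j) (ι (x i - x j)) (hsmall j) (by
    have e : ι (x i - x j) = u i - u j := by simp only [hu, map_sub]; ring
    rw [e]
    exact (w.map_sub _ _).trans (max_le (hsmall i) (hsmall j))) l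
  rw [one_mul] at h1
  have e : (G.comp (C (ι (x i - x j)) * X + C (u j))).coeff (l + 1) =
      ι ((F.comp (C (x i - x j) * X + C (x j))).coeff (l + 1)) := by
    rw [← coeff_map, Polynomial.map_comp, hGdef, sub_comp, C_comp, coeff_sub, coeff_C_succ,
      sub_zero, Polynomial.comp_assoc]
    congr 2
    simp only [hu, add_comp, X_comp, C_comp, Polynomial.map_add, Polynomial.map_mul, map_C, map_X,
      map_sub, Polynomial.map_sub]
    ring
  rw [e] at h1
  exact h1

/-- **Generalised potential good reduction**: arbitrary `δ`, arbitrary centre `b`. -/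
theorem good_period {E : Type*} [Field E] (w : Valuation E Γ₀) (ι : L →+* E)
    {p : ℕ} (hp : p.Prime) (hp0 : (p : L) ≠ 0) (hpv : (w.comap ι) (p : L) < 1)
    [Finite ((w.comap ι).valuationSubring ⧸
      Ideal.span {(p : (w.comap ι).valuationSubring) ^ 2})] {q : ℕ}
    (hq : Nat.card ((w.comap ι).valuationSubring ⧸
      Ideal.span {(p : (w.comap ι).valuationSubring) ^ 2}) ≤ q)
    (F : L[X]) (δ : L) (hδ : δ ≠ 0) (b : E) {d : ℕ} (hd : 2 ≤ d) (ρ : Γ₀)
    (hG : GoodCond w ((F.map ι).comp (X + C b) - C ((1 + ι δ) * b)) d (max 1 (w (ι δ))) ρ)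
    (P : L × L) {n : ℕ} (hn : 0 < n) (hP : (hm F δ)^[n] P = P) :
    (hm F δ)^[bigM q] P = P := by
  rcases le_or_gt (w (ι δ)) 1 with h1 | h1
  · rw [max_eq_left h1] at hG
    exact good_period_aux w ι hp hp0 hpv hq F δ h1 b hd ρ hG P hn hP
  · rw [max_eq_right h1.le] at hG
    have hvδ : 0 < w (ι δ) := lt_of_le_of_lt zero_le h1
    have hδ' : ι δ ≠ 0 := (map_ne_zero ι).mpr hδ
    rw [← hm_inv_fix_iff F δ hδ] at hP ⊢
    refine good_period_aux w ι hp hp0 hpv hq _ _ ?_ b hd ρ ?_ _ hn hP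
    · rw [map_inv₀]
      exact inv_le_one_of_one_le₀ h1.le
    · have e : ((C δ⁻¹ * F).map ι).comp (X + C b) - C ((1 + ι δ⁻¹) * b) =
          C (ι δ)⁻¹ * ((F.map ι).comp (X + C b) - C ((1 + ι δ) * b)) := by
        rw [Polynomial.map_mul, map_C, map_inv₀, mul_comp, C_comp, mul_sub, ← C_mul]
        congr 2
        field_simp
        ring
      rw [e]
      obtain ⟨hdeg, hρ, hcoef, htop⟩ := hG
      refine ⟨?_, hρ, ?_, ?_⟩
      · exact (natDegree_C_mul_le _ _).trans hdeg
      · intro i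
        rw [coeff_C_mul, map_mul, map_inv₀, mul_assoc, one_mul]
        calc (w (ι δ))⁻¹ * (w (((F.map ι).comp (X + C b) - C ((1 + ι δ) * b)).coeff i) * ρ ^ i)
            ≤ (w (ι δ))⁻¹ * (w (ι δ) * ρ) := mul_le_mul' le_rfl (hcoef i)
          _ = ρ := by rw [inv_mul_cancel_left₀ hvδ.ne']
      · rw [coeff_C_mul, map_mul, map_inv₀, mul_assoc, one_mul, htop,
          inv_mul_cancel_left₀ hvδ.ne']

end Orbit

end Pool.Agent.H.MP_0e6b5f_nt
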