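import Mathlib

/-!
# Auxiliary primes, and extension of places to the algebraic closure
-/

namespace Pool.Agent.H.MP_0e6b5f_nt

open Module

theorem exists_primitive_root (l : ℕ) [Fact l.Prime] :
    ∃ g : ℕ, (g : ZMod l) ≠ 0 ∧ ∀ f : ℕ, ((g : ZMod l)) ^ f = 1 → (l - 1) ∣ f := by
  obtain ⟨g, hg⟩ := IsCyclic.exists_generator (α := (ZMod l)ˣ)
  refine ⟨(g : ZMod l).val, by rw [ZMod.natCast_zmod_val]; exact g.ne_zero, fun f hf => ?_⟩
  rw [ZMod.natCast_zmod_val] at hf
  have h1 : g ^ f = 1 := by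
    ext; push_cast; exact hf
  have h2 := orderOf_dvd_of_pow_eq_one h1
  rw [orderOf_eq_card_of_forall_mem_zpowers hg, Nat.card_eq_fintype_card,
    ZMod.card_units_eq_totient, Nat.totient_prime Fact.out] at h2
  exact h2

/-- If every prime factor of `d` exceeds `N + 1`, there are arbitrarily large primes `p` such
that `d` is prime to `p ^ f - 1` for `1 ≤ f ≤ N`. -/
theorem exists_good_prime {N d : ℕ} (hd : 0 < d)
    (hl : ∀ l : ℕ, l.Prime → l ∣ d → N + 1 < l) (M : ℕ) :
    ∃ p, M < p ∧ p.Prime ∧ ¬ p ∣ d ∧ ∀ f, 1 ≤ f → f ≤ N → Nat.Coprime d (p ^ f - 1) := by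
  classical
  have hex : ∀ l : ℕ, ∃ g : ℕ, l.Prime →
      (g : ZMod l) ≠ 0 ∧ ∀ f : ℕ, ((g : ZMod l)) ^ f = 1 → (l - 1) ∣ f := by
    intro l
    by_cases h : l.Prime
    · have : Fact l.Prime := ⟨h⟩
      obtain ⟨g, hg⟩ := exists_primitive_root l
      exact ⟨g, fun _ => hg⟩
    · exact ⟨0, fun h' => absurd h' h⟩
  choose g hg using hex
  obtain ⟨a, ha⟩ := Nat.chineseRemainderOfFinset g (fun l => l) d.primeFactors
    (fun i hi => (Nat.prime_of_mem_primeFactors hi).ne_zero)
    (by
      intro i hi j hj hij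
      exact (Nat.coprime_primes (Nat.prime_of_mem_primeFactors hi)
        (Nat.prime_of_mem_primeFactors hj)).mpr hij)
  set R := ∏ l ∈ d.primeFactors, l with hR
  have hR0 : R ≠ 0 := Finset.prod_ne_zero_iff.mpr
    fun l hl => (Nat.prime_of_mem_primeFactors hl).ne_zero
  have : NeZero R := ⟨hR0⟩
  have hcop : Nat.Coprime a R := by
    rw [hR]
    apply Nat.Coprime.prod_right
    intro l hlmem
    have hlp := Nat.prime_of_mem_primeFactors hlmem
    have : Fact l.Prime := ⟨hlp⟩
    rw [Nat.coprime_comm, hlp.coprime_iff_not_dvd]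
    intro hdiv
    have h1 : ((g l : ℕ) : ZMod l) = (a : ℕ) :=
      ((ZMod.natCast_eq_natCast_iff _ _ _).mpr (ha l hlmem)).symm
    have h2 : ((a : ℕ) : ZMod l) = 0 := (ZMod.natCast_eq_zero_iff _ _).mpr hdiv
    rw [h2] at h1
    exact (hg l hlp).1 h1
  have hunit : IsUnit ((a : ℕ) : ZMod R) := (ZMod.isUnit_iff_coprime a R).mpr hcop
  obtain ⟨p, hpM, hp, hpa⟩ := Nat.forall_exists_prime_gt_and_eq_mod hunit (max M d)
  refine ⟨p, lt_of_le_of_lt (le_max_left _ _) hpM, hp, ?_, ?_⟩
  · intro h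
    have := Nat.le_of_dvd hd h
    have h2 : d < p := lt_of_le_of_lt (le_max_right _ _) hpM
    omega
  · intro f hf1 hfN
    rw [Nat.coprime_iff_gcd_eq_one]
    by_contra hne
    obtain ⟨l, hlp, hldvd⟩ := Nat.exists_prime_and_dvd hne
    have hld : l ∣ d := hldvd.trans (Nat.gcd_dvd_left _ _)
    have hlp' : l ∣ p ^ f - 1 := hldvd.trans (Nat.gcd_dvd_right _ _)
    have hmem : l ∈ d.primeFactors := Nat.mem_primeFactors.mpr ⟨hlp, hld, hd.ne'⟩
    have h1 : ((p : ℕ) : ZMod l) = (g l : ℕ) := by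
      have hlR : l ∣ R := Finset.dvd_prod_of_mem _ hmem
      have h2 : p ≡ a [MOD R] := (ZMod.natCast_eq_natCast_iff _ _ _).mp hpa
      have h3 : p ≡ a [MOD l] := h2.of_dvd hlR
      have h4 : a ≡ g l [MOD l] := ha l hmem
      exact (ZMod.natCast_eq_natCast_iff _ _ _).mpr (h3.trans h4)
    have h2 : ((g l : ℕ) : ZMod l) ^ f = 1 := by
      rw [← h1]
      have hpf : 1 ≤ p ^ f := Nat.one_le_pow _ _ hp.pos
      have h3 : ((p ^ f - 1 : ℕ) : ZMod l) = 0 := (ZMod.natCast_eq_zero_iff _ _).mpr hlp'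
      rw [Nat.cast_sub hpf, Nat.cast_one, Nat.cast_pow] at h3
      exact sub_eq_zero.mp h3
    have h3 := (hg l hlp).2 f h2
    have h4 := Nat.le_of_dvd (by omega) h3
    have h5 := hl l hlp hld
    omega

section Ext

open IsDedekindDomain NumberField

variable {K : Type*} [Field K] [NumberField K]

/-- every place of `K` extends to the algebraic closure -/
theorem exists_valuation_ext (v : HeightOneSpectrum (𝓞 K)) :
    ∃ W : ValuationSubring (AlgebraicClosure K),
      (v.valuation K).IsEquiv (W.valuation.comap (algebraMap K (AlgebraicClosure K))) := by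
  set A := (v.valuation K).valuationSubring with hA
  obtain ⟨W, h, hloc⟩ := IsLocalRing.exists_factor_valuationRing (R := A)
    ((algebraMap K (AlgebraicClosure K)).comp A.subtype)
  refine ⟨W, ?_⟩
  rw [Valuation.isEquiv_iff_val_le_one]
  intro x
  rw [Valuation.comap_apply, ValuationSubring.valuation_le_one_iff]
  constructor
  · intro hx
    exact h ⟨x, hx⟩
  · intro hx
    by_contra hlt
    push Not at hlt
    have hx0 : x ≠ 0 := by
      rintro rfl
      rw [map_zero] at hlt
      exact absurd hlt (not_lt.mpr zero_le)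
    have hinv : v.valuation K x⁻¹ < 1 := by
      rw [map_inv₀]
      exact inv_lt_one_of_one_lt₀ hlt
    set y : A := ⟨x⁻¹, hinv.le⟩ with hy
    have hyu : ¬ IsUnit y := by
      intro hu
      obtain ⟨z, hz⟩ := hu.exists_right_inv
      have h1 := congrArg (A.subtype) hz
      rw [map_mul, map_one] at h1
      have h2 : (v.valuation K) (x⁻¹) * (v.valuation K) (A.subtype z) = 1 := by
        rw [← map_mul]
        have : x⁻¹ * A.subtype z = 1 := h1
        rw [this, map_one]
      have h3 : (v.valuation K) (A.subtype z) ≤ 1 := z.2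
      have h4 : (v.valuation K) (x⁻¹) * (v.valuation K) (A.subtype z) ≤
          (v.valuation K) (x⁻¹) * 1 := mul_le_mul' le_rfl h3
      rw [h2, mul_one] at h4
      exact absurd h4 (not_le.mpr hinv)
    apply hyu
    apply hloc.map_nonunit
    refine isUnit_iff_exists_inv.mpr ⟨⟨algebraMap K (AlgebraicClosure K) x, hx⟩, ?_⟩
    apply Subtype.ext
    change algebraMap K (AlgebraicClosure K) x⁻¹ * algebraMap K (AlgebraicClosure K) x = 1
    rw [← map_mul, inv_mul_cancel₀ hx0, map_one]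

end Ext

end Pool.Agent.H.MP_0e6b5f_nt
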