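import Pool.Agent.H.MP_0e6b5f_nt.Global
import Pool.Agent.H.MP_0e6b5f_nt.Primes
import Pool.Agent.H.MP_0e6b5f_nt.GoodRed

/-!
# Local criteria at one place above `p`
-/

namespace Pool.Agent.H.MP_0e6b5f_nt

open Polynomial Module Function

/-- the power map is expanding and injective on each field of degree at most `N` -/
theorem locExp_of_prime' {K : Type*} [Field K] [NumberField K]
    {Γ₀ : Type*} [LinearOrderedCommGroupWithZero Γ₀]
    (w : Valuation (AlgebraicClosure K) Γ₀) {p : ℕ} (hp : p.Prime)
    (hpw : w (p : AlgebraicClosure K) < 1) {N d : ℕ} (hd : 2 ≤ d) (hpd : ¬ p ∣ d)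
    (hcop : ∀ f, 1 ≤ f → f ≤ N → Nat.Coprime d (p ^ f - 1))
    (F : K[X]) (hF : F.natDegree = d) (b δ : K)
    (hcoef : ∀ i, 1 ≤ i → i < d →
      w (algebraMap K (AlgebraicClosure K) ((F.comp (X + C b)).coeff i)) ^ (d - 1) ≤
        w (algebraMap K (AlgebraicClosure K) F.leadingCoeff) ^ (i - 1) *
          (max 1 (w (algebraMap K (AlgebraicClosure K) δ))) ^ (d - i))
    (L : IntermediateField K (AlgebraicClosure K)) (hL : FiniteDimensional K L)
    (hN : finrank ℚ K * finrank K L ≤ N) :
    ∃ b' : L, LocExp (w.comap (algebraMap L (AlgebraicClosure K)))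
        ((F.map (algebraMap K L)).comp (X + C b'))
        (max 1 (w (algebraMap K (AlgebraicClosure K) δ))) := by
  refine ⟨algebraMap K L b, ?_⟩
  have hcz : CharZero L := charZero_of_injective_algebraMap (algebraMap K L).injective
  have hfdQ : FiniteDimensional ℚ L := FiniteDimensional.trans ℚ K L
  have hdeg : finrank ℚ L ≤ N := by
    rw [← Module.finrank_mul_finrank ℚ K L]; exact hN
  have hcomp : (F.map (algebraMap K L)).comp (X + C (algebraMap K L b)) =
      (F.comp (X + C b)).map (algebraMap K L) := by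
    rw [Polynomial.map_comp]; simp
  have hnd : (F.comp (X + C b)).natDegree = d := by
    rw [natDegree_comp, natDegree_X_add_C, mul_one, hF]
  have hlead : (F.comp (X + C b)).coeff d = F.leadingCoeff := by
    have h1 : (F.comp (X + C b)).leadingCoeff = F.leadingCoeff := by
      rw [leadingCoeff_comp (by rw [natDegree_X_add_C]; exact one_ne_zero),
        leadingCoeff_X_add_C, one_pow, mul_one]
    rw [← h1, leadingCoeff, hnd]
  rw [hcomp]
  refine locExp_of_power (d := d) _ _ _ hd (by rw [natDegree_map]; exact hnd) ?_ ?_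
  · intro i hi1 hid
    have := hcoef i hi1 hid
    rw [coeff_map, coeff_map, Valuation.comap_apply, Valuation.comap_apply,
      ← IsScalarTower.algebraMap_apply, ← IsScalarTower.algebraMap_apply, hlead]
    exact this
  · intro x x' hx
    refine pow_sub_pow_valuation _ hp ?_ (by omega) hpd ?_ x x' hx
    · rw [Valuation.comap_apply, map_natCast]; exact hpw
    · intro f hf1 hf
      exact hcop f hf1 (hf.trans hdeg)

/-- the good reduction condition, for points of the plane over the algebraic closure -/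
theorem point_period_good {K : Type*} [Field K] [NumberField K] {Γ₀ : Type*}
    [LinearOrderedCommGroupWithZero Γ₀]
    (w : Valuation (AlgebraicClosure K) Γ₀) {p : ℕ} (hp : p.Prime)
    (hpw : w (p : AlgebraicClosure K) < 1) {N d : ℕ} (hd : 2 ≤ d)
    (F : K[X]) (δ : K) (hδ : δ ≠ 0) (P : AlgebraicClosure K × AlgebraicClosure K)
    (hN : finrank ℚ K *
      finrank K (IntermediateField.adjoin K ({P.1, P.2} : Set (AlgebraicClosure K))) ≤ N)
    (b : AlgebraicClosure K) (ρ : Γ₀)
    (hG : GoodCond w ((F.map (algebraMap K (AlgebraicClosure K))).comp (X + C b) -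
      C ((1 + algebraMap K (AlgebraicClosure K) δ) * b)) d
      (max 1 (w (algebraMap K (AlgebraicClosure K) δ))) ρ)
    {n : ℕ} (hn : 0 < n) (hP : (henon F δ)^[n] P = P) :
    (henon F δ)^[bigM (p ^ (2 * N))] P = P := by
  set L := IntermediateField.adjoin K ({P.1, P.2} : Set (AlgebraicClosure K)) with hL
  have hfd : FiniteDimensional K L := by
    apply IntermediateField.finiteDimensional_adjoin
    intro x _
    exact Algebra.IsIntegral.isIntegral x
  have hcz : CharZero L := charZero_of_injective_algebraMap (algebraMap K L).injective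
  have hfdQ : FiniteDimensional ℚ L := FiniteDimensional.trans ℚ K L
  have hdeg : finrank ℚ L ≤ N := by
    rw [← Module.finrank_mul_finrank ℚ K L]; exact hN
  have h1 : P.1 ∈ L := IntermediateField.subset_adjoin K _ (by simp)
  have h2 : P.2 ∈ L := IntermediateField.subset_adjoin K _ (by simp)
  set Q : L × L := (⟨P.1, h1⟩, ⟨P.2, h2⟩) with hQ
  have hc := hm_map (algebraMap L (AlgebraicClosure K)) (F.map (algebraMap K L))
    (algebraMap K L δ)
  rw [Polynomial.map_map, ← IsScalarTower.algebraMap_eq K L (AlgebraicClosure K),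
    ← IsScalarTower.algebraMap_apply K L (AlgebraicClosure K), ← henon_eq_hm] at hc
  have hinj : Injective (Prod.map (algebraMap L (AlgebraicClosure K))
      (algebraMap L (AlgebraicClosure K))) :=
    (algebraMap L (AlgebraicClosure K)).injective.prodMap
      (algebraMap L (AlgebraicClosure K)).injective
  have hPQ : P = Prod.map (algebraMap L (AlgebraicClosure K))
      (algebraMap L (AlgebraicClosure K)) Q := rfl
  rw [hPQ, Semiconj.iterate_eq hc hinj] at hP ⊢
  set v := w.comap (algebraMap L (AlgebraicClosure K)) with hv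
  have hpv : v (p : L) < 1 := by
    rw [hv, Valuation.comap_apply, map_natCast]; exact hpw
  obtain ⟨hfin, hcard⟩ := quot_p2_card (v.valuationSubring.subtype) Subtype.val_injective hp
  have hcard' : Nat.card (v.valuationSubring ⧸ Ideal.span {(p : v.valuationSubring) ^ 2}) ≤
      p ^ (2 * N) := hcard.trans (Nat.pow_le_pow_right hp.pos (by omega))
  have e1 : algebraMap L (AlgebraicClosure K) (algebraMap K L δ) =
      algebraMap K (AlgebraicClosure K) δ := by
    rw [← IsScalarTower.algebraMap_apply]
  have e2 : (F.map (algebraMap K L)).map (algebraMap L (AlgebraicClosure K)) =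
      F.map (algebraMap K (AlgebraicClosure K)) := by
    rw [Polynomial.map_map, ← IsScalarTower.algebraMap_eq]
  refine good_period w (algebraMap L (AlgebraicClosure K)) hp (by exact_mod_cast hp.ne_zero) hpv
    hcard' (F.map (algebraMap K L)) (algebraMap K L δ) ?_ b hd ρ ?_ Q hn hP
  · simpa using hδ
  · rw [e1, e2]; exact hG

/-- from the coefficient inequalities of the criterion to `GoodCond` -/
theorem goodCond_of_coeff {E : Type*} [Field E] [IsAlgClosed E] {Γ₀ : Type*}
    [LinearOrderedCommGroupWithZero Γ₀] (w : Valuation E Γ₀) (F : E[X]) (δ : E)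
    {d : ℕ} (hd : 2 ≤ d) (hF : F.natDegree = d) (b : E)
    (hcoef : ∀ i, 1 ≤ i → i < d →
      w ((F.comp (X + C b)).coeff i) ^ (d - 1) ≤
        w F.leadingCoeff ^ (i - 1) * (max 1 (w δ)) ^ (d - i))
    (h0 : w (F.eval b - (1 + δ) * b) ^ (d - 1) * w F.leadingCoeff ≤ (max 1 (w δ)) ^ d) :
    ∃ ρ : Γ₀, GoodCond w (F.comp (X + C b) - C ((1 + δ) * b)) d (max 1 (w δ)) ρ := by
  -- choose the radius
  set Δ := max 1 (w δ) with hΔ
  have hΔ0 : 0 < Δ := lt_of_lt_of_le zero_lt_one (le_max_left _ _)
  obtain ⟨m, hm⟩ : ∃ m : E, w m = Δ := by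
    rcases le_total (w δ) 1 with h | h
    · exact ⟨1, by rw [map_one, hΔ, max_eq_left h]⟩
    · exact ⟨δ, by rw [hΔ, max_eq_right h]⟩
  have hlc : F.leadingCoeff ≠ 0 := by
    rw [Ne, leadingCoeff_eq_zero]
    intro h; rw [h, natDegree_zero] at hF; omega
  have hlc0 : 0 < w F.leadingCoeff := zero_lt_iff.mpr ((map_ne_zero w).mpr hlc)
  obtain ⟨lam, hlam⟩ := IsAlgClosed.exists_pow_nat_eq (m / F.leadingCoeff) (n := d - 1) (by omega)
  set ρ := w lam with hρ
  have hρd : ρ ^ (d - 1) * w F.leadingCoeff = Δ := by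
    rw [hρ, ← map_pow, hlam, map_div₀, hm, div_mul_cancel₀ _ hlc0.ne']
  have hρ0 : 0 < ρ := by
    rw [zero_lt_iff]
    intro h
    rw [h, zero_pow (by omega), zero_mul] at hρd
    exact hΔ0.ne hρd
  have hnd : (F.comp (X + C b)).natDegree = d := by
    rw [natDegree_comp, natDegree_X_add_C, mul_one, hF]
  have hlead : (F.comp (X + C b)).coeff d = F.leadingCoeff := by
    have h1 : (F.comp (X + C b)).leadingCoeff = F.leadingCoeff := by
      rw [leadingCoeff_comp (by rw [natDegree_X_add_C]; exact one_ne_zero),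
        leadingCoeff_X_add_C, one_pow, mul_one]
    rw [← h1, leadingCoeff, hnd]
  have hGi : ∀ i, (F.comp (X + C b) - C ((1 + δ) * b)).coeff (i + 1) =
      (F.comp (X + C b)).coeff (i + 1) := by
    intro i; rw [coeff_sub, coeff_C_succ, sub_zero]
  have hGd : (F.comp (X + C b) - C ((1 + δ) * b)).coeff d = F.leadingCoeff := by
    obtain ⟨e, rfl⟩ : ∃ e, d = e + 1 := ⟨d - 1, by omega⟩
    rw [hGi, hlead]
  have htop : w ((F.comp (X + C b) - C ((1 + δ) * b)).coeff d) * ρ ^ d = Δ * ρ := by
    rw [hGd]
    have e1 : ρ ^ d = ρ ^ (d - 1) * ρ := by rw [← pow_succ]; congr 1; omega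
    rw [e1, ← mul_assoc, mul_comm (w F.leadingCoeff), hρd]
  refine ⟨ρ, ?_, hρ0, ?_, htop⟩
  · refine (natDegree_sub_le _ _).trans ?_
    rw [hnd, natDegree_C]; simp
  · intro i
    rcases Nat.eq_zero_or_pos i with rfl | hi
    · have e0 : (F.comp (X + C b) - C ((1 + δ) * b)).coeff 0 = F.eval b - (1 + δ) * b := by
        rw [coeff_sub, coeff_C_zero, coeff_zero_eq_eval_zero, eval_comp]
        simp
      rw [e0, pow_zero, mul_one]
      rw [← pow_le_pow_iff_left₀ zero_le zero_le (n := d - 1) (by omega)]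
      have h1 : w (F.eval b - (1 + δ) * b) ^ (d - 1) * w F.leadingCoeff ≤
          (Δ * ρ) ^ (d - 1) * w F.leadingCoeff := by
        rw [mul_pow, mul_assoc, hρd, ← pow_succ]
        have : d - 1 + 1 = d := by omega
        rw [this]; exact h0
      exact le_of_mul_le_mul_right h1 hlc0
    · obtain ⟨i, rfl⟩ : ∃ i', i = i' + 1 := ⟨i - 1, by omega⟩
      rw [hGi]
      rcases lt_trichotomy (i + 1) d with hid | hid | hid
      · have h1 := hcoef (i + 1) hi hid
        rw [Nat.add_sub_cancel] at h1
        rw [pow_succ, ← mul_assoc]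
        refine mul_le_mul' ?_ le_rfl
        rw [← pow_le_pow_iff_left₀ zero_le zero_le (n := d - 1) (by omega), mul_pow]
        calc w ((F.comp (X + C b)).coeff (i + 1)) ^ (d - 1) * (ρ ^ i) ^ (d - 1)
            ≤ (w F.leadingCoeff ^ i * Δ ^ (d - (i + 1))) * (ρ ^ i) ^ (d - 1) :=
              mul_le_mul' h1 le_rfl
          _ = (ρ ^ (d - 1) * w F.leadingCoeff) ^ i * Δ ^ (d - (i + 1)) := by
              rw [mul_pow, ← pow_mul, ← pow_mul, mul_comm i (d - 1), mul_right_comm,
                mul_comm (w F.leadingCoeff ^ i)]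
          _ = Δ ^ (d - 1) := by
              rw [hρd, ← pow_add]; congr 1; omega
      · have := htop
        rw [← hid, hGi] at this
        exact this.le
      · rw [coeff_eq_zero_of_natDegree_lt (by rw [hnd]; exact hid), map_zero, zero_mul]
        exact zero_le

end Pool.Agent.H.MP_0e6b5f_nt
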