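import Mathlib

/-!
# Finiteness of residue rings in number fields, and injectivity of power maps
-/

namespace Pool.Agent.H.MP_0e6b5f_nt

open Module

theorem card_of_rank_le {V : Type*} [AddCommGroup V] {p : ℕ} [Fact p.Prime] [Module (ZMod p) V]
    {N : ℕ} (h : Module.rank (ZMod p) V ≤ N) : Finite V ∧ Nat.card V ≤ p ^ N := by
  have hfd : Module.Finite (ZMod p) V := by
    rw [← Module.rank_lt_aleph0_iff]
    exact lt_of_le_of_lt h Cardinal.natCast_lt_aleph0
  have hfin : Finite V := Module.finite_of_finite (ZMod p)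
  refine ⟨hfin, ?_⟩
  have hcard : Nat.card V = p ^ finrank (ZMod p) V := by
    rw [Module.natCard_eq_pow_finrank (K := ZMod p), Nat.card_zmod]
  rw [hcard]
  exact Nat.pow_le_pow_right (Fact.out : p.Prime).pos (Module.finrank_le_of_rank_le h)

section Quot

variable {R L : Type*} [CommRing R] [Field L] [CharZero L] [Algebra ℚ L] [FiniteDimensional ℚ L]

theorem quot_p_card (φ : R →+* L) (hφ : Function.Injective φ) {p : ℕ} (hp : p.Prime) :
    Finite (R ⧸ Ideal.span {(p : R)}) ∧
      Nat.card (R ⧸ Ideal.span {(p : R)}) ≤ p ^ (finrank ℚ L) := by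
  classical
  have : Fact p.Prime := ⟨hp⟩
  set κ := R ⧸ Ideal.span {(p : R)} with hκ
  have hpκ : ∀ x : κ, p • x = 0 := by
    intro x
    obtain ⟨r, rfl⟩ := Ideal.Quotient.mk_surjective x
    rw [nsmul_eq_mul, ← map_natCast (Ideal.Quotient.mk (Ideal.span {(p : R)})), ← map_mul,
      Ideal.Quotient.eq_zero_iff_mem]
    exact Ideal.mul_mem_right _ _ (Ideal.mem_span_singleton_self _)
  let _ : Module (ZMod p) κ := AddCommGroup.zmodModule hpκ
  have hrank : Module.rank (ZMod p) κ ≤ (finrank ℚ L : ℕ) := by
    apply rank_le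
    intro s hs
    have hlift : ∀ x : κ, ∃ r : R, Ideal.Quotient.mk (Ideal.span {(p : R)}) r = x :=
      fun x => Ideal.Quotient.mk_surjective x
    choose r hr using hlift
    have hli : LinearIndependent ℤ (fun i : s => φ (r i)) := by
      rw [Fintype.linearIndependent_iff]
      intro g hg
      by_contra hne
      push Not at hne
      obtain ⟨i0, hi0⟩ := hne
      obtain ⟨g', hg', hgcd⟩ := Finset.extract_gcd g (s := Finset.univ) ⟨i0, Finset.mem_univ _⟩
      set G := Finset.univ.gcd g with hG
      have hG0 : G ≠ 0 := by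
        intro h
        apply hi0
        rw [hg' i0 (Finset.mem_univ _), h, zero_mul]
      have hsum : ∑ i : s, g' i • φ (r i) = 0 := by
        have h1 : (G : L) * ∑ i : s, g' i • φ (r i) = 0 := by
          rw [Finset.mul_sum, ← hg]
          refine Finset.sum_congr rfl fun i _ => ?_
          rw [hg' i (Finset.mem_univ _)]
          simp only [zsmul_eq_mul]
          push_cast
          ring
        rcases mul_eq_zero.mp h1 with h2 | h2
        · exact absurd (Int.cast_eq_zero.mp h2) hG0
        · exact h2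
      have hsumR : ∑ i : s, g' i • r i = 0 := by
        apply hφ
        rw [map_sum, map_zero, ← hsum]
        refine Finset.sum_congr rfl fun i _ => ?_
        rw [map_zsmul]
      have hsumκ : ∑ i : s, ((g' i : ℤ) : ZMod p) • (i : κ) = 0 := by
        have := congrArg (Ideal.Quotient.mk (Ideal.span {(p : R)})) hsumR
        rw [map_sum, map_zero] at this
        rw [← this]
        refine Finset.sum_congr rfl fun i _ => ?_
        rw [Int.cast_smul_eq_zsmul, map_zsmul, hr]
      have hz := Fintype.linearIndependent_iff.mp hs (fun i => ((g' i : ℤ) : ZMod p)) hsumκ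
      have hdvd : (p : ℤ) ∣ Finset.univ.gcd g' := by
        apply Finset.dvd_gcd
        intro i _
        exact (ZMod.intCast_zmod_eq_zero_iff_dvd _ _).mp (hz i)
      rw [hgcd] at hdvd
      have := Int.eq_one_of_dvd_one (by positivity) hdvd
      exact hp.one_lt.ne' (by exact_mod_cast this)
    have hliQ : LinearIndependent ℚ (fun i : s => φ (r i)) :=
      (LinearIndependent.iff_fractionRing ℤ ℚ).mp hli
    have := hliQ.fintype_card_le_finrank
    simpa using this
  exact card_of_rank_le hrank

theorem quot_p2_card (φ : R →+* L) (hφ : Function.Injective φ) {p : ℕ} (hp : p.Prime) :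
    Finite (R ⧸ Ideal.span {(p : R) ^ 2}) ∧
      Nat.card (R ⧸ Ideal.span {(p : R) ^ 2}) ≤ p ^ (2 * finrank ℚ L) := by
  obtain ⟨hfin, hcard⟩ := quot_p_card φ hφ hp
  set κ := R ⧸ Ideal.span {(p : R)} with hκ
  have hlift : ∀ x : κ, ∃ r : R, Ideal.Quotient.mk (Ideal.span {(p : R)}) r = x :=
    fun x => Ideal.Quotient.mk_surjective x
  choose s hs using hlift
  have hdec : ∀ r : R, ∃ a : κ, ∃ r' : R, r = s a + p * r' := by
    intro r
    refine ⟨Ideal.Quotient.mk _ r, ?_⟩
    have : Ideal.Quotient.mk (Ideal.span {(p : R)}) r =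
      Ideal.Quotient.mk (Ideal.span {(p : R)}) (s (Ideal.Quotient.mk _ r)) := (hs _).symm
    rw [Ideal.Quotient.mk_eq_mk_iff_sub_mem, Ideal.mem_span_singleton] at this
    obtain ⟨r', hr'⟩ := this
    exact ⟨r', by linear_combination hr'⟩
  have hsurj : Function.Surjective (fun ab : κ × κ =>
      Ideal.Quotient.mk (Ideal.span {(p : R) ^ 2}) (s ab.1 + p * s ab.2)) := by
    intro x
    obtain ⟨r, rfl⟩ := Ideal.Quotient.mk_surjective x
    obtain ⟨a, r', hr⟩ := hdec r
    obtain ⟨b, r'', hr'⟩ := hdec r'
    refine ⟨(a, b), ?_⟩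
    simp only
    rw [Ideal.Quotient.mk_eq_mk_iff_sub_mem, Ideal.mem_span_singleton]
    exact ⟨-r'', by rw [hr, hr']; ring⟩
  refine ⟨Finite.of_surjective _ hsurj, ?_⟩
  calc Nat.card (R ⧸ Ideal.span {(p : R) ^ 2}) ≤ Nat.card (κ × κ) :=
        Nat.card_le_card_of_surjective _ hsurj
    _ = Nat.card κ * Nat.card κ := Nat.card_prod _ _
    _ ≤ p ^ (finrank ℚ L) * p ^ (finrank ℚ L) := Nat.mul_le_mul hcard hcard
    _ = p ^ (2 * finrank ℚ L) := by rw [← pow_add, two_mul]

end Quot

section Power

variable {L : Type*} [Field L] [CharZero L] [Algebra ℚ L] [FiniteDimensional ℚ L]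
variable {Γ₀ : Type*} [LinearOrderedCommGroupWithZero Γ₀]

/-- the residue field of a place of a number field of degree `N` above `p` has `p ^ f` elements
with `1 ≤ f ≤ N` -/
theorem residue_card (v : Valuation L Γ₀) {p : ℕ} (hp : p.Prime) (hpv : v (p : L) < 1) :
    Finite (IsLocalRing.ResidueField v.valuationSubring) ∧
    CharP (IsLocalRing.ResidueField v.valuationSubring) p ∧
    ∃ f, 1 ≤ f ∧ f ≤ finrank ℚ L ∧
      Nat.card (IsLocalRing.ResidueField v.valuationSubring) = p ^ f := by
  classical
  obtain ⟨hfin, hcard⟩ := quot_p_card (v.valuationSubring.subtype)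
    (Subtype.val_injective) hp
  have hpm : (p : v.valuationSubring) ∈ IsLocalRing.maximalIdeal v.valuationSubring := by
    rw [IsLocalRing.mem_maximalIdeal, mem_nonunits_iff]
    intro h
    obtain ⟨w, hw⟩ := h.exists_right_inv
    have h1 := congrArg (v.valuationSubring.subtype) hw
    rw [map_mul, map_natCast, map_one] at h1
    have h2 : v (p : L) * v (v.valuationSubring.subtype w) = 1 := by
      rw [← map_mul, h1, map_one]
    have h3 : v (v.valuationSubring.subtype w) ≤ 1 := w.2
    have h4 : v (p : L) * v (v.valuationSubring.subtype w) ≤ v (p : L) * 1 :=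
      mul_le_mul' le_rfl h3
    rw [h2, mul_one] at h4
    exact absurd h4 (not_le.mpr hpv)
  have hle : Ideal.span {(p : v.valuationSubring)} ≤
      IsLocalRing.maximalIdeal v.valuationSubring := by
    rw [Ideal.span_singleton_le_iff_mem]; exact hpm
  set k := IsLocalRing.ResidueField v.valuationSubring with hk
  have hsurj : Function.Surjective (Ideal.Quotient.factor hle) :=
    Ideal.Quotient.factor_surjective hle
  have hfk : Finite k := Finite.of_surjective _ hsurj
  have hck : Nat.card k ≤ p ^ (finrank ℚ L) :=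
    (Nat.card_le_card_of_surjective _ hsurj).trans hcard
  have hpk : ((p : ℕ) : k) = 0 := by
    have : IsLocalRing.residue v.valuationSubring (p : v.valuationSubring) = 0 := by
      rw [IsLocalRing.residue_eq_zero_iff]; exact hpm
    rwa [map_natCast] at this
  have hchar : CharP k p := by
    obtain ⟨q, hq⟩ := CharP.exists k
    have hd : q ∣ p := (CharP.cast_eq_zero_iff k q p).mp hpk
    rcases (Nat.dvd_prime hp).mp hd with h1 | h1
    · subst h1
      exfalso
      exact CharP.ringChar_ne_one (R := k) (CharP.eq k (ringChar.charP k) hq)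
    · rw [← h1]; exact hq
  refine ⟨hfk, hchar, ?_⟩
  have := Fintype.ofFinite k
  obtain ⟨n, _, hn⟩ := FiniteField.card k p
  refine ⟨n, n.2, ?_, by rw [Nat.card_eq_fintype_card]; exact hn⟩
  rw [Nat.card_eq_fintype_card, hn] at hck
  exact (Nat.pow_le_pow_iff_right hp.one_lt).mp hck

/-- If `d` is prime to `p` and to `p ^ f - 1` for all `f ≤ [L : ℚ]`, then the `d`-th power map
is injective with maximal expansion at every place above `p`. -/
theorem pow_sub_pow_valuation (v : Valuation L Γ₀) {p : ℕ} (hp : p.Prime)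
    (hpv : v (p : L) < 1) {d : ℕ} (hd0 : 0 < d) (hpd : ¬ p ∣ d)
    (hd : ∀ f, 1 ≤ f → f ≤ finrank ℚ L → Nat.Coprime d (p ^ f - 1))
    (x x' : L) (hx : v x = v x') :
    v (x ^ d - x' ^ d) = v x ^ (d - 1) * v (x - x') := by
  obtain ⟨d', rfl⟩ : ∃ d', d = d' + 1 := ⟨d - 1, by omega⟩
  rw [Nat.add_sub_cancel]
  by_cases hx' : x' = 0
  · subst hx'
    rw [map_zero] at hx
    have : x = 0 := (map_eq_zero v).mp hx
    subst this
    simp
  have hvx' : v x' ≠ 0 := (map_ne_zero v).mpr hx'
  obtain ⟨hfk, hchar, f, hf1, hfN, hcardk⟩ := residue_card v hp hpv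
  set t := x / x' with ht
  have hvt : v t = 1 := by rw [ht, map_div₀, hx, div_self hvx']
  have hxt : x = t * x' := by rw [ht]; field_simp
  -- main claim
  have hclaim : v (∑ i ∈ Finset.range (d' + 1), t ^ i) = 1 := by
    set S := ∑ i ∈ Finset.range (d' + 1), t ^ i with hS
    have hSle : v S ≤ 1 := by
      rw [hS]
      refine v.map_sum_le fun i _ => ?_
      rw [map_pow, hvt, one_pow]
    refine le_antisymm hSle ?_
    by_contra hlt
    push Not at hlt
    -- work in the residue field
    set t0 : v.valuationSubring := ⟨t, hvt.le⟩ with ht0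
    have hS0 : (∑ i ∈ Finset.range (d' + 1), t0 ^ i : v.valuationSubring) ∈
        IsLocalRing.maximalIdeal v.valuationSubring := by
      rw [IsLocalRing.mem_maximalIdeal, mem_nonunits_iff]
      intro h
      obtain ⟨w, hw⟩ := h.exists_right_inv
      have h1 := congrArg (v.valuationSubring.subtype) hw
      rw [map_mul, map_one, map_sum] at h1
      have e1 : ∑ i ∈ Finset.range (d' + 1), v.valuationSubring.subtype (t0 ^ i) = S := by
        rw [hS]
        refine Finset.sum_congr rfl fun i _ => ?_
        rw [map_pow]; rfl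
      rw [e1] at h1
      have h2 : v S * v (v.valuationSubring.subtype w) = 1 := by
        rw [← map_mul, h1, map_one]
      have h3 : v (v.valuationSubring.subtype w) ≤ 1 := w.2
      have h4 : v S * v (v.valuationSubring.subtype w) ≤ v S * 1 := mul_le_mul' le_rfl h3
      rw [h2, mul_one] at h4
      exact absurd h4 (not_le.mpr hlt)
    set k := IsLocalRing.ResidueField v.valuationSubring with hk
    set tb : k := IsLocalRing.residue v.valuationSubring t0 with htb
    have hSb : ∑ i ∈ Finset.range (d' + 1), tb ^ i = 0 := by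
      have := (IsLocalRing.residue_eq_zero_iff _).mpr hS0
      rw [map_sum] at this
      simpa [map_pow] using this
    have htb0 : tb ≠ 0 := by
      intro h
      rw [htb, IsLocalRing.residue_eq_zero_iff, IsLocalRing.mem_maximalIdeal,
        mem_nonunits_iff] at h
      apply h
      have hvinv : v t⁻¹ ≤ 1 := by rw [map_inv₀, hvt, inv_one]
      refine isUnit_iff_exists_inv.mpr ⟨⟨t⁻¹, hvinv⟩, ?_⟩
      apply Subtype.ext
      have ht' : t ≠ 0 := by intro h0; rw [h0, map_zero] at hvt; exact zero_ne_one hvt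
      change t * t⁻¹ = 1
      exact mul_inv_cancel₀ ht'
    have hpow : tb ^ (d' + 1) = 1 := by
      have := geom_sum_mul tb (d' + 1)
      rw [hSb, zero_mul] at this
      exact (sub_eq_zero.mp this.symm)
    have := Fintype.ofFinite k
    have hpow2 : tb ^ (p ^ f - 1) = 1 := by
      have := FiniteField.pow_card_sub_one_eq_one tb htb0
      rwa [← Nat.card_eq_fintype_card, hcardk] at this
    have horder : orderOf tb = 1 := by
      have h1 := orderOf_dvd_of_pow_eq_one hpow
      have h2 := orderOf_dvd_of_pow_eq_one hpow2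
      exact Nat.eq_one_of_dvd_coprimes (hd f hf1 hfN) h1 h2
    have htb1 : tb = 1 := orderOf_eq_one_iff.mp horder
    rw [htb1] at hSb
    simp only [one_pow, Finset.sum_const, Finset.card_range, nsmul_eq_mul, mul_one] at hSb
    exact hpd ((CharP.cast_eq_zero_iff k p (d' + 1)).mp hSb)
  have e : x ^ (d' + 1) - x' ^ (d' + 1) =
      x' ^ d' * (∑ i ∈ Finset.range (d' + 1), t ^ i) * (x - x') := by
    have h1 := geom_sum_mul t (d' + 1)
    rw [hxt]
    have : (t * x') ^ (d' + 1) - x' ^ (d' + 1) = x' ^ (d' + 1) * (t ^ (d' + 1) - 1) := by ring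
    rw [this, ← h1]
    ring
  rw [e, map_mul, map_mul, hclaim, mul_one, map_pow, hx]

end Power

end Pool.Agent.H.MP_0e6b5f_nt
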