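import Pool.Agent.H.MP_0e6b5f_nt.Count
import Pool.Agent.H.MP_0e6b5f_nt.Residue
import Pool.Agent.H.MP_0e6b5f_nt.Defs

/-!
# From the local period bound to number fields
-/

namespace Pool.Agent.H.MP_0e6b5f_nt

open Polynomial Function Module

section LocExpLemmas

variable {L : Type*} [Field L] {Γ₀ : Type*} [LinearOrderedCommGroupWithZero Γ₀]

theorem val_pow_sub_pow_le (v : Valuation L Γ₀) (x x' : L) (j : ℕ) :
    v (x ^ (j + 1) - x' ^ (j + 1)) ≤ (max (v x) (v x')) ^ j * v (x - x') := by
  have h := Commute.geom_sum₂_mul (Commute.all x x') (j + 1)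
  rw [← h, map_mul]
  refine mul_le_mul' ?_ le_rfl
  refine v.map_sum_le fun i hi => ?_
  have hi' : i ≤ j := Nat.lt_succ_iff.mp (Finset.mem_range.mp hi)
  rw [map_mul, map_pow, map_pow]
  calc v x ^ i * v x' ^ (j + 1 - 1 - i)
      ≤ (max (v x) (v x')) ^ i * (max (v x) (v x')) ^ (j + 1 - 1 - i) :=
        mul_le_mul' (pow_le_pow_left₀ zero_le (le_max_left _ _) _)
          (pow_le_pow_left₀ zero_le (le_max_right _ _) _)
    _ = (max (v x) (v x')) ^ j := by rw [← pow_add]; congr 1; omega

/-- the exact size of a difference of `d`-th powers -/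
theorem val_pow_sub_pow_eq (v : Valuation L Γ₀) {d : ℕ} (hd : 0 < d)
    (hpow : ∀ x x' : L, v x = v x' → v (x ^ d - x' ^ d) = v x ^ (d - 1) * v (x - x'))
    (x x' : L) : v (x ^ d - x' ^ d) = (max (v x) (v x')) ^ (d - 1) * v (x - x') := by
  obtain ⟨e, rfl⟩ : ∃ e, d = e + 1 := ⟨d - 1, by omega⟩
  rw [Nat.add_sub_cancel] at *
  rcases lt_trichotomy (v x) (v x') with h | h | h
  · rw [max_eq_right h.le, Valuation.map_sub_eq_of_lt_right _ h,
      Valuation.map_sub_eq_of_lt_right, map_pow, pow_succ]
    rw [map_pow, map_pow]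
    exact pow_lt_pow_left₀ h zero_le (by omega)
  · rw [hpow x x' h, h, max_self]
  · rw [max_eq_left h.le, Valuation.map_sub_eq_of_lt_left _ h,
      Valuation.map_sub_eq_of_lt_left, map_pow, pow_succ]
    rw [map_pow, map_pow]
    exact pow_lt_pow_left₀ h zero_le (by omega)

/-- The coefficient condition together with injectivity of the power map implies `LocExp`. -/
theorem locExp_of_power (v : Valuation L Γ₀) (G : L[X]) (Δ : Γ₀) {d : ℕ} (hd : 2 ≤ d)
    (hG : G.natDegree = d)
    (hcoef : ∀ i, 1 ≤ i → i < d →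
      v (G.coeff i) ^ (d - 1) ≤ v (G.coeff d) ^ (i - 1) * Δ ^ (d - i))
    (hpow : ∀ x x' : L, v x = v x' → v (x ^ d - x' ^ d) = v x ^ (d - 1) * v (x - x')) :
    LocExp v G Δ := by
  intro x x' hx hi
  obtain ⟨i, hi⟩ := hi
  set r := max (v x) (v x') with hr
  set t := v (G.coeff d) * r ^ (d - 1) with ht
  have hvx : 0 < v (x - x') := zero_lt_iff.mpr ((map_ne_zero v).mpr (sub_ne_zero.mpr hx))
  -- bound for the lower coefficients
  have hkey : ∀ j, 1 ≤ j → j < d →
      (v (G.coeff j) * r ^ (j - 1)) ^ (d - 1) ≤ t ^ (j - 1) * Δ ^ (d - j) := by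
    intro j hj1 hjd
    calc (v (G.coeff j) * r ^ (j - 1)) ^ (d - 1)
        = v (G.coeff j) ^ (d - 1) * (r ^ (d - 1)) ^ (j - 1) := by
          rw [mul_pow, ← pow_mul, ← pow_mul, mul_comm (j - 1)]
      _ ≤ (v (G.coeff d) ^ (j - 1) * Δ ^ (d - j)) * (r ^ (d - 1)) ^ (j - 1) :=
          mul_le_mul' (hcoef j hj1 hjd) le_rfl
      _ = t ^ (j - 1) * Δ ^ (d - j) := by
          rw [ht, mul_pow]
          rw [mul_assoc, mul_comm (Δ ^ (d - j)), ← mul_assoc]
  have htΔ : Δ < t := by
    by_contra hle
    push Not at hle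
    rcases lt_trichotomy (i + 1) d with h | h | h
    · have h1 := hkey (i + 1) (by omega) h
      have h2 : t ^ (i + 1 - 1) * Δ ^ (d - (i + 1)) ≤ Δ ^ (d - 1) := by
        calc t ^ (i + 1 - 1) * Δ ^ (d - (i + 1)) ≤ Δ ^ (i + 1 - 1) * Δ ^ (d - (i + 1)) :=
              mul_le_mul' (pow_le_pow_left₀ zero_le hle _) le_rfl
          _ = Δ ^ (d - 1) := by rw [← pow_add]; congr 1; omega
      have h3 := h1.trans h2
      rw [Nat.add_sub_cancel] at h3
      have h4 := (pow_le_pow_iff_left₀ zero_le zero_le (by omega : d - 1 ≠ 0)).mp h3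
      exact absurd hi (not_lt.mpr h4)
    · apply absurd hi
      rw [not_lt, h]
      have : i = d - 1 := by omega
      rw [this]; exact hle
    · rw [coeff_eq_zero_of_natDegree_lt (by omega), map_zero, zero_mul] at hi
      exact absurd hi (not_lt.mpr zero_le)
  have ht0 : 0 < t := lt_of_le_of_lt zero_le htΔ
  have hlow : ∀ j, 1 ≤ j → j < d → v (G.coeff j) * r ^ (j - 1) < t := by
    intro j hj1 hjd
    have h1 := hkey j hj1 hjd
    have h2 : t ^ (j - 1) * Δ ^ (d - j) < t ^ (d - 1) := by
      have e : t ^ (d - 1) = t ^ (j - 1) * t ^ (d - j) := by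
        rw [← pow_add]; congr 1; omega
      rw [e]
      apply mul_lt_mul_of_pos_left
      · exact pow_lt_pow_left₀ htΔ zero_le (by omega)
      · exact pow_pos ht0 _
    have h3 := h1.trans_lt h2
    exact (pow_lt_pow_iff_left₀ zero_le zero_le (by omega : d - 1 ≠ 0)).mp h3
  -- the main term
  have hmain : v (G.coeff d * (x ^ d - x' ^ d)) = t * v (x - x') := by
    rw [map_mul, val_pow_sub_pow_eq v (by omega) hpow, ht, hr, mul_assoc]
  have hrest : v (∑ j ∈ Finset.range d, G.coeff j * (x ^ j - x' ^ j)) < t * v (x - x') := by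
    apply Valuation.map_sum_lt _ (mul_ne_zero ht0.ne' hvx.ne')
    intro j hj
    have hjd := Finset.mem_range.mp hj
    rcases Nat.eq_zero_or_pos j with h0 | h0
    · subst h0
      simp only [pow_zero, sub_self, mul_zero, map_zero]
      exact mul_pos ht0 hvx
    · obtain ⟨j', rfl⟩ : ∃ j', j = j' + 1 := ⟨j - 1, by omega⟩
      rw [map_mul]
      calc v (G.coeff (j' + 1)) * v (x ^ (j' + 1) - x' ^ (j' + 1))
          ≤ v (G.coeff (j' + 1)) * (r ^ j' * v (x - x')) :=
            mul_le_mul' le_rfl (val_pow_sub_pow_le v x x' j')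
        _ = (v (G.coeff (j' + 1)) * r ^ j') * v (x - x') := by rw [mul_assoc]
        _ < t * v (x - x') := by
            apply mul_lt_mul_of_pos_right _ hvx
            exact hlow (j' + 1) (by omega) hjd
  have hdiff : G.eval x - G.eval x' =
      ∑ j ∈ Finset.range d, G.coeff j * (x ^ j - x' ^ j) + G.coeff d * (x ^ d - x' ^ d) := by
    rw [eval_eq_sum_range, eval_eq_sum_range, hG, ← Finset.sum_sub_distrib,
      Finset.sum_range_succ]
    congr 1
    · exact Finset.sum_congr rfl fun j _ => by ring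
    · ring
  rw [hdiff, Valuation.map_add_eq_of_lt_right _ (by rw [hmain]; exact hrest), hmain]
  exact mul_lt_mul_of_pos_right htΔ hvx

/-- `LocExp` does not see the constant coefficient. -/
theorem LocExp.sub_C {v : Valuation L Γ₀} {G : L[X]} {Δ : Γ₀} (h : LocExp v G Δ) (c : L) :
    LocExp v (G - C c) Δ := by
  intro x x' hx hi
  have h1 := h x x' hx (by
    obtain ⟨i, hi⟩ := hi
    refine ⟨i, ?_⟩
    rwa [coeff_sub, coeff_C_succ, sub_zero] at hi)
  have e : (G - C c).eval x - (G - C c).eval x' = G.eval x - G.eval x' := by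
    simp
  rw [e]; exact h1

/-- local period bound with an arbitrary center -/
theorem local_period_center [CharZero L] [Algebra ℚ L] [FiniteDimensional ℚ L]
    (v : Valuation L Γ₀) {p : ℕ} (hp : p.Prime)
    (hpv : v (p : L) < 1) {N : ℕ} (hN : finrank ℚ L ≤ N)
    (F : L[X]) (δ b : L) (hδ : δ ≠ 0) (hE : LocExp v (F.comp (X + C b)) (max 1 (v δ)))
    (P : L × L) {n : ℕ} (hn : 0 < n) (hP : (hm F δ)^[n] P = P) :
    (hm F δ)^[bigM (p ^ (2 * N))] P = P := by
  obtain ⟨hfin, hcard⟩ := quot_p2_card (v.valuationSubring.subtype) Subtype.val_injective hp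
  have hcard' : Nat.card (v.valuationSubring ⧸ Ideal.span {(p : v.valuationSubring) ^ 2}) ≤
      p ^ (2 * N) := hcard.trans (Nat.pow_le_pow_right hp.pos (by omega))
  have hc := hm_translate F δ b
  have hinj : Injective (fun P : L × L => (P.1 + b, P.2 + b)) := by
    intro P Q h
    simp only [Prod.mk.injEq, add_left_inj] at h
    exact Prod.ext h.1 h.2
  have hPQ : P = (fun P : L × L => (P.1 + b, P.2 + b)) (P.1 - b, P.2 - b) := by simp
  rw [hPQ, Semiconj.iterate_eq hc hinj] at hP ⊢
  exact local_period' v hp (by exact_mod_cast hp.ne_zero) hpv hcard' _ δ hδ (hE.sub_C _) _ hn hP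

end LocExpLemmas

section Global

variable {K : Type*} [Field K]

theorem henon_eq_hm (F : K[X]) (δ : K) :
    henon F δ = hm (F.map (algebraMap K (AlgebraicClosure K)))
      (algebraMap K (AlgebraicClosure K) δ) := by
  funext P
  simp [henon, hm, aeval_def, eval_map]

theorem encard_le_of_iterate {F : K[X]} {δ : K} {d : ℕ} (hd : 2 ≤ d) (hF : F.natDegree = d)
    {M : ℕ} (hM : 0 < M) {T : Set (AlgebraicClosure K × AlgebraicClosure K)}
    (hT : ∀ P ∈ T, (henon F δ)^[M] P = P) : T.encard ≤ (d ^ M : ℕ) := by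
  have : NeZero M := ⟨hM.ne'⟩
  rw [henon_eq_hm] at hT
  exact encard_fixed_le hd (by rw [natDegree_map]; exact hF) hT

/-- descent of a point of the plane to the field generated by its coordinates -/
theorem point_period [NumberField K] {Γ₀ : Type*} [LinearOrderedCommGroupWithZero Γ₀]
    (w : Valuation (AlgebraicClosure K) Γ₀) {p : ℕ} (hp : p.Prime)
    (hpw : w (p : AlgebraicClosure K) < 1) {N : ℕ}
    (F : K[X]) (δ : K) (hδ : δ ≠ 0) (P : AlgebraicClosure K × AlgebraicClosure K)
    (hN : finrank ℚ K *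
      finrank K (IntermediateField.adjoin K ({P.1, P.2} : Set (AlgebraicClosure K))) ≤ N)
    (hE : ∀ L : IntermediateField K (AlgebraicClosure K), FiniteDimensional K L →
      finrank ℚ K * finrank K L ≤ N → ∃ b : L,
      LocExp (w.comap (algebraMap L (AlgebraicClosure K)))
        ((F.map (algebraMap K L)).comp (X + C b))
        (max 1 (w (algebraMap K (AlgebraicClosure K) δ))))
    {n : ℕ} (hn : 0 < n) (hP : (henon F δ)^[n] P = P) :
    (henon F δ)^[bigM (p ^ (2 * N))] P = P := by
  set L := IntermediateField.adjoin K ({P.1, P.2} : Set (AlgebraicClosure K)) with hL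
  have hfd : FiniteDimensional K L := by
    apply IntermediateField.finiteDimensional_adjoin
    intro x _
    exact Algebra.IsIntegral.isIntegral x
  obtain ⟨b, hb⟩ := hE L hfd hN
  have hcz : CharZero L := charZero_of_injective_algebraMap (algebraMap K L).injective
  have hfdQ : FiniteDimensional ℚ L := FiniteDimensional.trans ℚ K L
  have hdeg : finrank ℚ L ≤ N := by
    rw [← Module.finrank_mul_finrank ℚ K L]; exact hN
  have h1 : P.1 ∈ L := IntermediateField.subset_adjoin K _ (by simp)
  have h2 : P.2 ∈ L := IntermediateField.subset_adjoin K _ (by simp)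
  set Q : L × L := (⟨P.1, h1⟩, ⟨P.2, h2⟩) with hQ
  have hc := hm_map (algebraMap L (AlgebraicClosure K)) (F.map (algebraMap K L))
    (algebraMap K L δ)
  rw [Polynomial.map_map, ← IsScalarTower.algebraMap_eq K L (AlgebraicClosure K),
    ← IsScalarTower.algebraMap_apply K L (AlgebraicClosure K), ← henon_eq_hm] at hc
  have hinj : Injective (Prod.map (algebraMap L (AlgebraicClosure K))
      (algebraMap L (AlgebraicClosure K))) :=
    (algebraMap L (AlgebraicClosure K)).injective.prodMap
      (algebraMap L (AlgebraicClosure K)).injective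
  have hPQ : P = Prod.map (algebraMap L (AlgebraicClosure K))
      (algebraMap L (AlgebraicClosure K)) Q := rfl
  rw [hPQ, Semiconj.iterate_eq hc hinj] at hP ⊢
  refine local_period_center (w.comap (algebraMap L (AlgebraicClosure K))) hp ?_ hdeg _ _ b ?_ ?_
    Q hn hP
  · rw [Valuation.comap_apply, map_natCast]; exact hpw
  · simpa using hδ
  · have : (w.comap (algebraMap L (AlgebraicClosure K))) (algebraMap K L δ) =
      w (algebraMap K (AlgebraicClosure K) δ) := by
      rw [Valuation.comap_apply, ← IsScalarTower.algebraMap_apply]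
    rw [this]; exact hb

/-- every prime is below a valuation ring of the algebraic closure -/
theorem exists_valuation_above [CharZero K] {p : ℕ} (hp : p.Prime) :
    ∃ W : ValuationSubring (AlgebraicClosure K), W.valuation (p : AlgebraicClosure K) < 1 := by
  set A : Subring (AlgebraicClosure K) := (Int.castRingHom (AlgebraicClosure K)).range with hA
  set I : Ideal A := Ideal.span {(p : A)} with hI
  have hItop : I ≠ ⊤ := by
    rw [hI, Ne, Ideal.span_singleton_eq_top]
    intro h
    obtain ⟨w, hw⟩ := h.exists_right_inv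
    obtain ⟨z, hz⟩ := w.2
    have h1 := congrArg (fun t : A => (t : AlgebraicClosure K)) hw
    simp only [Subring.coe_mul, Subring.coe_natCast, Subring.coe_one] at h1
    rw [← hz] at h1
    have h2 : ((p : ℤ) * z : ℤ) = 1 := by
      have : (((p : ℤ) * z : ℤ) : AlgebraicClosure K) = ((1 : ℤ) : AlgebraicClosure K) := by
        push_cast; exact h1
      exact_mod_cast this
    have h3 : (p : ℤ) ∣ 1 := ⟨z, h2.symm⟩
    have h4 := Int.eq_one_of_dvd_one (by positivity) h3
    exact hp.one_lt.ne' (by exact_mod_cast h4)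
  obtain ⟨W, _, hW⟩ := Ideal.image_subset_nonunits_valuationSubring I hItop
  refine ⟨W, ?_⟩
  have h1 : (p : AlgebraicClosure K) ∈ W.nonunits := by
    apply hW
    exact ⟨(p : A), Ideal.mem_span_singleton_self _, by simp⟩
  exact W.mem_nonunits_iff.mp h1

end Global

end Pool.Agent.H.MP_0e6b5f_nt
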