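import Pool.Agent.H.MP_0e6b5f_nt.Period

/-!
# Local analysis of periodic points of a generalized Henon map
-/

namespace Pool.Agent.H.MP_0e6b5f_nt

open Polynomial Function

/-- The map `(x, y) ↦ (y, F(y) - δ x)` over a commutative ring. -/
def hm {R : Type*} [CommRing R] (F : R[X]) (δ : R) (P : R × R) : R × R :=
  (P.2, F.eval P.2 - δ * P.1)

section Vec

variable {R : Type*} [CommRing R]

/-- vector form of `hm` -/
def hv (F : R[X]) (δ : R) (v : Fin 2 → R) : Fin 2 → R := ![v 1, F.eval (v 1) - δ * v 0]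

theorem hv_isTaylor (F : R[X]) (δ : R) :
    IsTaylor (hv F δ) (fun v => !![0, 1; -δ, F.derivative.eval (v 1)]) where
  taylor P h μ := by
    obtain ⟨k, hk⟩ := F.binomExpansion (P 1) (μ * h 1)
    refine ⟨![0, k * (h 1) ^ 2], ?_⟩
    ext i
    fin_cases i
    · simp [hv, dotProduct, Fin.sum_univ_two]
    · simp [hv, dotProduct, Fin.sum_univ_two, hk]
      ring
  cont P h μ := by
    refine ⟨!![0, 0; 0, (F.derivative.binomExpansion (P 1) (μ * h 1)).1 * μ * (h 1)^2 +
      F.derivative.derivative.eval (P 1) * h 1], ?_⟩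
    have hk := (F.derivative.binomExpansion (P 1) (μ * h 1)).2
    ext i j
    fin_cases i <;> fin_cases j
    · simp
    · simp
    · simp
    · simp [hk]
      ring

theorem hv_eq_hm (F : R[X]) (δ : R) (P : R × R) :
    hv F δ ![P.1, P.2] = ![(hm F δ P).1, (hm F δ P).2] := by
  ext i; fin_cases i <;> simp [hv, hm]

theorem hv_iterate (F : R[X]) (δ : R) (P : R × R) (n : ℕ) :
    (hv F δ)^[n] ![P.1, P.2] = ![((hm F δ)^[n] P).1, ((hm F δ)^[n] P).2] := by
  induction n with
  | zero => rfl
  | succ n ih => rw [iterate_succ_apply', iterate_succ_apply', ih, hv_eq_hm]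

omit [CommRing R] in
theorem vec_eq_iff (P Q : R × R) : (![P.1, P.2] : Fin 2 → R) = ![Q.1, Q.2] ↔ P = Q := by
  constructor
  · intro h
    have h0 := congrFun h 0
    have h1 := congrFun h 1
    simp at h0 h1
    exact Prod.ext h0 h1
  · rintro rfl; rfl

theorem hm_iterate_bigM [IsDomain R] [ValuationRing R] {p : ℕ} (hp : p.Prime)
    (hp0 : (p : R) ≠ 0) (hpu : ¬ IsUnit (p : R))
    [Finite (R ⧸ Ideal.span {(p : R) ^ 2})] {q : ℕ}
    (hq : Nat.card (R ⧸ Ideal.span {(p : R) ^ 2}) ≤ q) (F : R[X]) (δ : R) (P : R × R) {n : ℕ}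
    (hn : 0 < n) (hP : (hm F δ)^[n] P = P) : (hm F δ)^[bigM q] P = P := by
  have h1 : (hv F δ)^[n] ![P.1, P.2] = ![P.1, P.2] := by rw [hv_iterate, hP]
  have := iterate_bigM_eq hp hp0 hpu hq (hv_isTaylor F δ) hn h1
  rwa [hv_iterate, vec_eq_iff] at this

end Vec

section Conj

variable {R S : Type*} [CommRing R] [CommRing S]

theorem hm_map (φ : R →+* S) (F : R[X]) (δ : R) :
    Semiconj (Prod.map φ φ) (hm F δ) (hm (F.map φ) (φ δ)) := by
  intro P
  simp [hm, Polynomial.eval_map_apply]

variable {L : Type*} [Field L]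

theorem hm_scale (F : L[X]) (δ τ : L) (hτ : τ ≠ 0) :
    Semiconj (fun P : L × L => (τ * P.1, τ * P.2))
      (hm (C τ⁻¹ * F.comp (C τ * X)) δ) (hm F δ) := by
  intro P
  simp only [hm, eval_mul, eval_C, eval_comp, eval_X, Prod.mk.injEq, true_and]
  field_simp

theorem hm_translate (F : L[X]) (δ b : L) :
    Semiconj (fun P : L × L => (P.1 + b, P.2 + b))
      (hm (F.comp (X + C b) - C (b + δ * b)) δ) (hm F δ) := by
  intro P
  simp only [hm, eval_sub, eval_C, eval_comp, eval_X, eval_add, Prod.mk.injEq, true_and]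
  ring

/-- conjugation transfers `f^[n] P = P`. -/
theorem Semiconj.iterate_eq {α β : Type*} {s : α → β} {f : α → α} {g : β → β}
    (h : Semiconj s f g) (hs : Injective s) (n : ℕ) (x : α) :
    g^[n] (s x) = s x ↔ f^[n] x = x := by
  rw [← (h.iterate_right n).eq x]
  exact hs.eq_iff

/-- the inverse map, conjugated by the swap, is again of the same shape -/
theorem hm_inv_aux (F : L[X]) (δ : L) (hδ : δ ≠ 0) (P : L × L) :
    hm (C δ⁻¹ * F) δ⁻¹ (hm F δ P).swap = P.swap := by
  simp only [hm, Prod.swap, eval_mul, eval_C, Prod.mk.injEq, true_and]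
  field_simp
  ring

theorem hm_inv_aux_iterate (F : L[X]) (δ : L) (hδ : δ ≠ 0) (n : ℕ) (P : L × L) :
    (hm (C δ⁻¹ * F) δ⁻¹)^[n] ((hm F δ)^[n] P).swap = P.swap := by
  induction n generalizing P with
  | zero => rfl
  | succ n ih =>
    rw [iterate_succ_apply, iterate_succ_apply', hm_inv_aux F δ hδ, ih]

theorem hm_inv_fix (F : L[X]) (δ : L) (hδ : δ ≠ 0) {n : ℕ} {P : L × L}
    (h : (hm F δ)^[n] P = P) : (hm (C δ⁻¹ * F) δ⁻¹)^[n] P.swap = P.swap := by
  have := hm_inv_aux_iterate F δ hδ n P
  rwa [h] at this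

theorem hm_inv_fix_iff (F : L[X]) (δ : L) (hδ : δ ≠ 0) {n : ℕ} {P : L × L} :
    (hm (C δ⁻¹ * F) δ⁻¹)^[n] P.swap = P.swap ↔ (hm F δ)^[n] P = P := by
  constructor
  · intro h
    have := hm_inv_fix (C δ⁻¹ * F) δ⁻¹ (inv_ne_zero hδ) h
    rw [inv_inv, ← mul_assoc, ← C_mul, mul_inv_cancel₀ hδ, C_1, one_mul, Prod.swap_swap] at this
    exact this
  · exact hm_inv_fix F δ hδ

end Conj

section Seq

variable {L : Type*} [Field L]

theorem hm_seq (F : L[X]) (δ : L) (P : L × L) (k : ℕ) :
    (hm F δ)^[k] P = (((hm F δ)^[k] P).1, ((hm F δ)^[k+1] P).1) := by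
  rw [iterate_succ_apply']
  rfl

theorem hm_rec (F : L[X]) (δ : L) (P : L × L) (k : ℕ) :
    ((hm F δ)^[k+2] P).1 = F.eval ((hm F δ)^[k+1] P).1 - δ * ((hm F δ)^[k] P).1 := by
  rw [iterate_succ_apply', iterate_succ_apply']
  simp [hm]

theorem hm_periodic {F : L[X]} {δ : L} {P : L × L} {n : ℕ} (h : (hm F δ)^[n] P = P) (k : ℕ) :
    (hm F δ)^[k + n] P = (hm F δ)^[k] P := by
  rw [iterate_add_apply, h]

end Seq

section Loc

variable {L : Type*} [Field L] {Γ₀ : Type*} [LinearOrderedCommGroupWithZero Γ₀]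

/-- `F` expands every pair of distinct points which do not both lie in the disc on which the
Lipschitz coefficients of `F` are bounded by `Δ`. -/
def LocExp (v : Valuation L Γ₀) (F : L[X]) (Δ : Γ₀) : Prop :=
  ∀ x x' : L, x ≠ x' → (∃ i, Δ < v (F.coeff (i + 1)) * (max (v x) (v x')) ^ i) →
    Δ * v (x - x') < v (F.eval x - F.eval x')

theorem exists_max_periodic {α : Type*} [LinearOrder α] (g : ℕ → α) {n : ℕ} (hn : 0 < n)
    (hg : ∀ k, g (k + n) = g k) : ∃ m, ∀ k, g k ≤ g (m + 1) := by
  obtain ⟨m, _, hm⟩ := Finset.exists_max_image (Finset.range n) g ⟨0, by simpa using hn⟩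
  have hmod : ∀ k, g (k % n) = g k := by
    intro k
    conv_rhs => rw [← Nat.mod_add_div k n]
    generalize k / n = j
    induction j with
    | zero => simp
    | succ j ih => rw [Nat.mul_succ, ← add_assoc, hg, ← ih]
  refine ⟨m + n - 1, fun k => ?_⟩
  have : m + n - 1 + 1 = m + n := by omega
  rw [this, hg, ← hmod k]
  exact hm _ (Finset.mem_range.mpr (Nat.mod_lt _ hn))

/-- **Local period bound** : if `v δ ≤ 1` and `F` is expanding in the sense of `LocExp`, then all
periodic points over `L` are fixed by the iterate `bigM q`. -/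
theorem local_period (v : Valuation L Γ₀) {p : ℕ} (hp : p.Prime) (hp0 : (p : L) ≠ 0)
    (hpv : v (p : L) < 1)
    [Finite (v.valuationSubring ⧸ Ideal.span {(p : v.valuationSubring) ^ 2})] {q : ℕ}
    (hq : Nat.card (v.valuationSubring ⧸ Ideal.span {(p : v.valuationSubring) ^ 2}) ≤ q)
    (F : L[X]) (δ : L) (hδ : v δ ≤ 1) (hE : LocExp v F 1)
    (P : L × L) {n : ℕ} (hn : 0 < n) (hP : (hm F δ)^[n] P = P) :
    (hm F δ)^[bigM q] P = P := by
  set x : ℕ → L := fun k => ((hm F δ)^[k] P).1 with hx
  have hxP : ∀ k, (hm F δ)^[k] P = (x k, x (k + 1)) := fun k => hm_seq F δ P k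
  have hrec : ∀ k, F.eval (x (k + 1)) = x (k + 2) + δ * x k := by
    intro k
    have := hm_rec F δ P k
    simp only [hx]
    rw [this]; ring
  have hper : ∀ k, x (k + n) = x k := fun k => by
    simp only [hx]; rw [hm_periodic hP]
  have hfix : (∀ k, x (k + 1) = x (k + 2)) → (hm F δ)^[bigM q] P = P := by
    intro hc
    have hall : ∀ k, x (k + 1) = x 1 := by
      intro k
      induction k with
      | zero => rfl
      | succ k ih => rw [← ih, hc k]
    have h01 : x 0 = x 1 := by
      have h1 := hper 0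
      obtain ⟨n', rfl⟩ : ∃ n', n = n' + 1 := ⟨n - 1, by omega⟩
      rw [zero_add] at h1
      rw [← h1, hall]
    have hfP : hm F δ P = P := by
      have h0 := hxP 0
      have h1 := hxP 1
      simp only [iterate_zero, id_eq, zero_add] at h0
      rw [iterate_one] at h1
      rw [h1]
      conv_rhs => rw [h0]
      rw [h01]
      have := hall 1
      rw [this]
    exact iterate_fixed hfP _
  obtain ⟨m, hm'⟩ := exists_max_periodic (fun k => v (x k)) hn (fun k => by simp only [hper k])
  set r := v (x (m + 1)) with hr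
  have hxr : ∀ k, v (x k) ≤ r := hm'
  have hδx : ∀ k, v (δ * x k) ≤ r := fun k => by
    rw [map_mul]
    calc v δ * v (x k) ≤ 1 * r := mul_le_mul' hδ (hxr k)
      _ = r := one_mul r
  by_cases hcase : ∃ i, 1 < v (F.coeff (i + 1)) * r ^ i
  · -- expanding case
    apply hfix
    have hall : ∀ k, v (x (k + 1)) = r := by
      intro k
      by_contra hne
      have hlt : v (x (k + 1)) < r := lt_of_le_of_ne (hxr _) hne
      have hxne : x (m + 1) ≠ x (k + 1) := by
        intro h; rw [← h] at hlt; exact lt_irrefl _ hlt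
      have h1 := hE (x (m + 1)) (x (k + 1)) hxne (by
        rw [← hr, max_eq_left hlt.le]; exact hcase)
      rw [one_mul, Valuation.map_sub_eq_of_lt_left _ hlt] at h1
      rw [hrec, hrec] at h1
      have h2 : v (x (m + 2) + δ * x m - (x (k + 2) + δ * x k)) ≤ r := by
        refine (v.map_sub _ _).trans (max_le ?_ ?_)
        · exact (v.map_add _ _).trans (max_le (hxr _) (hδx _))
        · exact (v.map_add _ _).trans (max_le (hxr _) (hδx _))
      exact absurd h1 (not_lt.mpr h2)
    obtain ⟨j, hj'⟩ := exists_max_periodic (fun k => v (x k - x (k + 1))) hn (fun k => by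
      have : k + n + 1 = (k + 1) + n := by ring
      simp only [hper k]
      rw [this, hper])
    have hj : ∀ k, v (x k - x (k + 1)) ≤ v (x (j + 1) - x (j + 2)) := hj'
    have hj0 : x (j + 1) = x (j + 2) := by
      by_contra hne
      have h1 := hE (x (j + 1)) (x (j + 2)) hne (by
        rw [hall j, hall (j + 1), max_self]; exact hcase)
      rw [one_mul, hrec, hrec] at h1
      have h2 : v (x (j + 2) + δ * x j - (x (j + 1 + 2) + δ * x (j + 1))) ≤
          v (x (j + 1) - x (j + 2)) := by
        have e : x (j + 2) + δ * x j - (x (j + 1 + 2) + δ * x (j + 1)) =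
          (x (j + 2) - x (j + 2 + 1)) + δ * (x j - x (j + 1)) := by ring
        rw [e]
        refine (v.map_add _ _).trans (max_le (hj _) ?_)
        rw [map_mul]
        calc v δ * v (x j - x (j + 1)) ≤ 1 * v (x (j + 1) - x (j + 2)) := mul_le_mul' hδ (hj j)
          _ = _ := one_mul _
      exact absurd h1 (not_lt.mpr h2)
    intro k
    have := hj (k + 1)
    rw [hj0, sub_self, map_zero] at this
    have h0 : v (x (k + 1) - x (k + 1 + 1)) = 0 := le_antisymm this zero_le
    rw [map_eq_zero] at h0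
    exact sub_eq_zero.mp h0
  · -- integral case
    push Not at hcase
    by_cases hr0 : r = 0
    · apply hfix
      have : ∀ k, x k = 0 := by
        intro k
        have := hxr k
        rw [hr0] at this
        exact (map_eq_zero v).mp (le_antisymm this zero_le)
      intro k
      rw [this, this]
    set τ := x (m + 1) with hτdef
    have hτ : τ ≠ 0 := by
      intro h; apply hr0; rw [hr, h, map_zero]
    set G : L[X] := C τ⁻¹ * F.comp (C τ * X) with hG
    have hGc : ∀ i, G.coeff i = τ⁻¹ * (F.coeff i * τ ^ i) := by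
      intro i
      rw [hG, coeff_C_mul, comp_C_mul_X_coeff]
    -- the scaled orbit
    set u : ℕ → L := fun k => x k / τ with hu
    have hu1 : ∀ k, v (u k) ≤ 1 := by
      intro k
      simp only [hu, map_div₀]
      exact div_le_one_of_le₀ (hxr k) zero_le
    have hurec : G.eval (u 1) = u 2 + δ * u 0 := by
      have := hrec 0
      simp only [zero_add] at this
      simp only [hG, eval_mul, eval_C, eval_comp, eval_X, hu]
      have e : τ * (x 1 / τ) = x 1 := by field_simp
      rw [e, this]
      field_simp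
    have hGint1 : ∀ i, v (G.coeff (i + 1)) ≤ 1 := by
      intro i
      have e : G.coeff (i + 1) = F.coeff (i + 1) * τ ^ i := by
        rw [hGc, pow_succ]
        field_simp
      rw [e, map_mul, map_pow]
      exact hcase i
    have hGint0 : v (G.coeff 0) ≤ 1 := by
      have e : G.coeff 0 = (u 2 + δ * u 0) - (G.divX.eval (u 1)) * u 1 := by
        rw [← hurec]
        have hdec := congrArg (Polynomial.eval (u 1)) G.divX_mul_X_add
        simp only [eval_add, eval_mul, eval_X, eval_C] at hdec
        rw [← hdec]; ring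
      rw [e]
      refine (v.map_sub _ _).trans (max_le ?_ ?_)
      · refine (v.map_add _ _).trans (max_le (hu1 _) ?_)
        rw [map_mul]; exact mul_le_one' hδ (hu1 0)
      · rw [map_mul]
        refine mul_le_one' ?_ (hu1 1)
        rw [eval_eq_sum_range]
        refine v.map_sum_le fun i _ => ?_
        rw [coeff_divX, map_mul, map_pow]
        exact mul_le_one' (hGint1 i) (pow_le_one' (hu1 1) i)
    have hGint : ∀ i, v (G.coeff i) ≤ 1 := by
      intro i; cases i with
      | zero => exact hGint0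
      | succ i => exact hGint1 i
    -- lift to the valuation ring
    have hlift : G ∈ lifts (v.valuationSubring.subtype) := by
      rw [lifts_iff_coeff_lifts]
      intro i
      exact ⟨⟨G.coeff i, hGint i⟩, rfl⟩
    obtain ⟨G', hG'⟩ := hlift
    have hG'' : G'.map v.valuationSubring.subtype = G := hG'
    set Q : v.valuationSubring × v.valuationSubring := (⟨u 0, hu1 0⟩, ⟨u 1, hu1 1⟩) with hQ
    set δ' : v.valuationSubring := ⟨δ, hδ⟩ with hδ'
    have hinj : Injective (Prod.map (v.valuationSubring.subtype) (v.valuationSubring.subtype)) :=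
      Subtype.val_injective.prodMap Subtype.val_injective
    have hc1 := hm_map v.valuationSubring.subtype G' δ'
    rw [hG''] at hc1
    have hδ'' : v.valuationSubring.subtype δ' = δ := rfl
    rw [hδ''] at hc1
    have hc2 := hm_scale F δ τ hτ
    have hinj2 : Injective (fun P : L × L => (τ * P.1, τ * P.2)) := by
      intro P Q h
      simp only [Prod.mk.injEq] at h
      exact Prod.ext (mul_left_cancel₀ hτ h.1) (mul_left_cancel₀ hτ h.2)
    have hPQ : P = (fun P : L × L => (τ * P.1, τ * P.2))
        (Prod.map (v.valuationSubring.subtype) (v.valuationSubring.subtype) Q) := by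
      have h0 := hxP 0
      simp only [iterate_zero, id_eq, zero_add] at h0
      rw [h0]
      have e0 : τ * (x 0 / τ) = x 0 := by field_simp
      have e1 : τ * (x 1 / τ) = x 1 := by field_simp
      simp only [Q, hu, Prod.map, ValuationSubring.subtype_apply, e0, e1]
    have htrans : ∀ k, (hm F δ)^[k] P = P ↔ (hm G' δ')^[k] Q = Q := by
      intro k
      rw [hPQ, Semiconj.iterate_eq hc2 hinj2, Semiconj.iterate_eq hc1 hinj]
    rw [htrans]
    have hp0' : (p : v.valuationSubring) ≠ 0 := by
      intro h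
      apply hp0
      have := congrArg (v.valuationSubring.subtype) h
      simpa using this
    have hpu : ¬ IsUnit (p : v.valuationSubring) := by
      intro h
      obtain ⟨w, hw⟩ := h.exists_right_inv
      have h1 := congrArg (v.valuationSubring.subtype) hw
      rw [map_mul, map_natCast, map_one] at h1
      have h2 : v (p : L) * v (v.valuationSubring.subtype w) = 1 := by
        rw [← map_mul, h1, map_one]
      have h3 : v (v.valuationSubring.subtype w) ≤ 1 := w.2
      have h4 : v (p : L) * v (v.valuationSubring.subtype w) ≤ v (p : L) * 1 :=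
        mul_le_mul' le_rfl h3
      rw [h2, mul_one] at h4
      exact absurd h4 (not_le.mpr hpv)
    exact hm_iterate_bigM hp hp0' hpu hq G' δ' Q hn ((htrans n).mp hP)

/-- The local period bound without restriction on `δ`. -/
theorem local_period' (v : Valuation L Γ₀) {p : ℕ} (hp : p.Prime) (hp0 : (p : L) ≠ 0)
    (hpv : v (p : L) < 1)
    [Finite (v.valuationSubring ⧸ Ideal.span {(p : v.valuationSubring) ^ 2})] {q : ℕ}
    (hq : Nat.card (v.valuationSubring ⧸ Ideal.span {(p : v.valuationSubring) ^ 2}) ≤ q)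
    (F : L[X]) (δ : L) (hδ : δ ≠ 0) (hE : LocExp v F (max 1 (v δ)))
    (P : L × L) {n : ℕ} (hn : 0 < n) (hP : (hm F δ)^[n] P = P) :
    (hm F δ)^[bigM q] P = P := by
  rcases le_or_gt (v δ) 1 with h1 | h1
  · rw [max_eq_left h1] at hE
    exact local_period v hp hp0 hpv hq F δ h1 hE P hn hP
  · rw [max_eq_right h1.le] at hE
    have hvδ : 0 < v δ := lt_of_le_of_lt zero_le h1
    rw [← hm_inv_fix_iff F δ hδ] at hP ⊢
    refine local_period v hp hp0 hpv hq _ _ ?_ ?_ _ hn hP
    · rw [map_inv₀]
      exact inv_le_one_of_one_le₀ h1.le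
    · intro x x' hx ⟨i, hi⟩
      have h2 := hE x x' hx ⟨i, by
        rw [coeff_C_mul, map_mul, map_inv₀, mul_assoc] at hi
        rw [lt_inv_mul_iff₀ hvδ, mul_one] at hi
        exact hi⟩
      have e : (C δ⁻¹ * F).eval x - (C δ⁻¹ * F).eval x' = δ⁻¹ * (F.eval x - F.eval x') := by
        simp only [eval_mul, eval_C]; ring
      rw [e, map_mul, map_inv₀, one_mul, lt_inv_mul_iff₀ hvδ]
      exact h2

end Loc

end Pool.Agent.H.MP_0e6b5f_nt
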