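import Pool.Agent.H.MP_0e6b5f_nt.Global

/-!
# Polynomials that are monotone in the ultrametric sense, and periodic points
-/

namespace Pool.Agent.H.MP_0e6b5f_nt

open Polynomial Function Module

section GN

variable {L : Type*} [Field L] {Γ₀ : Type*} [LinearOrderedCommGroupWithZero Γ₀]
variable (v : Valuation L Γ₀)

/-- all coefficients have value at most `γ` -/
def GN (P : L[X]) (γ : Γ₀) : Prop := ∀ i, v (P.coeff i) ≤ γ

variable {v}

theorem GN.mono {P : L[X]} {γ γ' : Γ₀} (h : GN v P γ) (hγ : γ ≤ γ') : GN v P γ' :=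
  fun i => (h i).trans hγ

theorem GN.zero (γ : Γ₀) : GN v (0 : L[X]) γ := fun i => by
  rw [coeff_zero, map_zero]; exact zero_le

theorem GN.C {a : L} {γ : Γ₀} (h : v a ≤ γ) : GN v (C a : L[X]) γ := fun i => by
  rw [coeff_C]
  split_ifs
  · exact h
  · rw [map_zero]; exact zero_le

theorem GN.X : GN v (X : L[X]) 1 := fun i => by
  rw [coeff_X]
  split_ifs
  · rw [map_one]
  · rw [map_zero]; exact zero_le

theorem GN.add {P Q : L[X]} {γ : Γ₀} (h : GN v P γ) (h' : GN v Q γ) : GN v (P + Q) γ :=
  fun i => by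
    rw [coeff_add]
    exact (v.map_add _ _).trans (max_le (h i) (h' i))

theorem GN.sub {P Q : L[X]} {γ : Γ₀} (h : GN v P γ) (h' : GN v Q γ) : GN v (P - Q) γ :=
  fun i => by
    rw [coeff_sub]
    exact (v.map_sub _ _).trans (max_le (h i) (h' i))

theorem GN.mul {P Q : L[X]} {γ γ' : Γ₀} (h : GN v P γ) (h' : GN v Q γ') :
    GN v (P * Q) (γ * γ') := fun i => by
  rw [coeff_mul]
  refine v.map_sum_le fun x _ => ?_
  rw [map_mul]
  exact mul_le_mul' (h _) (h' _)

theorem GN.one : GN v (1 : L[X]) 1 := by
  rw [← C_1]; exact GN.C (by rw [map_one])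

theorem GN.pow {P : L[X]} {γ : Γ₀} (h : GN v P γ) (n : ℕ) : GN v (P ^ n) (γ ^ n) := by
  induction n with
  | zero => simpa using GN.one
  | succ n ih => rw [pow_succ, pow_succ]; exact ih.mul h

theorem GN.sum {ι : Type*} {s : Finset ι} {P : ι → L[X]} {γ : Γ₀}
    (h : ∀ i ∈ s, GN v (P i) γ) : GN v (∑ i ∈ s, P i) γ := by
  classical
  induction s using Finset.induction_on with
  | empty => simpa using GN.zero γ
  | insert a s ha ih =>
    rw [Finset.sum_insert ha]
    exact (h a (Finset.mem_insert_self _ _)).add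
      (ih fun i hi => h i (Finset.mem_insert_of_mem hi))

theorem GN.comp {P H : L[X]} {γ : Γ₀} (h : GN v P γ) (hH : GN v H 1) : GN v (P.comp H) γ := by
  rw [comp_eq_sum_left, Polynomial.sum]
  apply GN.sum
  intro i _
  have h1 : GN v (Polynomial.C (P.coeff i)) γ := GN.C (h i)
  have h2 : GN v (H ^ i) 1 := by simpa using hH.pow i
  simpa using h1.mul h2

theorem GN.eval {P : L[X]} {γ : Γ₀} (h : GN v P γ) {x : L} (hx : v x ≤ 1) :
    v (P.eval x) ≤ γ := by
  rw [eval_eq_sum_range]
  refine v.map_sum_le fun i _ => ?_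
  rw [map_mul, map_pow]
  calc v (P.coeff i) * v x ^ i ≤ γ * 1 := mul_le_mul' (h i) (pow_le_one' hx i)
    _ = γ := mul_one γ

end GN

section Int

variable {L : Type*} [Field L] {Γ₀ : Type*} [LinearOrderedCommGroupWithZero Γ₀]

/-- If after an affine change of coordinate the whole orbit and the nonconstant part of the map
are integral, the period is bounded. -/
theorem period_of_integral (v : Valuation L Γ₀) {p : ℕ} (hp : p.Prime) (hp0 : (p : L) ≠ 0)
    (hpv : v (p : L) < 1)
    [Finite (v.valuationSubring ⧸ Ideal.span {(p : v.valuationSubring) ^ 2})] {q : ℕ}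
    (hq : Nat.card (v.valuationSubring ⧸ Ideal.span {(p : v.valuationSubring) ^ 2}) ≤ q)
    (F : L[X]) (δ : L) (hδ : v δ ≤ 1)
    (P : L × L) {n : ℕ} (hn : 0 < n) (hP : (hm F δ)^[n] P = P)
    (c h : L) (hh : h ≠ 0) (hx : ∀ k, v (((hm F δ)^[k] P).1 - c) ≤ v h)
    (hF : ∀ i, v ((F.comp (C h * X + C c)).coeff (i + 1)) ≤ v h) :
    (hm F δ)^[bigM q] P = P := by
  set x : ℕ → L := fun k => ((hm F δ)^[k] P).1 with hxdef
  have hxP : ∀ k, (hm F δ)^[k] P = (x k, x (k + 1)) := fun k => hm_seq F δ P k
  have hrec : ∀ k, F.eval (x (k + 1)) = x (k + 2) + δ * x k := by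
    intro k
    have := hm_rec F δ P k
    simp only [hxdef]
    rw [this]; ring
  have hvh : 0 < v h := zero_lt_iff.mpr ((map_ne_zero v).mpr hh)
  -- the new polynomial
  set G : L[X] := C h⁻¹ * (F.comp (C h * X + C c) - C (c + δ * c)) with hG
  have hGeval : ∀ y, G.eval y = h⁻¹ * (F.eval (h * y + c) - (c + δ * c)) := by
    intro y
    simp [hG, eval_comp]
  set u : ℕ → L := fun k => (x k - c) / h with hu
  have hu1 : ∀ k, v (u k) ≤ 1 := by
    intro k
    simp only [hu, map_div₀]
    exact div_le_one_of_le₀ (hx k) zero_le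
  have hxu : ∀ k, x k = h * u k + c := by
    intro k; simp only [hu]; field_simp; ring
  have hurec : G.eval (u 1) = u 2 + δ * u 0 := by
    have h0 := hrec 0
    simp only [zero_add] at h0
    rw [hGeval, ← hxu 1, h0]
    simp only [hu]
    field_simp
    ring
  have hGint1 : ∀ i, v (G.coeff (i + 1)) ≤ 1 := by
    intro i
    rw [hG, coeff_C_mul, coeff_sub, coeff_C_succ, sub_zero, map_mul, map_inv₀]
    rw [inv_mul_le_iff₀ hvh, mul_one]
    exact hF i
  have hGint0 : v (G.coeff 0) ≤ 1 := by
    have e : G.coeff 0 = (u 2 + δ * u 0) - (G.divX.eval (u 1)) * u 1 := by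
      rw [← hurec]
      have hdec := congrArg (Polynomial.eval (u 1)) G.divX_mul_X_add
      simp only [eval_add, eval_mul, eval_X, eval_C] at hdec
      rw [← hdec]; ring
    rw [e]
    refine (v.map_sub _ _).trans (max_le ?_ ?_)
    · refine (v.map_add _ _).trans (max_le (hu1 _) ?_)
      rw [map_mul]; exact mul_le_one' hδ (hu1 0)
    · rw [map_mul]
      refine mul_le_one' ?_ (hu1 1)
      rw [eval_eq_sum_range]
      refine v.map_sum_le fun i _ => ?_
      rw [coeff_divX, map_mul, map_pow]
      exact mul_le_one' (hGint1 i) (pow_le_one' (hu1 1) i)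
  have hGint : ∀ i, v (G.coeff i) ≤ 1 := by
    intro i; cases i with
    | zero => exact hGint0
    | succ i => exact hGint1 i
  have hlift : G ∈ lifts (v.valuationSubring.subtype) := by
    rw [lifts_iff_coeff_lifts]
    intro i
    exact ⟨⟨G.coeff i, hGint i⟩, rfl⟩
  obtain ⟨G', hG'⟩ := hlift
  have hG'' : G'.map v.valuationSubring.subtype = G := hG'
  set Q : v.valuationSubring × v.valuationSubring := (⟨u 0, hu1 0⟩, ⟨u 1, hu1 1⟩) with hQ
  set δ' : v.valuationSubring := ⟨δ, hδ⟩ with hδ'
  have hinj : Injective (Prod.map (v.valuationSubring.subtype) (v.valuationSubring.subtype)) :=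
    Subtype.val_injective.prodMap Subtype.val_injective
  have hc1 := hm_map v.valuationSubring.subtype G' δ'
  rw [hG''] at hc1
  have hδ'' : v.valuationSubring.subtype δ' = δ := rfl
  rw [hδ''] at hc1
  have hc2 : Semiconj (fun P : L × L => (h * P.1 + c, h * P.2 + c)) (hm G δ) (hm F δ) := by
    intro P
    simp only [hm, hGeval, Prod.mk.injEq, true_and]
    field_simp
    ring
  have hinj2 : Injective (fun P : L × L => (h * P.1 + c, h * P.2 + c)) := by
    intro P Q hPQ
    simp only [Prod.mk.injEq, add_left_inj] at hPQ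
    exact Prod.ext (mul_left_cancel₀ hh hPQ.1) (mul_left_cancel₀ hh hPQ.2)
  have hPQ : P = (fun P : L × L => (h * P.1 + c, h * P.2 + c))
      (Prod.map (v.valuationSubring.subtype) (v.valuationSubring.subtype) Q) := by
    have h0 := hxP 0
    simp only [iterate_zero, id_eq, zero_add] at h0
    rw [h0]
    simp only [Q, Prod.map, ValuationSubring.subtype_apply, ← hxu]
  have htrans : ∀ k, (hm F δ)^[k] P = P ↔ (hm G' δ')^[k] Q = Q := by
    intro k
    rw [hPQ, Semiconj.iterate_eq hc2 hinj2, Semiconj.iterate_eq hc1 hinj]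
  rw [htrans]
  have hp0' : (p : v.valuationSubring) ≠ 0 := by
    intro h
    apply hp0
    have := congrArg (v.valuationSubring.subtype) h
    simpa using this
  have hpu : ¬ IsUnit (p : v.valuationSubring) := by
    intro h
    obtain ⟨w, hw⟩ := h.exists_right_inv
    have h1 := congrArg (v.valuationSubring.subtype) hw
    rw [map_mul, map_natCast, map_one] at h1
    have h2 : v (p : L) * v (v.valuationSubring.subtype w) = 1 := by
      rw [← map_mul, h1, map_one]
    have h3 : v (v.valuationSubring.subtype w) ≤ 1 := w.2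
    have h4 : v (p : L) * v (v.valuationSubring.subtype w) ≤ v (p : L) * 1 :=
      mul_le_mul' le_rfl h3
    rw [h2, mul_one] at h4
    exact absurd h4 (not_le.mpr hpv)
  exact hm_iterate_bigM hp hp0' hpu hq G' δ' Q hn ((htrans n).mp hP)

/-- `F` is monotone in the ultrametric sense (up to Lipschitz constant `Δ`): the Gauss norm of
`F(x + hY) - F(x)` is attained at `Y = 1`, or is at most `Δ |h|`. -/
def UMono (v : Valuation L Γ₀) (F : L[X]) (Δ : Γ₀) : Prop :=
  ∀ x h : L, ∀ i, v ((F.comp (C h * X + C x)).coeff (i + 1)) ≤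
    max (v (F.eval (h + x) - F.eval x)) (Δ * v h)

theorem mono_period (v : Valuation L Γ₀) {p : ℕ} (hp : p.Prime) (hp0 : (p : L) ≠ 0)
    (hpv : v (p : L) < 1)
    [Finite (v.valuationSubring ⧸ Ideal.span {(p : v.valuationSubring) ^ 2})] {q : ℕ}
    (hq : Nat.card (v.valuationSubring ⧸ Ideal.span {(p : v.valuationSubring) ^ 2}) ≤ q)
    (F : L[X]) (δ : L) (hδ : v δ ≤ 1) (hM : UMono v F 1)
    (P : L × L) {n : ℕ} (hn : 0 < n) (hP : (hm F δ)^[n] P = P) :
    (hm F δ)^[bigM q] P = P := by
  set x : ℕ → L := fun k => ((hm F δ)^[k] P).1 with hx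
  have hxP : ∀ k, (hm F δ)^[k] P = (x k, x (k + 1)) := fun k => hm_seq F δ P k
  have hrec : ∀ k, F.eval (x (k + 1)) = x (k + 2) + δ * x k := by
    intro k
    have := hm_rec F δ P k
    simp only [hx]
    rw [this]; ring
  have hper : ∀ k, x (k + n) = x k := fun k => by
    simp only [hx]; rw [hm_periodic hP]
  -- the diameter of the orbit
  have hdiam : ∃ i j, ∀ k l, v (x k - x l) ≤ v (x (i + 1) - x (j + 1)) := by
    have h1 : ∀ l, ∃ i, ∀ k, v (x k - x l) ≤ v (x (i + 1) - x l) := fun l =>
      exists_max_periodic (fun k => v (x k - x l)) hn (fun k => by simp only [hper k])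
    choose i hi using h1
    obtain ⟨j, hj'⟩ := exists_max_periodic (fun l => v (x (i 0 + 1) - x l)) hn
      (fun l => by simp only [hper l])
    have hj : ∀ l, v (x (i 0 + 1) - x l) ≤ v (x (i 0 + 1) - x (j + 1)) := hj'
    refine ⟨i 0, j, fun k l => ?_⟩
    -- ultrametric: the diameter is attained from any point
    have h2 : ∀ k, v (x k - x 0) ≤ v (x (i 0 + 1) - x (j + 1)) := fun k =>
      (hi 0 k).trans (hj 0)
    have e : x k - x l = (x k - x 0) - (x l - x 0) := by ring
    rw [e]
    exact (v.map_sub _ _).trans (max_le (h2 k) (h2 l))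
  obtain ⟨i, j, hij⟩ := hdiam
  set h := x (i + 1) - x (j + 1) with hh
  by_cases h0 : h = 0
  · have hconst : ∀ k l, x k = x l := by
      intro k l
      have := hij k l
      rw [h0, map_zero] at this
      exact sub_eq_zero.mp ((map_eq_zero v).mp (le_antisymm this zero_le))
    have hfP : hm F δ P = P := by
      have e0 := hxP 0
      have e1 := hxP 1
      simp only [iterate_zero, id_eq, zero_add] at e0
      rw [iterate_one] at e1
      rw [e1]
      conv_rhs => rw [e0]
      rw [hconst 1 0, hconst (1 + 1) 0]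
    exact iterate_fixed hfP _
  · refine period_of_integral v hp hp0 hpv hq F δ hδ P hn hP (x (j + 1)) h h0
      (fun k => hij k (j + 1)) (fun l => ?_)
    refine (hM (x (j + 1)) h l).trans (max_le ?_ (by rw [one_mul]))
    have e : h + x (j + 1) = x (i + 1) := by rw [hh]; ring
    rw [e, hrec, hrec]
    have e2 : x (i + 2) + δ * x i - (x (j + 2) + δ * x j) =
        (x (i + 2) - x (j + 2)) + δ * (x i - x j) := by ring
    rw [e2]
    refine (v.map_add _ _).trans (max_le (hij _ _) ?_)
    rw [map_mul]
    calc v δ * v (x i - x j) ≤ 1 * v h := mul_le_mul' hδ (hij _ _)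
      _ = v h := one_mul _

theorem mono_period' (v : Valuation L Γ₀) {p : ℕ} (hp : p.Prime) (hp0 : (p : L) ≠ 0)
    (hpv : v (p : L) < 1)
    [Finite (v.valuationSubring ⧸ Ideal.span {(p : v.valuationSubring) ^ 2})] {q : ℕ}
    (hq : Nat.card (v.valuationSubring ⧸ Ideal.span {(p : v.valuationSubring) ^ 2}) ≤ q)
    (F : L[X]) (δ : L) (hδ : δ ≠ 0) (hM : UMono v F (max 1 (v δ)))
    (P : L × L) {n : ℕ} (hn : 0 < n) (hP : (hm F δ)^[n] P = P) :
    (hm F δ)^[bigM q] P = P := by
  rcases le_or_gt (v δ) 1 with h1 | h1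
  · rw [max_eq_left h1] at hM
    exact mono_period v hp hp0 hpv hq F δ h1 hM P hn hP
  · rw [max_eq_right h1.le] at hM
    have hvδ : 0 < v δ := lt_of_le_of_lt zero_le h1
    rw [← hm_inv_fix_iff F δ hδ] at hP ⊢
    refine mono_period v hp hp0 hpv hq _ _ ?_ ?_ _ hn hP
    · rw [map_inv₀]
      exact inv_le_one_of_one_le₀ h1.le
    · intro x h i
      have h2 := hM x h i
      have e1 : ((C δ⁻¹ * F).comp (C h * X + C x)).coeff (i + 1) =
          δ⁻¹ * (F.comp (C h * X + C x)).coeff (i + 1) := by
        rw [mul_comp, C_comp, coeff_C_mul]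
      have e2 : (C δ⁻¹ * F).eval (h + x) - (C δ⁻¹ * F).eval x =
          δ⁻¹ * (F.eval (h + x) - F.eval x) := by
        simp only [eval_mul, eval_C]; ring
      rw [e1, e2, map_mul, map_mul, map_inv₀, one_mul]
      rcases le_max_iff.mp h2 with h3 | h3
      · exact le_max_of_le_left (mul_le_mul' le_rfl h3)
      · refine le_max_of_le_right ?_
        calc (v δ)⁻¹ * v ((F.comp (C h * X + C x)).coeff (i + 1))
            ≤ (v δ)⁻¹ * (v δ * v h) := mul_le_mul' le_rfl h3
          _ = v h := by rw [inv_mul_cancel_left₀ hvδ.ne']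

end Int

section Closure

variable {L : Type*} [Field L] {Γ₀ : Type*} [LinearOrderedCommGroupWithZero Γ₀]
variable {v : Valuation L Γ₀}

/-- exact ultrametric monotonicity (`Δ = 0`), in Gauss norm form -/
def SMono (v : Valuation L Γ₀) (F : L[X]) : Prop :=
  ∀ x h : L, GN v (F.comp (C h * X + C x) - C (F.eval x)) (v (F.eval (h + x) - F.eval x))

theorem SMono.umono {F : L[X]} (hF : SMono v F) (Δ : Γ₀) : UMono v F Δ := by
  intro x h i
  have := hF x h (i + 1)
  rw [coeff_sub, coeff_C_succ, sub_zero] at this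
  exact this.trans (le_max_left _ _)

theorem SMono.affine (a b : L) : SMono v (C a * X + C b) := by
  intro x h
  have e : (C a * X + C b : L[X]).comp (C h * X + C x) - C ((C a * X + C b : L[X]).eval x) =
      C (a * h) * X := by
    simp only [add_comp, mul_comp, C_comp, X_comp, eval_add, eval_mul, eval_C, eval_X]
    simp only [C_add, C_mul]
    ring
  have e2 : (C a * X + C b : L[X]).eval (h + x) - (C a * X + C b : L[X]).eval x = a * h := by
    simp only [eval_add, eval_mul, eval_C, eval_X]; ring
  rw [e, e2]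
  simpa using (GN.C (v := v) (a := a * h) le_rfl).mul GN.X

theorem SMono.comp {G H : L[X]} (hG : SMono v G) (hH : SMono v H) : SMono v (G.comp H) := by
  intro x h
  set h' := H.eval (h + x) - H.eval x with hh'
  by_cases h0 : h' = 0
  · -- then `H (x + hY)` is constant
    have h1 := hH x h
    rw [← hh', h0, map_zero] at h1
    have h2 : H.comp (C h * X + C x) - C (H.eval x) = 0 := by
      ext i
      rw [coeff_zero]
      exact (map_eq_zero v).mp (le_antisymm (h1 i) zero_le)
    have h3 : H.comp (C h * X + C x) = C (H.eval x) := sub_eq_zero.mp h2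
    have h4 : (G.comp H).comp (C h * X + C x) - C ((G.comp H).eval x) = 0 := by
      rw [Polynomial.comp_assoc, h3, comp_C, eval_comp, sub_self]
    rw [h4]; exact GN.zero _
  · set Ht : L[X] := C h'⁻¹ * (H.comp (C h * X + C x) - C (H.eval x)) with hHt
    have hHt1 : GN v Ht 1 := by
      have h1 := (GN.C (v := v) (a := h'⁻¹) le_rfl).mul (hH x h)
      rw [← hh', ← map_mul, inv_mul_cancel₀ h0, map_one] at h1
      exact h1
    have hdec : H.comp (C h * X + C x) = (C h' * X + C (H.eval x)).comp Ht := by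
      simp only [add_comp, mul_comp, C_comp, X_comp, hHt]
      rw [← mul_assoc, ← C_mul, mul_inv_cancel₀ h0, C_1, one_mul]
      ring
    have e : (G.comp H).comp (C h * X + C x) - C ((G.comp H).eval x) =
        (G.comp (C h' * X + C (H.eval x)) - C (G.eval (H.eval x))).comp Ht := by
      rw [Polynomial.comp_assoc, hdec, ← Polynomial.comp_assoc, sub_comp, C_comp, eval_comp]
    have e2 : (G.comp H).eval (h + x) - (G.comp H).eval x =
        G.eval (h' + H.eval x) - G.eval (H.eval x) := by
      rw [eval_comp, eval_comp, hh']; ring_nf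
    rw [e, e2]
    exact (hG (H.eval x) h').comp hHt1

theorem SMono.pow {d : ℕ} (hd : 0 < d)
    (hpow : ∀ x x' : L, v x = v x' → v (x ^ d - x' ^ d) = v x ^ (d - 1) * v (x - x')) :
    SMono v (X ^ d : L[X]) := by
  intro x h
  have hval := val_pow_sub_pow_eq v hd hpow (h + x) x
  have hmax : max (v (h + x)) (v x) = max (v h) (v x) := by
    apply le_antisymm
    · exact max_le (v.map_add _ _) (le_max_right _ _)
    · refine max_le ?_ (le_max_right _ _)
      have : h = (h + x) - x := by ring
      conv_lhs => rw [this]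
      exact v.map_sub _ _
  rw [eval_pow, eval_pow, eval_X, eval_X, hval, hmax, add_sub_cancel_right]
  obtain ⟨e, rfl⟩ : ∃ e, d = e + 1 := ⟨d - 1, by omega⟩
  rw [Nat.add_sub_cancel]
  set ρ := max (v h) (v x) with hρ
  have hlin : GN v (C h * X + C x : L[X]) ρ := by
    apply GN.add
    · have := (GN.C (v := v) (a := h) (le_max_left (v h) (v x))).mul GN.X
      rwa [mul_one] at this
    · exact GN.C (le_max_right _ _)
  have hCx : GN v (C x : L[X]) ρ := GN.C (le_max_right _ _)
  rw [pow_comp, X_comp, C_pow]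
  have hfac := (Commute.geom_sum₂_mul (Commute.all (C h * X + C x : L[X]) (C x)) (e + 1)).symm
  rw [hfac]
  apply GN.mul
  · apply GN.sum
    intro i hi
    have hi' : i ≤ e := Nat.lt_succ_iff.mp (Finset.mem_range.mp hi)
    have := (hlin.pow i).mul (hCx.pow (e + 1 - 1 - i))
    rw [← pow_add] at this
    have e1 : i + (e + 1 - 1 - i) = e := by omega
    rwa [e1] at this
  · have e1 : (C h * X + C x : L[X]) - C x = C h * X := by ring
    rw [e1]
    have := (GN.C (v := v) (a := h) le_rfl).mul GN.X
    rwa [mul_one] at this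

end Closure

section GlobalMono

variable {K : Type*} [Field K]

/-- descent of a point of the plane to the field generated by its coordinates, monotone version -/
theorem point_period_mono [NumberField K] {Γ₀ : Type*} [LinearOrderedCommGroupWithZero Γ₀]
    (w : Valuation (AlgebraicClosure K) Γ₀) {p : ℕ} (hp : p.Prime)
    (hpw : w (p : AlgebraicClosure K) < 1) {N : ℕ}
    (F : K[X]) (δ : K) (hδ : δ ≠ 0) (P : AlgebraicClosure K × AlgebraicClosure K)
    (hN : finrank ℚ K *
      finrank K (IntermediateField.adjoin K ({P.1, P.2} : Set (AlgebraicClosure K))) ≤ N)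
    (hE : ∀ L : IntermediateField K (AlgebraicClosure K), FiniteDimensional K L →
      finrank ℚ K * finrank K L ≤ N →
      UMono (w.comap (algebraMap L (AlgebraicClosure K))) (F.map (algebraMap K L))
        (max 1 (w (algebraMap K (AlgebraicClosure K) δ))))
    {n : ℕ} (hn : 0 < n) (hP : (henon F δ)^[n] P = P) :
    (henon F δ)^[bigM (p ^ (2 * N))] P = P := by
  set L := IntermediateField.adjoin K ({P.1, P.2} : Set (AlgebraicClosure K)) with hL
  have hfd : FiniteDimensional K L := by
    apply IntermediateField.finiteDimensional_adjoin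
    intro x _
    exact Algebra.IsIntegral.isIntegral x
  have hb := hE L hfd hN
  have hcz : CharZero L := charZero_of_injective_algebraMap (algebraMap K L).injective
  have hfdQ : FiniteDimensional ℚ L := FiniteDimensional.trans ℚ K L
  have hdeg : finrank ℚ L ≤ N := by
    rw [← Module.finrank_mul_finrank ℚ K L]; exact hN
  have h1 : P.1 ∈ L := IntermediateField.subset_adjoin K _ (by simp)
  have h2 : P.2 ∈ L := IntermediateField.subset_adjoin K _ (by simp)
  set Q : L × L := (⟨P.1, h1⟩, ⟨P.2, h2⟩) with hQ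
  have hc := hm_map (algebraMap L (AlgebraicClosure K)) (F.map (algebraMap K L))
    (algebraMap K L δ)
  rw [Polynomial.map_map, ← IsScalarTower.algebraMap_eq K L (AlgebraicClosure K),
    ← IsScalarTower.algebraMap_apply K L (AlgebraicClosure K), ← henon_eq_hm] at hc
  have hinj : Injective (Prod.map (algebraMap L (AlgebraicClosure K))
      (algebraMap L (AlgebraicClosure K))) :=
    (algebraMap L (AlgebraicClosure K)).injective.prodMap
      (algebraMap L (AlgebraicClosure K)).injective
  have hPQ : P = Prod.map (algebraMap L (AlgebraicClosure K))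
      (algebraMap L (AlgebraicClosure K)) Q := rfl
  rw [hPQ, Semiconj.iterate_eq hc hinj] at hP ⊢
  set v := w.comap (algebraMap L (AlgebraicClosure K)) with hv
  have hpv : v (p : L) < 1 := by
    rw [hv, Valuation.comap_apply, map_natCast]; exact hpw
  obtain ⟨hfin, hcard⟩ := quot_p2_card (v.valuationSubring.subtype) Subtype.val_injective hp
  have hcard' : Nat.card (v.valuationSubring ⧸ Ideal.span {(p : v.valuationSubring) ^ 2}) ≤
      p ^ (2 * N) := hcard.trans (Nat.pow_le_pow_right hp.pos (by omega))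
  have hvδ : v (algebraMap K L δ) = w (algebraMap K (AlgebraicClosure K) δ) := by
    rw [hv, Valuation.comap_apply, ← IsScalarTower.algebraMap_apply]
  refine mono_period' v hp (by exact_mod_cast hp.ne_zero) hpv hcard' _ _ ?_ ?_ Q hn hP
  · simpa using hδ
  · rw [hvδ]; exact hb

end GlobalMono

end Pool.Agent.H.MP_0e6b5f_nt
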