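import Mathlib

/-!
# A uniform bound for the period of an integral periodic point

Let `R` be a valuation ring of characteristic zero in which the prime `p` is a nonzero nonunit and
such that `R / p²R` is finite with at most `q` elements.  If `Φ : R² → R²` is a map with a first
order Taylor expansion, then every periodic point of `Φ` is fixed by `Φ^[M]` where `M` depends
only on `q`.
-/

namespace Pool.Agent.H.MP_0e6b5f_nt

open Matrix Function

section Taylor

variable {R : Type*} [CommRing R]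

/-- `Φ : R² → R²` has first order Taylor expansions with derivative `D`. -/
structure IsTaylor (Φ : (Fin 2 → R) → (Fin 2 → R)) (D : (Fin 2 → R) → Matrix (Fin 2) (Fin 2) R) :
    Prop where
  taylor : ∀ (P h : Fin 2 → R) (μ : R), ∃ e : Fin 2 → R,
    Φ (P + μ • h) = Φ P + μ • (D P *ᵥ h) + μ ^ 2 • e
  cont : ∀ (P h : Fin 2 → R) (μ : R), ∃ E : Matrix (Fin 2) (Fin 2) R,
    D (P + μ • h) = D P + μ • E

theorem IsTaylor.id : IsTaylor (R := R) (fun P => P) (fun _ => 1) where
  taylor P h μ := ⟨0, by simp⟩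
  cont P h μ := ⟨0, by simp⟩

theorem IsTaylor.comp {Ψ Φ : (Fin 2 → R) → (Fin 2 → R)}
    {D' D : (Fin 2 → R) → Matrix (Fin 2) (Fin 2) R}
    (h1 : IsTaylor Ψ D') (h2 : IsTaylor Φ D) :
    IsTaylor (fun P => Ψ (Φ P)) (fun P => D' (Φ P) * D P) where
  taylor P h μ := by
    obtain ⟨e, he⟩ := h2.taylor P h μ
    obtain ⟨e', he'⟩ := h1.taylor (Φ P) (D P *ᵥ h + μ • e) μ
    refine ⟨D' (Φ P) *ᵥ e + e', ?_⟩
    have : Φ (P + μ • h) = Φ P + μ • (D P *ᵥ h + μ • e) := by
      rw [he, smul_add, smul_smul, pow_two, add_assoc]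
    rw [this, he', Matrix.mulVec_add, Matrix.mulVec_smul, Matrix.mulVec_mulVec]
    simp only [smul_add, smul_smul, pow_two, add_assoc]
  cont P h μ := by
    obtain ⟨e, he⟩ := h2.taylor P h μ
    obtain ⟨E, hE⟩ := h2.cont P h μ
    obtain ⟨E', hE'⟩ := h1.cont (Φ P) (D P *ᵥ h + μ • e) μ
    refine ⟨D' (Φ P) * E + E' * D P + μ • (E' * E), ?_⟩
    have : Φ (P + μ • h) = Φ P + μ • (D P *ᵥ h + μ • e) := by
      rw [he, smul_add, smul_smul, pow_two, add_assoc]
    rw [this, hE', hE]
    simp only [add_mul, mul_add, smul_add, Matrix.smul_mul, Matrix.mul_smul, smul_smul]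
    abel

/-- the derivative of the `n`-th iterate -/
def iterD (Φ : (Fin 2 → R) → (Fin 2 → R)) (D : (Fin 2 → R) → Matrix (Fin 2) (Fin 2) R) :
    ℕ → (Fin 2 → R) → Matrix (Fin 2) (Fin 2) R
  | 0, _ => 1
  | n + 1, P => D (Φ^[n] P) * iterD Φ D n P

theorem IsTaylor.iterate {Φ : (Fin 2 → R) → (Fin 2 → R)}
    {D : (Fin 2 → R) → Matrix (Fin 2) (Fin 2) R} (h : IsTaylor Φ D) (n : ℕ) :
    IsTaylor (Φ^[n]) (iterD Φ D n) := by
  induction n with
  | zero => exact IsTaylor.id
  | succ n ih =>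
    have := h.comp ih
    have e : (Φ^[n+1]) = fun P => Φ (Φ^[n] P) := by
      funext P; rw [Function.iterate_succ_apply']
    rw [e]
    exact this

/-- congruence modulo `c` of vectors -/
def Cong (c : R) (P Q : Fin 2 → R) : Prop := ∃ h : Fin 2 → R, Q = P + c • h

theorem Cong.refl (c : R) (P : Fin 2 → R) : Cong c P P := ⟨0, by simp⟩

theorem Cong.trans {c : R} {P Q S : Fin 2 → R} (h1 : Cong c P Q) (h2 : Cong c Q S) :
    Cong c P S := by
  obtain ⟨a, ha⟩ := h1
  obtain ⟨b, hb⟩ := h2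
  exact ⟨a + b, by rw [hb, ha, smul_add, add_assoc]⟩

theorem Cong.symm {c : R} {P Q : Fin 2 → R} (h1 : Cong c P Q) : Cong c Q P := by
  obtain ⟨a, ha⟩ := h1
  exact ⟨-a, by rw [ha]; simp⟩

theorem IsTaylor.cong {Φ : (Fin 2 → R) → (Fin 2 → R)}
    {D : (Fin 2 → R) → Matrix (Fin 2) (Fin 2) R} (h : IsTaylor Φ D) {c : R}
    {P Q : Fin 2 → R} (hPQ : Cong c P Q) : Cong c (Φ P) (Φ Q) := by
  obtain ⟨a, ha⟩ := hPQ
  obtain ⟨e, he⟩ := h.taylor P a c
  exact ⟨D P *ᵥ a + c • e, by rw [ha, he, smul_add, smul_smul, pow_two, add_assoc]⟩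

theorem IsTaylor.cong_iterate {Φ : (Fin 2 → R) → (Fin 2 → R)}
    {D : (Fin 2 → R) → Matrix (Fin 2) (Fin 2) R} (h : IsTaylor Φ D) {c : R}
    {P : Fin 2 → R} (hP : Cong c P (Φ P)) (n : ℕ) : Cong c P (Φ^[n] P) := by
  induction n with
  | zero => exact Cong.refl c P
  | succ n ih =>
    rw [Function.iterate_succ_apply']
    exact hP.trans (h.cong ih)

end Taylor

section Finite

variable {R : Type*} [CommRing R]

theorem cong_iff_mk {c : R} {P Q : Fin 2 → R} :
    Cong c P Q ↔ ∀ i, Ideal.Quotient.mk (Ideal.span {c}) (P i) =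
      Ideal.Quotient.mk (Ideal.span {c}) (Q i) := by
  constructor
  · rintro ⟨h, rfl⟩ i
    rw [Ideal.Quotient.mk_eq_mk_iff_sub_mem, Ideal.mem_span_singleton]
    exact ⟨-h i, by simp⟩
  · intro H
    have : ∀ i, ∃ a, Q i = P i + c * a := by
      intro i
      have := H i
      rw [Ideal.Quotient.mk_eq_mk_iff_sub_mem, Ideal.mem_span_singleton] at this
      obtain ⟨a, ha⟩ := this
      exact ⟨-a, by linear_combination -ha⟩
    choose a ha using this
    exact ⟨a, by ext i; simp [ha i]⟩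

/-- In a finite monoid with at most `c` elements `x ^ c!` is idempotent. -/
theorem idem_pow_factorial {G : Type*} [Monoid G] [Finite G] {c : ℕ} (hc : Nat.card G ≤ c)
    (x : G) : x ^ (c.factorial) * x ^ (c.factorial) = x ^ (c.factorial) := by
  classical
  have := Fintype.ofFinite G
  have hcard : Fintype.card G < Fintype.card (Fin (c + 1)) := by
    rw [Fintype.card_fin, ← Nat.card_eq_fintype_card]; omega
  obtain ⟨i, j, hij, hx⟩ := Fintype.exists_ne_map_eq_of_card_lt (fun k : Fin (c+1) => x ^ (k : ℕ))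
    hcard
  wlog hlt : i < j generalizing i j
  · exact this j i hij.symm hx.symm (lt_of_le_of_ne (not_lt.mp hlt) hij.symm)
  have hlt' : (i : ℕ) < j := hlt
  set t := (j : ℕ) - i with ht
  have ht0 : 0 < t := by omega
  have htc : t ≤ c := by have := j.2; omega
  have key : ∀ k m : ℕ, x ^ ((i : ℕ) + k + m * t) = x ^ ((i : ℕ) + k) := by
    intro k m
    induction m with
    | zero => simp
    | succ m ih =>
      have e1 : (i : ℕ) + k + (m + 1) * t = (j : ℕ) + (k + m * t) := by
        have : (j : ℕ) = i + t := by omega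
        rw [this]; ring
      have e2 : (i : ℕ) + k + m * t = (i : ℕ) + (k + m * t) := by ring
      rw [e1, pow_add]
      have hx' : x ^ (j : ℕ) = x ^ (i : ℕ) := hx.symm
      rw [hx', ← pow_add, ← e2, ih]
  have hdvd : t ∣ c.factorial := Nat.dvd_factorial ht0 htc
  obtain ⟨m, hm⟩ := hdvd
  have hle : (i : ℕ) ≤ c.factorial := by
    have h1 : (i : ℕ) ≤ c := by have := i.2; omega
    exact h1.trans (Nat.self_le_factorial c)
  have e3 : c.factorial = i + (c.factorial - i) := by omega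
  rw [← pow_add]
  have := key (c.factorial - i) m
  rw [← e3] at this
  have e4 : c.factorial + m * t = c.factorial + c.factorial := by
    rw [hm]; ring
  rw [e4] at this
  exact this

/-- The exponent that kills all periods, in terms of a bound `q` for the number of residue
classes. -/
def bigM (q : ℕ) : ℕ := (q ^ 2).factorial * (q ^ 4).factorial

theorem bigM_pos (q : ℕ) : 0 < bigM q := Nat.mul_pos (Nat.factorial_pos _) (Nat.factorial_pos _)

variable {Φ : (Fin 2 → R) → (Fin 2 → R)} {D : (Fin 2 → R) → Matrix (Fin 2) (Fin 2) R}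

/-- the iterates that fix `P` modulo `c` -/
theorem cong_mul {c : R} (h : IsTaylor Φ D) {P : Fin 2 → R} {m : ℕ}
    (hm : Cong c P (Φ^[m] P)) (k : ℕ) : Cong c P (Φ^[m * k] P) := by
  rw [Function.iterate_mul]
  exact (h.iterate m).cong_iterate hm k

theorem exists_small_period {c : R} [Finite (R ⧸ Ideal.span {c})] {q : ℕ}
    (hq : Nat.card (R ⧸ Ideal.span {c}) ≤ q) (h : IsTaylor Φ D) {P : Fin 2 → R} {n : ℕ}
    (hn : 0 < n) (hP : Φ^[n] P = P) : ∃ m, 0 < m ∧ m ≤ q ^ 2 ∧ Cong c P (Φ^[m] P) := by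
  classical
  have := Fintype.ofFinite (R ⧸ Ideal.span {c})
  have hcard : Fintype.card (Fin 2 → R ⧸ Ideal.span {c}) < Fintype.card (Fin (q ^ 2 + 1)) := by
    rw [Fintype.card_fin, Fintype.card_fun, Fintype.card_fin, ← Nat.card_eq_fintype_card]
    exact Nat.lt_succ_of_le (Nat.pow_le_pow_left hq 2)
  obtain ⟨i, j, hij, hx⟩ := Fintype.exists_ne_map_eq_of_card_lt
    (fun k : Fin (q ^ 2 + 1) => fun t : Fin 2 =>
      Ideal.Quotient.mk (Ideal.span {c}) (Φ^[(k : ℕ)] P t)) hcard
  wlog hlt : i < j generalizing i j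
  · exact this j i hij.symm hx.symm (lt_of_le_of_ne (not_lt.mp hlt) hij.symm)
  have hlt' : (i : ℕ) < j := hlt
  refine ⟨(j : ℕ) - i, by omega, by have := j.2; omega, ?_⟩
  have hc : Cong c (Φ^[(i : ℕ)] P) (Φ^[(j : ℕ)] P) := by
    rw [cong_iff_mk]
    intro t
    exact congrFun hx t
  -- apply a further iterate to come back to `P`
  have hc2 := (h.iterate (n * i - i)).cong hc
  rw [← Function.iterate_add_apply, ← Function.iterate_add_apply] at hc2
  have hni : (i : ℕ) ≤ n * i := Nat.le_mul_of_pos_left _ hn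
  have e1 : n * (i : ℕ) - i + i = n * i := by omega
  have e2 : n * (i : ℕ) - i + j = (j - i : ℕ) + n * i := by omega
  rw [e1, e2, Function.iterate_add_apply] at hc2
  have hfix : Φ^[n * (i : ℕ)] P = P := by
    rw [Function.iterate_mul]
    exact Function.iterate_fixed hP i
  rwa [hfix] at hc2

end Finite

section Main

variable {R : Type*} [CommRing R] [IsDomain R] [ValuationRing R]
variable {Φ : (Fin 2 → R) → (Fin 2 → R)} {D : (Fin 2 → R) → Matrix (Fin 2) (Fin 2) R}

/-- every nonzero vector over a valuation ring is a multiple of a vector with a coordinate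
equal to one -/
theorem exists_primitive (h : Fin 2 → R) (hh : h ≠ 0) :
    ∃ (i : Fin 2) (h0 : Fin 2 → R), h i ≠ 0 ∧ h = h i • h0 ∧ h0 i = 1 := by
  rcases ValuationRing.dvd_total (h 0) (h 1) with ⟨a, ha⟩ | ⟨a, ha⟩
  · have h0 : h 0 ≠ 0 := by
      intro h0
      apply hh
      ext i
      fin_cases i
      · exact h0
      · simp [ha, h0]
    refine ⟨0, ![1, a], h0, ?_, rfl⟩
    ext i
    fin_cases i
    · simp
    · simp [ha]
  · have h1 : h 1 ≠ 0 := by
      intro h1
      apply hh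
      ext i
      fin_cases i
      · simp [ha, h1]
      · exact h1
    refine ⟨1, ![a, 1], h1, ?_, rfl⟩
    ext i
    fin_cases i
    · simp [ha]
    · simp

/-- If `Ξ P ≡ P` modulo `p²` and `DΞ(P)` is idempotent modulo `p²`, then `P` can not have
prime period under `Ξ`. -/
theorem no_prime_period {p : ℕ} (hp : p.Prime) (hp0 : (p : R) ≠ 0) (hpu : ¬ IsUnit (p : R))
    (h : IsTaylor Φ D) {P : Fin 2 → R} (hP : Cong ((p : R) ^ 2) P (Φ P))
    (hE : ∃ E', D P * D P = D P + ((p : R) ^ 2) • E')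
    {l : ℕ} (hl : l.Prime) (hPl : Φ^[l] P = P) : Φ P = P := by
  by_contra hne
  obtain ⟨g, hg⟩ := hP
  have hsub : Φ P - P ≠ 0 := sub_ne_zero.mpr hne
  obtain ⟨i, h0, hi0, hh0, hi1⟩ := exists_primitive (Φ P - P) hsub
  set μ := (Φ P - P) i with hμ
  have hμp : μ = (p : R) ^ 2 * g i := by
    rw [hμ, hg]; simp
  obtain ⟨E', hE'⟩ := hE
  set E := D P with hEdef
  have hΦP : Φ P = P + μ • h0 := by rw [← hh0]; abel
  -- the orbit
  have key : ∀ j : ℕ, ∃ c s : Fin 2 → R, Φ^[j+1] P = P + μ • c ∧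
      c = h0 + (j : R) • (E *ᵥ h0) + ((p : R) ^ 2) • s := by
    intro j
    induction j with
    | zero => exact ⟨h0, 0, by simpa using hΦP, by simp⟩
    | succ j ih =>
      obtain ⟨c, s, hc, hs⟩ := ih
      obtain ⟨e, he⟩ := h.taylor P c μ
      refine ⟨h0 + E *ᵥ c + μ • e, (j : R) • (E' *ᵥ h0) + E *ᵥ s + g i • e, ?_, ?_⟩
      · rw [Function.iterate_succ_apply', hc, he, hΦP]
        simp only [smul_add, smul_smul, pow_two]
        abel
      · rw [hs, Matrix.mulVec_add, Matrix.mulVec_add, Matrix.mulVec_smul, Matrix.mulVec_smul,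
          Matrix.mulVec_mulVec, hE', Matrix.add_mulVec, Matrix.smul_mulVec, hμp]
        push_cast
        ext t
        simp only [Pi.add_apply, Pi.smul_apply, smul_eq_mul]
        ring
  obtain ⟨c, s, hc, hs⟩ := key (l - 1)
  have hl1 : l - 1 + 1 = l := Nat.sub_add_cancel hl.one_le
  rw [hl1, hPl] at hc
  have hc0 : c = 0 := by
    have : μ • c = 0 := by
      have := hc
      exact (left_eq_add.mp this)
    rcases smul_eq_zero.mp this with h1 | h1
    · exact absurd h1 hi0
    · exact h1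
  rw [hc0] at hs
  -- hs : 0 = h0 + (l-1) • E h0 + p² s
  have hlc : ((l - 1 : ℕ) : R) = (l : R) - 1 := by
    rw [Nat.cast_sub hl.one_le]; simp
  rw [hlc] at hs
  -- apply `E`
  have hs2 : ∃ s2 : Fin 2 → R, (l : R) • (E *ᵥ h0) = ((p : R) ^ 2) • s2 := by
    have := congrArg (fun v => E *ᵥ v) hs
    simp only [Matrix.mulVec_add, Matrix.mulVec_smul, Matrix.mulVec_mulVec, hE',
      Matrix.add_mulVec, Matrix.smul_mulVec, Matrix.mulVec_zero] at this
    refine ⟨-(((l : R) - 1) • (E' *ᵥ h0)) - E *ᵥ s, ?_⟩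
    ext t
    have ht := congrFun this t
    simp only [Pi.add_apply, Pi.smul_apply, smul_eq_mul, Pi.zero_apply, Pi.sub_apply,
      Pi.neg_apply] at ht ⊢
    linear_combination -ht
  obtain ⟨s2, hs2⟩ := hs2
  by_cases hlp : l = p
  · subst hlp
    have hE0 : E *ᵥ h0 = (l : R) • s2 := by
      ext t
      have ht := congrFun hs2 t
      simp only [Pi.smul_apply, smul_eq_mul] at ht ⊢
      have : (l : R) * ((E *ᵥ h0) t - l * s2 t) = 0 := by linear_combination ht
      rcases mul_eq_zero.mp this with h1 | h1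
      · exact absurd h1 hp0
      · linear_combination h1
    apply hpu
    have hi := congrFun hs i
    rw [hE0] at hi
    simp only [Pi.add_apply, Pi.smul_apply, smul_eq_mul, Pi.zero_apply, hi1] at hi
    exact isUnit_iff_dvd_one.mpr ⟨-(((l : R) - 1) * s2 i) - l * s i, by linear_combination -hi⟩
  · -- `l` and `p²` are coprime
    have hcop : IsCoprime (l : R) ((p : R) ^ 2) := by
      have : IsCoprime (l : ℤ) (p : ℤ) := by
        rw [Nat.isCoprime_iff_coprime]
        exact (Nat.coprime_primes hl hp).mpr hlp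
      have := this.map (Int.castRingHom R)
      simp only [eq_intCast, Int.cast_natCast] at this
      exact this.pow_right
    obtain ⟨a, b, hab⟩ := hcop
    apply hpu
    have hi := congrFun hs i
    have hi2 := congrFun hs2 i
    simp only [Pi.add_apply, Pi.smul_apply, smul_eq_mul, Pi.zero_apply, hi1] at hi hi2
    -- 0 = 1 + (l-1) * x + p² s,  l x = p² s2, a l + b p² = 1
    refine isUnit_iff_dvd_one.mpr
      ⟨-(((l : R) - 1) * ((a * s2 i * p) + b * p * (E *ᵥ h0) i)) - p * s i, ?_⟩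
    linear_combination -hi + ((l : R) - 1) * (-a * hi2 + ((E *ᵥ h0) i) * hab)

omit [IsDomain R] [ValuationRing R] in
theorem iterD_cong {c : R} (h : IsTaylor Φ D) {P : Fin 2 → R} (hP : Cong c P (Φ P)) (n : ℕ) :
    (Ideal.Quotient.mk (Ideal.span {c})).mapMatrix (iterD Φ D n P) =
      ((Ideal.Quotient.mk (Ideal.span {c})).mapMatrix (D P)) ^ n := by
  induction n with
  | zero => simp [iterD]
  | succ n ih =>
    rw [iterD, map_mul, ih, pow_succ']
    congr 1
    obtain ⟨g, hg⟩ := h.cong_iterate hP n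
    obtain ⟨E, hE⟩ := h.cont P g c
    rw [hg, hE, map_add]
    have : (Ideal.Quotient.mk (Ideal.span {c})).mapMatrix (c • E) = 0 := by
      ext i j
      simp only [RingHom.mapMatrix_apply, Matrix.map_apply, Matrix.smul_apply, smul_eq_mul,
        map_mul, Matrix.zero_apply]
      rw [Ideal.Quotient.eq_zero_iff_mem.mpr (Ideal.mem_span_singleton_self c), zero_mul]
    rw [this, add_zero]

omit [IsDomain R] [ValuationRing R] in
theorem mapMatrix_eq_iff {c : R} {A B : Matrix (Fin 2) (Fin 2) R} :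
    (Ideal.Quotient.mk (Ideal.span {c})).mapMatrix A =
      (Ideal.Quotient.mk (Ideal.span {c})).mapMatrix B ↔ ∃ E, A = B + c • E := by
  constructor
  · intro H
    have : ∀ i j, ∃ a, A i j = B i j + c * a := by
      intro i j
      have := congrFun (congrFun H i) j
      simp only [RingHom.mapMatrix_apply, Matrix.map_apply] at this
      rw [Ideal.Quotient.mk_eq_mk_iff_sub_mem, Ideal.mem_span_singleton] at this
      obtain ⟨a, ha⟩ := this
      exact ⟨a, by linear_combination ha⟩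
    choose a ha using this
    exact ⟨Matrix.of a, by ext i j; simp [ha i j]⟩
  · rintro ⟨E, rfl⟩
    rw [map_add]
    have : (Ideal.Quotient.mk (Ideal.span {c})).mapMatrix (c • E) = 0 := by
      ext i j
      simp only [RingHom.mapMatrix_apply, Matrix.map_apply, Matrix.smul_apply, smul_eq_mul,
        map_mul, Matrix.zero_apply]
      rw [Ideal.Quotient.eq_zero_iff_mem.mpr (Ideal.mem_span_singleton_self c), zero_mul]
    rw [this, add_zero]

/-- **Uniform period bound.** -/
theorem iterate_bigM_eq {p : ℕ} (hp : p.Prime) (hp0 : (p : R) ≠ 0) (hpu : ¬ IsUnit (p : R))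
    [Finite (R ⧸ Ideal.span {(p : R) ^ 2})] {q : ℕ}
    (hq : Nat.card (R ⧸ Ideal.span {(p : R) ^ 2}) ≤ q) (h : IsTaylor Φ D) {P : Fin 2 → R} {n : ℕ}
    (hn : 0 < n) (hP : Φ^[n] P = P) : Φ^[bigM q] P = P := by
  classical
  obtain ⟨m, hm0, hmq, hmc⟩ := exists_small_period (c := (p : R) ^ 2) hq h hn hP
  -- step one : `Ψ = Φ^[(q^2)!]`
  set Ψ := Φ^[(q ^ 2).factorial] with hΨ
  have hΨP : Cong ((p : R) ^ 2) P (Ψ P) := by
    obtain ⟨k, hk⟩ := Nat.dvd_factorial hm0 hmq
    rw [hΨ, hk]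
    exact cong_mul h hmc k
  have hTΨ : IsTaylor Ψ (iterD Φ D (q ^ 2).factorial) := h.iterate _
  -- step two : `Θ = Ψ^[(q^4)!]`
  set Θ := Ψ^[(q ^ 4).factorial] with hΘ
  set DΨ := iterD Φ D (q ^ 2).factorial with hDΨ
  have hTΘ : IsTaylor Θ (iterD Ψ DΨ (q ^ 4).factorial) := hTΨ.iterate _
  have hΘP : Cong ((p : R) ^ 2) P (Θ P) := hTΨ.cong_iterate hΨP _
  set DΘ := iterD Ψ DΨ (q ^ 4).factorial with hDΘ
  have hfinmat : Finite (Matrix (Fin 2) (Fin 2) (R ⧸ Ideal.span {(p : R) ^ 2})) := by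
    unfold Matrix; infer_instance
  have hcard : Nat.card (Matrix (Fin 2) (Fin 2) (R ⧸ Ideal.span {(p : R) ^ 2})) ≤ q ^ 4 := by
    have := Fintype.ofFinite (R ⧸ Ideal.span {(p : R) ^ 2})
    unfold Matrix
    rw [Nat.card_eq_fintype_card, Fintype.card_fun, Fintype.card_fun, Fintype.card_fin,
      ← Nat.card_eq_fintype_card, ← pow_mul]
    exact Nat.pow_le_pow_left hq 4
  have hidem : (Ideal.Quotient.mk (Ideal.span {(p : R) ^ 2})).mapMatrix (DΘ P * DΘ P) =
      (Ideal.Quotient.mk (Ideal.span {(p : R) ^ 2})).mapMatrix (DΘ P) := by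
    rw [map_mul, hDΘ, iterD_cong hTΨ hΨP]
    exact idem_pow_factorial hcard _
  -- `P` is periodic for `Θ`
  have hbig : Φ^[bigM q] = Θ := by
    rw [hΘ, hΨ, ← Function.iterate_mul]; rfl
  rw [hbig]
  have hΘper : Θ^[n] P = P := by
    rw [← hbig, ← Function.iterate_mul, mul_comm, Function.iterate_mul]
    exact Function.iterate_fixed hP _
  -- minimal period
  by_contra hne
  have hper : P ∈ Function.periodicPts Θ := ⟨n, hn, hΘper⟩
  set n' := Function.minimalPeriod Θ P with hn'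
  have hn'pos : 0 < n' := Function.minimalPeriod_pos_of_mem_periodicPts hper
  have hn'1 : n' ≠ 1 := by
    intro h1
    exact hne (Function.minimalPeriod_eq_one_iff_isFixedPt.mp (hn'.symm.trans h1))
  obtain ⟨l, hl, hln⟩ := Nat.exists_prime_and_dvd hn'1
  obtain ⟨k, hk⟩ := hln
  have hk0 : 0 < k := by
    rcases Nat.eq_zero_or_pos k with h0 | h0
    · rw [h0, mul_zero] at hk; omega
    · exact h0
  have hkn : k < n' := by
    rw [hk]; exact lt_mul_of_one_lt_left hk0 hl.one_lt
  have hTΞ : IsTaylor (Θ^[k]) (iterD Θ DΘ k) := hTΘ.iterate k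
  have hΞP : Cong ((p : R) ^ 2) P (Θ^[k] P) := hTΘ.cong_iterate hΘP k
  have hΞl : (Θ^[k])^[l] P = P := by
    rw [← Function.iterate_mul, mul_comm, ← hk]
    exact Function.iterate_minimalPeriod
  have hEΞ : (Ideal.Quotient.mk (Ideal.span {(p : R) ^ 2})).mapMatrix
      (iterD Θ DΘ k P * iterD Θ DΘ k P) =
      (Ideal.Quotient.mk (Ideal.span {(p : R) ^ 2})).mapMatrix (iterD Θ DΘ k P) := by
    rw [map_mul, iterD_cong hTΘ hΘP]
    rw [map_mul] at hidem
    have hid : IsIdempotentElem ((Ideal.Quotient.mk (Ideal.span {(p : R) ^ 2})).mapMatrix (DΘ P)) :=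
      hidem
    exact (hid.pow k)
  have hfix : Θ^[k] P = P :=
    no_prime_period hp hp0 hpu hTΞ hΞP (mapMatrix_eq_iff.mp hEΞ) hl hΞl
  exact Function.not_isPeriodicPt_of_pos_of_lt_minimalPeriod hk0.ne' hkn hfix

end Main

end Pool.Agent.H.MP_0e6b5f_nt
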