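import Pool.Agent.H.MP_0e6b5f_nt.Count
import Pool.Agent.H.MP_0e6b5f_nt.Defs

/-!
# Real periodic points when `F` is monotone and `δ < 0`
-/

namespace Pool.Agent.H.MP_0e6b5f_nt

open Polynomial Function Module

/-- a periodic solution of a second order recursion which is increasing in both arguments and has
`2`-periodic coefficients is `2`-periodic -/
theorem two_periodic_of_monotone {y : ℕ → ℝ} {H : ℕ → ℝ → ℝ} {c : ℝ} (hc : 0 < c)
    (hH : ∀ k, Monotone (H k)) (hH2 : ∀ k, H (k + 2) = H k)
    (hrec : ∀ k, y (k + 2) = H k (y (k + 1)) + c * y k) {n : ℕ} (hn : 0 < n)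
    (hper : ∀ k, y (k + n) = y k) (k : ℕ) : y (k + 2) = y k := by
  set D : ℕ → ℝ := fun k => y (k + 2) - y k with hD
  have hDrec : ∀ k, D (k + 2) = (H k (y (k + 3)) - H k (y (k + 1))) + c * D k := by
    intro k
    simp only [hD]
    have h1 := hrec (k + 2)
    have h2 := hrec k
    rw [hH2] at h1
    have e1 : k + 2 + 2 = k + 4 := rfl
    have e2 : k + 2 + 1 = k + 3 := rfl
    rw [e2] at h1
    rw [h1]
    linarith
  have hDper : ∀ k, D (k + n) = D k := by
    intro k
    simp only [hD]
    have e : k + n + 2 = (k + 2) + n := by ring
    rw [e, hper, hper]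
  have hsum : ∀ k, ∑ j ∈ Finset.range n, D (k + j) = 0 := by
    intro k
    have h1 : ∀ m, ∑ j ∈ Finset.range m, D (k + j) =
        (y (k + m) + y (k + m + 1)) - (y k + y (k + 1)) := by
      intro m
      induction m with
      | zero => simp
      | succ m ih =>
        rw [Finset.sum_range_succ, ih]
        simp only [hD]
        have e1 : k + (m + 1) = k + m + 1 := rfl
        have e2 : k + (m + 1) + 1 = k + m + 2 := rfl
        rw [e1]
        have e3 : k + m + 1 + 1 = k + m + 2 := rfl
        rw [e3]
        ring
    rw [h1, hper]
    have e : k + n + 1 = (k + 1) + n := by ring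
    rw [e, hper]; ring
  -- all zero as soon as two consecutive differences have the same sign
  have hall : ∀ k, (∀ j, 0 ≤ D (k + j)) → ∀ j, D j = 0 := by
    intro k hk j
    have h0 : ∀ i < n, D (k + i) = 0 := by
      intro i hi
      have := (Finset.sum_eq_zero_iff_of_nonneg (fun j _ => hk j)).mp (hsum k)
      exact this i (Finset.mem_range.mpr hi)
    -- move `j` into the window
    have hmod : ∀ m, D (k + m) = D (k + m % n) := by
      intro m
      conv_lhs => rw [← Nat.mod_add_div m n]
      generalize m / n = q
      induction q with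
      | zero => simp
      | succ q ih =>
        have e : k + (m % n + n * (q + 1)) = k + (m % n + n * q) + n := by ring
        rw [e, hDper, ih]
    have hshift : ∀ q, D (j + n * q) = D j := by
      intro q
      induction q with
      | zero => simp
      | succ q ih =>
        have e : j + n * (q + 1) = (j + n * q) + n := by ring
        rw [e, hDper, ih]
    have hle : k ≤ j + n * k := by nlinarith
    obtain ⟨m, hm⟩ := Nat.exists_eq_add_of_le hle
    rw [← hshift k, hm, hmod]
    exact h0 _ (Nat.mod_lt _ hn)
  have hpos : ∀ k, 0 ≤ D k → 0 ≤ D (k + 1) → ∀ j, 0 ≤ D (k + j) := by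
    intro k h0 h1
    have : ∀ j, 0 ≤ D (k + j) ∧ 0 ≤ D (k + j + 1) := by
      intro j
      induction j with
      | zero => exact ⟨h0, h1⟩
      | succ j ih =>
        refine ⟨ih.2, ?_⟩
        have e : k + (j + 1) + 1 = (k + j) + 2 := by ring
        rw [e, hDrec]
        have hm : H (k + j) (y (k + j + 1)) ≤ H (k + j) (y (k + j + 3)) := by
          apply hH
          have := ih.2
          simp only [hD] at this
          have e2 : k + j + 1 + 2 = k + j + 3 := rfl
          rw [e2] at this
          linarith
        have := mul_nonneg hc.le ih.1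
        linarith
    exact fun j => (this j).1
  have hneg : ∀ k, D k ≤ 0 → D (k + 1) ≤ 0 → ∀ j, D (k + j) ≤ 0 := by
    intro k h0 h1
    have : ∀ j, D (k + j) ≤ 0 ∧ D (k + j + 1) ≤ 0 := by
      intro j
      induction j with
      | zero => exact ⟨h0, h1⟩
      | succ j ih =>
        refine ⟨ih.2, ?_⟩
        have e : k + (j + 1) + 1 = (k + j) + 2 := by ring
        rw [e, hDrec]
        have hm : H (k + j) (y (k + j + 3)) ≤ H (k + j) (y (k + j + 1)) := by
          apply hH
          have := ih.2
          simp only [hD] at this
          have e2 : k + j + 1 + 2 = k + j + 3 := rfl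
          rw [e2] at this
          linarith
        have := mul_nonpos_of_nonneg_of_nonpos hc.le ih.1
        linarith
    exact fun j => (this j).1
  have hallneg : ∀ k, (∀ j, D (k + j) ≤ 0) → ∀ j, D j = 0 := by
    intro k hk j
    have h0 : ∀ i < n, D (k + i) = 0 := by
      intro i hi
      have h2 : ∑ j ∈ Finset.range n, -D (k + j) = 0 := by
        rw [Finset.sum_neg_distrib, hsum, neg_zero]
      have := (Finset.sum_eq_zero_iff_of_nonneg (fun j _ => neg_nonneg.mpr (hk j))).mp h2
      have := this i (Finset.mem_range.mpr hi)
      linarith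
    have hmod : ∀ m, D (k + m) = D (k + m % n) := by
      intro m
      conv_lhs => rw [← Nat.mod_add_div m n]
      generalize m / n = q
      induction q with
      | zero => simp
      | succ q ih =>
        have e : k + (m % n + n * (q + 1)) = k + (m % n + n * q) + n := by ring
        rw [e, hDper, ih]
    have hshift : ∀ q, D (j + n * q) = D j := by
      intro q
      induction q with
      | zero => simp
      | succ q ih =>
        have e : j + n * (q + 1) = (j + n * q) + n := by ring
        rw [e, hDper, ih]
    have hle : k ≤ j + n * k := by nlinarith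
    obtain ⟨m, hm⟩ := Nat.exists_eq_add_of_le hle
    rw [← hshift k, hm, hmod]
    exact h0 _ (Nat.mod_lt _ hn)
  have hzero : ∀ j, D j = 0 := by
    by_cases hex1 : ∃ k, 0 ≤ D k ∧ 0 ≤ D (k + 1)
    · obtain ⟨k, h0, h1⟩ := hex1
      exact hall k (hpos k h0 h1)
    by_cases hex2 : ∃ k, D k ≤ 0 ∧ D (k + 1) ≤ 0
    · obtain ⟨k, h0, h1⟩ := hex2
      exact hallneg k (hneg k h0 h1)
    exfalso
    push Not at hex1 hex2
    -- signs alternate strictly
    rcases le_or_gt 0 (D 0) with h0 | h0
    · -- D (2j) > 0 for all j
      have halt : ∀ j, 0 ≤ D (2 * j) := by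
        intro j
        induction j with
        | zero => simpa using h0
        | succ j ih =>
          have h1 := hex1 (2 * j) ih
          by_contra h2
          push Not at h2
          have h3 := hex2 (2 * j + 1) h1.le
          have e : 2 * (j + 1) = 2 * j + 1 + 1 := by ring
          rw [e] at h2
          linarith
      have hstrict : ∀ j, 0 < D (2 * j) := by
        intro j
        rcases (halt j).lt_or_eq with h | h
        · exact h
        · exfalso
          have h1 := hex2 (2 * j) h.symm.le
          have h2 := hex1 (2 * j) (halt j)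
          linarith
      have hmono : ∀ j, y 0 ≤ y (2 * j) ∧ (0 < j → y 0 < y (2 * j)) := by
        intro j
        induction j with
        | zero => simp
        | succ j ih =>
          have h1 := hstrict j
          simp only [hD] at h1
          have e : 2 * (j + 1) = 2 * j + 2 := by ring
          rw [e]
          constructor
          · linarith [ih.1]
          · intro _; linarith [ih.1]
      have h1 := (hmono n).2 hn
      have h2 : y (2 * n) = y 0 := by
        have e : 2 * n = (0 + n) + n := by ring
        rw [e, hper, hper]
      linarith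
    · -- D (2j) < 0 for all j
      have halt : ∀ j, D (2 * j) ≤ 0 := by
        intro j
        induction j with
        | zero => simpa using h0.le
        | succ j ih =>
          have h1 := hex2 (2 * j) ih
          by_contra h2
          push Not at h2
          have h3 := hex1 (2 * j + 1) h1.le
          have e : 2 * (j + 1) = 2 * j + 1 + 1 := by ring
          rw [e] at h2
          linarith
      have hstrict : ∀ j, D (2 * j) < 0 := by
        intro j
        rcases (halt j).lt_or_eq with h | h
        · exact h
        · exfalso
          have h1 := hex2 (2 * j) (halt j)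
          have h2 := hex1 (2 * j) h.symm.le
          linarith
      have hmono : ∀ j, y (2 * j) ≤ y 0 ∧ (0 < j → y (2 * j) < y 0) := by
        intro j
        induction j with
        | zero => simp
        | succ j ih =>
          have h1 := hstrict j
          simp only [hD] at h1
          have e : 2 * (j + 1) = 2 * j + 2 := by ring
          rw [e]
          constructor
          · linarith [ih.1]
          · intro _; linarith [ih.1]
      have h1 := (hmono n).2 hn
      have h2 : y (2 * n) = y 0 := by
        have e : 2 * n = (0 + n) + n := by ring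
        rw [e, hper, hper]
      linarith
  have := hzero k
  simp only [hD] at this
  linarith

/-- real periodic points have period at most two if `δ < 0` and `F` is monotone or antitone -/
theorem real_period_two {F : ℝ[X]} {δ : ℝ} (hδ : δ < 0)
    (hF : Monotone (fun t => F.eval t) ∨ Antitone (fun t => F.eval t)) {P : ℝ × ℝ} {n : ℕ}
    (hn : 0 < n) (hP : (hm F δ)^[n] P = P) : (hm F δ)^[2] P = P := by
  set x : ℕ → ℝ := fun k => ((hm F δ)^[k] P).1 with hx
  have hxP : ∀ k, (hm F δ)^[k] P = (x k, x (k + 1)) := fun k => hm_seq F δ P k
  have hrec : ∀ k, x (k + 2) = F.eval (x (k + 1)) + (-δ) * x k := by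
    intro k
    have := hm_rec F δ P k
    simp only [hx]
    rw [this]; ring
  have hper : ∀ k, x (k + n) = x k := fun k => by
    simp only [hx]; rw [hm_periodic hP]
  have hmain : ∀ k, x (k + 2) = x k := by
    rcases hF with hF | hF
    · exact two_periodic_of_monotone (y := x) (H := fun _ t => F.eval t) (c := -δ) (by linarith)
        (fun _ => hF) (fun _ => rfl) hrec hn hper
    · -- alternate signs
      have h2 := two_periodic_of_monotone (y := fun k => (-1) ^ k * x k)
        (H := fun k t => (-1) ^ k * F.eval ((-1) ^ (k + 1) * t)) (c := -δ) (by linarith) ?_ ?_ ?_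
        (n := 2 * n) (by omega) ?_
      · intro k
        have := h2 k
        have e1 : (-1 : ℝ) ^ (k + 2) = (-1) ^ k := by rw [pow_add]; norm_num
        rw [e1] at this
        exact mul_left_cancel₀ (pow_ne_zero _ (by norm_num)) this
      · intro k s t hst
        rcases Nat.even_or_odd k with hk | hk
        · have h1 : (-1 : ℝ) ^ k = 1 := hk.neg_one_pow
          have h2 : (-1 : ℝ) ^ (k + 1) = -1 := (hk.add_one).neg_one_pow
          rw [h1, h2]
          simp only [one_mul, neg_one_mul]
          exact hF (by linarith)
        · have h1 : (-1 : ℝ) ^ k = -1 := hk.neg_one_pow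
          have h2 : (-1 : ℝ) ^ (k + 1) = 1 := (hk.add_one).neg_one_pow
          rw [h1, h2]
          simp only [one_mul, neg_one_mul, neg_le_neg_iff]
          exact hF hst
      · intro k
        funext t
        have e1 : (-1 : ℝ) ^ (k + 2) = (-1) ^ k := by rw [pow_add]; norm_num
        have e2 : (-1 : ℝ) ^ (k + 2 + 1) = (-1) ^ (k + 1) := by
          rw [show k + 2 + 1 = (k + 1) + 2 by ring, pow_add]; norm_num
        rw [e1, e2]
      · intro k
        have e1 : (-1 : ℝ) ^ (k + 2) = (-1) ^ k := by rw [pow_add]; norm_num
        have e2 : (-1 : ℝ) ^ (k + 1) * ((-1) ^ (k + 1) * x (k + 1)) = x (k + 1) := by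
          rw [← mul_assoc, ← pow_add, ← two_mul, pow_mul]; norm_num
        rw [e1, e2, hrec]; ring
      · intro k
        have e1 : (-1 : ℝ) ^ (k + 2 * n) = (-1) ^ k := by
          rw [pow_add, pow_mul]; norm_num
        have e2 : k + 2 * n = (k + n) + n := by ring
        rw [e1, e2, hper, hper]
  have h0 := hxP 0
  have h2 := hxP 2
  simp only [iterate_zero, id_eq, zero_add] at h0
  rw [h2]
  conv_rhs => rw [h0]
  rw [hmain 1]
  have := hmain 0
  rw [zero_add] at this
  rw [this]

/-- a monic real polynomial of odd degree has a real root -/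
theorem exists_real_root {f : ℝ[X]} (hf : f.Monic) (hodd : Odd f.natDegree) :
    ∃ r : ℝ, f.eval r = 0 := by
  have hpos : 0 < f.natDegree := hodd.pos
  have hdeg : 0 < f.degree := natDegree_pos_iff_degree_pos.mp hpos
  have h1 : Filter.Tendsto (fun x => eval x f) Filter.atTop Filter.atTop :=
    tendsto_atTop_of_leadingCoeff_nonneg f hdeg (by rw [hf.leadingCoeff]; exact zero_le_one)
  set g : ℝ[X] := f.comp (-X) with hg
  have hgn : g.natDegree = f.natDegree := by
    rw [hg, natDegree_comp, natDegree_neg, natDegree_X, mul_one]
  have hgl : g.leadingCoeff = -1 := by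
    rw [hg, leadingCoeff_comp (by rw [natDegree_neg, natDegree_X]; exact one_ne_zero),
      hf.leadingCoeff, one_mul, leadingCoeff_neg, leadingCoeff_X, hodd.neg_one_pow]
  have h2 : Filter.Tendsto (fun x => eval x g) Filter.atTop Filter.atBot :=
    tendsto_atBot_of_leadingCoeff_nonpos g (natDegree_pos_iff_degree_pos.mp (by rw [hgn]; exact hpos))
      (by rw [hgl]; norm_num)
  obtain ⟨a, ha⟩ := (h1.eventually_ge_atTop 0).exists
  obtain ⟨b, hb⟩ := (h2.eventually_le_atBot 0).exists
  have hb' : f.eval (-b) ≤ 0 := by
    have : g.eval b = f.eval (-b) := by simp [hg]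
    rwa [← this]
  obtain ⟨r, hr⟩ := mem_range_of_exists_le_of_exists_ge f.continuous
    ⟨-b, hb'⟩ ⟨a, ha⟩
  exact ⟨r, hr⟩

/-- an ordered embedding extends to an extension of odd degree -/
theorem exists_extension_of_odd {K L : Type*} [Field K] [Field L] [Algebra K L]
    (σ : K →+* ℝ) (hodd : Odd (finrank K L)) :
    ∃ τ : L →+* ℝ, τ.comp (algebraMap K L) = σ := by
  have hcz : CharZero K := ⟨fun a b h => by
    have h1 := congrArg σ h
    rw [map_natCast, map_natCast] at h1
    exact_mod_cast h1⟩
  have hfd : FiniteDimensional K L := FiniteDimensional.of_finrank_pos hodd.pos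
  letI : Algebra K ℝ := σ.toAlgebra
  set pb := Field.powerBasisOfFiniteOfSeparable K L
  have hmon : (minpoly K pb.gen).Monic := minpoly.monic (Algebra.IsIntegral.isIntegral _)
  have hnd : (minpoly K pb.gen).natDegree = finrank K L := by
    rw [pb.natDegree_minpoly, pb.finrank]
  obtain ⟨r, hr⟩ := exists_real_root (f := (minpoly K pb.gen).map σ) (hmon.map σ)
    (by rw [natDegree_map, hnd]; exact hodd)
  have hr' : aeval r (minpoly K pb.gen) = 0 := by
    rw [aeval_def, ← eval_map]; exact hr
  refine ⟨(pb.lift r hr').toRingHom, ?_⟩
  exact (pb.lift r hr').comp_algebraMap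

end Pool.Agent.H.MP_0e6b5f_nt
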