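import Pool.Agent.H.MP_0e6b5f_nt.RealMono

namespace Pool.Agent.H.MP_0e6b5f_nt

open Polynomial Function Module

theorem two_periodic_of_strong {y : ℕ → ℝ} {H : ℕ → ℝ → ℝ} {r : ℝ} (hr : 0 < r)
    (hH : ∀ k, Monotone (fun t => H k t - 2 * r * t)) (hH2 : ∀ k, H (k + 2) = H k)
    (hrec : ∀ k, y (k + 2) = H k (y (k + 1)) - r ^ 2 * y k) {n : ℕ} (hn : 0 < n)
    (hper : ∀ k, y (k + n) = y k) (k : ℕ) : y (k + 2) = y k := by
  set D : ℕ → ℝ := fun k => y (k + 2) - y k with hD
  have hDrec : ∀ k, D (k + 2) = (H k (y (k + 3)) - H k (y (k + 1))) - r ^ 2 * D k := by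
    intro k
    simp only [hD]
    have h1 := hrec (k + 2)
    have h2 := hrec k
    rw [hH2] at h1
    have e2 : k + 2 + 1 = k + 3 := rfl
    rw [e2] at h1
    rw [h1]
    linarith
  have hDper : ∀ k, D (k + n) = D k := by
    intro k
    simp only [hD]
    have e : k + n + 2 = (k + 2) + n := by ring
    rw [e, hper, hper]
  have hsum : ∀ k, ∑ j ∈ Finset.range n, D (k + j) = 0 := by
    intro k
    have h1 : ∀ m, ∑ j ∈ Finset.range m, D (k + j) =
        (y (k + m) + y (k + m + 1)) - (y k + y (k + 1)) := by
      intro m
      induction m with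
      | zero => simp
      | succ m ih =>
        rw [Finset.sum_range_succ, ih]
        simp only [hD]
        have e1 : k + (m + 1) = k + m + 1 := rfl
        rw [e1]
        have e3 : k + m + 1 + 1 = k + m + 2 := rfl
        rw [e3]
        ring
    rw [h1, hper]
    have e : k + n + 1 = (k + 1) + n := by ring
    rw [e, hper]; ring
  have hstep : ∀ m, 0 < D (m + 1) → 0 < D (m + 1) - r * D m →
      0 < D (m + 2) ∧ 0 < D (m + 2) - r * D (m + 1) := by
    intro m h1 h2
    have h3 : 2 * r * D (m + 1) ≤ H m (y (m + 3)) - H m (y (m + 1)) := by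
      have h4 : y (m + 1) ≤ y (m + 3) := by
        have : D (m + 1) = y (m + 3) - y (m + 1) := rfl
        linarith
      have h5 := hH m h4
      simp only at h5
      have : D (m + 1) = y (m + 3) - y (m + 1) := rfl
      rw [this]
      linarith
    have h4 := hDrec m
    have h5 : 0 < r * (D (m + 1) - r * D m) := mul_pos hr h2
    have h6 : 0 < D (m + 2) - r * D (m + 1) := by
      rw [h4]; nlinarith
    have h7 : 0 < r * D (m + 1) := mul_pos hr h1
    exact ⟨by linarith, h6⟩
  -- no upward sign change
  have hno : ∀ k, D k ≤ 0 → D (k + 1) ≤ 0 := by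
    intro k hk
    by_contra hcon
    push Not at hcon
    have hall : ∀ j, 0 < D (k + 1 + j) ∧ 0 < D (k + 1 + j) - r * D (k + j) := by
      intro j
      induction j with
      | zero =>
        refine ⟨hcon, ?_⟩
        have : r * D k ≤ 0 := mul_nonpos_of_nonneg_of_nonpos hr.le hk
        simp only [add_zero]
        linarith
      | succ j ih =>
        have e1 : k + 1 + j = (k + j) + 1 := by ring
        rw [e1] at ih
        have := hstep (k + j) ih.1 ih.2
        have e2 : k + 1 + (j + 1) = (k + j) + 2 := by ring
        have e3 : k + (j + 1) = (k + j) + 1 := by ring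
        rw [e2, e3]; exact this
    have : 0 < ∑ j ∈ Finset.range n, D (k + 1 + j) :=
      Finset.sum_pos (fun j _ => (hall j).1) ⟨0, Finset.mem_range.mpr hn⟩
    rw [hsum] at this
    exact lt_irrefl _ this
  have hshift : ∀ j q, D (j + n * q) = D j := by
    intro j q
    induction q with
    | zero => simp
    | succ q ih =>
      have e : j + n * (q + 1) = (j + n * q) + n := by ring
      rw [e, hDper, ih]
  -- all nonpositive as soon as one is
  have hallnp : ∀ k, D k ≤ 0 → ∀ j, D j ≤ 0 := by
    intro k hk j
    have h1 : ∀ i, D (k + i) ≤ 0 := by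
      intro i
      induction i with
      | zero => exact hk
      | succ i ih => exact hno _ ih
    have hle : k ≤ j + n * k := by nlinarith
    obtain ⟨m, hm⟩ := Nat.exists_eq_add_of_le hle
    rw [← hshift j k, hm]
    exact h1 m
  have hzero : D k = 0 := by
    by_cases hex : ∃ i, D i ≤ 0
    · obtain ⟨i, hi⟩ := hex
      have h1 := hallnp i hi
      have h2 : ∑ j ∈ Finset.range n, -D (k + j) = 0 := by
        rw [Finset.sum_neg_distrib, hsum, neg_zero]
      have h3 := (Finset.sum_eq_zero_iff_of_nonneg (fun j _ => neg_nonneg.mpr (h1 (k + j)))).mp h2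
      have := h3 0 (Finset.mem_range.mpr hn)
      rw [add_zero] at this
      linarith
    · push Not at hex
      have : 0 < ∑ j ∈ Finset.range n, D (k + j) :=
        Finset.sum_pos (fun j _ => hex _) ⟨0, Finset.mem_range.mpr hn⟩
      rw [hsum] at this
      exact absurd this (lt_irrefl _)
  simp only [hD] at hzero
  linarith

/-- the alternating sign twist -/
theorem real_period_two_strong {F : ℝ[X]} {r : ℝ} (hr : 0 < r)
    (hF : Monotone (fun t => F.eval t - 2 * r * t) ∨ Antitone (fun t => F.eval t + 2 * r * t))
    {P : ℝ × ℝ} {n : ℕ}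
    (hn : 0 < n) (hP : (hm F (r ^ 2))^[n] P = P) : (hm F (r ^ 2))^[2] P = P := by
  set δ : ℝ := r ^ 2 with hδ
  set x : ℕ → ℝ := fun k => ((hm F δ)^[k] P).1 with hx
  have hxP : ∀ k, (hm F δ)^[k] P = (x k, x (k + 1)) := fun k => hm_seq F δ P k
  have hrec : ∀ k, x (k + 2) = F.eval (x (k + 1)) - r ^ 2 * x k := by
    intro k
    have := hm_rec F δ P k
    simp only [hx]
    rw [this]
  have hper : ∀ k, x (k + n) = x k := fun k => by
    simp only [hx]; rw [hm_periodic hP]
  have hmain : ∀ k, x (k + 2) = x k := by
    rcases hF with hF | hF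
    · exact two_periodic_of_strong (y := x) (H := fun _ t => F.eval t) hr
        (fun _ => hF) (fun _ => rfl) hrec hn hper
    · -- alternate signs
      have h2 := two_periodic_of_strong (y := fun k => (-1) ^ k * x k)
        (H := fun k t => (-1) ^ k * F.eval ((-1) ^ (k + 1) * t)) hr ?_ ?_ ?_
        (n := 2 * n) (by omega) ?_
      · intro k
        have := h2 k
        have e1 : (-1 : ℝ) ^ (k + 2) = (-1) ^ k := by rw [pow_add]; norm_num
        rw [e1] at this
        exact mul_left_cancel₀ (pow_ne_zero _ (by norm_num)) this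
      · intro k s t hst
        rcases Nat.even_or_odd k with hk | hk
        · have h1 : (-1 : ℝ) ^ k = 1 := hk.neg_one_pow
          have h2 : (-1 : ℝ) ^ (k + 1) = -1 := (hk.add_one).neg_one_pow
          simp only [h1, h2, one_mul, neg_one_mul]
          have := hF (show -t ≤ -s by linarith)
          simp only at this
          linarith
        · have h1 : (-1 : ℝ) ^ k = -1 := hk.neg_one_pow
          have h2 : (-1 : ℝ) ^ (k + 1) = 1 := (hk.add_one).neg_one_pow
          simp only [h1, h2, one_mul, neg_one_mul]
          have := hF hst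
          simp only at this
          linarith
      · intro k
        funext t
        have e1 : (-1 : ℝ) ^ (k + 2) = (-1) ^ k := by rw [pow_add]; norm_num
        have e2 : (-1 : ℝ) ^ (k + 2 + 1) = (-1) ^ (k + 1) := by
          rw [show k + 2 + 1 = (k + 1) + 2 by ring, pow_add]; norm_num
        rw [e1, e2]
      · intro k
        have e1 : (-1 : ℝ) ^ (k + 2) = (-1) ^ k := by rw [pow_add]; norm_num
        have e2 : (-1 : ℝ) ^ (k + 1) * ((-1) ^ (k + 1) * x (k + 1)) = x (k + 1) := by
          rw [← mul_assoc, ← pow_add, ← two_mul, pow_mul]; norm_num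
        rw [e1, e2, hrec]; ring
      · intro k
        have e1 : (-1 : ℝ) ^ (k + 2 * n) = (-1) ^ k := by
          rw [pow_add, pow_mul]; norm_num
        have e2 : k + 2 * n = (k + n) + n := by ring
        rw [e1, e2, hper, hper]
  have h0 := hxP 0
  have h2 := hxP 2
  simp only [iterate_zero, id_eq, zero_add] at h0
  rw [h2]
  conv_rhs => rw [h0]
  rw [hmain 1]
  have := hmain 0
  rw [zero_add] at this
  rw [this]

/-- real periodic points have period at most two if `F'` has no sign change and
`F' ^ 2 ≥ 4 δ` everywhere. -/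
theorem real_period_two_disc {F : ℝ[X]} {δ : ℝ} (hδ : δ ≠ 0)
    (hsign : (∀ t, 0 ≤ F.derivative.eval t) ∨ (∀ t, F.derivative.eval t ≤ 0))
    (hdisc : ∀ t, 4 * δ ≤ (F.derivative.eval t) ^ 2)
    {P : ℝ × ℝ} {n : ℕ} (hn : 0 < n) (hP : (hm F δ)^[n] P = P) : (hm F δ)^[2] P = P := by
  rcases lt_or_gt_of_ne hδ with h | h
  · refine real_period_two h ?_ hn hP
    rcases hsign with hs | hs
    · left
      exact monotone_of_deriv_nonneg F.differentiable (fun t => by rw [Polynomial.deriv]; exact hs t)
    · right
      exact antitone_of_deriv_nonpos F.differentiable (fun t => by rw [Polynomial.deriv]; exact hs t)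
  · set r := √δ with hr
    have hr0 : 0 < r := Real.sqrt_pos.mpr h
    have hr2 : δ = r ^ 2 := (Real.sq_sqrt h.le).symm
    rw [hr2] at hP ⊢
    refine real_period_two_strong hr0 ?_ hn hP
    rcases hsign with hs | hs
    · left
      have hd : Differentiable ℝ (fun t => F.eval t - 2 * r * t) :=
        F.differentiable.sub (differentiable_id.const_mul _)
      refine monotone_of_deriv_nonneg hd (fun t => ?_)
      have : deriv (fun t => F.eval t - 2 * r * t) t = F.derivative.eval t - 2 * r := by
        have h1 : HasDerivAt (fun t => F.eval t - 2 * r * t) (F.derivative.eval t - 2 * r * 1) t :=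
          (F.hasDerivAt t).sub ((hasDerivAt_id t).const_mul (2 * r))
        rw [h1.deriv, mul_one]
      rw [this]
      have h1 := hdisc t
      have h2 := hs t
      nlinarith
    · right
      have hd : Differentiable ℝ (fun t => F.eval t + 2 * r * t) :=
        F.differentiable.add (differentiable_id.const_mul _)
      refine antitone_of_deriv_nonpos hd (fun t => ?_)
      have : deriv (fun t => F.eval t + 2 * r * t) t = F.derivative.eval t + 2 * r := by
        have h1 : HasDerivAt (fun t => F.eval t + 2 * r * t) (F.derivative.eval t + 2 * r * 1) t :=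
          (F.hasDerivAt t).add ((hasDerivAt_id t).const_mul (2 * r))
        rw [h1.deriv, mul_one]
      rw [this]
      have h1 := hdisc t
      have h2 := hs t
      nlinarith

end Pool.Agent.H.MP_0e6b5f_nt
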