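import Pool.Agent.H.MP_0e6b5f_nt.Dickson
import Pool.Agent.H.MP_0e6b5f_nt.DefsSchur
import Pool.Agent.H.MP_0e6b5f_nt.Primes

/-!
# Compositions of affine, power and Dickson polynomials
-/

namespace Pool.Agent.H.MP_0e6b5f_nt

open Polynomial Function Module

section DicksonMono

variable {L : Type*} [Field L] {Γ₀ : Type*} [LinearOrderedCommGroupWithZero Γ₀]

/-- the square of a valuation -/
noncomputable def sqVal (v : Valuation L Γ₀) : Valuation L Γ₀ :=
  v.map (powMonoidWithZeroHom (two_ne_zero)) (fun _ _ h => pow_le_pow_left₀ zero_le h 2)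

theorem sqVal_apply (v : Valuation L Γ₀) (x : L) : sqVal v x = v x ^ 2 := rfl

theorem GN_dk (v : Valuation L Γ₀) {h x α : L} {σ : Γ₀} (hh : v h ^ 2 ≤ σ) (hx : v x ^ 2 ≤ σ)
    (hα : v α ≤ σ) : ∀ n, GN (sqVal v) (dk (C h * X + C x) (C α) n) (σ ^ n)
  | 0 => by
    rw [dk, pow_zero]
    have : (2 : L[X]) = C 2 := rfl
    rw [this]
    apply GN.C
    rw [sqVal_apply]
    exact pow_le_one' (by exact_mod_cast val_natCast_le_one v 2) 2
  | 1 => by
    rw [dk, pow_one]
    apply GN.add
    · have := (GN.C (v := sqVal v) (a := h) (γ := σ) hh).mul GN.X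
      rwa [mul_one] at this
    · exact GN.C hx
  | n + 2 => by
    have h1 := GN_dk v hh hx hα n
    have h2 := GN_dk v hh hx hα (n + 1)
    rw [dk]
    apply GN.sub
    · have hlin : GN (sqVal v) (C h * X + C x : L[X]) σ := by
        apply GN.add
        · have := (GN.C (v := sqVal v) (a := h) (γ := σ) hh).mul GN.X
          rwa [mul_one] at this
        · exact GN.C hx
      have := hlin.mul h2
      rw [← pow_succ'] at this
      exact this
    · have hCα : GN (sqVal v) (C α : L[X]) (σ ^ 2) :=
        GN.C (by rw [sqVal_apply]; exact pow_le_pow_left₀ zero_le hα 2)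
      have := hCα.mul h1
      rw [← pow_add] at this
      rwa [add_comm 2 n] at this

theorem GN_qk (v : Valuation L Γ₀) {h x α : L} {σ : Γ₀} (hh : v h ^ 2 ≤ σ) (hx : v x ^ 2 ≤ σ)
    (hα : v α ≤ σ) : ∀ n, GN (sqVal v) (qk (C h * X + C x) (C x) (C α) (n + 1)) (σ ^ n)
  | 0 => by simpa [qk] using GN.one
  | 1 => by
    have e : qk (C h * X + C x) (C x) (C α) (1 + 1) = (C h * X + C x) + C x := by
      simp [qk, dk]
    rw [e, pow_one]
    apply GN.add
    · apply GN.add
      · have := (GN.C (v := sqVal v) (a := h) (γ := σ) hh).mul GN.X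
        rwa [mul_one] at this
      · exact GN.C hx
    · exact GN.C hx
  | n + 2 => by
    have h1 := GN_qk v hh hx hα n
    have h2 := GN_qk v hh hx hα (n + 1)
    have e : qk (C h * X + C x) (C x) (C α) (n + 2 + 1) = dk (C h * X + C x) (C α) (n + 2) +
      C x * qk (C h * X + C x) (C x) (C α) (n + 1 + 1) -
      C α * qk (C h * X + C x) (C x) (C α) (n + 1) := rfl
    rw [e]
    apply GN.sub
    · apply GN.add (GN_dk v hh hx hα (n + 2))
      have hCx : GN (sqVal v) (C x : L[X]) σ := GN.C hx
      have := hCx.mul h2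
      rw [← pow_succ'] at this
      exact this
    · have hCα : GN (sqVal v) (C α : L[X]) (σ ^ 2) :=
        GN.C (by rw [sqVal_apply]; exact pow_le_pow_left₀ zero_le hα 2)
      have := hCα.mul h1
      rw [← pow_add] at this
      rwa [add_comm 2 n] at this

theorem comp_dickson (f : L[X]) (α : L) : ∀ n, (dickson 1 α n).comp f = dk f (C α) n
  | 0 => by simp [dk]; norm_num
  | 1 => by simp [dk]
  | n + 2 => by
    rw [dickson_add_two, dk, ← comp_dickson f α n, ← comp_dickson f α (n + 1)]
    simp

/-- Dickson polynomials are strictly monotone once the difference quotient has maximal size -/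
theorem SMono.dickson (v : Valuation L Γ₀) (α : L) {d : ℕ} (hd : 0 < d)
    (hq : ∀ x y : L, v (qk x y α d) ^ 2 = (max ((max (v x) (v y)) ^ 2) (v α)) ^ (d - 1)) :
    SMono v (dickson 1 α d) := by
  intro x h
  obtain ⟨e, rfl⟩ : ∃ e, d = e + 1 := ⟨d - 1, by omega⟩
  rw [Nat.add_sub_cancel] at hq
  have hmax : max (v (h + x)) (v x) = max (v h) (v x) := by
    apply le_antisymm
    · exact max_le (v.map_add _ _) (le_max_right _ _)
    · refine max_le ?_ (le_max_right _ _)
      have : h = (h + x) - x := by ring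
      conv_lhs => rw [this]
      exact v.map_sub _ _
  rw [eval_dickson, eval_dickson, dk_sub_dk, add_sub_cancel_right, map_mul, comp_dickson]
  have e1 : (C (dk x α (e + 1)) : L[X]) = dk (C x) (C α) (e + 1) := map_dk C x α (e + 1)
  rw [e1, dk_sub_dk, add_sub_cancel_right]
  have hlin : GN v (C h * X : L[X]) (v h) := by
    have := (GN.C (v := v) (a := h) le_rfl).mul GN.X
    rwa [mul_one] at this
  apply hlin.mul
  set σ := max ((max (v h) (v x)) ^ 2) (v α) with hσ
  have hqv := hq (h + x) x
  rw [hmax, ← hσ] at hqv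
  have hh : v h ^ 2 ≤ σ := le_trans (pow_le_pow_left₀ zero_le (le_max_left _ _) 2)
    (le_max_left _ _)
  have hx : v x ^ 2 ≤ σ := le_trans (pow_le_pow_left₀ zero_le (le_max_right _ _) 2)
    (le_max_left _ _)
  have hα : v α ≤ σ := le_max_right _ _
  intro i
  have h1 := GN_qk v hh hx hα e i
  rw [sqVal_apply, ← hqv] at h1
  exact (pow_le_pow_iff_left₀ zero_le zero_le two_ne_zero).mp h1

end DicksonMono

section Class

theorem natDegree_dickson {K : Type*} [Field K] (α : K) :
    ∀ m, 0 < m → (Polynomial.dickson 1 α m).Monic ∧ (Polynomial.dickson 1 α m).natDegree = m := by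
  intro m
  induction m using Nat.twoStepInduction with
  | zero => intro h; omega
  | one => intro _; simp [monic_X]
  | more n ih1 ih2 =>
    intro _
    obtain ⟨hm2, hd2⟩ := ih2 (by omega)
    have hlt : (C α * Polynomial.dickson 1 α n : K[X]).degree <
        (X * Polynomial.dickson 1 α (n + 1)).degree := by
      have h1 : (X * Polynomial.dickson 1 α (n + 1) : K[X]).degree = (n + 2 : ℕ) := by
        rw [degree_mul, degree_X, degree_eq_natDegree hm2.ne_zero, hd2]
        push_cast; ring
      rw [h1]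
      rcases Nat.eq_zero_or_pos n with h0 | h0
      · subst h0
        have e : (C α * Polynomial.dickson 1 α 0 : K[X]) = C (α * 2) := by
          rw [dickson_zero, C_mul]; norm_num
          left; rfl
        rw [e]
        exact lt_of_le_of_lt degree_C_le (by exact_mod_cast Nat.succ_pos _)
      · obtain ⟨hm1, hd1⟩ := ih1 h0
        calc (C α * Polynomial.dickson 1 α n : K[X]).degree
            ≤ (C α : K[X]).degree + (Polynomial.dickson 1 α n).degree := degree_mul_le _ _
          _ ≤ 0 + (n : ℕ) := by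
              gcongr
              · exact degree_C_le
              · rw [degree_eq_natDegree hm1.ne_zero, hd1]
          _ < (n + 2 : ℕ) := by
              rw [zero_add]; exact_mod_cast (by omega : n < n + 2)
    have hmX : (X * Polynomial.dickson 1 α (n + 1) : K[X]).Monic := monic_X.mul hm2
    rw [dickson_add_two]
    refine ⟨hmX.sub_of_left hlt, ?_⟩
    rw [natDegree_sub_eq_left_of_natDegree_lt]
    · rw [natDegree_X_mul hm2.ne_zero, hd2]
    · by_cases h0 : (C α * Polynomial.dickson 1 α n : K[X]) = 0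
      · rw [h0, natDegree_zero, natDegree_X_mul hm2.ne_zero]; omega
      · exact natDegree_lt_natDegree h0 hlt

/-- Polynomials in the class are ultrametrically monotone over every field of degree at most `N`
at every place above a prime `p` that is a primitive root modulo all prime factors of the
degree. -/
theorem SchurType.smono {K : Type*} [Field K] {N : ℕ} {F : K[X]} (hF : SchurType K N F)
    {L : Type*} [Field L] [Algebra K L] [CharZero L] [Algebra ℚ L] [FiniteDimensional ℚ L]
    (hN : finrank ℚ L ≤ N) {Γ₀ : Type*} [LinearOrderedCommGroupWithZero Γ₀]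
    (v : Valuation L Γ₀) {p : ℕ} (hp : p.Prime) (hpv : v (p : L) < 1)
    (hprim : ∀ l : ℕ, l.Prime → l ∣ F.natDegree →
      ¬ p ∣ l ∧ ∀ f, 1 ≤ f → l ∣ p ^ f - 1 → (l - 1) ∣ f) :
    SMono v (F.map (algebraMap K L)) := by
  induction hF with
  | affine a b ha =>
    have e : (C a * X + C b : K[X]).map (algebraMap K L) =
        C (algebraMap K L a) * X + C (algebraMap K L b) := by simp
    rw [e]
    exact SMono.affine _ _
  | power m hm h =>
    rw [natDegree_X_pow] at hprim
    have e : (X ^ m : K[X]).map (algebraMap K L) = X ^ m := by simp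
    rw [e]
    apply SMono.pow hm
    intro x x' hx
    refine pow_sub_pow_valuation v hp hpv hm ?_ ?_ x x' hx
    · intro hpm
      exact (hprim p hp hpm).1 dvd_rfl
    · intro f hf1 hfN
      rw [Nat.coprime_iff_gcd_eq_one]
      by_contra hne
      obtain ⟨l, hlp, hldvd⟩ := Nat.exists_prime_and_dvd hne
      have hlm : l ∣ m := hldvd.trans (Nat.gcd_dvd_left _ _)
      have hlp' : l ∣ p ^ f - 1 := hldvd.trans (Nat.gcd_dvd_right _ _)
      have h1 := (hprim l hlp hlm).2 f hf1 hlp'
      have h2 := Nat.le_of_dvd (by omega) h1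
      have h3 := h l hlp hlm
      omega
  | dickson m α hm h =>
    rw [(natDegree_dickson α m hm).2] at hprim
    rw [map_dickson]
    apply SMono.dickson v _ hm
    intro x y
    refine qk_val v hp hpv hm ?_ ?_ x y _
    · intro hpm
      exact (hprim p hp hpm).1 dvd_rfl
    · intro f hf1 hfN
      rw [Nat.coprime_iff_gcd_eq_one]
      by_contra hne
      obtain ⟨l, hlp, hldvd⟩ := Nat.exists_prime_and_dvd hne
      have hlm : l ∣ m := hldvd.trans (Nat.gcd_dvd_left _ _)
      have hlp' : l ∣ (p ^ f) ^ 2 - 1 := hldvd.trans (Nat.gcd_dvd_right _ _)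
      rw [← pow_mul] at hlp'
      have h1 := (hprim l hlp hlm).2 (f * 2) (by omega) hlp'
      have h2 := Nat.le_of_dvd (by omega) h1
      have h3 := h l hlp hlm
      omega
  | comp F G hF hG ihF ihG =>
    rw [Polynomial.map_comp]
    rw [natDegree_comp] at hprim
    exact (ihF fun l hl hd => hprim l hl (hd.mul_right _)).comp
      (ihG fun l hl hd => hprim l hl (hd.mul_left _))

end Class

section GoodPrime

/-- arbitrarily large primes that are primitive roots modulo every prime factor of `d` -/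
theorem exists_primitive_prime {d : ℕ} (hd : 0 < d) (M : ℕ) :
    ∃ p, M < p ∧ p.Prime ∧ ∀ l : ℕ, l.Prime → l ∣ d →
      ¬ p ∣ l ∧ ∀ f, 1 ≤ f → l ∣ p ^ f - 1 → (l - 1) ∣ f := by
  classical
  have hex : ∀ l : ℕ, ∃ g : ℕ, l.Prime →
      (g : ZMod l) ≠ 0 ∧ ∀ f : ℕ, ((g : ZMod l)) ^ f = 1 → (l - 1) ∣ f := by
    intro l
    by_cases h : l.Prime
    · have : Fact l.Prime := ⟨h⟩
      obtain ⟨g, hg⟩ := exists_primitive_root l
      exact ⟨g, fun _ => hg⟩
    · exact ⟨0, fun h' => absurd h' h⟩
  choose g hg using hex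
  obtain ⟨a, ha⟩ := Nat.chineseRemainderOfFinset g (fun l => l) d.primeFactors
    (fun i hi => (Nat.prime_of_mem_primeFactors hi).ne_zero)
    (by
      intro i hi j hj hij
      exact (Nat.coprime_primes (Nat.prime_of_mem_primeFactors hi)
        (Nat.prime_of_mem_primeFactors hj)).mpr hij)
  set R := ∏ l ∈ d.primeFactors, l with hR
  have hR0 : R ≠ 0 := Finset.prod_ne_zero_iff.mpr
    fun l hl => (Nat.prime_of_mem_primeFactors hl).ne_zero
  have : NeZero R := ⟨hR0⟩
  have hcop : Nat.Coprime a R := by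
    rw [hR]
    apply Nat.Coprime.prod_right
    intro l hlmem
    have hlp := Nat.prime_of_mem_primeFactors hlmem
    rw [Nat.coprime_comm, hlp.coprime_iff_not_dvd]
    intro hdiv
    have h1 : ((g l : ℕ) : ZMod l) = (a : ℕ) :=
      ((ZMod.natCast_eq_natCast_iff _ _ _).mpr (ha l hlmem)).symm
    have h2 : ((a : ℕ) : ZMod l) = 0 := (ZMod.natCast_eq_zero_iff _ _).mpr hdiv
    rw [h2] at h1
    exact (hg l hlp).1 h1
  have hunit : IsUnit ((a : ℕ) : ZMod R) := (ZMod.isUnit_iff_coprime a R).mpr hcop
  obtain ⟨p, hpM, hp, hpa⟩ := Nat.forall_exists_prime_gt_and_eq_mod hunit (max M d)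
  refine ⟨p, lt_of_le_of_lt (le_max_left _ _) hpM, hp, ?_⟩
  intro l hlp hld
  have hmem : l ∈ d.primeFactors := Nat.mem_primeFactors.mpr ⟨hlp, hld, hd.ne'⟩
  constructor
  · intro h
    have h1 := Nat.le_of_dvd hlp.pos h
    have h2 : d < p := lt_of_le_of_lt (le_max_right _ _) hpM
    have h3 := Nat.le_of_dvd hd hld
    omega
  · intro f hf1 hlp'
    have h1 : ((p : ℕ) : ZMod l) = (g l : ℕ) := by
      have hlR : l ∣ R := Finset.dvd_prod_of_mem _ hmem
      have h2 : p ≡ a [MOD R] := (ZMod.natCast_eq_natCast_iff _ _ _).mp hpa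
      have h3 : p ≡ a [MOD l] := h2.of_dvd hlR
      have h4 : a ≡ g l [MOD l] := ha l hmem
      exact (ZMod.natCast_eq_natCast_iff _ _ _).mpr (h3.trans h4)
    have h2 : ((g l : ℕ) : ZMod l) ^ f = 1 := by
      rw [← h1]
      have hpf : 1 ≤ p ^ f := Nat.one_le_pow _ _ hp.pos
      have h3 : ((p ^ f - 1 : ℕ) : ZMod l) = 0 := (ZMod.natCast_eq_zero_iff _ _).mpr hlp'
      rw [Nat.cast_sub hpf, Nat.cast_one, Nat.cast_pow] at h3
      exact sub_eq_zero.mp h3
    exact (hg l hlp).2 f h2

end GoodPrime

end Pool.Agent.H.MP_0e6b5f_nt
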